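import Mathlib

/-!
# Marked surfaces with full arc systems, and their boundary path categories

A finitary marked surface `(S, M)` with a full arc system `A` is recorded by the polygons
(disks) of `S \ A`: every polygon `D` has `n D + 3` sides `side D 0, side D 1, ...`, in clockwise
order, which are arcs of `A`; two polygons are glued (reversing orientation) along their common
arcs.  The *corner* `(D, i)` of `D` lies between `side D i` and `side D (i + 1)`; it is a piece of
a marked interval, and marked intervals are obtained by gluing corners: at the arc
`side D (i + 1) = side D' j` the corner `(D, i)` is glued to the corner `(D', j)`.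
-/

open CategoryTheory

namespace Pool.Agent.NG

/-- A gluing pattern of polygons: a marked surface with a full arc system such that every disk has
a boundary arc; see the comments on the fields. -/
structure Gluing where
  /-- the arcs of the full arc system `A` -/
  Arc : Type
  /-- the disks of `S \ A` -/
  Disk : Type
  [finArc : Fintype Arc]
  [finDisk : Fintype Disk]
  [decArc : DecidableEq Arc]
  [decDisk : DecidableEq Disk]
  /-- the disk `D` is a polygon with `n D + 3` sides -/
  n : Disk → ℕ
  /-- the sides of the disk `D`, in clockwise order -/
  side : (D : Disk) → Fin (n D + 3) → Arc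
  /-- every arc is a side of a disk -/
  side_surj : ∀ a, ∃ D i, side D i = a
  /-- a disk is not glued to itself -/
  side_inj : ∀ D, Function.Injective (side D)
  /-- an arc is a side of at most two disks -/
  two : ∀ D D' D'' i i' i'', side D i = side D' i' → side D i = side D'' i'' →
    D = D' ∨ D = D'' ∨ D' = D''
  /-- `side D 0` is a boundary arc -/
  bdry : ∀ D D' i, side D' i = side D 0 → D' = D

attribute [instance] Gluing.finArc Gluing.finDisk Gluing.decArc Gluing.decDisk

namespace Gluing

variable (S : Gluing)

/-- The corners of the disks: `⟨D, i⟩` lies between `side D i` and `side D (i + 1)`. -/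
abbrev Corner : Type := Σ D : S.Disk, Fin (S.n D + 3)

/-- The arc before a corner. -/
def src (c : S.Corner) : S.Arc := S.side c.1 c.2

/-- The arc after a corner. -/
def tgt (c : S.Corner) : S.Arc := S.side c.1 (c.2 + 1)

/-- The corner `c'` follows the corner `c` on a marked interval: the two corners lie in
different disks which are glued along the arc between the two corners. -/
def Cross (c c' : S.Corner) : Prop := c.1 ≠ c'.1 ∧ S.tgt c = S.src c'

/-- The marked intervals. -/
def Marked : Type := Quot S.Cross

/-- The marked interval of a corner. -/
def marked (c : S.Corner) : S.Marked := Quot.mk _ c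

/-- The arcs `a` and `b` are consecutive on the marked interval `p`. -/
def Step (p : S.Marked) (a b : S.Arc) : Prop := ∃ c, S.marked c = p ∧ S.src c = a ∧ S.tgt c = b

/-- The arc `a` comes before the arc `b` on the marked interval `p`: there is a boundary path from
`a` to `b` along `p`, that is a sequence of corners on `p`. -/
def Before (p : S.Marked) (a b : S.Arc) : Prop := Relation.TransGen (S.Step p) a b

/-- Every boundary component carries a marked *interval* (no marked circles). -/
def NoCircle : Prop := ∀ c, ¬ Relation.TransGen S.Cross c c

/-- Enough marked intervals: `π₀(M_k) → π₀(M)` is injective for every disk. -/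
def Enough : Prop := ∀ D, Function.Injective fun i => S.marked ⟨D, i⟩

end Gluing

/-- A finitary marked surface with a full arc system such that every disk has a boundary arc, with
enough marked intervals. -/
structure ArcSystem extends Gluing where
  /-- every boundary component carries a marked interval (no marked circles) -/
  noCircle : toGluing.NoCircle
  /-- enough marked intervals -/
  enough : toGluing.Enough

/-- The objects of the boundary path category of an arc system (over the field `k`): the arcs
different from the distinguished boundary arcs `side D 0` of the disks. -/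
structure BP (S : Gluing) (k : Type) where
  /-- the arc -/
  arc : S.Arc
  kept : ∀ D, S.side D 0 ≠ arc

namespace BP

variable {S : Gluing} {k : Type} [Field k]

variable (S k) in
/-- The linear combinations of the identity (coordinate `none`, present only if `a = b`) and of
the boundary paths from `a` to `b` (coordinate `some p` for the path along the marked interval
`p`, present only if `a` comes before `b` on `p`). -/
def homSub (a b : S.Arc) : Submodule k (Option S.Marked → k) where
  carrier := {f | (f none ≠ 0 → a = b) ∧ ∀ p, f (some p) ≠ 0 → S.Before p a b}
  add_mem' := by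
    rintro f g ⟨hf, hf'⟩ ⟨hg, hg'⟩
    refine ⟨fun h => ?_, fun p h => ?_⟩
    · by_cases h1 : f none = 0
      · exact hg (by simpa [h1] using h)
      · exact hf h1
    · by_cases h1 : f (some p) = 0
      · exact hg' p (by simpa [h1] using h)
      · exact hf' p h1
  zero_mem' := ⟨fun h => absurd rfl h, fun _ h => absurd rfl h⟩
  smul_mem' := by
    rintro c f ⟨hf, hf'⟩
    refine ⟨fun h => hf (right_ne_zero_of_mul h), fun p h => hf' p (right_ne_zero_of_mul h)⟩

/-- Composition: boundary paths along the same marked interval are concatenated, the product of
boundary paths along different marked intervals is zero. -/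
def compFun (f g : Option S.Marked → k) : Option S.Marked → k
  | none => f none * g none
  | some p => f none * g (some p) + f (some p) * g none + f (some p) * g (some p)

theorem compFun_mem {a b c : S.Arc} {f g : Option S.Marked → k} (hf : f ∈ homSub S k a b)
    (hg : g ∈ homSub S k b c) : compFun f g ∈ homSub S k a c := by
  obtain ⟨hf, hf'⟩ := hf
  obtain ⟨hg, hg'⟩ := hg
  refine ⟨fun h => ?_, fun p h => ?_⟩
  · have h1 : f none * g none ≠ 0 := h
    exact (hf (left_ne_zero_of_mul h1)).trans (hg (right_ne_zero_of_mul h1))
  · have h1 : f none * g (some p) + f (some p) * g none + f (some p) * g (some p) ≠ 0 := h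
    by_cases h2 : f (some p) = 0
    · have h3 : f none * g (some p) ≠ 0 := by simpa [h2] using h1
      rw [hf (left_ne_zero_of_mul h3)]
      exact hg' p (right_ne_zero_of_mul h3)
    · by_cases h4 : g (some p) = 0
      · have h3 : f (some p) * g none ≠ 0 := by simpa [h4] using h1
        rw [← hg (right_ne_zero_of_mul h3)]
        exact hf' p h2
      · exact (hf' p h2).trans (hg' p h4)

/-- The morphisms. -/
abbrev HomT (a b : BP S k) : Type := homSub S k a.arc b.arc

/-- The identity of the arc `a`. -/
def idT (a : BP S k) : HomT a a := ⟨fun o => o.elim 1 fun _ => 0, fun _ => rfl, fun _ h => absurd rfl h⟩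

/-- The composition. -/
def compT {a b c : BP S k} (f : HomT a b) (g : HomT b c) : HomT a c :=
  ⟨compFun f.1 g.1, compFun_mem f.2 g.2⟩

theorem idT_compT {a b : BP S k} (f : HomT a b) : compT (idT a) f = f :=
  Subtype.ext <| funext fun o => by cases o <;> simp [compFun, compT, idT]

theorem compT_idT {a b : BP S k} (f : HomT a b) : compT f (idT b) = f :=
  Subtype.ext <| funext fun o => by cases o <;> simp [compFun, compT, idT]

theorem compT_assoc {a b c d : BP S k} (f : HomT a b) (g : HomT b c) (h : HomT c d) :
    compT (compT f g) h = compT f (compT g h) :=
  Subtype.ext <| funext fun o => by cases o <;> simp only [compFun, compT] <;> ring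

theorem add_compT {a b c : BP S k} (f g : HomT a b) (h : HomT b c) :
    compT (f + g) h = compT f h + compT g h :=
  Subtype.ext <| funext fun o => by
    cases o <;> simp only [compFun, compT, Submodule.coe_add, Pi.add_apply] <;> ring

theorem compT_add {a b c : BP S k} (f : HomT a b) (g h : HomT b c) :
    compT f (g + h) = compT f g + compT f h :=
  Subtype.ext <| funext fun o => by
    cases o <;> simp only [compFun, compT, Submodule.coe_add, Pi.add_apply] <;> ring

instance : Category.{0} (BP S k) where
  Hom := HomT
  id := idT
  comp := compT
  id_comp := idT_compT
  comp_id := compT_idT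
  assoc := compT_assoc

instance (a b : BP S k) : AddCommGroup (a ⟶ b) := Submodule.addCommGroup (homSub S k a.arc b.arc)

theorem add_val {a b : BP S k} (f g : a ⟶ b) (o) : (f + g).1 o = f.1 o + g.1 o := rfl
theorem zero_val {a b : BP S k} (o) : (0 : a ⟶ b).1 o = 0 := rfl
theorem neg_val {a b : BP S k} (f : a ⟶ b) (o) : (-f).1 o = -f.1 o := rfl
theorem id_none (a : BP S k) : (𝟙 a : a ⟶ a).1 none = 1 := rfl
theorem id_some (a : BP S k) (p) : (𝟙 a : a ⟶ a).1 (some p) = 0 := rfl
theorem comp_none {a b c : BP S k} (f : a ⟶ b) (g : b ⟶ c) :
    (f ≫ g).1 none = f.1 none * g.1 none := rfl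
theorem comp_some {a b c : BP S k} (f : a ⟶ b) (g : b ⟶ c) (p) :
    (f ≫ g).1 (some p) =
      f.1 none * g.1 (some p) + f.1 (some p) * g.1 none + f.1 (some p) * g.1 (some p) := rfl

theorem hom_ext {a b : BP S k} {f g : a ⟶ b} (h : ∀ o, f.1 o = g.1 o) : f = g :=
  Subtype.ext <| funext h

instance : Preadditive (BP S k) where
  homGroup _ _ := inferInstance
  add_comp _ _ _ := add_compT
  comp_add _ _ _ := compT_add

/-- The boundary path of the corner `c`, as a morphism from the arc before the corner to the arc
after it (both assumed to be kept). -/
noncomputable def corner (a b : BP S k) (c : S.Corner) (ha : S.src c = a.arc)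
    (hb : S.tgt c = b.arc) : a ⟶ b := by
  classical
  exact ⟨fun o => o.elim 0 fun p => if p = S.marked c then 1 else 0, fun h => absurd rfl h,
    fun p h => by
      have h1 : p = S.marked c := by
        by_contra h2
        exact h (if_neg h2)
      exact Relation.TransGen.single ⟨c, h1.symm, ha, hb⟩⟩

end BP

end Pool.Agent.NG
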