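import Mathlib

/-!
# Toën's derived Hall algebra of a finitary triangulated category: definitions

`C` is a pretriangulated category (shift `X⟦n⟧`, distinguished triangles `distTriang C`).
* `hn X Y n = |Hom(X, Y[n])|`;
* `neg X Y = ∏_{i > 0} |Hom(X, Y[-i])| ^ ((-1) ^ i)`;
* `eul X Y = ∏_{i ∈ ℤ} |Hom(X, Y[i])| ^ ((-1) ^ i)`, that is `q ^ ⟨X, Y⟩` with
  `⟨X, Y⟩ = ∑ (-1)^i dim Hom(X, Y[i])` the Euler form, if `C` is linear over the field with
  `q` elements;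
* `coneSet X Y Z` = the set of all morphisms `X ⟶ Z` whose cone is isomorphic to `Y`;
* `toen X Y Z` = Toën's structure constant
  `|Hom(X,Z)_Y| / |Aut X| * ∏_{i > 0} (|Hom(X, Z[-i])| / |Hom(X, X[-i])|) ^ ((-1) ^ i)`.
-/

open CategoryTheory CategoryTheory.Limits CategoryTheory.Pretriangulated

namespace Pool.Agent.NG

universe v u w

variable {C : Type u} [Category.{v} C] [Preadditive C] [HasZeroObject C] [HasShift C ℤ]
  [∀ n : ℤ, (shiftFunctor C n).Additive] [Pretriangulated C]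

/-- `|Hom(X, Y[n])|`, as a rational number. -/
noncomputable def hn (X Y : C) (n : ℤ) : ℚ := (Nat.card (X ⟶ Y⟦n⟧) : ℚ)

/-- `x ^ ((-1) ^ n)`. -/
noncomputable def alt (n : ℤ) (x : ℚ) : ℚ := if Even n then x else x⁻¹

/-- `∏_{i > 0} |Hom(X, Y[-i])| ^ ((-1) ^ i)` (the product index `i : ℕ` stands for `i + 1`). -/
noncomputable def neg (X Y : C) : ℚ :=
  ∏ᶠ i : ℕ, alt ((i : ℤ) + 1) (hn X Y (-((i : ℤ) + 1)))

/-- `q ^ ⟨X, Y⟩ = ∏_{i ∈ ℤ} |Hom(X, Y[i])| ^ ((-1) ^ i)`. -/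
noncomputable def eul (X Y : C) : ℚ := ∏ᶠ i : ℤ, alt i (hn X Y i)

/-- The set `Hom(X, Z)_Y` of all morphisms from `X` to `Z` with cone isomorphic to `Y`. -/
def coneSet (X Y Z : C) : Set (X ⟶ Z) :=
  {f | ∃ (g : Z ⟶ Y) (h : Y ⟶ X⟦(1 : ℤ)⟧), Triangle.mk f g h ∈ distTriang C}

/-- Toën's structure constant. -/
noncomputable def toen (X Y Z : C) : ℚ :=
  (Nat.card (coneSet X Y Z) : ℚ) / (Nat.card (Aut X) : ℚ) * (neg X Z / neg X X)

/-- The set of all morphisms `L ⟶ N` with fibre (shifted cone) isomorphic to `X`. -/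
def fibSet (L N X : C) : Set (L ⟶ N) :=
  {f | ∃ (i : X ⟶ L) (c : N ⟶ X⟦(1 : ℤ)⟧), Triangle.mk i f c ∈ distTriang C}

variable (C) in
/-- `C` is finitary: all groups `Hom(X, Y)` are finite, and for any `X` and `Y` only finitely
many of the groups `Hom(X, Y[n])` are nonzero. -/
class Finitary : Prop where
  finite_hom : ∀ X Y : C, Finite (X ⟶ Y)
  bounded : ∀ X Y : C, ∃ N : ℕ, ∀ n : ℤ, (N : ℤ) ≤ |n| → ∀ f : X ⟶ Y⟦n⟧, f = 0

variable (C) in
/-- The isomorphism classes of objects of `C`. -/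
abbrev Cls : Type u := Quotient (isIsomorphicSetoid C)

/-- The isomorphism class of an object. -/
def cls (X : C) : Cls C := Quotient.mk _ X

end Pool.Agent.NG
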