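import Mathlib
import Pool.Agent.NG.TDefs

/-!
# Basic properties of `hn`, `neg`, `eul`, `toen`, I
-/

open CategoryTheory CategoryTheory.Limits CategoryTheory.Pretriangulated

namespace Pool.Agent.NG

universe v u w

theorem alt_mul (n : ℤ) (x y : ℚ) : alt n (x * y) = alt n x * alt n y := by
  unfold alt
  split_ifs
  · rfl
  · exact mul_inv x y

theorem alt_one (n : ℤ) : alt n 1 = 1 := by
  unfold alt
  split_ifs <;> simp

theorem alt_succ (n : ℤ) (x : ℚ) : alt (n + 1) x = (alt n x)⁻¹ := by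
  unfold alt
  by_cases h : Even n
  · rw [if_pos h, if_neg (by rw [Int.even_add_one]; exact not_not.mpr h)]
  · rw [if_neg h, if_pos (by rw [Int.even_add_one]; exact h), inv_inv]

theorem alt_add (m n : ℤ) (x : ℚ) : alt (m + n) x = alt m (alt n x) := by
  unfold alt
  by_cases h : Even m
  · by_cases h' : Even n
    · rw [if_pos h, if_pos h', if_pos (h.add h')]
    · rw [if_pos h, if_neg h', if_neg (by rw [Int.even_add]; tauto)]
  · by_cases h' : Even n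
    · rw [if_neg h, if_pos h', if_neg (by rw [Int.even_add]; tauto)]
    · rw [if_neg h, if_neg h', inv_inv, if_pos (by rw [Int.even_add]; tauto)]

theorem alt_pos (n : ℤ) {x : ℚ} (h : 0 < x) : 0 < alt n x := by
  unfold alt
  split_ifs
  · exact h
  · exact inv_pos.mpr h

variable {C : Type u} [Category.{v} C] [Preadditive C] [HasZeroObject C] [HasShift C ℤ]
  [∀ n : ℤ, (shiftFunctor C n).Additive] [Pretriangulated C]

theorem hn_zero (X Y : C) : hn X Y 0 = (Nat.card (X ⟶ Y) : ℚ) := by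
  unfold hn
  rw [Nat.card_congr ((Iso.refl X).homCongr ((shiftFunctorZero C ℤ).app Y))]
  rfl

theorem hn_congr {X X' Y Y' : C} (e : X ≅ X') (f : Y ≅ Y') (n : ℤ) : hn X Y n = hn X' Y' n := by
  unfold hn
  rw [Nat.card_congr (e.homCongr ((shiftFunctor C n).mapIso f))]

theorem hn_shift_left (X Y : C) (a n : ℤ) : hn (X⟦a⟧) Y n = hn X Y (n - a) := by
  unfold hn
  have e1 : (X ⟶ Y⟦n - a⟧) ≃ (X⟦a⟧ ⟶ (Y⟦n - a⟧)⟦a⟧) :=
    (Functor.FullyFaithful.ofFullyFaithful (shiftFunctor C a)).homEquiv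
  have e2 : (X⟦a⟧ ⟶ Y⟦n⟧) ≃ (X⟦a⟧ ⟶ (Y⟦n - a⟧)⟦a⟧) :=
    (Iso.refl _).homCongr ((shiftFunctorAdd' C (n - a) a n (by ring)).app Y)
  rw [Nat.card_congr e1, Nat.card_congr e2]

theorem hn_neg_one (X Y : C) : hn X Y (-1) = (Nat.card (X⟦(1 : ℤ)⟧ ⟶ Y) : ℚ) := by
  rw [← hn_zero, hn_shift_left]
  norm_num

theorem hn_shift_right (X Y : C) (a n : ℤ) : hn X (Y⟦a⟧) n = hn X Y (a + n) := by
  unfold hn
  have e : (X ⟶ Y⟦a + n⟧) ≃ (X ⟶ (Y⟦a⟧)⟦n⟧) :=
    (Iso.refl _).homCongr ((shiftFunctorAdd C a n).app Y)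
  rw [Nat.card_congr e]

/-- morphisms to a biproduct -/
noncomputable def homBiprodRight (X Y Z : C) : (X ⟶ Y ⊞ Z) ≃ (X ⟶ Y) × (X ⟶ Z) where
  toFun f := (f ≫ biprod.fst, f ≫ biprod.snd)
  invFun p := biprod.lift p.1 p.2
  left_inv f := by
    apply biprod.hom_ext <;> simp
  right_inv p := by
    ext <;> simp

/-- morphisms from a biproduct -/
noncomputable def homBiprodLeft (X Y Z : C) : (X ⊞ Y ⟶ Z) ≃ (X ⟶ Z) × (Y ⟶ Z) where
  toFun f := (biprod.inl ≫ f, biprod.inr ≫ f)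
  invFun p := biprod.desc p.1 p.2
  left_inv f := by
    apply biprod.hom_ext' <;> simp
  right_inv p := by
    ext <;> simp

theorem hn_biprod_right (X Y Z : C) (n : ℤ) : hn X (Y ⊞ Z) n = hn X Y n * hn X Z n := by
  unfold hn
  have hp : PreservesBinaryBiproducts (shiftFunctor C n) :=
    preservesBinaryBiproducts_of_preservesBiproducts _
  have e : (X ⟶ (Y ⊞ Z)⟦n⟧) ≃ (X ⟶ Y⟦n⟧) × (X ⟶ Z⟦n⟧) :=
    ((Iso.refl _).homCongr ((shiftFunctor C n).mapBiprod Y Z)).trans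
      (homBiprodRight X (Y⟦n⟧) (Z⟦n⟧))
  rw [Nat.card_congr e, Nat.card_prod]
  push_cast
  rfl

theorem hn_biprod_left (X Y Z : C) (n : ℤ) : hn (X ⊞ Y) Z n = hn X Z n * hn Y Z n := by
  unfold hn
  rw [Nat.card_congr (homBiprodLeft X Y (Z⟦n⟧)), Nat.card_prod]
  push_cast
  rfl

theorem neg_congr {X X' Y Y' : C} (e : X ≅ X') (f : Y ≅ Y') : neg X Y = neg X' Y' := by
  unfold neg
  exact finprod_congr fun i => by rw [hn_congr e f]

theorem eul_congr {X X' Y Y' : C} (e : X ≅ X') (f : Y ≅ Y') : eul X Y = eul X' Y' := by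
  unfold eul
  exact finprod_congr fun i => by rw [hn_congr e f]

theorem coneSet_congr {X X' Y Y' Z Z' : C} (e : X ≅ X') (f : Y ≅ Y') (g : Z ≅ Z')
    {a : X ⟶ Z} (ha : a ∈ coneSet X Y Z) : e.inv ≫ a ≫ g.hom ∈ coneSet X' Y' Z' := by
  obtain ⟨b, c, h⟩ := ha
  refine ⟨g.inv ≫ b ≫ f.hom, f.inv ≫ c ≫ e.hom⟦(1 : ℤ)⟧', ?_⟩
  refine isomorphic_distinguished _ h _ ?_
  refine Triangle.isoMk _ _ e.symm g.symm f.symm ?_ ?_ ?_
  · change (e.inv ≫ a ≫ g.hom) ≫ g.inv = e.inv ≫ a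
    simp
  · change (g.inv ≫ b ≫ f.hom) ≫ f.inv = g.inv ≫ b
    simp
  · change (f.inv ≫ c ≫ e.hom⟦(1 : ℤ)⟧') ≫ e.inv⟦(1 : ℤ)⟧' = f.inv ≫ c
    rw [Category.assoc, Category.assoc, ← Functor.map_comp, e.hom_inv_id, CategoryTheory.Functor.map_id,
      Category.comp_id]

theorem toen_congr {X X' Y Y' Z Z' : C} (e : X ≅ X') (f : Y ≅ Y') (g : Z ≅ Z') :
    toen X Y Z = toen X' Y' Z' := by
  have h1 : Nat.card (coneSet X Y Z) = Nat.card (coneSet X' Y' Z') := by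
    refine Nat.card_congr ⟨fun a => ⟨e.inv ≫ a.1 ≫ g.hom, coneSet_congr e f g a.2⟩,
      fun a => ⟨e.hom ≫ a.1 ≫ g.inv, coneSet_congr e.symm f.symm g.symm a.2⟩, ?_, ?_⟩
    · intro a
      apply Subtype.ext
      simp
    · intro a
      apply Subtype.ext
      simp
  have h2 : Nat.card (Aut X) = Nat.card (Aut X') := Nat.card_congr e.conjAut.toEquiv
  unfold toen
  rw [h1, h2, neg_congr e g, neg_congr e e]

end Pool.Agent.NG
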