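import Mathlib
import Pool.Agent.NG.TBasicA

/-!
# Basic properties of `hn`, `neg`, `eul`, `toen`, II
-/

open CategoryTheory CategoryTheory.Limits CategoryTheory.Pretriangulated

namespace Pool.Agent.NG

universe v u w

variable {C : Type u} [Category.{v} C] [Preadditive C] [HasZeroObject C] [HasShift C ℤ]
  [∀ n : ℤ, (shiftFunctor C n).Additive] [Pretriangulated C]

variable [Finitary C]

instance (X Y : C) : Finite (X ⟶ Y) := Finitary.finite_hom X Y

theorem hn_pos (X Y : C) (n : ℤ) : 0 < hn X Y n := by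
  have : 0 < Nat.card (X ⟶ Y⟦n⟧) := Nat.card_pos
  unfold hn
  exact_mod_cast this

theorem hn_eq_one (X Y : C) : ∃ N : ℕ, ∀ n : ℤ, (N : ℤ) ≤ |n| → hn X Y n = 1 := by
  obtain ⟨N, hN⟩ := Finitary.bounded X Y
  refine ⟨N, fun n hn' => ?_⟩
  have h1 : Nat.card (X ⟶ Y⟦n⟧) = 1 := by
    rw [Nat.card_eq_one_iff_unique]
    exact ⟨⟨fun f g => by rw [hN n hn' f, hN n hn' g]⟩, ⟨0⟩⟩
  unfold hn
  rw [h1, Nat.cast_one]

theorem neg_pos (X Y : C) : 0 < neg X Y := by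
  unfold neg
  exact finprod_induction (fun x : ℚ => 0 < x) one_pos (fun _ _ => mul_pos)
    (fun i => alt_pos _ (hn_pos _ _ _))

theorem eul_pos (X Y : C) : 0 < eul X Y := by
  unfold eul
  exact finprod_induction (fun x : ℚ => 0 < x) one_pos (fun _ _ => mul_pos)
    (fun i => alt_pos _ (hn_pos _ _ _))

private theorem tbasic_neg_prod (X Y : C) : ∃ N : ℕ, ∀ M : ℕ, N ≤ M →
    neg X Y = ∏ i ∈ Finset.range M, alt ((i : ℤ) + 1) (hn X Y (-((i : ℤ) + 1))) := by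
  obtain ⟨N, hN⟩ := hn_eq_one X Y
  refine ⟨N, fun M hM => ?_⟩
  unfold neg
  apply finprod_eq_prod_of_mulSupport_subset
  intro i hi
  rw [Function.mem_mulSupport] at hi
  rw [Finset.coe_range, Set.mem_Iio]
  by_contra h
  apply hi
  rw [hN, alt_one]
  rw [abs_neg, abs_of_nonneg (by omega)]
  omega

private theorem tbasic_alt_neg (n : ℤ) (x : ℚ) : alt (-n) x = alt n x := by
  unfold alt
  by_cases h : Even n
  · rw [if_pos h, if_pos h.neg]
  · rw [if_neg h, if_neg (fun h2 => h (by simpa using h2.neg))]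

private theorem tbasic_alt_finprod {ι : Type*} (n : ℤ) (F : ι → ℚ) :
    ∏ᶠ i, alt n (F i) = alt n (∏ᶠ i, F i) := by
  unfold alt
  by_cases h : Even n
  · simp only [if_pos h]
  · simp only [if_neg h]
    exact finprod_inv_distrib F

private theorem tbasic_neg_shift (X Y : C) : neg X (Y⟦(-1 : ℤ)⟧) =
    ∏ᶠ i : ℕ, alt ((i : ℤ) + 1) (hn X Y (-1 + -((i : ℤ) + 1))) := by
  unfold neg
  simp only [hn_shift_right]

/-- `{X, Y} = (|Hom(X, Y[-1])| {X, Y[-1]})⁻¹`. -/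
theorem neg_rec (X Y : C) : neg X Y * (hn X Y (-1) * neg X (Y⟦(-1 : ℤ)⟧)) = 1 := by
  obtain ⟨N1, h1⟩ := tbasic_neg_prod X Y
  obtain ⟨N2, h2⟩ := tbasic_neg_prod X (Y⟦(-1 : ℤ)⟧)
  rw [h1 (max N1 N2 + 1) (by omega), h2 (max N1 N2) (by omega), Finset.prod_range_succ']
  have h3 : ∏ i ∈ Finset.range (max N1 N2),
      alt ((i : ℤ) + 1) (hn X (Y⟦(-1 : ℤ)⟧) (-((i : ℤ) + 1))) =
      (∏ i ∈ Finset.range (max N1 N2),
        alt (((i + 1 : ℕ) : ℤ) + 1) (hn X Y (-(((i + 1 : ℕ) : ℤ) + 1))))⁻¹ := by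
    rw [← Finset.prod_inv_distrib]
    apply Finset.prod_congr rfl
    intro i _
    rw [hn_shift_right, alt_succ (((i + 1 : ℕ) : ℤ)), inv_inv]
    congr 1
    congr 1
    push_cast
    ring
  have h4 : alt (((0 : ℕ) : ℤ) + 1) (hn X Y (-(((0 : ℕ) : ℤ) + 1))) = (hn X Y (-1))⁻¹ := by
    rw [alt_succ]
    simp [alt]
  have h5 : (hn X Y (-1)) ≠ 0 := (hn_pos X Y (-1)).ne'
  have h6 : ∏ i ∈ Finset.range (max N1 N2),
        alt (((i + 1 : ℕ) : ℤ) + 1) (hn X Y (-(((i + 1 : ℕ) : ℤ) + 1))) ≠ 0 :=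
    (Finset.prod_pos (fun i _ => alt_pos _ (hn_pos _ _ _))).ne'
  rw [h3, h4]
  field_simp

theorem neg_rec' (X Y : C) :
    neg X Y * ((Nat.card (X⟦(1 : ℤ)⟧ ⟶ Y) : ℚ) * neg (X⟦(1 : ℤ)⟧) Y) = 1 := by
  have h := neg_rec X Y
  rw [hn_neg_one] at h
  have h2 : neg (X⟦(1 : ℤ)⟧) Y = neg X (Y⟦(-1 : ℤ)⟧) := by
    unfold neg
    apply finprod_congr
    intro i
    rw [hn_shift_left, hn_shift_right]
    congr 2
    ring
  rw [h2]
  exact h

theorem neg_shift_shift (X Y : C) (n : ℤ) : neg (X⟦n⟧) (Y⟦n⟧) = neg X Y := by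
  unfold neg
  apply finprod_congr
  intro i
  rw [hn_shift_left, hn_shift_right]
  congr 2
  ring

theorem neg_biprod_right (X Y Z : C) : neg X (Y ⊞ Z) = neg X Y * neg X Z := by
  obtain ⟨N1, h1⟩ := tbasic_neg_prod X (Y ⊞ Z)
  obtain ⟨N2, h2⟩ := tbasic_neg_prod X Y
  obtain ⟨N3, h3⟩ := tbasic_neg_prod X Z
  rw [h1 (max N1 (max N2 N3)) (by omega), h2 (max N1 (max N2 N3)) (by omega),
    h3 (max N1 (max N2 N3)) (by omega), ← Finset.prod_mul_distrib]
  apply Finset.prod_congr rfl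
  intro i _
  rw [hn_biprod_right, alt_mul]

theorem neg_biprod_left (X Y Z : C) : neg (X ⊞ Y) Z = neg X Z * neg Y Z := by
  obtain ⟨N1, h1⟩ := tbasic_neg_prod (X ⊞ Y) Z
  obtain ⟨N2, h2⟩ := tbasic_neg_prod X Z
  obtain ⟨N3, h3⟩ := tbasic_neg_prod Y Z
  rw [h1 (max N1 (max N2 N3)) (by omega), h2 (max N1 (max N2 N3)) (by omega),
    h3 (max N1 (max N2 N3)) (by omega), ← Finset.prod_mul_distrib]
  apply Finset.prod_congr rfl
  intro i _
  rw [hn_biprod_left, alt_mul]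

theorem eul_shift_right (X Y : C) (n : ℤ) : eul X (Y⟦n⟧) = alt n (eul X Y) := by
  unfold eul
  calc ∏ᶠ i : ℤ, alt i (hn X (Y⟦n⟧) i)
      = ∏ᶠ i : ℤ, (fun j => alt n (alt j (hn X Y j))) (Equiv.addLeft n i) := by
        apply finprod_congr
        intro i
        change alt i (hn X (Y⟦n⟧) i) = alt n (alt (n + i) (hn X Y (n + i)))
        rw [hn_shift_right, ← alt_add, show n + (n + i) = (n + n) + i by ring, alt_add]
        unfold alt
        rw [if_pos (Even.add_self n)]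
    _ = ∏ᶠ j : ℤ, alt n (alt j (hn X Y j)) := 
        finprod_comp_equiv (Equiv.addLeft n) (f := fun j : ℤ => alt n (alt j (hn X Y j)))
    _ = alt n (∏ᶠ j : ℤ, alt j (hn X Y j)) := tbasic_alt_finprod n _

theorem eul_shift_left (X Y : C) (n : ℤ) : eul (X⟦n⟧) Y = alt n (eul X Y) := by
  unfold eul
  calc ∏ᶠ i : ℤ, alt i (hn (X⟦n⟧) Y i)
      = ∏ᶠ i : ℤ, (fun j => alt n (alt j (hn X Y j))) (Equiv.subRight n i) := by
        apply finprod_congr
        intro i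
        change alt i (hn (X⟦n⟧) Y i) = alt n (alt (i - n) (hn X Y (i - n)))
        rw [hn_shift_left, ← alt_add, show n + (i - n) = i by ring]
    _ = ∏ᶠ j : ℤ, alt n (alt j (hn X Y j)) := 
        finprod_comp_equiv (Equiv.subRight n) (f := fun j : ℤ => alt n (alt j (hn X Y j)))
    _ = alt n (∏ᶠ j : ℤ, alt j (hn X Y j)) := tbasic_alt_finprod n _

/-- If only `Hom(X, Y[0])` can be nonzero then `eul X Y = |Hom(X, Y)|`. -/
theorem eul_of_degree_zero (X Y : C) (h : ∀ n : ℤ, n ≠ 0 → ∀ f : X ⟶ Y⟦n⟧, f = 0) :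
    eul X Y = (Nat.card (X ⟶ Y) : ℚ) := by
  unfold eul
  rw [finprod_eq_single _ (0 : ℤ)]
  · rw [hn_zero]
    unfold alt
    rw [if_pos Even.zero]
  · intro n hn0
    have h1 : hn X Y n = 1 := by
      have h2 : Nat.card (X ⟶ Y⟦n⟧) = 1 := by
        rw [Nat.card_eq_one_iff_unique]
        exact ⟨⟨fun f g => by rw [h n hn0 f, h n hn0 g]⟩, ⟨0⟩⟩
      unfold hn
      rw [h2, Nat.cast_one]
    rw [h1, alt_one]

theorem toen_ne_zero_iff (X Y Z : C) : toen X Y Z ≠ 0 ↔ (coneSet X Y Z).Nonempty := by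
  have hA : Finite (Aut X) := by
    apply Finite.of_injective (fun e : Aut X => e.hom)
    intro e e' h
    exact Iso.ext h
  have h1 : (Nat.card (Aut X) : ℚ) ≠ 0 := by
    have : 0 < Nat.card (Aut X) := Nat.card_pos
    exact_mod_cast this.ne'
  have h2 : neg X Z ≠ 0 := (neg_pos X Z).ne'
  have h3 : neg X X ≠ 0 := (neg_pos X X).ne'
  have h4 : (Nat.card (coneSet X Y Z) : ℚ) ≠ 0 ↔ (coneSet X Y Z).Nonempty := by
    rw [Nat.cast_ne_zero, Nat.card_ne_zero, Set.nonempty_coe_sort]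
    constructor
    · exact fun h => h.1
    · exact fun h => ⟨h, (Set.toFinite _).to_subtype⟩
  rw [← h4]
  unfold toen
  constructor
  · intro h h5
    apply h
    rw [h5]
    simp
  · intro h
    exact mul_ne_zero (div_ne_zero h h1) (div_ne_zero h2 h3)

end Pool.Agent.NG
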