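import Mathlib
import Pool.Agent.NG.TBasic

/-!
# Kernels of the maps induced on Hom groups by a distinguished triangle
-/

open CategoryTheory CategoryTheory.Limits CategoryTheory.Pretriangulated

namespace Pool.Agent.NG

universe v u w

variable {C : Type u} [Category.{v} C] [Preadditive C] [HasZeroObject C] [HasShift C ℤ]
  [∀ n : ℤ, (shiftFunctor C n).Additive] [Pretriangulated C] [Finitary C]

omit [HasZeroObject C] [HasShift C ℤ] [∀ n : ℤ, (shiftFunctor C n).Additive]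
  [Pretriangulated C] [Finitary C] in
private theorem kp_count {X Y Z V : C} (f : Y ⟶ Z) (g : Z ⟶ V) (h0 : f ≫ g = 0)
    (hex : ∀ z : X ⟶ Z, z ≫ g = 0 → ∃ y : X ⟶ Y, z = y ≫ f) :
    Nat.card (X ⟶ Y) = Nat.card {y : X ⟶ Y // y ≫ f = 0} * Nat.card {z : X ⟶ Z // z ≫ g = 0} := by
  let φ : (X ⟶ Y) →+ (X ⟶ Z) := Preadditive.rightComp X f
  have h1 := AddSubgroup.card_mul_index φ.ker
  rw [AddSubgroup.index_ker] at h1
  rw [← h1]
  congr 1
  refine Nat.card_congr (Equiv.subtypeEquivRight (fun z => ?_))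
  constructor
  · rintro ⟨y, hy⟩
    have hy' : y ≫ f = z := hy
    rw [← hy', Category.assoc, h0, comp_zero]
  · intro hz
    obtain ⟨y, hy⟩ := hex z hz
    exact ⟨y, hy.symm⟩

omit [HasZeroObject C] [Pretriangulated C] [Finitary C] in
private theorem kp_shift {A B : C} (u : A ⟶ B) (W : C) :
    Nat.card {z : W⟦(1 : ℤ)⟧ ⟶ A⟦(1 : ℤ)⟧ // z ≫ u⟦(1 : ℤ)⟧' = 0}
      = Nat.card {x : W ⟶ A // x ≫ u = 0} := by
  symm
  refine Nat.card_congr ?_
  refine (Equiv.subtypeEquiv (Functor.FullyFaithful.homEquiv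
    (Functor.FullyFaithful.ofFullyFaithful (shiftFunctor C (1 : ℤ)))) (fun x => ?_))
  constructor
  · intro h
    change (shiftFunctor C (1 : ℤ)).map x ≫ (shiftFunctor C (1 : ℤ)).map u = 0
    rw [← Functor.map_comp, h, Functor.map_zero]
  · intro h
    apply (shiftFunctor C (1 : ℤ)).map_injective
    rw [Functor.map_comp, Functor.map_zero]
    exact h

omit [HasZeroObject C] [Pretriangulated C] [Finitary C] in
private theorem kp_shift_zero {W Y : C} {N : ℕ}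
    (h : ∀ k : ℕ, N + 1 ≤ k → ∀ f : W ⟶ Y⟦-(k : ℤ)⟧, f = 0) :
    ∀ k : ℕ, N ≤ k → ∀ f : W⟦(1 : ℤ)⟧ ⟶ Y⟦-(k : ℤ)⟧, f = 0 := by
  intro k hk f
  let e := (shiftFunctorAdd' C (-((k + 1 : ℕ) : ℤ)) 1 (-(k : ℤ)) (by push_cast; ring)).app Y
  have h1 : f = (f ≫ e.hom) ≫ e.inv := by simp
  obtain ⟨g, hg⟩ := (shiftFunctor C (1 : ℤ)).map_surjective
    (X := W) (Y := Y⟦-((k + 1 : ℕ) : ℤ)⟧) (f ≫ e.hom)
  rw [h1, ← hg, h (k + 1) (by omega) g, Functor.map_zero, zero_comp]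

omit [HasZeroObject C] [∀ (n : ℤ), (shiftFunctor C n).Additive] [Pretriangulated C]
  [Finitary C] in
private theorem kp_neg_one {W Y : C} (h : ∀ k : ℕ, ∀ f : W ⟶ Y⟦-(k : ℤ)⟧, f = 0) :
    neg W Y = 1 := by
  unfold neg
  refine (finprod_congr (fun i => ?_)).trans (finprod_one (α := ℕ) (M := ℚ))
  have h1 : hn W Y (-((i : ℤ) + 1)) = 1 := by
    unfold hn
    have h2 : Subsingleton (W ⟶ Y⟦-((i : ℤ) + 1)⟧) := by
      refine ⟨fun a b => ?_⟩
      have h3 := h (i + 1)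
      push_cast at h3
      rw [h3 a, h3 b]
    have : Nat.card (W ⟶ Y⟦-((i : ℤ) + 1)⟧) = 1 := Nat.card_unique
    rw [this, Nat.cast_one]
  rw [h1]
  unfold alt
  split_ifs <;> simp

private theorem kp_aux {A B D : C} (u : A ⟶ B) (v : B ⟶ D) (w : D ⟶ A⟦(1 : ℤ)⟧)
    (hT : Triangle.mk u v w ∈ distTriang C) (N : ℕ) : ∀ W : C,
    (∀ k : ℕ, N ≤ k → ∀ f : W ⟶ A⟦-(k : ℤ)⟧, f = 0) →
    (∀ k : ℕ, N ≤ k → ∀ f : W ⟶ B⟦-(k : ℤ)⟧, f = 0) →
    (∀ k : ℕ, N ≤ k → ∀ f : W ⟶ D⟦-(k : ℤ)⟧, f = 0) →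
    (Nat.card {x : W ⟶ A // x ≫ u = 0} : ℚ) * (neg W A * neg W D) = neg W B := by
  induction N with
  | zero =>
    intro W hA hB hD
    rw [kp_neg_one (fun k => hA k (Nat.zero_le k)), kp_neg_one (fun k => hB k (Nat.zero_le k)),
      kp_neg_one (fun k => hD k (Nat.zero_le k))]
    have h1 : Nat.card {x : W ⟶ A // x ≫ u = 0} = 1 := by
      have h0 : ∀ x : W ⟶ A, x = 0 := by
        intro x
        have h2 := hA 0 le_rfl (x ≫ ((shiftFunctorZero C ℤ).app A).inv ≫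
          (eqToHom (by simp) : A⟦(0 : ℤ)⟧ ⟶ A⟦-((0 : ℕ) : ℤ)⟧))
        have h3 : IsIso (((shiftFunctorZero C ℤ).app A).inv ≫
          (eqToHom (by simp) : A⟦(0 : ℤ)⟧ ⟶ A⟦-((0 : ℕ) : ℤ)⟧)) := inferInstance
        exact (cancel_mono (((shiftFunctorZero C ℤ).app A).inv ≫
          (eqToHom (by simp) : A⟦(0 : ℤ)⟧ ⟶ A⟦-((0 : ℕ) : ℤ)⟧))).mp (by rw [h2, zero_comp])
      have : Unique {x : W ⟶ A // x ≫ u = 0} :=
        ⟨⟨⟨0, zero_comp⟩⟩, fun x => Subtype.ext (h0 x.1)⟩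
      exact Nat.card_unique
    rw [h1]; norm_num
  | succ N ih =>
    intro W hA hB hD
    have IH := ih (W⟦(1 : ℤ)⟧) (kp_shift_zero hA) (kp_shift_zero hB) (kp_shift_zero hD)
    have rA := neg_rec' W A
    have rB := neg_rec' W B
    have rD := neg_rec' W D
    have h12 : u ≫ v = 0 := comp_distTriang_mor_zero₁₂ _ hT
    have h23 : v ≫ w = 0 := comp_distTriang_mor_zero₂₃ _ hT
    have h31 : w ≫ u⟦(1 : ℤ)⟧' = 0 := comp_distTriang_mor_zero₃₁ _ hT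
    have c1 := kp_count (X := W⟦(1 : ℤ)⟧) u v h12
      (fun z hz => Triangle.coyoneda_exact₂ _ hT z hz)
    have c2 := kp_count (X := W⟦(1 : ℤ)⟧) v w h23
      (fun z hz => Triangle.coyoneda_exact₃ _ hT z hz)
    have c3 := kp_count (X := W⟦(1 : ℤ)⟧) w (u⟦(1 : ℤ)⟧') h31
      (fun z hz => Triangle.coyoneda_exact₁ _ hT z hz)
    rw [kp_shift u W] at c3
    rw [c1] at rA
    rw [c2] at rB
    rw [c3] at rD
    push_cast at rA rB rD
    have pA1 := (neg_pos (W⟦(1 : ℤ)⟧) A).ne'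
    have pB1 := (neg_pos (W⟦(1 : ℤ)⟧) B).ne'
    have pD1 := (neg_pos (W⟦(1 : ℤ)⟧) D).ne'
    have pA := (neg_pos W A).ne'
    have pB := (neg_pos W B).ne'
    have pD := (neg_pos W D).ne'
    set kA : ℚ := (Nat.card {x : W ⟶ A // x ≫ u = 0} : ℚ) with hkA
    set kA1 : ℚ := (Nat.card {x : W⟦(1 : ℤ)⟧ ⟶ A // x ≫ u = 0} : ℚ) with hkA1
    set kB1 : ℚ := (Nat.card {x : W⟦(1 : ℤ)⟧ ⟶ B // x ≫ v = 0} : ℚ) with hkB1
    set kD1 : ℚ := (Nat.card {x : W⟦(1 : ℤ)⟧ ⟶ D // x ≫ w = 0} : ℚ) with hkD1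
    set nA := neg W A
    set nB := neg W B
    set nD := neg W D
    set nA1 := neg (W⟦(1 : ℤ)⟧) A
    set nB1 := neg (W⟦(1 : ℤ)⟧) B
    set nD1 := neg (W⟦(1 : ℤ)⟧) D
    -- multiply the goal by `kB1 * kD1 * nB1`
    have q : kB1 * kD1 * nB1 ≠ 0 := by
      intro h
      rw [h, mul_zero] at rB
      exact zero_ne_one rB
    have e1 : (kA * (nA * nD)) * (kB1 * kD1 * nB1) = 1 := by
      rw [← IH]
      calc kA * (nA * nD) * (kB1 * kD1 * (kA1 * (nA1 * nD1)))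
          = (nA * (kA1 * kB1 * nA1)) * (nD * (kD1 * kA * nD1)) := by ring
        _ = 1 := by rw [rA, rD, one_mul]
    exact mul_right_cancel₀ q (e1.trans rB.symm)

/- PROOF.  For a distinguished triangle `T = (A -[u]-> B -[v]-> D -[w]-> A⟦1⟧)` and an object `W`
put `kA(W) = |{x : W ⟶ A // x ≫ u = 0}|` and similarly `kB`, `kD`.  By exactness
`|Hom(W⟦1⟧, A)| = kA(W⟦1⟧) kB(W⟦1⟧)`, `|Hom(W⟦1⟧, B)| = kB(W⟦1⟧) kD(W⟦1⟧)` and
`|Hom(W⟦1⟧, D)| = kD(W⟦1⟧) kA(W)`; with `neg_rec'` the statement for `W⟦1⟧` implies the one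
for `W`.  For `W⟦n⟧` with `n` large all groups vanish. -/
/-- `|ker (Hom(W, A) → Hom(W, B))| {W, A} {W, D} = {W, B}` for a distinguished triangle
`A → B → D → A[1]`. -/
theorem ker_post {A B D : C} (u : A ⟶ B) (v : B ⟶ D) (w : D ⟶ A⟦(1 : ℤ)⟧)
    (hT : Triangle.mk u v w ∈ distTriang C) (W : C) :
    (Nat.card {x : W ⟶ A // x ≫ u = 0} : ℚ) * (neg W A * neg W D) = neg W B := by
  obtain ⟨N1, h1⟩ := Finitary.bounded W A
  obtain ⟨N2, h2⟩ := Finitary.bounded W B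
  obtain ⟨N3, h3⟩ := Finitary.bounded W D
  refine kp_aux u v w hT (max N1 (max N2 N3)) W ?_ ?_ ?_
  · intro k hk f
    refine h1 _ ?_ f
    rw [abs_neg, Nat.abs_cast]
    have : N1 ≤ k := (le_max_left _ _).trans hk
    exact_mod_cast this
  · intro k hk f
    refine h2 _ ?_ f
    rw [abs_neg, Nat.abs_cast]
    have : N2 ≤ k := ((le_max_left _ _).trans (le_max_right _ _)).trans hk
    exact_mod_cast this
  · intro k hk f
    refine h3 _ ?_ f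
    rw [abs_neg, Nat.abs_cast]
    have : N3 ≤ k := ((le_max_right _ _).trans (le_max_right _ _)).trans hk
    exact_mod_cast this

end Pool.Agent.NG
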