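import Mathlib
import Pool.Agent.NG.TBasic

/-!
# Kernels of the maps induced on Hom groups by a distinguished triangle
-/

open CategoryTheory CategoryTheory.Limits CategoryTheory.Pretriangulated

namespace Pool.Agent.NG

universe v u w

private theorem kerPre_card {G1 G2 G3 : Type*} [AddCommGroup G1] [AddCommGroup G2]
    [AddCommGroup G3] (φ : G1 →+ G2) (ψ : G2 →+ G3)
    (h : ∀ y, ψ y = 0 ↔ ∃ x, φ x = y) :
    Nat.card {x // φ x = 0} * Nat.card {y // ψ y = 0} = Nat.card G1 := by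
  have h1 : Nat.card G1 = Nat.card (G1 ⧸ φ.ker) * Nat.card φ.ker :=
    AddSubgroup.card_eq_card_quotient_mul_card_addSubgroup φ.ker
  have h2 : Nat.card (G1 ⧸ φ.ker) = Nat.card φ.range :=
    Nat.card_congr (QuotientAddGroup.quotientKerEquivRange φ).toEquiv
  have h3 : Nat.card φ.range = Nat.card {y // ψ y = 0} := by
    apply Nat.card_congr
    refine Equiv.subtypeEquivRight (fun y => ?_)
    rw [AddMonoidHom.mem_range]
    exact (h y).symm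
  have h4 : Nat.card φ.ker = Nat.card {x // φ x = 0} := by
    apply Nat.card_congr
    refine Equiv.subtypeEquivRight (fun x => ?_)
    exact AddMonoidHom.mem_ker
  rw [h1, h2, h3, h4, mul_comm]

variable {C : Type u} [Category.{v} C] [Preadditive C] [HasZeroObject C] [HasShift C ℤ]
  [∀ n : ℤ, (shiftFunctor C n).Additive] [Pretriangulated C]

private theorem kerPre_exact {A B D : C} (u : A ⟶ B) (v : B ⟶ D) (w : D ⟶ A⟦(1 : ℤ)⟧)
    (hT : Triangle.mk u v w ∈ distTriang C) (W : C) :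
    Nat.card {y : D ⟶ W // v ≫ y = 0} * Nat.card {x : B ⟶ W // u ≫ x = 0} =
      Nat.card (D ⟶ W) := by
  refine kerPre_card (Preadditive.leftComp W v) (Preadditive.leftComp W u) (fun y => ?_)
  constructor
  · intro hy
    obtain ⟨g, hg⟩ := Triangle.yoneda_exact₂ _ hT (X := W) y hy
    exact ⟨g, hg.symm⟩
  · rintro ⟨x, rfl⟩
    have h0 : u ≫ v = 0 := comp_distTriang_mor_zero₁₂ _ hT
    change u ≫ v ≫ x = 0
    rw [← Category.assoc, h0, zero_comp]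

variable [Finitary C]

private theorem kerPre_pos (X Y : C) : (0 : ℚ) < (Nat.card (X ⟶ Y) : ℚ) := by
  have : 0 < Nat.card (X ⟶ Y) := Nat.card_pos
  exact_mod_cast this

private theorem kerPre_shift (X W : C) (N : ℕ)
    (h : ∀ k : ℕ, N + 1 ≤ k → hn X W (-(k : ℤ)) = 1) :
    ∀ k : ℕ, N ≤ k → hn (X⟦(1 : ℤ)⟧) W (-(k : ℤ)) = 1 := by
  intro k hk
  rw [hn_shift_left]
  have h1 := h (k + 1) (Nat.succ_le_succ hk)
  have h2 : (-(k : ℤ) - 1) = -((k + 1 : ℕ) : ℤ) := by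
    push_cast
    ring
  rw [h2]
  exact h1

private theorem kerPre_neg_one (X W : C) (h : ∀ k : ℕ, 0 ≤ k → hn X W (-(k : ℤ)) = 1) :
    neg X W = 1 := by
  unfold neg
  have h1 : ∀ i : ℕ, alt ((i : ℤ) + 1) (hn X W (-((i : ℤ) + 1))) = 1 := by
    intro i
    have h2 := h (i + 1) (Nat.zero_le _)
    have h3 : (-((i : ℤ) + 1)) = -((i + 1 : ℕ) : ℤ) := by
      push_cast
      ring
    rw [h3, h2, alt_one]
  simp only [h1]
  exact finprod_one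

private theorem kerPre_card_one (X W : C) (h : ∀ k : ℕ, 0 ≤ k → hn X W (-(k : ℤ)) = 1) :
    Nat.card (X ⟶ W) = 1 := by
  have h1 := h 0 le_rfl
  rw [Nat.cast_zero, neg_zero, hn_zero] at h1
  exact_mod_cast h1

private theorem kerPre_aux (W : C) (N : ℕ) : ∀ {A B D : C} (u : A ⟶ B) (v : B ⟶ D)
    (w : D ⟶ A⟦(1 : ℤ)⟧), Triangle.mk u v w ∈ distTriang C →
    (∀ k : ℕ, N ≤ k → hn A W (-(k : ℤ)) = 1) →
    (∀ k : ℕ, N ≤ k → hn B W (-(k : ℤ)) = 1) →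
    (∀ k : ℕ, N ≤ k → hn D W (-(k : ℤ)) = 1) →
    (Nat.card {x : B ⟶ W // u ≫ x = 0} : ℚ) * neg B W =
      neg A W * (neg D W * (Nat.card (D ⟶ W) : ℚ)) := by
  induction N with
  | zero =>
    intro A B D u v w _ hA hB hD
    have h1 : Nat.card {x : B ⟶ W // u ≫ x = 0} = 1 := by
      have h2 := kerPre_card_one B W hB
      rw [Nat.card_eq_one_iff_unique] at h2 ⊢
      obtain ⟨h3, _⟩ := h2
      exact ⟨inferInstance, ⟨⟨0, comp_zero⟩⟩⟩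
    rw [h1, kerPre_neg_one A W hA, kerPre_neg_one B W hB, kerPre_neg_one D W hD,
      kerPre_card_one D W hD]
    norm_num
  | succ N ih =>
    intro A B D u v w hT hA hB hD
    have hT1 : Triangle.mk v w (-u⟦(1 : ℤ)⟧') ∈ distTriang C := rot_of_distTriang _ hT
    have hT2 : Triangle.mk w (-u⟦(1 : ℤ)⟧') (-v⟦(1 : ℤ)⟧') ∈ distTriang C :=
      rot_of_distTriang _ hT1
    have hT3 : Triangle.mk (-u⟦(1 : ℤ)⟧') (-v⟦(1 : ℤ)⟧') (-w⟦(1 : ℤ)⟧') ∈ distTriang C :=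
      rot_of_distTriang _ hT2
    have key := ih (-u⟦(1 : ℤ)⟧') (-v⟦(1 : ℤ)⟧') (-w⟦(1 : ℤ)⟧') hT3
      (kerPre_shift A W N hA) (kerPre_shift B W N hB) (kerPre_shift D W N hD)
    have e1 := kerPre_exact u v w hT W
    have e2 := kerPre_exact v w (-u⟦(1 : ℤ)⟧') hT1 W
    have e3 := kerPre_exact w (-u⟦(1 : ℤ)⟧') (-v⟦(1 : ℤ)⟧') hT2 W
    have rA := neg_rec' A W
    have rB := neg_rec' B W
    have rD := neg_rec' D W
    have pA := neg_pos A W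
    have pD := neg_pos D W
    have qB := kerPre_pos (B⟦(1 : ℤ)⟧) W
    have nB := neg_pos (B⟦(1 : ℤ)⟧) W
    have qA := kerPre_pos (A⟦(1 : ℤ)⟧) W
    have nA := neg_pos (A⟦(1 : ℤ)⟧) W
    have qD := kerPre_pos (D⟦(1 : ℤ)⟧) W
    have nD := neg_pos (D⟦(1 : ℤ)⟧) W
    have pDc := kerPre_pos D W
    -- numbers
    generalize hkx : Nat.card {x : B ⟶ W // u ≫ x = 0} = kx at e1 ⊢
    generalize hky : Nat.card {y : D ⟶ W // v ≫ y = 0} = ky at e1 e2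
    generalize hkz : Nat.card {z : A⟦(1 : ℤ)⟧ ⟶ W // w ≫ z = 0} = kz at e2 e3
    generalize hkt : Nat.card {x : B⟦(1 : ℤ)⟧ ⟶ W // (-u⟦(1 : ℤ)⟧') ≫ x = 0} = kt at e3 key
    have e1' : (ky : ℚ) * kx = (Nat.card (D ⟶ W) : ℚ) := by exact_mod_cast e1
    have e2' : (kz : ℚ) * ky = (Nat.card (A⟦(1 : ℤ)⟧ ⟶ W) : ℚ) := by exact_mod_cast e2
    have e3' : (kt : ℚ) * kz = (Nat.card (B⟦(1 : ℤ)⟧ ⟶ W) : ℚ) := by exact_mod_cast e3
    have nB0 : neg B W = 1 / ((Nat.card (B⟦(1 : ℤ)⟧ ⟶ W) : ℚ) * neg (B⟦(1 : ℤ)⟧) W) := by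
      rw [eq_div_iff (mul_pos qB nB).ne']
      exact rB
    have nA0 : neg A W = 1 / ((Nat.card (A⟦(1 : ℤ)⟧ ⟶ W) : ℚ) * neg (A⟦(1 : ℤ)⟧) W) := by
      rw [eq_div_iff (mul_pos qA nA).ne']
      exact rA
    have nD0 : neg D W = 1 / ((Nat.card (D⟦(1 : ℤ)⟧ ⟶ W) : ℚ) * neg (D⟦(1 : ℤ)⟧) W) := by
      rw [eq_div_iff (mul_pos qD nD).ne']
      exact rD
    rw [← e1', nA0, nB0, nD0, ← e2', ← e3']
    rw [← e2'] at qA
    rw [← e3'] at qB
    have hkz0 : (kz : ℚ) ≠ 0 := by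
      intro h
      rw [h, mul_zero] at qB
      exact lt_irrefl _ qB
    have hkt0 : (kt : ℚ) ≠ 0 := by
      intro h
      rw [h, zero_mul] at qB
      exact lt_irrefl _ qB
    have hky0 : (ky : ℚ) ≠ 0 := by
      intro h
      rw [h, mul_zero] at qA
      exact lt_irrefl _ qA
    have hnA0 := nA.ne'
    have hnB0 := nB.ne'
    have hnD0 := nD.ne'
    have hqD0 := qD.ne'
    field_simp
    linear_combination (-(kx : ℚ)) * key

/- PROOF.  Same method with the contravariant functor `Hom(-, W)`.  Put, for `n : ℕ`,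
`a n = |{x : B⟦n⟧ ⟶ W // u⟦n⟧' ≫ x = 0}|` (or use `Hom(-, W⟦-n⟧)` on the same triangle:
`a n = |{x : B ⟶ W⟦-n⟧ // u ≫ x = 0}|`, with `{X, W⟦-n⟧} = neg X (W⟦-n⟧)` and `neg_rec`).
Exactness:
  ker (Hom(B,W) → Hom(A,W)) = im (Hom(D,W) → Hom(B,W)),
  ker (Hom(D,W) → Hom(B,W)) = im (Hom(A⟦1⟧,W) → Hom(D,W)),
  ker (Hom(A⟦1⟧,W) → Hom(D,W)) = im (Hom(B⟦1⟧,W) → Hom(A⟦1⟧,W)),
and `im (Hom(B⟦1⟧,W) → Hom(A⟦1⟧,W))` has `|Hom(B⟦1⟧,W)| / a'` elements where `a'` is the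
number of elements of `ker (Hom(B⟦1⟧,W) → Hom(A⟦1⟧,W)) ≅ ker (Hom(B,W⟦-1⟧) → Hom(A,W⟦-1⟧))`.
So `a = |Hom(D,W)| |Hom(B⟦1⟧,W)| / (|Hom(A⟦1⟧,W)| a')`.  With
`Q(W) = a {B,W} / ({A,W} {D,W} |Hom(D,W)|)` and `neg_rec` one gets `Q(W) Q(W⟦-1⟧) = 1`, and
`Q(W⟦-m⟧) = 1` for large `m`. -/
/-- `|ker (Hom(B, W) → Hom(A, W))| {B, W} = {A, W} {D, W} |Hom(D, W)|` for a distinguished
triangle `A → B → D → A[1]`. -/
theorem ker_pre {A B D : C} (u : A ⟶ B) (v : B ⟶ D) (w : D ⟶ A⟦(1 : ℤ)⟧)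
    (hT : Triangle.mk u v w ∈ distTriang C) (W : C) :
    (Nat.card {x : B ⟶ W // u ≫ x = 0} : ℚ) * neg B W =
      neg A W * (neg D W * (Nat.card (D ⟶ W) : ℚ)) := by
  obtain ⟨NA, hNA⟩ := hn_eq_one A W
  obtain ⟨NB, hNB⟩ := hn_eq_one B W
  obtain ⟨ND, hND⟩ := hn_eq_one D W
  have habs : ∀ k : ℕ, |(-(k : ℤ))| = (k : ℤ) := by
    intro k
    rw [abs_neg, Nat.abs_cast]
  refine kerPre_aux W (NA + (NB + ND)) u v w hT ?_ ?_ ?_
  · intro k hk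
    apply hNA
    rw [habs]
    exact_mod_cast (by omega : NA ≤ k)
  · intro k hk
    apply hNB
    rw [habs]
    exact_mod_cast (by omega : NB ≤ k)
  · intro k hk
    apply hND
    rw [habs]
    exact_mod_cast (by omega : ND ≤ k)

end Pool.Agent.NG
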