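import Mathlib
import Pool.Agent.NG.KerPost
import Pool.Agent.NG.KerPre

/-!
# The two kernels attached to the third morphism of a distinguished triangle
-/

open CategoryTheory CategoryTheory.Limits CategoryTheory.Pretriangulated

namespace Pool.Agent.NG

universe v u w

variable {C : Type u} [Category.{v} C] [Preadditive C] [HasZeroObject C] [HasShift C ℤ]
  [∀ n : ℤ, (shiftFunctor C n).Additive] [Pretriangulated C] [Finitary C]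

/- PROOF.  Rotating twice (`rot_of_distTriang`), the triangle
`N -[c]-> M⟦1⟧ -[(-a⟦1⟧')]-> P⟦1⟧ -[(-b⟦1⟧')]-> N⟦1⟧` is distinguished.  Apply `ker_pre` with
`A = N, B = M⟦1⟧, D = P⟦1⟧, W = N`:
`|K₁| {M⟦1⟧,N} = {N,N} {P⟦1⟧,N} |Hom(P⟦1⟧,N)|`, and `{P⟦1⟧,N} |Hom(P⟦1⟧,N)| = {P,N}⁻¹` by
`neg_rec'`. -/
theorem card_K1 {M P N : C} (a : M ⟶ P) (b : P ⟶ N) (c : N ⟶ M⟦(1 : ℤ)⟧)
    (hT : Triangle.mk a b c ∈ distTriang C) :
    (Nat.card {v : M⟦(1 : ℤ)⟧ ⟶ N // c ≫ v = 0} : ℚ) * neg (M⟦(1 : ℤ)⟧) N * neg P N =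
      neg N N := by
  have h := ker_pre c (-a⟦(1 : ℤ)⟧') (-b⟦(1 : ℤ)⟧')
    (rot_of_distTriang _ (rot_of_distTriang _ hT)) N
  have h2 := neg_rec' P N
  rw [h]
  linear_combination (neg N N) * h2

/- PROOF.  Apply `ker_post` to the same rotated triangle with `A = N, B = M⟦1⟧, D = P⟦1⟧` and
`W = M⟦1⟧`: `|K₂| {M⟦1⟧,N} {M⟦1⟧,P⟦1⟧} = {M⟦1⟧,M⟦1⟧}`; use `neg_shift_shift`. -/
theorem card_K2 {M P N : C} (a : M ⟶ P) (b : P ⟶ N) (c : N ⟶ M⟦(1 : ℤ)⟧)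
    (hT : Triangle.mk a b c ∈ distTriang C) :
    (Nat.card {v : M⟦(1 : ℤ)⟧ ⟶ N // v ≫ c = 0} : ℚ) * neg (M⟦(1 : ℤ)⟧) N * neg M P =
      neg M M := by
  have h := ker_post c (-a⟦(1 : ℤ)⟧') (-b⟦(1 : ℤ)⟧')
    (rot_of_distTriang _ (rot_of_distTriang _ hT)) (M⟦(1 : ℤ)⟧)
  rw [neg_shift_shift, neg_shift_shift] at h
  rw [← h]
  ring

end Pool.Agent.NG
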