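import Mathlib
import Pool.Agent.NG.TBasic

/-!
# Stabilizers
-/

open CategoryTheory CategoryTheory.Limits CategoryTheory.Pretriangulated

namespace Pool.Agent.NG

universe v u w

/-- counting with a surjective map whose fibres are cosets -/
theorem Stab_card {V : Type*} {T : Type*} [AddCommGroup V] (P K : V → Prop)
    (f : {x // P x} → T) (hsurj : Function.Surjective f)
    (hK : ∀ x y : {x // P x}, f x = f y ↔ K (x.1 - y.1))
    (hPK : ∀ x, P x → ∀ k, K k → P (x + k)) :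
    Nat.card T * Nat.card {x // K x} = Nat.card {x // P x} := by
  have hs : ∀ t, f (Function.surjInv hsurj t) = t := Function.surjInv_eq hsurj
  let e : {x // P x} ≃ T × {x // K x} :=
    { toFun := fun x => (f x, ⟨x.1 - (Function.surjInv hsurj (f x)).1,
        (hK x (Function.surjInv hsurj (f x))).1 (hs (f x)).symm⟩)
      invFun := fun p => ⟨(Function.surjInv hsurj p.1).1 + p.2.1,
        hPK _ (Function.surjInv hsurj p.1).2 _ p.2.2⟩
      left_inv := by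
        intro x
        apply Subtype.ext
        simp
      right_inv := by
        rintro ⟨t, k⟩
        have h1 : f ⟨(Function.surjInv hsurj t).1 + k.1,
            hPK _ (Function.surjInv hsurj t).2 _ k.2⟩ = t := by
          refine Eq.trans ?_ (hs t)
          rw [hK]
          simpa using k.2
        apply Prod.ext
        · exact h1
        · apply Subtype.ext
          simp only
          rw [h1]
          simp }
  rw [← Nat.card_prod]
  exact (Nat.card_congr e).symm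

variable {C : Type u} [Category.{v} C] [Preadditive C]

theorem Stab_isIso {A B : C} (c : A ⟶ B) (v : B ⟶ A) (h : IsIso (𝟙 A + c ≫ v)) :
    IsIso (𝟙 B + v ≫ c) := by
  obtain ⟨s, h1, h2⟩ := h.out
  rw [Preadditive.add_comp, Category.id_comp, Category.assoc] at h1
  rw [Preadditive.comp_add, Category.comp_id] at h2
  refine ⟨⟨𝟙 B - v ≫ s ≫ c, ?_, ?_⟩⟩
  · have h3 : v ≫ s ≫ c + v ≫ c ≫ v ≫ s ≫ c = v ≫ c := by
      have : v ≫ (s + c ≫ v ≫ s) ≫ c = v ≫ c := by rw [h1, Category.id_comp]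
      refine Eq.trans ?_ this
      simp only [Preadditive.add_comp, Preadditive.comp_add, Category.assoc]
    simp only [Preadditive.add_comp, Preadditive.comp_sub, Category.id_comp, Category.comp_id,
      Category.assoc]
    rw [eq_sub_of_add_eq' h3]
    abel
  · have h3 : v ≫ s ≫ c + v ≫ s ≫ c ≫ v ≫ c = v ≫ c := by
      have : v ≫ (s + s ≫ c ≫ v) ≫ c = v ≫ c := by rw [h2, Category.id_comp]
      refine Eq.trans ?_ this
      simp only [Preadditive.add_comp, Preadditive.comp_add, Category.assoc]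
    simp only [Preadditive.sub_comp, Preadditive.comp_add, Category.id_comp, Category.comp_id,
      Category.assoc]
    rw [eq_sub_of_add_eq' h3]
    abel

/- PROOF.  If `s` is the inverse of `1 + c v` then `1 - v s c` is the inverse of `1 + v c`
(composition in diagrammatic order), and conversely. -/
theorem isIso_one_add_comm {A B : C} (c : A ⟶ B) (v : B ⟶ A) :
    IsIso (𝟙 A + c ≫ v) ↔ IsIso (𝟙 B + v ≫ c) :=
  ⟨Stab_isIso c v, Stab_isIso v c⟩

variable [HasZeroObject C] [HasShift C ℤ]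
  [∀ n : ℤ, (shiftFunctor C n).Additive] [Pretriangulated C] [Finitary C]

/- PROOF.  Consider the map `f : {v | IsIso (1 + c v)} → {n : Aut N | b n = b}`,
`v ↦ 1 + c v` (well defined as `b c = 0`, `comp_distTriang_mor_zero₂₃`).  It is surjective: if
`b n = b` then `b (n - 1) = 0`, so `n - 1 = c v` for some `v` (`Triangle.yoneda_exact₃`).  All the
fibres have `|K₁|` elements, `K₁ = {v | c v = 0}`: the fibre through `v` is `v + K₁`.  So
`|source| = |target| |K₁|` (e.g. an explicit `Equiv` `{v | IsIso (1 + c v)} ≃ Stab × K₁` with a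
chosen section `s` of `f`: `v ↦ (f v, v - s (f v))`; then `Nat.card_congr`, `Nat.card_prod`). -/
theorem card_stab_right {M P N : C} (a : M ⟶ P) (b : P ⟶ N) (c : N ⟶ M⟦(1 : ℤ)⟧)
    (hT : Triangle.mk a b c ∈ distTriang C) :
    Nat.card {n : Aut N // b ≫ n.hom = b} * Nat.card {v : M⟦(1 : ℤ)⟧ ⟶ N // c ≫ v = 0} =
      Nat.card {v : M⟦(1 : ℤ)⟧ ⟶ N // IsIso (𝟙 N + c ≫ v)} := by
  have hbc : b ≫ c = 0 := comp_distTriang_mor_zero₂₃ _ hT
  refine Stab_card (V := (M⟦(1 : ℤ)⟧ ⟶ N)) (fun v => IsIso (𝟙 N + c ≫ v)) (fun v => c ≫ v = 0)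
    (fun v => ⟨@asIso _ _ _ _ (𝟙 N + c ≫ v.1) v.2, ?_⟩) ?_ ?_ ?_
  · change b ≫ (𝟙 N + c ≫ v.1) = b
    rw [Preadditive.comp_add, Category.comp_id, ← Category.assoc, hbc, zero_comp, add_zero]
  · rintro ⟨n, hn⟩
    have h1 : b ≫ (n.hom - 𝟙 N) = 0 := by
      rw [Preadditive.comp_sub, Category.comp_id, hn, sub_self]
    obtain ⟨g, hg⟩ := Triangle.yoneda_exact₃ _ hT (n.hom - 𝟙 N) h1
    have h2 : 𝟙 N + c ≫ g = n.hom := by
      have h3 : n.hom - 𝟙 N = c ≫ g := hg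
      rw [← h3]
      abel
    have h4 : IsIso (𝟙 N + c ≫ g) := by
      rw [h2]
      infer_instance
    refine ⟨⟨g, h4⟩, ?_⟩
    apply Subtype.ext
    apply Iso.ext
    exact h2
  · intro x y
    constructor
    · intro h
      have h1 := congrArg (fun z => z.1.hom) h
      have h2 : 𝟙 N + c ≫ x.1 = 𝟙 N + c ≫ y.1 := h1
      rw [Preadditive.comp_sub, add_left_cancel h2, sub_self]
    · intro h
      rw [Preadditive.comp_sub, sub_eq_zero] at h
      apply Subtype.ext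
      apply Iso.ext
      change 𝟙 N + c ≫ x.1 = 𝟙 N + c ≫ y.1
      rw [h]
  · intro x hx k hk
    rw [Preadditive.comp_add, hk, add_zero]
    exact hx

/- PROOF.  Consider `f : {v | IsIso (1 + v c)} → {m : Aut M | m a = a}`: the endomorphism
`1 + v c` of `M⟦1⟧` is `m⟦1⟧'` for a unique automorphism `m` of `M` (the shift is an
equivalence), and `m a = a` because `(m - 1)⟦1⟧' a⟦1⟧' = v c a⟦1⟧' = 0`
(`comp_distTriang_mor_zero₃₁`).  Surjective: if `m a = a` then `(m - 1)⟦1⟧' a⟦1⟧' = 0`, so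
`(m - 1)⟦1⟧' = v c` for some `v` (exactness of `Hom(M⟦1⟧, -)`, `Triangle.coyoneda_exact₁`).  The
fibres are the cosets of `K₂ = {v | v c = 0}`. -/
theorem card_stab_left {M P N : C} (a : M ⟶ P) (b : P ⟶ N) (c : N ⟶ M⟦(1 : ℤ)⟧)
    (hT : Triangle.mk a b c ∈ distTriang C) :
    Nat.card {m : Aut M // m.hom ≫ a = a} * Nat.card {v : M⟦(1 : ℤ)⟧ ⟶ N // v ≫ c = 0} =
      Nat.card {v : M⟦(1 : ℤ)⟧ ⟶ N // IsIso (𝟙 (M⟦(1 : ℤ)⟧) + v ≫ c)} := by
  have hca : c ≫ a⟦(1 : ℤ)⟧' = 0 := comp_distTriang_mor_zero₃₁ _ hT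
  refine Stab_card (V := (M⟦(1 : ℤ)⟧ ⟶ N)) (fun v => IsIso (𝟙 (M⟦(1 : ℤ)⟧) + v ≫ c))
    (fun v => v ≫ c = 0)
    (fun v => ⟨(shiftFunctor C (1 : ℤ)).preimageIso
      (@asIso _ _ _ _ (𝟙 (M⟦(1 : ℤ)⟧) + v.1 ≫ c) v.2), ?_⟩) ?_ ?_ ?_
  · apply (shiftFunctor C (1 : ℤ)).map_injective
    rw [Functor.map_comp, Functor.preimageIso_hom, Functor.map_preimage]
    change (𝟙 (M⟦(1 : ℤ)⟧) + v.1 ≫ c) ≫ a⟦(1 : ℤ)⟧' = a⟦(1 : ℤ)⟧'
    rw [Preadditive.add_comp, Category.id_comp, Category.assoc, hca, comp_zero, add_zero]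
  · rintro ⟨m, hm⟩
    have h1 : ((m.hom⟦(1 : ℤ)⟧' : M⟦(1 : ℤ)⟧ ⟶ M⟦(1 : ℤ)⟧) - 𝟙 (M⟦(1 : ℤ)⟧)) ≫ a⟦(1 : ℤ)⟧' = 0 := by
      rw [Preadditive.sub_comp, Category.id_comp, ← Functor.map_comp, hm, sub_self]
    obtain ⟨g, hg⟩ := Triangle.coyoneda_exact₁ _ hT
      ((m.hom⟦(1 : ℤ)⟧' : M⟦(1 : ℤ)⟧ ⟶ M⟦(1 : ℤ)⟧) - 𝟙 (M⟦(1 : ℤ)⟧)) h1
    have h2 : 𝟙 (M⟦(1 : ℤ)⟧) + g ≫ c = m.hom⟦(1 : ℤ)⟧' := by
      have h3 : (m.hom⟦(1 : ℤ)⟧' : M⟦(1 : ℤ)⟧ ⟶ M⟦(1 : ℤ)⟧) - 𝟙 (M⟦(1 : ℤ)⟧) = g ≫ c := hg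
      rw [← h3]
      abel
    have h4 : IsIso (𝟙 (M⟦(1 : ℤ)⟧) + g ≫ c) := by
      rw [h2]
      infer_instance
    refine ⟨⟨g, h4⟩, ?_⟩
    apply Subtype.ext
    apply Iso.ext
    apply (shiftFunctor C (1 : ℤ)).map_injective
    rw [Functor.preimageIso_hom, Functor.map_preimage]
    exact h2
  · intro x y
    constructor
    · intro h
      have h1 := congrArg (fun z => (shiftFunctor C (1 : ℤ)).map z.1.hom) h
      simp only [Functor.preimageIso_hom, Functor.map_preimage] at h1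
      have h2 : 𝟙 (M⟦(1 : ℤ)⟧) + x.1 ≫ c = 𝟙 (M⟦(1 : ℤ)⟧) + y.1 ≫ c := h1
      rw [Preadditive.sub_comp, add_left_cancel h2, sub_self]
    · intro h
      rw [Preadditive.sub_comp, sub_eq_zero] at h
      apply Subtype.ext
      apply Iso.ext
      apply (shiftFunctor C (1 : ℤ)).map_injective
      rw [Functor.preimageIso_hom, Functor.map_preimage, Functor.preimageIso_hom,
        Functor.map_preimage]
      change 𝟙 (M⟦(1 : ℤ)⟧) + x.1 ≫ c = 𝟙 (M⟦(1 : ℤ)⟧) + y.1 ≫ c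
      rw [h]
  · intro x hx k hk
    rw [Preadditive.add_comp, hk, add_zero]
    exact hx

end Pool.Agent.NG
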