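import Mathlib
import Pool.Agent.NG.KerC
import Pool.Agent.NG.Stab

/-!
# Duality for Toën's structure constants
-/

open CategoryTheory CategoryTheory.Limits CategoryTheory.Pretriangulated

namespace Pool.Agent.NG

universe v u w

variable {C : Type u} [Category.{v} C] [Preadditive C] [HasZeroObject C] [HasShift C ℤ]
  [∀ n : ℤ, (shiftFunctor C n).Additive] [Pretriangulated C]

/-- the first two morphisms of a distinguished triangle -/
private def dualD {M P N : C} (a : M ⟶ P) (b : P ⟶ N) : Prop :=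
  ∃ c : N ⟶ M⟦(1 : ℤ)⟧, Triangle.mk a b c ∈ distTriang C

private theorem dual_card_right {M P N : C} {a : M ⟶ P} {b : P ⟶ N} (h : dualD a b) :
    Nat.card {b' : P ⟶ N // dualD a b'} * Nat.card {n : Aut N // b ≫ n.hom = b} =
      Nat.card (Aut N) := by
  have hf : ∀ n : Aut N, dualD a (b ≫ n.hom) := by
    intro n
    obtain ⟨c, hc⟩ := h
    refine ⟨n.inv ≫ c, ?_⟩
    refine isomorphic_distinguished _ hc _ ?_
    refine Triangle.isoMk _ _ (Iso.refl _) (Iso.refl _) n.symm ?_ ?_ ?_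
    · change a ≫ 𝟙 P = 𝟙 M ≫ a
      simp
    · change (b ≫ n.hom) ≫ n.inv = 𝟙 P ≫ b
      simp
    · change (n.inv ≫ c) ≫ (𝟙 M)⟦(1 : ℤ)⟧' = n.inv ≫ c
      rw [CategoryTheory.Functor.map_id, Category.comp_id]
  have hs : ∀ t : {b' : P ⟶ N // dualD a b'}, ∃ n : Aut N, b ≫ n.hom = t.1 := by
    rintro ⟨b', c', hc'⟩
    obtain ⟨c, hc⟩ := h
    let E := isoTriangleOfIso₁₂ _ _ hc hc' (Iso.refl M) (Iso.refl P) (by
      change a ≫ 𝟙 P = 𝟙 M ≫ a
      simp)
    let n : N ≅ N := Triangle.π₃.mapIso E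
    refine ⟨n, ?_⟩
    have h2 : b ≫ n.hom = 𝟙 P ≫ b' := E.hom.comm₂
    rw [Category.id_comp] at h2
    exact h2
  choose s hs using hs
  rw [← Nat.card_prod]
  refine Nat.card_congr
    { toFun := fun p => (p.2.1 ≪≫ s p.1 : N ≅ N)
      invFun := fun n => (⟨b ≫ n.hom, hf n⟩, ⟨(n ≪≫ (s ⟨b ≫ n.hom, hf n⟩).symm : N ≅ N), ?_⟩)
      left_inv := ?_
      right_inv := ?_ }
  · change b ≫ n.hom ≫ (s ⟨b ≫ n.hom, hf n⟩).inv = b
    rw [← Category.assoc, Iso.comp_inv_eq]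
    exact (hs ⟨b ≫ n.hom, hf n⟩).symm
  · rintro ⟨t, k⟩
    have h1 : (⟨b ≫ (k.1 ≪≫ s t : N ≅ N).hom, hf (k.1 ≪≫ s t : N ≅ N)⟩ :
        {b' : P ⟶ N // dualD a b'}) = t := by
      apply Subtype.ext
      change b ≫ k.1.hom ≫ (s t).hom = t.1
      rw [← Category.assoc, k.2, hs]
    apply Prod.ext
    · exact h1
    · apply Subtype.ext
      apply Iso.ext
      change (k.1.hom ≫ (s t).hom) ≫ (s _).inv = k.1.hom
      rw [h1, Category.assoc, Iso.hom_inv_id, Category.comp_id]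
  · intro n
    apply Iso.ext
    change (n.hom ≫ (s ⟨b ≫ n.hom, hf n⟩).inv) ≫ (s ⟨b ≫ n.hom, hf n⟩).hom = n.hom
    rw [Category.assoc, Iso.inv_hom_id, Category.comp_id]

private theorem dual_card_left {M P N : C} {a : M ⟶ P} {b : P ⟶ N} (h : dualD a b) :
    Nat.card {a' : M ⟶ P // dualD a' b} * Nat.card {m : Aut M // m.hom ≫ a = a} =
      Nat.card (Aut M) := by
  have hf : ∀ m : Aut M, dualD (m.hom ≫ a) b := by
    intro m
    obtain ⟨c, hc⟩ := h
    refine ⟨c ≫ m.inv⟦(1 : ℤ)⟧', ?_⟩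
    refine isomorphic_distinguished _ hc _ ?_
    refine Triangle.isoMk _ _ m (Iso.refl _) (Iso.refl _) ?_ ?_ ?_
    · change (m.hom ≫ a) ≫ 𝟙 P = m.hom ≫ a
      simp
    · change b ≫ 𝟙 N = 𝟙 P ≫ b
      simp
    · change (c ≫ m.inv⟦(1 : ℤ)⟧') ≫ m.hom⟦(1 : ℤ)⟧' = 𝟙 N ≫ c
      rw [Category.assoc, ← Functor.map_comp, m.inv_hom_id, CategoryTheory.Functor.map_id,
        Category.comp_id, Category.id_comp]
  have hs : ∀ t : {a' : M ⟶ P // dualD a' b}, ∃ m : Aut M, m.hom ≫ a = t.1 := by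
    rintro ⟨a', c', hc'⟩
    obtain ⟨c, hc⟩ := h
    let E := isoTriangleOfIso₁₂ _ _ (rot_of_distTriang _ hc') (rot_of_distTriang _ hc)
      (Iso.refl P) (Iso.refl N) (by
      change b ≫ 𝟙 N = 𝟙 P ≫ b
      simp)
    let e3 : M⟦(1 : ℤ)⟧ ≅ M⟦(1 : ℤ)⟧ := Triangle.π₃.mapIso E
    refine ⟨(shiftFunctor C (1 : ℤ)).preimageIso e3, ?_⟩
    apply (shiftFunctor C (1 : ℤ)).map_injective
    rw [Functor.map_comp, Functor.preimageIso_hom, Functor.map_preimage]
    have h2 : (-a'⟦(1 : ℤ)⟧') ≫ (𝟙 P)⟦(1 : ℤ)⟧' = e3.hom ≫ (-a⟦(1 : ℤ)⟧') := E.hom.comm₃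
    rw [CategoryTheory.Functor.map_id, Category.comp_id, Preadditive.comp_neg, neg_inj] at h2
    exact h2.symm
  choose s hs using hs
  rw [← Nat.card_prod]
  refine Nat.card_congr
    { toFun := fun p => (s p.1 ≪≫ p.2.1 : M ≅ M)
      invFun := fun m => (⟨m.hom ≫ a, hf m⟩, ⟨((s ⟨m.hom ≫ a, hf m⟩).symm ≪≫ m : M ≅ M), ?_⟩)
      left_inv := ?_
      right_inv := ?_ }
  · change ((s ⟨m.hom ≫ a, hf m⟩).inv ≫ m.hom) ≫ a = a
    rw [Category.assoc, Iso.inv_comp_eq]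
    exact (hs ⟨m.hom ≫ a, hf m⟩).symm
  · rintro ⟨t, k⟩
    have h1 : (⟨(s t ≪≫ k.1 : M ≅ M).hom ≫ a, hf (s t ≪≫ k.1 : M ≅ M)⟩ :
        {a' : M ⟶ P // dualD a' b}) = t := by
      apply Subtype.ext
      change ((s t).hom ≫ k.1.hom) ≫ a = t.1
      rw [Category.assoc, k.2, hs]
    apply Prod.ext
    · exact h1
    · apply Subtype.ext
      apply Iso.ext
      change (s _).inv ≫ (s t).hom ≫ k.1.hom = k.1.hom
      rw [h1, Iso.inv_hom_id_assoc]
  · intro m
    apply Iso.ext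
    change (s ⟨m.hom ≫ a, hf m⟩).hom ≫ (s ⟨m.hom ≫ a, hf m⟩).inv ≫ m.hom = m.hom
    rw [Iso.hom_inv_id_assoc]

open Classical in
private theorem dual_sum {β : Type*} [Fintype β] (D : β → Prop) (f : β → ℕ) (n : ℕ)
    (hne : ∃ b, D b) (h : ∀ b, D b → Nat.card {b' // D b'} * f b = n) :
    ∑ b, (if D b then (f b : ℚ) else 0) = n := by
  obtain ⟨b0, hb0⟩ := hne
  have hpos : 0 < Nat.card {b' // D b'} := by
    have : Nonempty {b' // D b'} := ⟨⟨b0, hb0⟩⟩
    exact Nat.card_pos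
  have h1 : ∀ b, D b → f b = f b0 := fun b hb =>
    Nat.eq_of_mul_eq_mul_left hpos ((h b hb).trans (h b0 hb0).symm)
  have h2 : ∑ b, (if D b then (f b : ℚ) else 0) = ∑ b, (if D b then (f b0 : ℚ) else 0) := by
    refine Finset.sum_congr rfl fun b _ => ?_
    split_ifs with hb
    · rw [h1 b hb]
    · rfl
  rw [h2, ← Finset.sum_filter, Finset.sum_const, nsmul_eq_mul, ← h b0 hb0, Nat.card_eq_fintype_card,
    Fintype.card_subtype]
  push_cast
  rfl

open Classical in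
private theorem dual_count {α β : Type*} [Fintype α] [Fintype β] (D : α → β → Prop)
    (S A : Set α) (hS : ∀ a, a ∈ S ↔ ∃ b, D a b) (f : β → ℕ) (n : ℕ)
    (h : ∀ a b, D a b → Nat.card {b' // D a b'} * f b = n) :
    (Nat.card ↥(S ∩ A) : ℚ) * n = ∑ a, ∑ b, (if D a b ∧ a ∈ A then (f b : ℚ) else 0) := by
  have h1 : ∀ a, ∑ b, (if D a b ∧ a ∈ A then (f b : ℚ) else 0) =
      if a ∈ S ∩ A then (n : ℚ) else 0 := by
    intro a
    by_cases ha : a ∈ S ∩ A
    · rw [if_pos ha, ← dual_sum (D a) f n ((hS a).1 ha.1) (h a)]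
      refine Finset.sum_congr rfl fun b _ => ?_
      simp [ha.2]
    · rw [if_neg ha]
      refine Finset.sum_eq_zero fun b _ => ?_
      rw [if_neg]
      rintro ⟨hb, haA⟩
      exact ha ⟨(hS a).2 ⟨b, hb⟩, haA⟩
  simp only [h1]
  rw [← Finset.sum_filter, Finset.sum_const, nsmul_eq_mul]
  congr 2
  rw [Nat.card_eq_fintype_card, Fintype.card_subtype]

variable [Finitary C]

/- PROOF.  For `a : M ⟶ P` let `F a = {b : P ⟶ N | ∃ c, (a, b, c) distinguished}` and for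
`b : P ⟶ N` let `G b = {a : M ⟶ P | ∃ c, (a, b, c) distinguished}`; let
`T = {(a, b) | ∃ c, (a, b, c) distinguished, a ∈ 𝒜}`, which by `h` is also
`{(a, b) | ∃ c, (a, b, c) distinguished, b ∈ ℬ}`.  The projection of `T` to the first coordinate
is `coneSet M N P ∩ 𝒜` with fibres `F a`, the projection to the second coordinate is
`fibSet P N M ∩ ℬ` with fibres `G b`.
(1) For `b ∈ F a`: `|F a| |Stab b| = |Aut N|`, `Stab b = {n : Aut N | b n = b}`.  Indeed `Aut N`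
acts transitively on `F a` by `b ↦ b n`: `(a, b n, n⁻¹ c)` is isomorphic to `(a, b, c)`, and if
`(a, b', c')` is distinguished then there is an isomorphism of triangles `(a,b,c) ≅ (a,b',c')`
which is the identity on `M` and `P` (`isoTriangleOfIso₁₂`), i.e. `n : Aut N` with `b n = b'`.
(2) Similarly for `a ∈ G b`: `|G b| |Stab a| = |Aut M|`, `Stab a = {m : Aut M | m a = a}`
(`isoTriangleOfIso₂₃`).
(3) For `(a, b) ∈ T` with third morphism `c` let `s` be the number of `v : M⟦1⟧ ⟶ N` such that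
`1 + c v` is invertible; by `isIso_one_add_comm` it is the number of `v` with `1 + v c` invertible.
By `card_stab_right`, `card_stab_left`: `|Stab b| |K₁| = s = |Stab a| |K₂|`, and by `card_K1`,
`card_K2`: `|K₁| {M⟦1⟧,N} {P,N} = {N,N}`, `|K₂| {M⟦1⟧,N} {M,P} = {M,M}`.  Hence
`|Stab b| {N,N} / {P,N} = |Stab a| {M,M} / {M,P}`.
(4) `|coneSet M N P ∩ 𝒜| = ∑_{(a,b) ∈ T} 1 / |F a| = ∑_{(a,b) ∈ T} |Stab b| / |Aut N|` and
`|fibSet P N M ∩ ℬ| = ∑_{(a,b) ∈ T} |Stab a| / |Aut M|`.  With (3), the first sum times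
`{M,P} / (|Aut M| {M,M})` equals the second one times `{P,N} / (|Aut N| {N,N})`. -/
/-- Refined duality: `𝒜` and `ℬ` are conditions on the first and on the second morphism of a
distinguished triangle `M → P → N → M[1]` which are equivalent. -/
theorem dual (M P N : C) (𝒜 : Set (M ⟶ P)) (ℬ : Set (P ⟶ N))
    (h : ∀ (a : M ⟶ P) (b : P ⟶ N) (c : N ⟶ M⟦(1 : ℤ)⟧),
      Triangle.mk a b c ∈ distTriang C → (a ∈ 𝒜 ↔ b ∈ ℬ)) :
    (Nat.card ↥(coneSet M N P ∩ 𝒜) : ℚ) * neg M P / ((Nat.card (Aut M) : ℚ) * neg M M) =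
      (Nat.card ↥(fibSet P N M ∩ ℬ) : ℚ) * neg P N / ((Nat.card (Aut N) : ℚ) * neg N N) := by
  classical
  have i1 : Fintype (M ⟶ P) := Fintype.ofFinite _
  have i2 : Fintype (P ⟶ N) := Fintype.ofFinite _
  have hAutM : Finite (Aut M) := by
    apply Finite.of_injective (fun e : Aut M => e.hom)
    intro e e' h
    exact Iso.ext h
  have hAutN : Finite (Aut N) := by
    apply Finite.of_injective (fun e : Aut N => e.hom)
    intro e e' h
    exact Iso.ext h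
  have hM0 : (Nat.card (Aut M) : ℚ) ≠ 0 := by
    have : 0 < Nat.card (Aut M) := Nat.card_pos
    exact_mod_cast this.ne'
  have hN0 : (Nat.card (Aut N) : ℚ) ≠ 0 := by
    have : 0 < Nat.card (Aut N) := Nat.card_pos
    exact_mod_cast this.ne'
  have hMM : neg M M ≠ 0 := (neg_pos M M).ne'
  have hNN : neg N N ≠ 0 := (neg_pos N N).ne'
  have key : ∀ (a : M ⟶ P) (b : P ⟶ N), dualD a b →
      (Nat.card {n : Aut N // b ≫ n.hom = b} : ℚ) * (neg N N * neg M P) =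
        (Nat.card {m : Aut M // m.hom ≫ a = a} : ℚ) * (neg M M * neg P N) := by
    rintro a b ⟨c, hc⟩
    have e1 := card_stab_right a b c hc
    have e2 := card_stab_left a b c hc
    have e3 : Nat.card {v : M⟦(1 : ℤ)⟧ ⟶ N // IsIso (𝟙 N + c ≫ v)} =
        Nat.card {v : M⟦(1 : ℤ)⟧ ⟶ N // IsIso (𝟙 (M⟦(1 : ℤ)⟧) + v ≫ c)} :=
      Nat.card_congr (Equiv.subtypeEquivRight fun v => isIso_one_add_comm c v)
    have e4 := card_K1 a b c hc
    have e5 := card_K2 a b c hc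
    have e6 : (Nat.card {n : Aut N // b ≫ n.hom = b} : ℚ) *
        Nat.card {v : M⟦(1 : ℤ)⟧ ⟶ N // c ≫ v = 0} =
        Nat.card {m : Aut M // m.hom ≫ a = a} * Nat.card {v : M⟦(1 : ℤ)⟧ ⟶ N // v ≫ c = 0} := by
      have e7 := e1.trans (e3.trans e2.symm)
      exact_mod_cast e7
    rw [← e4, ← e5]
    linear_combination (neg (M⟦(1 : ℤ)⟧) N * neg P N * neg M P) * e6
  have hA := dual_count (fun (a : M ⟶ P) (b : P ⟶ N) => dualD a b) (coneSet M N P) 𝒜
    (fun a => Iff.rfl) (fun b => Nat.card {n : Aut N // b ≫ n.hom = b}) (Nat.card (Aut N))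
    (fun a b hab => dual_card_right hab)
  have hB := dual_count (fun (b : P ⟶ N) (a : M ⟶ P) => dualD a b) (fibSet P N M) ℬ
    (fun b => Iff.rfl) (fun a => Nat.card {m : Aut M // m.hom ≫ a = a}) (Nat.card (Aut M))
    (fun b a hab => dual_card_left hab)
  have hAB : (Nat.card ↥(coneSet M N P ∩ 𝒜) : ℚ) * Nat.card (Aut N) * (neg N N * neg M P) =
      (Nat.card ↥(fibSet P N M ∩ ℬ) : ℚ) * Nat.card (Aut M) * (neg M M * neg P N) := by
    rw [hA, hB, Finset.sum_comm (s := (Finset.univ : Finset (P ⟶ N))), Finset.sum_mul,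
      Finset.sum_mul]
    refine Finset.sum_congr rfl fun a _ => ?_
    rw [Finset.sum_mul, Finset.sum_mul]
    refine Finset.sum_congr rfl fun b _ => ?_
    by_cases hab : dualD a b
    · have hiff : a ∈ 𝒜 ↔ b ∈ ℬ := by
        obtain ⟨c, hc⟩ := hab
        exact h a b c hc
      by_cases ha : a ∈ 𝒜
      · rw [if_pos ⟨hab, ha⟩, if_pos ⟨hab, hiff.1 ha⟩]
        exact key a b hab
      · rw [if_neg fun h' => ha h'.2, if_neg fun h' => ha (hiff.2 h'.2)]
        simp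
    · rw [if_neg fun h' => hab h'.1, if_neg fun h' => hab h'.1]
      simp
  rw [div_eq_div_iff (mul_ne_zero hM0 hMM) (mul_ne_zero hN0 hNN)]
  linear_combination hAB

/-- The dual formula for the structure constant. -/
theorem toen_eq_dual (X Y Z : C) :
    toen X Y Z = (Nat.card ↥(fibSet Z Y X) : ℚ) * neg Z Y / ((Nat.card (Aut Y) : ℚ) * neg Y Y) := by
  have h := dual X Z Y Set.univ Set.univ (fun _ _ _ _ => Iff.rfl)
  simp only [Set.inter_univ] at h
  rw [← h, toen]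
  ring

end Pool.Agent.NG
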