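import Mathlib
import Pool.Agent.NG.TBasic

/-!
# Additivity of the Euler form
-/

open CategoryTheory CategoryTheory.Limits CategoryTheory.Pretriangulated

namespace Pool.Agent.NG

universe v u w

/-! ### Finite products -/

private theorem fin_supp {f : ℤ → ℚ} {N : ℕ} (h : ∀ n : ℤ, (N : ℤ) ≤ |n| → f n = 1) :
    (Function.mulSupport (fun i : ℤ => alt i (f i))).Finite := by
  refine (Set.finite_Icc (-(N : ℤ)) N).subset ?_
  intro n hn
  by_contra hcon
  refine hn ?_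
  show alt n (f n) = 1
  rw [h n ?_, alt_one]
  rw [Set.mem_Icc, not_and_or, not_le, not_le] at hcon
  rcases hcon with h1 | h1
  · have := neg_abs_le n
    omega
  · have := le_abs_self n
    omega

private theorem eul_tele {a b d k : ℤ → ℚ} {N : ℕ} (ha : ∀ n : ℤ, (N : ℤ) ≤ |n| → a n = 1)
    (hb : ∀ n : ℤ, (N : ℤ) ≤ |n| → b n = 1) (hd : ∀ n : ℤ, (N : ℤ) ≤ |n| → d n = 1)
    (hk : ∀ n : ℤ, (N : ℤ) ≤ |n| → k n = 1) (hk0 : ∀ n, 0 < k n)
    (h : ∀ n, b n * (k n * k (n + 1)) = a n * d n) :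
    ∏ᶠ i : ℤ, alt i (b i) = (∏ᶠ i : ℤ, alt i (a i)) * ∏ᶠ i : ℤ, alt i (d i) := by
  have hk' : ∀ n : ℤ, ((N + 1 : ℕ) : ℤ) ≤ |n| → k (n + 1) = 1 := by
    intro n hn
    apply hk
    have h1 : |n| ≤ |n + 1| + 1 := by
      have h2 := abs_sub (n + 1) 1
      rw [add_sub_cancel_right, abs_one] at h2
      exact h2
    push_cast at hn
    omega
  rw [← finprod_mul_distrib (fin_supp ha) (fin_supp hd)]
  have h1 : (fun i : ℤ => alt i (a i) * alt i (d i)) =
      fun i : ℤ => alt i (b i) * (alt i (k i) * alt i (k (i + 1))) := by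
    funext i
    rw [← alt_mul, ← h i, alt_mul, alt_mul]
  have h2 : (∏ᶠ i : ℤ, alt i (k (i + 1))) = (∏ᶠ i : ℤ, alt i (k i))⁻¹ := by
    rw [← finprod_comp_equiv (Equiv.addRight (1 : ℤ)) (f := fun i : ℤ => alt i (k i)),
      ← finprod_inv_distrib]
    refine finprod_congr ?_
    intro i
    show alt i (k (i + 1)) = (alt (i + 1) (k (i + 1)))⁻¹
    rw [alt_succ, inv_inv]
  have h3 : 0 < ∏ᶠ i : ℤ, alt i (k i) :=
    finprod_induction (fun x : ℚ => 0 < x) one_pos (fun _ _ => mul_pos)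
      (fun i => alt_pos i (hk0 i))
  have h4 : (Function.mulSupport (fun i : ℤ => alt i (k i) * alt i (k (i + 1)))).Finite :=
    ((fin_supp hk).union (fin_supp hk')).subset (Function.mulSupport_mul _ _)
  rw [finprod_congr (fun i => congrFun h1 i), finprod_mul_distrib (fin_supp hb) h4,
    finprod_mul_distrib (fin_supp hk) (fin_supp hk'), h2, mul_inv_cancel₀ h3.ne', mul_one]

/-! ### Exactness -/

private theorem card_hom {G H : Type*} [AddGroup G] [AddGroup H] (f : G →+ H) :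
    Nat.card G = Nat.card f.ker * Nat.card f.range := by
  rw [AddSubgroup.card_eq_card_quotient_mul_card_addSubgroup f.ker, mul_comm]
  congr 1
  exact Nat.card_congr (QuotientAddGroup.quotientKerEquivRange f).toEquiv

variable {C : Type u} [Category.{v} C] [Preadditive C] [HasZeroObject C] [HasShift C ℤ]
  [∀ n : ℤ, (shiftFunctor C n).Additive] [Pretriangulated C]

/-- the number of morphisms `D ⟶ X` killed by `v` -/
private noncomputable def kv {B D : C} (v : B ⟶ D) (X : C) : ℕ :=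
  Nat.card (Preadditive.leftComp X v).ker

private theorem kv_congr {B D : C} (v : B ⟶ D) {X Y : C} (e : X ≅ Y) : kv v X = kv v Y := by
  refine Nat.card_congr
    { toFun := fun g => ⟨g.1 ≫ e.hom, ?_⟩
      invFun := fun g => ⟨g.1 ≫ e.inv, ?_⟩
      left_inv := fun g => ?_
      right_inv := fun g => ?_ }
  · have h := g.2
    rw [AddMonoidHom.mem_ker] at h ⊢
    have h' : v ≫ g.1 = 0 := h
    show v ≫ g.1 ≫ e.hom = 0
    rw [← Category.assoc, h', zero_comp]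
  · have h := g.2
    rw [AddMonoidHom.mem_ker] at h ⊢
    have h' : v ≫ g.1 = 0 := h
    show v ≫ g.1 ≫ e.inv = 0
    rw [← Category.assoc, h', zero_comp]
  · exact Subtype.ext (by simp)
  · exact Subtype.ext (by simp)

/-- the connecting homomorphism -/
private noncomputable def delta {A D : C} (w : D ⟶ A⟦(1 : ℤ)⟧) (X : C) :
    (A ⟶ X) →+ (D ⟶ X⟦(1 : ℤ)⟧) :=
  AddMonoidHom.mk' (fun h => w ≫ h⟦(1 : ℤ)⟧') (fun h h' => by
    rw [Functor.map_add, Preadditive.comp_add])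

variable {A B D : C} (u : A ⟶ B) (v : B ⟶ D) (w : D ⟶ A⟦(1 : ℤ)⟧)
    (hT : Triangle.mk u v w ∈ distTriang C)

include hT in
private theorem ker_u (X : C) :
    (Preadditive.leftComp X u).ker = (Preadditive.leftComp X v).range := by
  ext f
  rw [AddMonoidHom.mem_ker, AddMonoidHom.mem_range]
  constructor
  · intro h
    obtain ⟨g, hg⟩ := Triangle.yoneda_exact₂ _ hT f h
    exact ⟨g, hg.symm⟩
  · rintro ⟨g, rfl⟩
    show u ≫ v ≫ g = 0
    rw [← Category.assoc, show u ≫ v = 0 from comp_distTriang_mor_zero₁₂ _ hT, zero_comp]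

include hT in
private theorem ker_v (X : C) :
    (Preadditive.leftComp (X⟦(1 : ℤ)⟧) v).ker = (delta w X).range := by
  ext f
  rw [AddMonoidHom.mem_ker, AddMonoidHom.mem_range]
  constructor
  · intro h
    obtain ⟨g, hg⟩ : ∃ g : A⟦(1 : ℤ)⟧ ⟶ X⟦(1 : ℤ)⟧, f = w ≫ g :=
      Triangle.yoneda_exact₃ _ hT f h
    obtain ⟨g', hg'⟩ := (shiftFunctor C (1 : ℤ)).map_surjective g
    refine ⟨g', ?_⟩
    show w ≫ (shiftFunctor C (1 : ℤ)).map g' = f
    rw [hg']
    exact hg.symm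
  · rintro ⟨g, rfl⟩
    show v ≫ w ≫ (shiftFunctor C (1 : ℤ)).map g = 0
    rw [← Category.assoc, show v ≫ w = 0 from comp_distTriang_mor_zero₂₃ _ hT, zero_comp]

include hT in
private theorem ker_delta (X : C) : (delta w X).ker = (Preadditive.leftComp X u).range := by
  ext f
  rw [AddMonoidHom.mem_ker, AddMonoidHom.mem_range]
  constructor
  · intro h
    have h' : w ≫ (shiftFunctor C (1 : ℤ)).map f = 0 := h
    obtain ⟨g, hg⟩ : ∃ g : B⟦(1 : ℤ)⟧ ⟶ X⟦(1 : ℤ)⟧,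
        (shiftFunctor C (1 : ℤ)).map f = (-(shiftFunctor C (1 : ℤ)).map u) ≫ g :=
      Triangle.yoneda_exact₃ _ (rot_of_distTriang _ hT) ((shiftFunctor C (1 : ℤ)).map f) h'
    obtain ⟨g', hg'⟩ := (shiftFunctor C (1 : ℤ)).map_surjective (-g)
    refine ⟨g', (shiftFunctor C (1 : ℤ)).map_injective ?_⟩
    show (shiftFunctor C (1 : ℤ)).map (u ≫ g') = (shiftFunctor C (1 : ℤ)).map f
    rw [Functor.map_comp, hg', hg, Preadditive.comp_neg, Preadditive.neg_comp]
  · rintro ⟨g, rfl⟩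
    show w ≫ (shiftFunctor C (1 : ℤ)).map (u ≫ g) = 0
    rw [Functor.map_comp, ← Category.assoc,
      show w ≫ (shiftFunctor C (1 : ℤ)).map u = 0 from comp_distTriang_mor_zero₃₁ _ hT, zero_comp]

include hT in
private theorem card_rel (X : C) :
    Nat.card (B ⟶ X) * (kv v X * kv v (X⟦(1 : ℤ)⟧)) = Nat.card (A ⟶ X) * Nat.card (D ⟶ X) := by
  rw [card_hom (Preadditive.leftComp X u), card_hom (Preadditive.leftComp X v),
    card_hom (delta w X), ker_u u v w hT X, ker_delta u v w hT X, ← ker_v u v w hT X]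
  unfold kv
  ring

variable [Finitary C]

/- PROOF.  The argument of `EulAddR.lean` (read it) with the contravariant functors
`Hom(-, W⟦n⟧)`: for `n : ℤ` let `a n = |ker (Hom(B, W⟦n⟧) → Hom(A, W⟦n⟧))|`.  Then
`|Hom(B, W⟦n⟧)| = a n * |im|` with `a n = |im (Hom(D, W⟦n⟧) → Hom(B, W⟦n⟧))|
 = |Hom(D, W⟦n⟧)| / |im (Hom(A⟦1⟧, W⟦n⟧) → Hom(D, W⟦n⟧))|`, etc.; telescoping. -/
theorem eul_add_left {A B D : C} (u : A ⟶ B) (v : B ⟶ D) (w : D ⟶ A⟦(1 : ℤ)⟧)
    (hT : Triangle.mk u v w ∈ distTriang C) (W : C) : eul B W = eul A W * eul D W := by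
  obtain ⟨N1, h1⟩ := hn_eq_one A W
  obtain ⟨N2, h2⟩ := hn_eq_one B W
  obtain ⟨N3, h3⟩ := hn_eq_one D W
  have hle : ∀ n : ℤ, ((N1 + N2 + N3 : ℕ) : ℤ) ≤ |n| →
      (N1 : ℤ) ≤ |n| ∧ (N2 : ℤ) ≤ |n| ∧ (N3 : ℤ) ≤ |n| := by
    intro n hn
    push_cast at hn
    refine ⟨?_, ?_, ?_⟩ <;> omega
  refine eul_tele (N := N1 + N2 + N3) (k := fun n => (kv v (W⟦n⟧) : ℚ))
    (fun n hn => h1 n (hle n hn).1) (fun n hn => h2 n (hle n hn).2.1)
    (fun n hn => h3 n (hle n hn).2.2) ?_ ?_ ?_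
  · intro n hn'
    have h4 := h3 n (hle n hn').2.2
    have h5 : Nat.card (D ⟶ W⟦n⟧) = 1 := by
      unfold hn at h4
      exact_mod_cast h4
    have h6 := card_hom (Preadditive.leftComp (W⟦n⟧) v)
    rw [h5] at h6
    have h7 : kv v (W⟦n⟧) = 1 := Nat.eq_one_of_mul_eq_one_right h6.symm
    show ((kv v (W⟦n⟧) : ℕ) : ℚ) = 1
    rw [h7, Nat.cast_one]
  · intro n
    show (0 : ℚ) < ((kv v (W⟦n⟧) : ℕ) : ℚ)
    exact_mod_cast Nat.card_pos
  · intro n
    have h4 := card_rel u v w hT (W⟦n⟧)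
    have h5 : kv v ((W⟦n⟧)⟦(1 : ℤ)⟧) = kv v (W⟦n + 1⟧) :=
      kv_congr v ((shiftFunctorAdd C n 1).app W).symm
    rw [h5] at h4
    unfold hn
    exact_mod_cast h4

end Pool.Agent.NG
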