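import Mathlib
import Pool.Agent.NG.TBasic

/-!
# Additivity of the Euler form
-/

open CategoryTheory CategoryTheory.Limits CategoryTheory.Pretriangulated

namespace Pool.Agent.NG

universe v u w

variable {C : Type u} [Category.{v} C] [Preadditive C] [HasZeroObject C] [HasShift C ℤ]
  [∀ n : ℤ, (shiftFunctor C n).Additive] [Pretriangulated C] [Finitary C]

private theorem card_ker_range {G H : Type*} [AddGroup G] [AddGroup H] (φ : G →+ H) :
    Nat.card G = Nat.card φ.ker * Nat.card φ.range := by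
  rw [← AddSubgroup.card_mul_index φ.ker, AddSubgroup.index_ker]

/-- the counting lemma for one triangle -/
private theorem count_triangle (T : Triangle C) (hT : T ∈ distTriang C) (W : C) :
    Nat.card (W ⟶ T.obj₂) * Nat.card {f : W ⟶ T.obj₁ // f ≫ T.mor₁ = 0} *
      Nat.card {f : W ⟶ T.obj₁⟦(1 : ℤ)⟧ // f ≫ T.mor₁⟦(1 : ℤ)⟧' = 0} =
      Nat.card (W ⟶ T.obj₁) * Nat.card (W ⟶ T.obj₃) := by
  have r12 : (Preadditive.rightComp W T.mor₁).range = (Preadditive.rightComp W T.mor₂).ker := by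
    ext f
    rw [AddMonoidHom.mem_range, AddMonoidHom.mem_ker]
    constructor
    · rintro ⟨g, rfl⟩
      show (g ≫ T.mor₁) ≫ T.mor₂ = 0
      rw [Category.assoc, comp_distTriang_mor_zero₁₂ _ hT, comp_zero]
    · intro h
      obtain ⟨g, hg⟩ := T.coyoneda_exact₂ hT f h
      exact ⟨g, hg.symm⟩
  have r23 : (Preadditive.rightComp W T.mor₂).range = (Preadditive.rightComp W T.mor₃).ker := by
    ext f
    rw [AddMonoidHom.mem_range, AddMonoidHom.mem_ker]
    constructor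
    · rintro ⟨g, rfl⟩
      show (g ≫ T.mor₂) ≫ T.mor₃ = 0
      rw [Category.assoc, comp_distTriang_mor_zero₂₃ _ hT, comp_zero]
    · intro h
      obtain ⟨g, hg⟩ := T.coyoneda_exact₃ hT f h
      exact ⟨g, hg.symm⟩
  have r31 : (Preadditive.rightComp W T.mor₃).range =
      (Preadditive.rightComp W (T.mor₁⟦(1 : ℤ)⟧')).ker := by
    ext f
    rw [AddMonoidHom.mem_range, AddMonoidHom.mem_ker]
    constructor
    · rintro ⟨g, rfl⟩
      show (g ≫ T.mor₃) ≫ T.mor₁⟦(1 : ℤ)⟧' = 0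
      rw [Category.assoc, comp_distTriang_mor_zero₃₁ _ hT, comp_zero]
    · intro h
      obtain ⟨g, hg⟩ := T.coyoneda_exact₁ hT f h
      exact ⟨g, hg.symm⟩
  have k1 : Nat.card {f : W ⟶ T.obj₁ // f ≫ T.mor₁ = 0} =
      Nat.card (Preadditive.rightComp W T.mor₁).ker := rfl
  have k2 : Nat.card {f : W ⟶ T.obj₁⟦(1 : ℤ)⟧ // f ≫ T.mor₁⟦(1 : ℤ)⟧' = 0} =
      Nat.card (Preadditive.rightComp W (T.mor₁⟦(1 : ℤ)⟧')).ker := rfl
  have c1 := card_ker_range (Preadditive.rightComp W T.mor₁)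
  have c2 := card_ker_range (Preadditive.rightComp W T.mor₂)
  have c3 := card_ker_range (Preadditive.rightComp W T.mor₃)
  rw [← r12] at c2
  rw [← r23, r31] at c3
  rw [k1, k2, c1, c2, c3]
  ring

/-- the kernels -/
private noncomputable def ka {A B : C} (u : A ⟶ B) (W : C) (n : ℤ) : ℕ :=
  Nat.card {f : W ⟶ A⟦n⟧ // f ≫ u⟦n⟧' = 0}

private theorem ka_eq {A B : C} (u : A ⟶ B) (W : C) (n : ℤ) :
    Nat.card {f : W ⟶ (A⟦n⟧)⟦(1 : ℤ)⟧ // f ≫ (n.negOnePow • u⟦n⟧')⟦(1 : ℤ)⟧' = 0} =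
      ka u W (n + 1) := by
  unfold ka
  symm
  refine Nat.card_congr (Equiv.subtypeEquiv
    ((Iso.refl W).homCongr ((shiftFunctorAdd C n 1).app A)) fun f => ?_)
  have h1 : (shiftFunctorAdd C n 1).hom.app A ≫ (u⟦n⟧')⟦(1 : ℤ)⟧' =
      u⟦n + 1⟧' ≫ (shiftFunctorAdd C n 1).hom.app B :=
    ((shiftFunctorAdd C n 1).hom.naturality u).symm
  have h2 : ((Iso.refl W).homCongr ((shiftFunctorAdd C n 1).app A)) f =
      f ≫ (shiftFunctorAdd C n 1).hom.app A := by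
    simp [Iso.homCongr]
  rw [h2]
  have h3 : (n.negOnePow • u⟦n⟧')⟦(1 : ℤ)⟧' = n.negOnePow • (u⟦n⟧')⟦(1 : ℤ)⟧' := by
    rw [Functor.map_units_smul]
  rw [h3, Linear.comp_units_smul, smul_eq_zero_iff_eq, Category.assoc, h1, ← Category.assoc]
  constructor
  · intro h
    rw [h, zero_comp]
  · intro h
    rw [← cancel_mono ((shiftFunctorAdd C n 1).hom.app B), h, zero_comp]

private theorem ka_pos {A B : C} (u : A ⟶ B) (W : C) (n : ℤ) : 0 < ka u W n := by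
  unfold ka
  have : Nonempty {f : W ⟶ A⟦n⟧ // f ≫ u⟦n⟧' = 0} := ⟨⟨0, zero_comp⟩⟩
  exact Nat.card_pos

private theorem ka_one {A B : C} (u : A ⟶ B) (W : C) :
    ∃ N : ℕ, ∀ n : ℤ, (N : ℤ) ≤ |n| → ka u W n = 1 := by
  obtain ⟨N, hN⟩ := Finitary.bounded W A
  refine ⟨N, fun n hn => ?_⟩
  unfold ka
  rw [Nat.card_eq_one_iff_unique]
  refine ⟨⟨fun f g => Subtype.ext ?_⟩, ⟨⟨0, zero_comp⟩⟩⟩
  rw [hN n hn f.1, hN n hn g.1]

private theorem count {A B D : C} (u : A ⟶ B) (v : B ⟶ D) (w : D ⟶ A⟦(1 : ℤ)⟧)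
    (hT : Triangle.mk u v w ∈ distTriang C) (W : C) (n : ℤ) :
    hn W B n * ((ka u W n : ℚ) * (ka u W (n + 1) : ℚ)) = hn W A n * hn W D n := by
  have h := count_triangle _ (Triangle.shift_distinguished _ hT n) W
  have h1 : Nat.card {f : W ⟶ A⟦n⟧ // f ≫ (n.negOnePow • u⟦n⟧') = 0} = ka u W n := by
    unfold ka
    refine Nat.card_congr (Equiv.subtypeEquiv (Equiv.refl _) fun f => ?_)
    rw [Linear.comp_units_smul, smul_eq_zero_iff_eq]
    rfl
  have h2 : Nat.card (W ⟶ B⟦n⟧) * ka u W n * ka u W (n + 1) =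
      Nat.card (W ⟶ A⟦n⟧) * Nat.card (W ⟶ D⟦n⟧) := by
    rw [← h1, ← ka_eq]
    exact h
  unfold hn
  rw [← mul_assoc]
  exact_mod_cast h2

private theorem fin_suppR {f : ℤ → ℚ} (h : ∃ N : ℕ, ∀ n : ℤ, (N : ℤ) ≤ |n| → f n = 1) :
    Function.HasFiniteMulSupport fun n => alt n (f n) := by
  obtain ⟨N, hN⟩ := h
  apply (Set.finite_Icc (-(N : ℤ)) N).subset
  intro n hn
  rw [Function.mem_mulSupport] at hn
  by_contra h2
  apply hn
  rw [hN n, alt_one]
  by_contra h3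
  apply h2
  rw [not_le, abs_lt] at h3
  exact ⟨h3.1.le, h3.2.le⟩

theorem eul_add_right {A B D : C} (u : A ⟶ B) (v : B ⟶ D) (w : D ⟶ A⟦(1 : ℤ)⟧)
    (hT : Triangle.mk u v w ∈ distTriang C) (W : C) : eul W B = eul W A * eul W D := by
  have hk := fin_suppR (f := fun n => (ka u W n : ℚ)) (by
    obtain ⟨N, hN⟩ := ka_one u W
    exact ⟨N, fun n hn => by rw [hN n hn, Nat.cast_one]⟩)
  have hk' : Function.HasFiniteMulSupport fun n : ℤ => (alt (n + 1) (ka u W (n + 1) : ℚ))⁻¹ := by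
    have h1 : Function.HasFiniteMulSupport fun n : ℤ => alt (n + 1) (ka u W (n + 1) : ℚ) := by
      have h2 : (Function.mulSupport fun n : ℤ => alt (n + 1) (ka u W (n + 1) : ℚ)) =
          (Equiv.addRight (1 : ℤ)) ⁻¹' (Function.mulSupport fun n : ℤ => alt n (ka u W n : ℚ)) := rfl
      show (Function.mulSupport _).Finite
      rw [h2]
      exact Set.Finite.preimage (Equiv.addRight (1 : ℤ)).injective.injOn hk
    exact h1.fun_inv
  have hA := fin_suppR (hn_eq_one W A)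
  have hB := fin_suppR (hn_eq_one W B)
  have hD := fin_suppR (hn_eq_one W D)
  have key : ∀ n : ℤ, alt n (hn W B n) * (alt n (ka u W n : ℚ) *
      (alt (n + 1) (ka u W (n + 1) : ℚ))⁻¹) = alt n (hn W A n) * alt n (hn W D n) := by
    intro n
    rw [alt_succ, inv_inv, ← alt_mul, ← alt_mul, ← alt_mul, count u v w hT W n]
  have e1 : ∏ᶠ n : ℤ, (alt n (hn W B n) * (alt n (ka u W n : ℚ) *
      (alt (n + 1) (ka u W (n + 1) : ℚ))⁻¹)) = ∏ᶠ n : ℤ, (alt n (hn W A n) * alt n (hn W D n)) :=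
    finprod_congr key
  rw [finprod_mul_distrib hA hD, finprod_mul_distrib hB (hk.fun_mul hk'),
    finprod_mul_distrib hk hk', finprod_inv_distrib] at e1
  have e2 : ∏ᶠ n : ℤ, alt (n + 1) (ka u W (n + 1) : ℚ) = ∏ᶠ n : ℤ, alt n (ka u W n : ℚ) :=
    finprod_comp_equiv (Equiv.addRight (1 : ℤ)) (f := fun n => alt n (ka u W n : ℚ))
  have e3 : 0 < ∏ᶠ n : ℤ, alt n (ka u W n : ℚ) :=
    finprod_induction (fun x : ℚ => 0 < x) zero_lt_one (fun x y => mul_pos)
      fun n => alt_pos n (by exact_mod_cast ka_pos u W n)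
  rw [e2, mul_inv_cancel₀ e3.ne', mul_one] at e1
  exact e1

end Pool.Agent.NG
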