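import Mathlib
import Pool.Agent.NG.TDefs

/-!
# Cones and fibres
-/

open CategoryTheory CategoryTheory.Limits CategoryTheory.Pretriangulated

namespace Pool.Agent.NG

universe v u w

variable {C : Type u} [Category.{v} C] [Preadditive C] [HasZeroObject C] [HasShift C ℤ]
  [∀ n : ℤ, (shiftFunctor C n).Additive] [Pretriangulated C]

/-- Membership in `coneSet` only depends on the cone up to isomorphism, and cones are unique. -/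
theorem coneSet_iso {X Y Y' Z : C} (e : Y ≅ Y') : coneSet X Y Z = coneSet X Y' Z := by
  ext f
  constructor
  · rintro ⟨g, h, hT⟩
    refine ⟨g ≫ e.hom, e.inv ≫ h, isomorphic_distinguished _ hT _ ?_⟩
    refine Triangle.isoMk _ _ (Iso.refl X) (Iso.refl Z) e.symm ?_ ?_ ?_
    · change f ≫ 𝟙 Z = 𝟙 X ≫ f
      simp
    · change (g ≫ e.hom) ≫ e.inv = 𝟙 Z ≫ g
      simp
    · change (e.inv ≫ h) ≫ (𝟙 X)⟦(1 : ℤ)⟧' = e.inv ≫ h
      simp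
  · rintro ⟨g, h, hT⟩
    refine ⟨g ≫ e.inv, e.hom ≫ h, isomorphic_distinguished _ hT _ ?_⟩
    refine Triangle.isoMk _ _ (Iso.refl X) (Iso.refl Z) e ?_ ?_ ?_
    · change f ≫ 𝟙 Z = 𝟙 X ≫ f
      simp
    · change (g ≫ e.inv) ≫ e.hom = 𝟙 Z ≫ g
      simp
    · change (e.hom ≫ h) ≫ (𝟙 X)⟦(1 : ℤ)⟧' = e.hom ≫ h
      simp

theorem cone_unique {X Y Y' Z : C} {f : X ⟶ Z} (h : f ∈ coneSet X Y Z)
    (h' : f ∈ coneSet X Y' Z) : Nonempty (Y ≅ Y') := by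
  obtain ⟨g, k, hT⟩ := h
  obtain ⟨g', k', hT'⟩ := h'
  have i := isoTriangleOfIso₁₂ _ _ hT hT' (Iso.refl X) (Iso.refl Z)
    (by change f ≫ 𝟙 Z = 𝟙 X ≫ f; simp)
  exact ⟨Triangle.π₃.mapIso i⟩

theorem fibSet_iso {L N X X' : C} (e : X ≅ X') : fibSet L N X = fibSet L N X' := by
  ext f
  constructor
  · rintro ⟨i, c, hT⟩
    refine ⟨e.inv ≫ i, c ≫ e.hom⟦(1 : ℤ)⟧', isomorphic_distinguished _ hT _ ?_⟩
    refine Triangle.isoMk _ _ e.symm (Iso.refl L) (Iso.refl N) ?_ ?_ ?_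
    · change (e.inv ≫ i) ≫ 𝟙 L = e.inv ≫ i
      simp
    · change f ≫ 𝟙 N = 𝟙 L ≫ f
      simp
    · change (c ≫ e.hom⟦(1 : ℤ)⟧') ≫ e.inv⟦(1 : ℤ)⟧' = 𝟙 N ≫ c
      rw [Category.assoc, ← Functor.map_comp]
      simp
  · rintro ⟨i, c, hT⟩
    refine ⟨e.hom ≫ i, c ≫ e.inv⟦(1 : ℤ)⟧', isomorphic_distinguished _ hT _ ?_⟩
    refine Triangle.isoMk _ _ e (Iso.refl L) (Iso.refl N) ?_ ?_ ?_
    · change (e.hom ≫ i) ≫ 𝟙 L = e.hom ≫ i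
      simp
    · change f ≫ 𝟙 N = 𝟙 L ≫ f
      simp
    · change (c ≫ e.inv⟦(1 : ℤ)⟧') ≫ e.hom⟦(1 : ℤ)⟧' = 𝟙 N ≫ c
      rw [Category.assoc, ← Functor.map_comp]
      simp

theorem fib_unique {L N X X' : C} {f : L ⟶ N} (h : f ∈ fibSet L N X)
    (h' : f ∈ fibSet L N X') : Nonempty (X ≅ X') := by
  obtain ⟨g, k, hT⟩ := h
  obtain ⟨g', k', hT'⟩ := h'
  have i := isoTriangleOfIso₁₂ _ _ (rot_of_distTriang _ hT) (rot_of_distTriang _ hT')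
    (Iso.refl L) (Iso.refl N) (by change f ≫ 𝟙 N = 𝟙 L ≫ f; simp)
  exact ⟨(shiftFunctor C (1 : ℤ)).preimageIso (Triangle.π₃.mapIso i)⟩

/-- Every morphism has a cone. -/
theorem exists_cone {X Z : C} (f : X ⟶ Z) : ∃ Y, f ∈ coneSet X Y Z := by
  obtain ⟨Y, g, h, hT⟩ := distinguished_cocone_triangle f
  exact ⟨Y, g, h, hT⟩

theorem exists_fib {L N : C} (f : L ⟶ N) : ∃ X, f ∈ fibSet L N X := by
  obtain ⟨X, i, c, hT⟩ := distinguished_cocone_triangle₁ f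
  exact ⟨X, i, c, hT⟩

end Pool.Agent.NG
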