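import Mathlib
import Pool.Agent.NG.HCone
import Pool.Agent.NG.TBasic

/-!
# Finiteness and unit properties of the structure constants
-/

open CategoryTheory CategoryTheory.Limits CategoryTheory.Pretriangulated ZeroObject

namespace Pool.Agent.NG

universe v u w

theorem cls_out {C : Type u} [Category.{v} C] (M : Cls C) : cls M.out = M := Quotient.out_eq M

theorem cls_eq_iff {C : Type u} [Category.{v} C] (X Y : C) :
    cls X = cls Y ↔ Nonempty (X ≅ Y) := by
  unfold cls
  rw [Quotient.eq]
  rfl

variable {C : Type u} [Category.{v} C] [Preadditive C] [HasZeroObject C] [HasShift C ℤ]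
  [∀ n : ℤ, (shiftFunctor C n).Additive] [Pretriangulated C] [Finitary C]

/- PROOF.  If `f ∈ coneSet X Y Z` then there is a distinguished triangle `(f, g, h)` with
`h : Y ⟶ X⟦1⟧`, and `Z` is determined up to isomorphism by `h` (`distinguished_cocone_triangle₂`,
`isoTriangleOfIso₁₃`).  So the set of classes is contained in the image of the finite set
`Y ⟶ X⟦1⟧` under `h ↦ cls (chosen Z for h)`. -/
theorem finite_cone_cls (X Y : C) : {M : Cls C | (coneSet X Y M.out).Nonempty}.Finite := by
  classical
  have hex : ∀ M : Cls C, (coneSet X Y M.out).Nonempty →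
      ∃ (h : Y ⟶ X⟦(1 : ℤ)⟧) (f : X ⟶ M.out) (g : M.out ⟶ Y),
        Triangle.mk f g h ∈ distTriang C := by
    rintro M ⟨f, g, h, hT⟩
    exact ⟨h, f, g, hT⟩
  let φ : Cls C → (Y ⟶ X⟦(1 : ℤ)⟧) := fun M =>
    if hM : (coneSet X Y M.out).Nonempty then (hex M hM).choose else 0
  have hfin : (φ '' {M : Cls C | (coneSet X Y M.out).Nonempty}).Finite := Set.toFinite _
  refine hfin.of_finite_image ?_
  intro M hM M' hM' heq
  have hM1 : (coneSet X Y M.out).Nonempty := hM
  have hM1' : (coneSet X Y M'.out).Nonempty := hM'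
  have e1 : φ M = (hex M hM1).choose := dif_pos hM1
  have e2 : φ M' = (hex M' hM1').choose := dif_pos hM1'
  obtain ⟨f, g, hT⟩ := (hex M hM1).choose_spec
  obtain ⟨f', g', hT'⟩ := (hex M' hM1').choose_spec
  rw [← e1] at hT
  rw [← e2, ← heq] at hT'
  have iso := isoTriangleOfIso₁₃ (Triangle.mk f g (φ M)) (Triangle.mk f' g' (φ M)) hT hT'
    (Iso.refl _) (Iso.refl _) (by
      change φ M ≫ (shiftFunctor C (1 : ℤ)).map (𝟙 X) = 𝟙 Y ≫ φ M
      rw [CategoryTheory.Functor.map_id, Category.comp_id, Category.id_comp])
  have iso2 : M.out ≅ M'.out := Triangle.π₂.mapIso iso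
  rw [← cls_out M, ← cls_out M', cls_eq_iff]
  exact ⟨iso2⟩

namespace FinClsAux

theorem neg_zero_left (Z : C) : neg (0 : C) Z = 1 := by
  unfold neg
  have h : ∀ i : ℕ, alt ((i : ℤ) + 1) (hn (0 : C) Z (-((i : ℤ) + 1))) = 1 := by
    intro i
    have h1 : hn (0 : C) Z (-((i : ℤ) + 1)) = 1 := by
      unfold hn
      have : Unique ((0 : C) ⟶ Z⟦(-((i : ℤ) + 1))⟧) := (isZero_zero C).unique_to _ |>.some
      rw [Nat.card_unique]
      norm_num
    rw [h1, alt_one]
  rw [finprod_congr h, finprod_one]

theorem coneSet_zero_left (Y Z : C) (h : (coneSet (0 : C) Y Z).Nonempty) :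
    Nonempty (Z ≅ Y) := by
  obtain ⟨f, g, h, hT⟩ := h
  have h1 := (Triangle.distinguished_iff_of_isZero₁ _ (show IsZero (Triangle.mk f g h).obj₁ from
    isZero_zero C)).1 hT
  have h2 : IsIso g := h1
  exact ⟨asIso g⟩

theorem coneSet_zero_right (X Z : C) (f : X ⟶ Z) : f ∈ coneSet X (0 : C) Z ↔ IsIso f := by
  constructor
  · rintro ⟨g, h, hT⟩
    exact (Triangle.distinguished_iff_of_isZero₃ _ (show IsZero (Triangle.mk f g h).obj₃ from
      isZero_zero C)).1 hT
  · intro hf
    refine ⟨0, 0, ?_⟩
    exact (Triangle.distinguished_iff_of_isZero₃ (Triangle.mk f (0 : Z ⟶ (0 : C)) 0)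
      (isZero_zero C)).2 hf

end FinClsAux

open FinClsAux

open Classical in
/- PROOF.  `coneSet 0 Y Z` is nonempty iff `Z ≅ Y`, and then it is the singleton `{0}`; `Aut 0` has
one element; `neg 0 Z = 1`. -/
theorem toen_zero_left (Y : C) (M : Cls C) :
    toen (0 : C) Y M.out = if M = cls Y then 1 else 0 := by
  by_cases hM : M = cls Y
  · rw [if_pos hM]
    have hiso : Nonempty (M.out ≅ Y) := by
      rw [← cls_eq_iff, cls_out, hM]
    rw [toen_congr (Iso.refl (0 : C)) (Iso.refl Y) hiso.some]
    unfold toen
    rw [neg_zero_left, neg_zero_left]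
    have h1 : Nat.card (coneSet (0 : C) Y Y) = 1 := by
      have hu : Unique ((0 : C) ⟶ Y) := (isZero_zero C).unique_to _ |>.some
      have : coneSet (0 : C) Y Y = Set.univ := by
        ext f
        simp only [Set.mem_univ, iff_true]
        have hf : f = 0 := (isZero_zero C).eq_of_src _ _
        rw [hf]
        exact ⟨𝟙 Y, 0, contractible_distinguished₁ Y⟩
      rw [this, Nat.card_congr (Equiv.Set.univ _), Nat.card_unique]
    have h2 : Nat.card (Aut (0 : C)) = 1 := by
      have : Unique (Aut (0 : C)) := by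
        refine ⟨⟨Iso.refl _⟩, ?_⟩
        intro a
        apply Iso.ext
        exact (isZero_zero C).eq_of_src _ _
      exact Nat.card_unique
    rw [h1, h2]
    norm_num
  · rw [if_neg hM]
    unfold toen
    have h1 : coneSet (0 : C) Y M.out = ∅ := by
      rw [Set.eq_empty_iff_forall_notMem]
      intro f hf
      apply hM
      have := coneSet_zero_left Y M.out ⟨f, hf⟩
      rw [← cls_eq_iff, cls_out] at this
      exact this
    rw [h1]
    simp

/- PROOF.  `coneSet X 0 Z` is the set of isomorphisms `X ≅ Z`; it is empty unless `Z ≅ X`, and for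
`Z = X` it has `|Aut X|` elements (use `toen_congr`). -/
open Classical in
theorem toen_zero_right (X : C) (M : Cls C) :
    toen X (0 : C) M.out = if M = cls X then 1 else 0 := by
  by_cases hM : M = cls X
  · rw [if_pos hM]
    have hiso : Nonempty (M.out ≅ X) := by
      rw [← cls_eq_iff, cls_out, hM]
    rw [toen_congr (Iso.refl X) (Iso.refl (0 : C)) hiso.some]
    unfold toen
    have h1 : Nat.card (coneSet X (0 : C) X) = Nat.card (Aut X) := by
      refine Nat.card_congr ?_
      exact
        { toFun := fun f => by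
            have hf : IsIso f.1 := (coneSet_zero_right X X f.1).1 f.2
            exact asIso f.1
          invFun := fun e => ⟨e.hom, (coneSet_zero_right X X e.hom).2 inferInstance⟩
          left_inv := by
            intro f
            apply Subtype.ext
            rfl
          right_inv := by
            intro e
            apply Iso.ext
            rfl }
    have h2 : (Nat.card (Aut X) : ℚ) ≠ 0 := by
      have hfin : Finite (Aut X) := by
        refine Finite.of_injective (fun e : Aut X => (Iso.hom e : X ⟶ X)) ?_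
        intro a b hab
        exact Iso.ext hab
      have : Nonempty (Aut X) := ⟨Iso.refl X⟩
      exact_mod_cast Nat.card_pos.ne'
    rw [h1, div_self h2, div_self (neg_pos X X).ne', one_mul]
  · rw [if_neg hM]
    unfold toen
    have h1 : coneSet X (0 : C) M.out = ∅ := by
      rw [Set.eq_empty_iff_forall_notMem]
      intro f hf
      apply hM
      have h2 : IsIso f := (coneSet_zero_right X M.out f).1 hf
      have h3 : Nonempty (X ≅ M.out) := ⟨asIso f⟩
      rw [← cls_eq_iff, cls_out] at h3
      exact h3.symm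
    rw [h1]
    simp

theorem eul_zero_left (X : C) : eul (0 : C) X = 1 := by
  unfold eul
  have h : ∀ i : ℤ, alt i (hn (0 : C) X i) = 1 := by
    intro i
    have h1 : hn (0 : C) X i = 1 := by
      unfold hn
      have : Unique ((0 : C) ⟶ X⟦i⟧) := (isZero_zero C).unique_to _ |>.some
      rw [Nat.card_unique]
      norm_num
    rw [h1, alt_one]
  rw [finprod_congr h, finprod_one]

theorem eul_zero_right (X : C) : eul X (0 : C) = 1 := by
  unfold eul
  have h : ∀ i : ℤ, alt i (hn X (0 : C) i) = 1 := by
    intro i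
    have h1 : hn X (0 : C) i = 1 := by
      unfold hn
      have hz : IsZero ((0 : C)⟦i⟧) := (shiftFunctor C i).map_isZero (isZero_zero C)
      have : Unique (X ⟶ (0 : C)⟦i⟧) := hz.unique_from _ |>.some
      rw [Nat.card_unique]
      norm_num
    rw [h1, alt_one]
  rw [finprod_congr h, finprod_one]

end Pool.Agent.NG
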