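import Mathlib
import Pool.Agent.NG.HCone

/-!
# Homotopy cartesian squares
-/

open CategoryTheory CategoryTheory.Limits CategoryTheory.Pretriangulated

namespace Pool.Agent.NG

universe v u w

variable {C : Type u} [Category.{v} C] [Preadditive C] [HasZeroObject C] [HasShift C ℤ]
  [∀ n : ℤ, (shiftFunctor C n).Additive] [Pretriangulated C]

private theorem inr_fst_dist (L Y : C) :
    Triangle.mk (biprod.inr : Y ⟶ L ⊞ Y) (biprod.fst : L ⊞ Y ⟶ L) (0 : L ⟶ Y⟦(1 : ℤ)⟧) ∈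
      distTriang C := by
  refine isomorphic_distinguished _ (binaryBiproductTriangle_distinguished Y L) _ ?_
  refine Triangle.isoMk _ _ (Iso.refl Y) (biprod.braiding L Y) (Iso.refl L) ?_ ?_ ?_
  · change biprod.inr ≫ (biprod.braiding L Y).hom = 𝟙 Y ≫ biprod.inl
    ext <;> simp
  · change biprod.fst ≫ 𝟙 L = (biprod.braiding L Y).hom ≫ biprod.snd
    ext <;> simp
  · change (0 : L ⟶ Y⟦(1 : ℤ)⟧) ≫ (𝟙 Y)⟦(1 : ℤ)⟧' = 𝟙 L ≫ 0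
    simp

private theorem inl_snd_dist (L Y : C) :
    Triangle.mk (biprod.inl : L ⟶ L ⊞ Y) (biprod.snd : L ⊞ Y ⟶ Y) (0 : Y ⟶ L⟦(1 : ℤ)⟧) ∈
      distTriang C :=
  binaryBiproductTriangle_distinguished L Y

variable [IsTriangulated C]

/- PROOF.  Octahedral axiom (`Triangulated.someOctahedron`) for the composition
`M -a-> L ⊞ Y -fst-> L`.  Cones: of `a`: `N` (triangle `(a, b, c)`); of `fst`: `Y⟦1⟧`, from the
distinguished triangle `Y -inr-> L ⊞ Y -fst-> L -0-> Y⟦1⟧` rotated once; of `a ≫ fst`: `Z`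
(hypothesis).  The octahedron gives a distinguished triangle `N → Z → Y⟦1⟧ → N⟦1⟧` whose last
morphism is `(-inr⟦1⟧') ≫ b⟦1⟧' = -(inr ≫ b)⟦1⟧'`, which is the rotation of
`Y → N → Z → Y⟦1⟧`. -/
theorem hcart_aux1 {M L Y N Z : C} (a : M ⟶ L ⊞ Y) (b : L ⊞ Y ⟶ N) (c : N ⟶ M⟦(1 : ℤ)⟧)
    (hT : Triangle.mk a b c ∈ distTriang C) (h : a ≫ biprod.fst ∈ coneSet M Z L) :
    biprod.inr ≫ b ∈ coneSet Y Z N := by
  obtain ⟨g, k, hg⟩ := h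
  have o := Triangulated.someOctahedron (rfl : a ≫ biprod.fst = a ≫ biprod.fst) hT
    (rot_of_distTriang _ (inr_fst_dist L Y)) hg
  refine ⟨o.m₁, o.m₃, (rotate_distinguished_triangle _).2 ?_⟩
  have h1 : (-(biprod.inr : Y ⟶ L ⊞ Y)⟦(1 : ℤ)⟧') ≫ b⟦(1 : ℤ)⟧' =
      -(((biprod.inr : Y ⟶ L ⊞ Y) ≫ b)⟦(1 : ℤ)⟧') := by
    rw [Functor.map_comp, Preadditive.neg_comp]
  change Triangle.mk o.m₁ o.m₃ (-(((biprod.inr : Y ⟶ L ⊞ Y) ≫ b)⟦(1 : ℤ)⟧')) ∈ distTriang C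
  rw [← h1]
  exact o.mem

/- PROOF.  Octahedral axiom for `L -inl-> L ⊞ Y -b-> N`.  Cones: of `inl`: `Y` (with morphism
`snd : L ⊞ Y ⟶ Y`); of `b`: `M⟦1⟧` (triangle `(b, c, -a⟦1⟧')`); of `inl ≫ b`: `X⟦1⟧`
(rotating the triangle `X → L → N → X⟦1⟧` of the hypothesis).  The octahedron gives a
distinguished triangle `Y → X⟦1⟧ → M⟦1⟧ → Y⟦1⟧` whose last morphism is
`(-a⟦1⟧') ≫ snd⟦1⟧' = -(a ≫ snd)⟦1⟧'`; rotate back: `X → M → Y → X⟦1⟧`. -/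
theorem hcart_aux2 {M L Y N X : C} (a : M ⟶ L ⊞ Y) (b : L ⊞ Y ⟶ N) (c : N ⟶ M⟦(1 : ℤ)⟧)
    (hT : Triangle.mk a b c ∈ distTriang C) (h : biprod.inl ≫ b ∈ fibSet L N X) :
    a ≫ biprod.snd ∈ fibSet M Y X := by
  obtain ⟨i, k, hi⟩ := h
  have o := Triangulated.someOctahedron
    (rfl : (biprod.inl : L ⟶ L ⊞ Y) ≫ b = (biprod.inl : L ⟶ L ⊞ Y) ≫ b) (inl_snd_dist L Y)
    (rot_of_distTriang _ hT) (rot_of_distTriang _ hi)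
  refine ⟨(shiftFunctor C (1 : ℤ)).preimage (-o.m₃), o.m₁,
    (rotate_distinguished_triangle _).2 ((rotate_distinguished_triangle _).2 ?_)⟩
  have h1 : (-(a⟦(1 : ℤ)⟧')) ≫ (biprod.snd : L ⊞ Y ⟶ Y)⟦(1 : ℤ)⟧' =
      -((a ≫ (biprod.snd : L ⊞ Y ⟶ Y))⟦(1 : ℤ)⟧') := by
    rw [Functor.map_comp, Preadditive.neg_comp]
  have h2 : -(((shiftFunctor C (1 : ℤ)).preimage (-o.m₃))⟦(1 : ℤ)⟧') = o.m₃ := by
    rw [Functor.map_preimage, neg_neg]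
  change Triangle.mk o.m₁ (-(((shiftFunctor C (1 : ℤ)).preimage (-o.m₃))⟦(1 : ℤ)⟧'))
    (-((a ≫ (biprod.snd : L ⊞ Y ⟶ Y))⟦(1 : ℤ)⟧')) ∈ distTriang C
  rw [h2, ← h1]
  exact o.mem

/- PROOF.  `→` is `hcart_aux1`.  `←`: let `Z'` be a cone of `a ≫ fst` (`exists_cone`); by
`hcart_aux1` it is a cone of `inr ≫ b`, so `Z' ≅ Z` (`cone_unique`), and `coneSet_iso`. -/
theorem hcart₁ {M L Y N : C} (a : M ⟶ L ⊞ Y) (b : L ⊞ Y ⟶ N) (c : N ⟶ M⟦(1 : ℤ)⟧)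
    (hT : Triangle.mk a b c ∈ distTriang C) (Z : C) :
    a ≫ biprod.fst ∈ coneSet M Z L ↔ biprod.inr ≫ b ∈ coneSet Y Z N := by
  refine ⟨hcart_aux1 a b c hT, fun h => ?_⟩
  obtain ⟨Z', hZ'⟩ := exists_cone (a ≫ biprod.fst)
  obtain ⟨e⟩ := cone_unique (hcart_aux1 a b c hT hZ') h
  rwa [← coneSet_iso e]

theorem hcart₂ {M L Y N : C} (a : M ⟶ L ⊞ Y) (b : L ⊞ Y ⟶ N) (c : N ⟶ M⟦(1 : ℤ)⟧)
    (hT : Triangle.mk a b c ∈ distTriang C) (X : C) :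
    a ≫ biprod.snd ∈ fibSet M Y X ↔ biprod.inl ≫ b ∈ fibSet L N X := by
  refine ⟨fun h => ?_, hcart_aux2 a b c hT⟩
  obtain ⟨X', hX'⟩ := exists_fib (biprod.inl ≫ b)
  obtain ⟨e⟩ := fib_unique (hcart_aux2 a b c hT hX') h
  rwa [← fibSet_iso e]

end Pool.Agent.NG
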