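import Mathlib
import Pool.Agent.NG.FinCls
import Pool.Agent.NG.EulAddL
import Pool.Agent.NG.EulAddR
import Pool.Agent.NG.HCart
import Pool.Agent.NG.Dual

/-!
# Associativity of Toën's derived Hall algebra
-/

open CategoryTheory CategoryTheory.Limits CategoryTheory.Pretriangulated ZeroObject

namespace Pool.Agent.NG

universe v u w

variable {C : Type u} [Category.{v} C] [Preadditive C] [HasZeroObject C] [HasShift C ℤ]
  [∀ n : ℤ, (shiftFunctor C n).Additive] [Pretriangulated C] [Finitary C] [IsTriangulated C]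

/- Notation of the proof: `{X,Y} = neg X Y`.

For objects `M, N` let
`U M N = {a : M ⟶ L ⊞ Y | a ∈ coneSet M N (L ⊞ Y), a ≫ fst ∈ coneSet M Z L, a ≫ snd ∈ fibSet M Y X}`
`U' M N = {b : L ⊞ Y ⟶ N | b ∈ fibSet (L ⊞ Y) N M, inr ≫ b ∈ coneSet Y Z N, inl ≫ b ∈ fibSet L N X}`.
-/

/-- The common value of the two sides, for fixed intermediate objects `M` and `N`. -/
noncomputable def mid (X Y Z L M N : C) : ℚ :=
  (Nat.card ↥(coneSet M N (L ⊞ Y) ∩
      {a | a ≫ biprod.fst ∈ coneSet M Z L ∧ a ≫ biprod.snd ∈ fibSet M Y X}) : ℚ) *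
    neg M (L ⊞ Y) / ((Nat.card (Aut M) : ℚ) * neg M M) / ((Nat.card (Aut Y) : ℚ) * neg Y Y)

/- PROOF.  `dual M (L ⊞ Y) N` with `𝒜 = {a | a ≫ fst ∈ coneSet M Z L ∧ a ≫ snd ∈ fibSet M Y X}` and
`ℬ = {b | inr ≫ b ∈ coneSet Y Z N ∧ inl ≫ b ∈ fibSet L N X}`; the equivalence is
`hcart₁`, `hcart₂`. -/
theorem mid_eq (X Y Z L M N : C) :
    mid X Y Z L M N =
      (Nat.card ↥(fibSet (L ⊞ Y) N M ∩
          {b | biprod.inr ≫ b ∈ coneSet Y Z N ∧ biprod.inl ≫ b ∈ fibSet L N X}) : ℚ) *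
        neg (L ⊞ Y) N / ((Nat.card (Aut N) : ℚ) * neg N N) /
        ((Nat.card (Aut Y) : ℚ) * neg Y Y) := by
  have h := dual M (L ⊞ Y) N
    {a | a ≫ biprod.fst ∈ coneSet M Z L ∧ a ≫ biprod.snd ∈ fibSet M Y X}
    {b | biprod.inr ≫ b ∈ coneSet Y Z N ∧ biprod.inl ≫ b ∈ fibSet L N X}
    (fun a b c hT => and_congr (hcart₁ a b c hT Z) (hcart₂ a b c hT X))
  rw [mid, h]

/- PROOF.  If `mid X Y Z L M N ≠ 0` then there is `a` in the set; `a ≫ snd ∈ fibSet M Y X` gives a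
distinguished triangle `X → M → Y → X⟦1⟧`, so `coneSet X Y M` is nonempty, and by `hcart₁`
`coneSet Y Z N` is nonempty. -/
theorem nonempty_of_mid_ne_zero {X Y Z L M N : C} (h : mid X Y Z L M N ≠ 0) :
    (coneSet X Y M).Nonempty ∧ (coneSet Y Z N).Nonempty := by
  have hne : Nonempty ↥(coneSet M N (L ⊞ Y) ∩
      {a | a ≫ biprod.fst ∈ coneSet M Z L ∧ a ≫ biprod.snd ∈ fibSet M Y X}) := by
    by_contra hc
    have h0 : Nat.card ↥(coneSet M N (L ⊞ Y) ∩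
        {a | a ≫ biprod.fst ∈ coneSet M Z L ∧ a ≫ biprod.snd ∈ fibSet M Y X}) = 0 := by
      rw [Nat.card_eq_zero]
      exact Or.inl (not_nonempty_iff.1 hc)
    apply h
    rw [mid, h0]
    simp
  obtain ⟨a, ⟨b, c, hT⟩, h1, i, d, h2⟩ := hne
  exact ⟨⟨i, _, d, h2⟩, ⟨_, (hcart₁ a b c hT Z).1 h1⟩⟩

/- PROOF.  If `f ∈ coneSet X Y M` then there is a distinguished triangle `X → M → Y → X⟦1⟧`; use
`eul_add_right` and `eul_add_left`. -/
theorem eul_of_cone {X Y M : C} (h : (coneSet X Y M).Nonempty) (W : C) :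
    eul W M = eul W X * eul W Y ∧ eul M W = eul X W * eul Y W := by
  obtain ⟨f, g, k, hT⟩ := h
  exact ⟨eul_add_right f g k hT W, eul_add_left f g k hT W⟩

end Pool.Agent.NG
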