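import Mathlib
import Pool.Agent.NG.AssocA

/-!
# Associativity of Toën's derived Hall algebra
-/

open CategoryTheory CategoryTheory.Limits CategoryTheory.Pretriangulated ZeroObject

namespace Pool.Agent.NG

universe v u w

variable {C : Type u} [Category.{v} C] [Preadditive C] [HasZeroObject C] [HasShift C ℤ]
  [∀ n : ℤ, (shiftFunctor C n).Additive] [Pretriangulated C] [Finitary C] [IsTriangulated C]

private theorem finsum_card_fibre {F I : Type*} [Finite F] (κ : F → I) (A : Set F) :
    ∑ᶠ i : I, (Nat.card ↥({a | κ a = i} ∩ A) : ℚ) = (Nat.card ↥A : ℚ) := by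
  classical
  have hFt : Fintype F := Fintype.ofFinite F
  have hA : A.Finite := Set.toFinite A
  have h1 : (Function.support fun i : I => (Nat.card ↥({a | κ a = i} ∩ A) : ℚ)) ⊆
      ((hA.toFinset.image κ : Finset I) : Set I) := by
    intro i hi
    rw [Function.mem_support] at hi
    have h2 : Nat.card ↥({a | κ a = i} ∩ A) ≠ 0 := by
      intro h0
      apply hi
      rw [h0]
      norm_num
    obtain ⟨h3, -⟩ := Nat.card_ne_zero.mp h2
    obtain ⟨⟨a, ha, haA⟩⟩ := h3
    rw [Finset.mem_coe, Finset.mem_image]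
    exact ⟨a, hA.mem_toFinset.mpr haA, ha⟩
  rw [finsum_eq_sum_of_support_subset _ h1]
  have h4 : ∀ i : I, Nat.card ↥({a | κ a = i} ∩ A) =
      (hA.toFinset.filter (fun a => κ a = i)).card := by
    intro i
    rw [Nat.card_eq_card_finite_toFinset (Set.toFinite ({a | κ a = i} ∩ A))]
    congr 1
    ext a
    rw [Set.Finite.mem_toFinset, Finset.mem_filter, Set.Finite.mem_toFinset]
    exact and_comm
  simp only [h4]
  rw [Nat.card_eq_card_finite_toFinset hA, Finset.card_eq_sum_card_image κ hA.toFinset]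
  push_cast
  rfl

private theorem coneSet_out_iff {M P : C} (a : M ⟶ P) (N : Cls C) :
    a ∈ coneSet M N.out P ↔ cls (exists_cone a).choose = N := by
  have hc := (exists_cone a).choose_spec
  constructor
  · intro h
    obtain ⟨e⟩ := cone_unique hc h
    rw [← cls_out N]
    exact (cls_eq_iff _ _).mpr ⟨e⟩
  · intro h
    rw [← cls_out N] at h
    obtain ⟨e⟩ := (cls_eq_iff _ _).mp h
    rw [← coneSet_iso e]
    exact hc

/- PROOF.  By `toen_eq_dual`, `toen X Y M = |fibSet M Y X| {M,Y} / (|Aut Y| {Y,Y})`, and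
`toen M Z L = |coneSet M Z L| / |Aut M| * ({M,L} / {M,M})`, `{M, L ⊞ Y} = {M,L} {M,Y}`
(`neg_biprod_right`).  The product `coneSet M Z L × fibSet M Y X` is in bijection
(`biprod.lift`) with the set of all `a : M ⟶ L ⊞ Y` with `a ≫ fst ∈ coneSet M Z L` and
`a ≫ snd ∈ fibSet M Y X`, which is the disjoint union over the classes `N` of the
`{a | a ∈ coneSet M N.out (L ⊞ Y), ...}` (every morphism has exactly one cone up to
isomorphism: `exists_cone`, `cone_unique`, `coneSet_iso`).  The finsum has finite support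
because `Hom(M, L ⊞ Y)` is finite. -/
theorem toen_mul_left (X Y Z L M : C) :
    toen X Y M * toen M Z L = ∑ᶠ N : Cls C, mid X Y Z L M N.out := by
  have hset : ∀ N : Cls C, mid X Y Z L M N.out =
      (Nat.card ↥({a : M ⟶ L ⊞ Y | cls (exists_cone a).choose = N} ∩
        {a | a ≫ biprod.fst ∈ coneSet M Z L ∧ a ≫ biprod.snd ∈ fibSet M Y X}) : ℚ) *
      (neg M (L ⊞ Y) / ((Nat.card (Aut M) : ℚ) * neg M M) / ((Nat.card (Aut Y) : ℚ) * neg Y Y)) := by
    intro N
    unfold mid
    have h1 : coneSet M N.out (L ⊞ Y) = {a : M ⟶ L ⊞ Y | cls (exists_cone a).choose = N} := by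
      ext a
      exact coneSet_out_iff a N
    rw [h1]
    ring
  rw [finsum_congr hset, ← finsum_mul, finsum_card_fibre]
  have hcard : Nat.card ↥({a : M ⟶ L ⊞ Y | a ≫ biprod.fst ∈ coneSet M Z L ∧
      a ≫ biprod.snd ∈ fibSet M Y X}) = Nat.card ↥(coneSet M Z L) * Nat.card ↥(fibSet M Y X) := by
    rw [← Nat.card_prod]
    refine Nat.card_congr
      { toFun := fun a => (⟨a.1 ≫ biprod.fst, a.2.1⟩, ⟨a.1 ≫ biprod.snd, a.2.2⟩)
        invFun := fun p => ⟨biprod.lift p.1.1 p.2.1, ?_, ?_⟩
        left_inv := ?_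
        right_inv := ?_ }
    · rw [biprod.lift_fst]
      exact p.1.2
    · rw [biprod.lift_snd]
      exact p.2.2
    · intro a
      apply Subtype.ext
      apply biprod.hom_ext
      · rw [biprod.lift_fst]
      · rw [biprod.lift_snd]
    · intro p
      apply Prod.ext
      · apply Subtype.ext
        change biprod.lift p.1.1 p.2.1 ≫ biprod.fst = p.1.1
        rw [biprod.lift_fst]
      · apply Subtype.ext
        change biprod.lift p.1.1 p.2.1 ≫ biprod.snd = p.2.1
        rw [biprod.lift_snd]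
  rw [hcard, toen_eq_dual X Y M, neg_biprod_right]
  unfold toen
  push_cast
  ring

end Pool.Agent.NG
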