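import Mathlib
import Pool.Agent.NG.AssocA

/-!
# Associativity of Toën's derived Hall algebra
-/

open CategoryTheory CategoryTheory.Limits CategoryTheory.Pretriangulated ZeroObject

namespace Pool.Agent.NG

universe v u w

/-- Counting a subset of a finite type by the values of a function. -/
private theorem card_decomp_fib {α : Type v} {β : Type u} [Finite α] (S : Set α)
    (A : β → Set α) (κ : α → β) (hκ : ∀ x M, x ∈ A M ↔ κ x = M) :
    (Nat.card ↥S : ℚ) = ∑ᶠ M : β, (Nat.card ↥(A M ∩ S) : ℚ) := by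
  classical
  have := Fintype.ofFinite α
  have hf : ∀ M, Nat.card ↥(A M ∩ S) = (S.toFinset.filter (fun x => κ x = M)).card := by
    intro M
    rw [Nat.card_eq_card_toFinset]
    congr 1
    ext x
    simp [hκ, and_comm]
  have hS : Nat.card ↥S = S.toFinset.card := Nat.card_eq_card_toFinset S
  rw [hS, Finset.card_eq_sum_card_image κ S.toFinset,
    finsum_eq_sum_of_support_subset (s := S.toFinset.image κ)]
  · push_cast
    exact Finset.sum_congr rfl fun M _ => by rw [hf M]
  · intro M hM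
    rw [Function.mem_support, hf M] at hM
    have h1 : (S.toFinset.filter (fun x => κ x = M)).card ≠ 0 := by
      intro h0
      exact hM (by rw [h0]; rfl)
    obtain ⟨x, hx⟩ := Finset.card_ne_zero.mp h1
    rw [Finset.mem_filter] at hx
    rw [Finset.mem_coe, Finset.mem_image]
    exact ⟨x, hx.1, hx.2⟩

variable {C : Type u} [Category.{v} C] [Preadditive C] [HasZeroObject C] [HasShift C ℤ]
  [∀ n : ℤ, (shiftFunctor C n).Additive] [Pretriangulated C] [Finitary C] [IsTriangulated C]

/-- The set of all `b : L ⊞ Y ⟶ N` with the two conditions is a product. -/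
private noncomputable def descEquiv (X Y Z L N : C) :
    ↥{b : L ⊞ Y ⟶ N | biprod.inr ≫ b ∈ coneSet Y Z N ∧ biprod.inl ≫ b ∈ fibSet L N X} ≃
      ↥(coneSet Y Z N) × ↥(fibSet L N X) where
  toFun b := (⟨biprod.inr ≫ b.1, b.2.1⟩, ⟨biprod.inl ≫ b.1, b.2.2⟩)
  invFun p := ⟨biprod.desc p.2.1 p.1.1, by
    refine ⟨?_, ?_⟩
    · rw [biprod.inr_desc]; exact p.1.2
    · rw [biprod.inl_desc]; exact p.2.2⟩
  left_inv b := by
    apply Subtype.ext
    apply biprod.hom_ext'
    · simp
    · simp
  right_inv p := by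
    apply Prod.ext
    · apply Subtype.ext
      simp
    · apply Subtype.ext
      simp

/- PROOF.  `toen Y Z N = |coneSet Y Z N| / |Aut Y| * ({Y,N} / {Y,Y})`, by `toen_eq_dual`
`toen X N L = |fibSet L N X| {L,N} / (|Aut N| {N,N})`, `{L ⊞ Y, N} = {L,N} {Y,N}`, and
`(b_L, b_Y) ↦ biprod.desc b_L b_Y` is a bijection from `fibSet L N X × coneSet Y Z N` to the set of
`b : L ⊞ Y ⟶ N` with the two conditions; decompose according to the class of the fibre `M`.
Then use `mid_eq`. -/
theorem toen_mul_right (X Y Z L N : C) :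
    toen Y Z N * toen X N L = ∑ᶠ M : Cls C, mid X Y Z L M.out N := by
  classical
  set S : Set (L ⊞ Y ⟶ N) :=
    {b : L ⊞ Y ⟶ N | biprod.inr ≫ b ∈ coneSet Y Z N ∧ biprod.inl ≫ b ∈ fibSet L N X} with hS
  have hcard : (Nat.card ↥S : ℚ) = (Nat.card ↥(coneSet Y Z N) : ℚ) * (Nat.card ↥(fibSet L N X) : ℚ) := by
    rw [Nat.card_congr (descEquiv X Y Z L N), Nat.card_prod]
    push_cast
    rfl
  have hdec : (Nat.card ↥S : ℚ) =
      ∑ᶠ M : Cls C, (Nat.card ↥(fibSet (L ⊞ Y) N M.out ∩ S) : ℚ) := by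
    refine card_decomp_fib S (fun M : Cls C => fibSet (L ⊞ Y) N M.out)
      (fun b => cls (exists_fib b).choose) ?_
    intro b M
    have hb := (exists_fib b).choose_spec
    constructor
    · intro h
      obtain ⟨e⟩ := fib_unique hb h
      have h1 : cls (exists_fib b).choose = cls M.out := (cls_eq_iff _ _).mpr ⟨e⟩
      exact h1.trans (cls_out M)
    · intro h
      have h1 : cls (exists_fib b).choose = cls M.out := h.trans (cls_out M).symm
      obtain ⟨e⟩ := (cls_eq_iff _ _).mp h1
      rw [fibSet_iso e.symm]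
      exact hb
  have hmid : ∀ M : Cls C, mid X Y Z L M.out N =
      (Nat.card ↥(fibSet (L ⊞ Y) N M.out ∩ S) : ℚ) *
        (neg (L ⊞ Y) N / ((Nat.card (Aut N) : ℚ) * neg N N) /
        ((Nat.card (Aut Y) : ℚ) * neg Y Y)) := by
    intro M
    rw [mid_eq, hS]
    ring
  have hsum : ∑ᶠ M : Cls C, mid X Y Z L M.out N =
      (Nat.card ↥S : ℚ) * (neg (L ⊞ Y) N / ((Nat.card (Aut N) : ℚ) * neg N N) /
        ((Nat.card (Aut Y) : ℚ) * neg Y Y)) := by
    rw [hdec, finsum_mul]
    exact finsum_congr hmid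
  rw [hsum, hcard, toen_eq_dual X N L, toen, neg_biprod_left]
  ring

end Pool.Agent.NG
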