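import Mathlib
import Pool.Agent.NG.AssocB
import Pool.Agent.NG.AssocC

/-!
# Associativity of Toën's derived Hall algebra
-/

open CategoryTheory CategoryTheory.Limits CategoryTheory.Pretriangulated ZeroObject

namespace Pool.Agent.NG

universe v u w

variable {C : Type u} [Category.{v} C] [Preadditive C] [HasZeroObject C] [HasShift C ℤ]
  [∀ n : ℤ, (shiftFunctor C n).Additive] [Pretriangulated C] [Finitary C] [IsTriangulated C]

/- PROOF.  Rewrite `toen X Y M * toen M Z L` by `toen_mul_left` and `toen Y Z N * toen X N L` by
`toen_mul_right`.  On the support of `mid X Y Z L M N` (where `M` is an extension of `Y` by `X`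
and `N` an extension of `Z` by `Y`, `nonempty_of_mid_ne_zero`) the Euler factors agree:
`eul Y X * eul Z M = eul Y X * eul Z X * eul Z Y = eul Z Y * eul N X` (`eul_of_cone`).  Both sides
are double sums over the finite set of pairs `(M, N)` of classes with `coneSet X Y M.out` and
`coneSet Y Z N.out` nonempty (`finite_cone_cls`); exchange the order (`finsum_comm` or convert to
`Finset.sum` with `finsum_eq_sum_of_support_subset` and `Finset.sum_comm`). -/
/-- Associativity of the twisted derived Hall algebra. -/
theorem twisted_assoc (X Y Z L : C) :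
    ∑ᶠ M : Cls C, (eul Y X * toen X Y M.out) * (eul Z M.out * toen M.out Z L) =
      ∑ᶠ N : Cls C, (eul Z Y * toen Y Z N.out) * (eul N.out X * toen X N.out L) := by
  classical
  have hS := finite_cone_cls X Y
  have hT := finite_cone_cls Y Z
  have hmS : ∀ M N : Cls C, M ∉ hS.toFinset → mid X Y Z L M.out N.out = 0 := by
    intro M N hM
    by_contra h
    apply hM
    rw [Set.Finite.mem_toFinset]
    exact (nonempty_of_mid_ne_zero h).1
  have hmT : ∀ M N : Cls C, N ∉ hT.toFinset → mid X Y Z L M.out N.out = 0 := by
    intro M N hN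
    by_contra h
    apply hN
    rw [Set.Finite.mem_toFinset]
    exact (nonempty_of_mid_ne_zero h).2
  have h1 : ∀ M : Cls C, (eul Y X * toen X Y M.out) * (eul Z M.out * toen M.out Z L) =
      (eul Y X * eul Z M.out) * ∑ N ∈ hT.toFinset, mid X Y Z L M.out N.out := by
    intro M
    rw [← finsum_eq_sum_of_support_subset (s := hT.toFinset)
      (fun N : Cls C => mid X Y Z L M.out N.out), ← toen_mul_left]
    · ring
    · intro N hN
      by_contra h
      exact hN (hmT M N h)
  have h2 : ∀ N : Cls C, (eul Z Y * toen Y Z N.out) * (eul N.out X * toen X N.out L) =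
      (eul Z Y * eul N.out X) * ∑ M ∈ hS.toFinset, mid X Y Z L M.out N.out := by
    intro N
    rw [← finsum_eq_sum_of_support_subset (s := hS.toFinset)
      (fun M : Cls C => mid X Y Z L M.out N.out), ← toen_mul_right]
    · ring
    · intro M hM
      by_contra h
      exact hM (hmS M N h)
  have h3 : ∀ M N : Cls C, (eul Y X * eul Z M.out) * mid X Y Z L M.out N.out =
      (eul Z Y * eul N.out X) * mid X Y Z L M.out N.out := by
    intro M N
    by_cases h : mid X Y Z L M.out N.out = 0
    · rw [h, mul_zero, mul_zero]
    · obtain ⟨a1, a2⟩ := nonempty_of_mid_ne_zero h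
      rw [(eul_of_cone a1 Z).1, (eul_of_cone a2 X).2]
      ring
  rw [finsum_congr h1, finsum_congr h2,
    finsum_eq_sum_of_support_subset (s := hS.toFinset),
    finsum_eq_sum_of_support_subset (s := hT.toFinset)]
  · simp_rw [Finset.mul_sum]
    rw [Finset.sum_comm]
    exact Finset.sum_congr rfl fun N _ => Finset.sum_congr rfl fun M _ => h3 M N
  · intro N hN
    by_contra h
    apply hN
    show (eul Z Y * eul N.out X) * ∑ M ∈ hS.toFinset, mid X Y Z L M.out N.out = 0
    rw [Finset.sum_eq_zero fun M _ => hmT M N h, mul_zero]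
  · intro M hM
    by_contra h
    apply hM
    show (eul Y X * eul Z M.out) * ∑ N ∈ hT.toFinset, mid X Y Z L M.out N.out = 0
    rw [Finset.sum_eq_zero fun N _ => hmS M N h, mul_zero]

end Pool.Agent.NG
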