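import Mathlib
import Pool.Agent.NG.TDefs

/-!
# The bounded homotopy category of an additive category
-/

open CategoryTheory CategoryTheory.Limits CategoryTheory.Pretriangulated ZeroObject

namespace Pool.Agent.NG

universe v u

variable (𝒞 : Type u) [Category.{v} 𝒞] [Preadditive 𝒞]

/-- The bounded complexes: complexes `X` with `X i = 0` for all `|i| > N`, for some `N`. -/
def bdd : ObjectProperty (HomotopyCategory 𝒞 (ComplexShape.up ℤ)) :=
  fun X => ∃ N : ℕ, ∀ i : ℤ, (N : ℤ) < |i| → IsZero (X.as.X i)

instance [HasZeroObject 𝒞] : (bdd 𝒞).ContainsZero where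
  exists_zero :=
    ⟨(HomotopyCategory.quotient _ _).obj 0, Functor.map_isZero _ (isZero_zero _),
      0, fun i _ => (HomologicalComplex.eval 𝒞 (ComplexShape.up ℤ) i).map_isZero (isZero_zero _)⟩

instance : (bdd 𝒞).IsStableUnderShift ℤ where
  isStableUnderShiftBy n :=
    { le_shift := by
        intro X hX
        obtain ⟨K : CochainComplex _ _, rfl⟩ := X.quotient_obj_surjective
        obtain ⟨N, hN⟩ := hX
        rw [ObjectProperty.prop_shift_iff, HomotopyCategory.shift_quotient_obj]
        refine ⟨N + n.natAbs, fun i hi => ?_⟩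
        change IsZero (K.X (i + n))
        refine hN (i + n) ?_
        have : (n.natAbs : ℤ) = |n| := Int.natCast_natAbs n
        push_cast at hi
        have h2 : |i| ≤ |i + n| + |n| := by
          have := abs_sub (i + n) n
          simpa using this
        omega }

set_option backward.defeqAttrib.useBackward true in
set_option backward.isDefEq.respectTransparency false in
instance [HasZeroObject 𝒞] [HasBinaryBiproducts 𝒞] : (bdd 𝒞).IsTriangulatedClosed₃ where
  ext₃' T hT h₁ h₂ := by
    obtain ⟨N₁, h₁⟩ := h₁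
    obtain ⟨N₂, h₂⟩ := h₂
    obtain ⟨f : T.obj₁.as ⟶ T.obj₂.as, hf⟩ := (HomotopyCategory.quotient _ _).map_surjective T.mor₁
    refine ⟨(HomotopyCategory.quotient _ _).obj (CochainComplex.mappingCone f), ?_,
      ⟨Triangle.π₃.mapIso (isoTriangleOfIso₁₂ T _ hT
        (HomotopyCategory.mappingCone_triangleh_distinguished f)
        (Iso.refl _) (Iso.refl _) ?_)⟩⟩
    · refine ⟨N₁ + N₂ + 1, fun i hi => ?_⟩
      change IsZero ((CochainComplex.mappingCone f).X i)
      rw [CochainComplex.mappingCone.isZero_X_iff]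
      push_cast at hi
      have h3 : |i| ≤ |i + 1| + 1 := by
        have := abs_sub (i + 1) 1
        simpa using this
      exact ⟨h₁ _ (by omega), h₂ _ (by omega)⟩
    · simp [hf]

instance [HasZeroObject 𝒞] [HasBinaryBiproducts 𝒞] : (bdd 𝒞).IsTriangulated where
  toIsTriangulatedClosed₂ := .of_isTriangulatedClosed₃

/-- The bounded homotopy category of `𝒞`. -/
abbrev KB := (bdd 𝒞).FullSubcategory

noncomputable example [HasZeroObject 𝒞] [HasBinaryBiproducts 𝒞] : Pretriangulated (KB 𝒞) := inferInstance
example [HasZeroObject 𝒞] [HasBinaryBiproducts 𝒞] : IsTriangulated (KB 𝒞) := inferInstance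

variable {𝒞} in
/-- A bounded complex, as an object of the bounded homotopy category. -/
def KB.mk (X : CochainComplex 𝒞 ℤ) (h : ∃ N : ℕ, ∀ i : ℤ, (N : ℤ) < |i| → IsZero (X.X i)) :
    KB 𝒞 := ⟨(HomotopyCategory.quotient _ _).obj X, h⟩

end Pool.Agent.NG
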