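import Mathlib
import Pool.Agent.NG.KB

/-!
# The bounded homotopy category of a category with finite Hom sets is finitary
-/

open CategoryTheory CategoryTheory.Limits CategoryTheory.Pretriangulated ZeroObject

namespace Pool.Agent.NG

universe v u

/- PROOF.  A morphism of `Mat_ 𝒞` is a matrix indexed by two finite types with entries in the
finite sets `X i ⟶ Y j`. -/
theorem finite_mat {𝒞 : Type u} [Category.{v} 𝒞] [Preadditive 𝒞]
    (h : ∀ X Y : 𝒞, Finite (X ⟶ Y)) (X Y : Mat_ 𝒞) : Finite (X ⟶ Y) := by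
  have h' : ∀ (i : X.ι) (j : Y.ι), Finite (X.X i ⟶ Y.X j) := fun i j => h _ _
  change Finite (∀ (i : X.ι) (j : Y.ι), X.X i ⟶ Y.X j)
  infer_instance

private theorem finite_chain {𝒞 : Type u} [Category.{v} 𝒞] [Preadditive 𝒞]
    (h : ∀ X Y : 𝒞, Finite (X ⟶ Y)) (K L : CochainComplex 𝒞 ℤ) (N : ℕ)
    (hK : ∀ i : ℤ, (N : ℤ) < |i| → IsZero (K.X i)) : Finite (K ⟶ L) := by
  have h' : ∀ i : ℤ, Finite (K.X i ⟶ L.X i) := fun i => h _ _
  have hinj : Function.Injective
      (fun (f : K ⟶ L) (i : Set.Icc (-(N : ℤ)) N) => f.f (i : ℤ)) := by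
    intro f g hfg
    ext i
    by_cases hi : (N : ℤ) < |i|
    · exact (hK i hi).eq_of_src _ _
    · have hi' : i ∈ Set.Icc (-(N : ℤ)) N := by
        rw [not_lt, abs_le] at hi
        exact hi
      exact congrFun hfg ⟨i, hi'⟩
  exact Finite.of_injective _ hinj

private theorem zero_hom {𝒞 : Type u} [Category.{v} 𝒞] [Preadditive 𝒞]
    (K L : CochainComplex 𝒞 ℤ) (n : ℤ) (N N' : ℕ)
    (hK : ∀ i : ℤ, (N : ℤ) < |i| → IsZero (K.X i))
    (hL : ∀ i : ℤ, (N' : ℤ) < |i| → IsZero (L.X i)) (hn : (N : ℤ) + N' + 1 ≤ |n|)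
    (g : (HomotopyCategory.quotient 𝒞 (ComplexShape.up ℤ)).obj K ⟶
      (HomotopyCategory.quotient 𝒞 (ComplexShape.up ℤ)).obj (L⟦n⟧)) : g = 0 := by
  obtain ⟨φ, rfl⟩ := (HomotopyCategory.quotient _ _).map_surjective g
  have hφ : φ = 0 := by
    ext i
    by_cases hi : (N : ℤ) < |i|
    · exact (hK i hi).eq_of_src _ _
    · have hz : IsZero ((L⟦n⟧).X i) := by
        change IsZero (L.X (i + n))
        refine hL (i + n) ?_
        have h2 : |n| ≤ |i + n| + |i| := by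
          have := abs_sub (i + n) i
          simpa using this
        omega
      exact hz.eq_of_tgt _ _
  rw [hφ, Functor.map_zero]

private theorem zero_hom' {𝒞 : Type u} [Category.{v} 𝒞] [Preadditive 𝒞] [HasZeroObject 𝒞]
    [HasBinaryBiproducts 𝒞]
    (K L : CochainComplex 𝒞 ℤ) (n : ℤ) (N N' : ℕ)
    (hK : ∀ i : ℤ, (N : ℤ) < |i| → IsZero (K.X i))
    (hL : ∀ i : ℤ, (N' : ℤ) < |i| → IsZero (L.X i)) (hn : (N : ℤ) + N' + 1 ≤ |n|)
    (g : (HomotopyCategory.quotient 𝒞 (ComplexShape.up ℤ)).obj K ⟶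
      ((HomotopyCategory.quotient 𝒞 (ComplexShape.up ℤ)).obj L)⟦n⟧) : g = 0 := by
  have h1 := zero_hom K L n N N' hK hL hn
    (g ≫ ((HomotopyCategory.quotient 𝒞 (ComplexShape.up ℤ)).commShiftIso n).inv.app L)
  rw [← cancel_mono
    (((HomotopyCategory.quotient 𝒞 (ComplexShape.up ℤ)).commShiftIso n).inv.app L), zero_comp]
  exact h1

/- PROOF.  Finiteness of `Hom(X, Y)` in `KB 𝒞`: it is the same as in the homotopy category, hence a
quotient of the set of chain maps `X.as ⟶ Y.as` (`HomotopyCategory.quotient` is full); a chain map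
is determined by its components `f i` for `|i| ≤ N` if `X i = 0` for `|i| > N`, and each
`X i ⟶ Y i` is finite.
Boundedness: the shift `Y⟦n⟧` in `KB 𝒞` is computed in the homotopy category
(`(bdd 𝒞).ι.commShiftIso n`, `HomotopyCategory.shift_quotient_obj`): `(Y⟦n⟧).X i = Y.X (i + n)`.
If `X i = 0` for `|i| > N` and `Y i = 0` for `|i| > N'` then for `|n| ≥ N + N' + 1` every chain map
`X ⟶ Y⟦n⟧` has all its components zero. -/
theorem finitary_KB (𝒞 : Type u) [Category.{v} 𝒞] [Preadditive 𝒞] [HasZeroObject 𝒞]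
    [HasBinaryBiproducts 𝒞] (h : ∀ X Y : 𝒞, Finite (X ⟶ Y)) : Finitary (KB 𝒞) where
  finite_hom X Y := by
    obtain ⟨N, hN⟩ := X.property
    have h1 : Finite (X.obj.as ⟶ Y.obj.as) := finite_chain h _ _ N hN
    have h2 : Finite ((bdd 𝒞).ι.obj X ⟶ (bdd 𝒞).ι.obj Y) :=
      Finite.of_surjective
        (fun f : X.obj.as ⟶ Y.obj.as =>
          ((HomotopyCategory.quotient 𝒞 (ComplexShape.up ℤ)).map f : X.obj ⟶ Y.obj))
        ((HomotopyCategory.quotient 𝒞 (ComplexShape.up ℤ)).map_surjective)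
    exact Finite.of_injective (fun f : X ⟶ Y => (bdd 𝒞).ι.map f) (bdd 𝒞).ι.map_injective
  bounded X Y := by
    obtain ⟨N, hN⟩ := X.property
    obtain ⟨N', hN'⟩ := Y.property
    refine ⟨N + N' + 1, fun n hn f => ?_⟩
    apply (bdd 𝒞).ι.map_injective
    rw [Functor.map_zero]
    have hn' : (N : ℤ) + N' + 1 ≤ |n| := by push_cast at hn; exact hn
    have hg : (bdd 𝒞).ι.map f ≫ (((bdd 𝒞).ι.commShiftIso n).hom.app Y) = 0 :=
      zero_hom' X.obj.as Y.obj.as n N N' hN hN' hn'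
        ((bdd 𝒞).ι.map f ≫ (((bdd 𝒞).ι.commShiftIso n).hom.app Y))
    rw [← cancel_mono (((bdd 𝒞).ι.commShiftIso n).hom.app Y), hg, zero_comp]

end Pool.Agent.NG
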