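import Mathlib
import Pool.Agent.NG.KB

/-!
# The complex `X 0 ⟶ X 1 ⟶ ... ⟶ X (r-1)` of a sequence of composable morphisms
-/

open CategoryTheory CategoryTheory.Limits

namespace Pool.Agent.NG

universe v u

/-- A finite sequence of objects `X 0, ..., X (r-1)` with morphisms `d j j'`, of which only those
with `j' = j + 1` matter, such that consecutive morphisms compose to zero. -/
structure Sq (𝒞 : Type u) [Category.{v} 𝒞] [Preadditive 𝒞] where
  r : ℕ
  X : Fin r → 𝒞
  d : ∀ j j' : Fin r, X j ⟶ X j'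
  dd : ∀ j j' j'' : Fin r, j.1 + 1 = j'.1 → j'.1 + 1 = j''.1 → d j j' ≫ d j' j'' = 0

variable {𝒞 : Type u} [Category.{v} 𝒞] [Preadditive 𝒞]

instance : HasBinaryBiproducts (Mat_ 𝒞) := hasBinaryBiproducts_of_finite_biproducts _

instance : HasZeroObject (Mat_ 𝒞) := inferInstance

namespace Sq

/-- The term of degree `i`: the formal direct sum of the `X j` with `j = i` (this is `X i` for
`0 ≤ i < r`, and zero otherwise). -/
def term (s : Sq 𝒞) (i : ℤ) : Mat_ 𝒞 := ⟨{j : Fin s.r // ((j : ℕ) : ℤ) = i}, fun j => s.X j.1⟩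

/-- The complex `X 0 ⟶ X 1 ⟶ ... ⟶ X (r-1)` in the additive hull of `𝒞`, with `X j` in
degree `j`. -/
noncomputable def cx (s : Sq 𝒞) : CochainComplex (Mat_ 𝒞) ℤ where
  X i := s.term i
  d i i' := fun j j' => if i + 1 = i' then s.d j.1 j'.1 else 0
  shape i i' h := by
    funext j j'
    exact if_neg h
  d_comp_d' i i' i'' h h' := by
    funext j j''
    have h1 : i + 1 = i' := h
    have h2 : i' + 1 = i'' := h'
    change (∑ j' : {j' : Fin s.r // ((j' : ℕ) : ℤ) = i'}, _) = (0 : s.X j.1 ⟶ s.X j''.1)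
    refine Finset.sum_eq_zero fun j' _ => ?_
    have e1 : ((j.1 : ℕ) : ℤ) = i := j.2
    have e2 : ((j'.1 : ℕ) : ℤ) = i' := j'.2
    have e3 : ((j''.1 : ℕ) : ℤ) = i'' := j''.2
    have e4 : (if i + 1 = i' then s.d j.1 j'.1 else 0) ≫
        (if i' + 1 = i'' then s.d j'.1 j''.1 else 0) = 0 := by
      rw [if_pos h1, if_pos h2]
      exact s.dd _ _ _ (by omega) (by omega)
    exact e4

theorem cx_bdd (s : Sq 𝒞) : ∃ N : ℕ, ∀ i : ℤ, (N : ℤ) < |i| → IsZero (s.cx.X i) := by
  refine ⟨s.r, fun i hi => ?_⟩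
  rw [IsZero.iff_id_eq_zero]
  apply Mat_.hom_ext
  intro j
  exfalso
  have h1 := j.1.2
  have h2 := j.2
  rcases abs_cases i with h | h <;> omega

/-- The complex of a sequence, as an object of the bounded homotopy category of the additive
hull. -/
noncomputable def obj (s : Sq 𝒞) : KB (Mat_ 𝒞) := KB.mk s.cx s.cx_bdd

end Sq

/-- The sequence with one term `X`. -/
def Sq.one (X : 𝒞) : Sq 𝒞 where
  r := 1
  X _ := X
  d _ _ := 0
  dd j j' _ h _ := by omega

end Pool.Agent.NG
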