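import Mathlib
import Pool.Agent.NG.Arc
import Pool.Agent.NG.Tw
import Pool.Agent.NG.KBFin

/-!
# The topological Fukaya category of an arc system and its arcs
-/

open CategoryTheory CategoryTheory.Limits

namespace Pool.Agent.NG

namespace ArcSystem

variable (S : ArcSystem) (k : Type) [Field k]

theorem kept_of_ne {D : S.Disk} {i : Fin (S.n D + 3)} (h : i ≠ 0) (E : S.Disk) :
    S.side E 0 ≠ S.side D i := by
  intro h1
  obtain rfl := S.bdry E D i h1.symm
  exact h (S.side_inj _ h1).symm

/-- The sides of the disk `D` other than `side D 0`, as objects of the boundary path category. -/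
def kept (D : S.Disk) (i : Fin (S.n D + 3)) (h : i ≠ 0) : BP S.toGluing k :=
  ⟨S.side D i, S.kept_of_ne h⟩

theorem succ_succ {n : ℕ} (j j' : Fin (n + 2)) (h : j.1 + 1 = j'.1) :
    (j.succ + 1 : Fin (n + 3)) = j'.succ := by
  apply Fin.ext
  have h1 := j'.2
  have h2 : ((1 : Fin (n + 3)) : ℕ) = 1 := rfl
  rw [Fin.val_add, Fin.val_succ, Fin.val_succ, h2, Nat.mod_eq_of_lt] <;> omega

/-- The sequence `side D 1 ⟶ side D 2 ⟶ ... ⟶ side D (n D + 2)`, whose morphisms are the corners
of `D`. -/
noncomputable def bdrySq (D : S.Disk) : Sq (BP S.toGluing k) where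
  r := S.n D + 2
  X j := S.kept k D j.succ (Fin.succ_ne_zero j)
  d j j' := if h : j.1 + 1 = j'.1 then
      BP.corner _ _ ⟨D, j.succ⟩ rfl (congrArg (S.side D) (succ_succ j j' h))
    else 0
  dd j j' j'' h h' := by
    rw [dif_pos h, dif_pos h']
    apply BP.hom_ext
    rintro (_ | p)
    · exact zero_mul _
    · rw [BP.comp_some]
      have e1 : S.marked ⟨D, j.succ⟩ ≠ S.marked ⟨D, j'.succ⟩ := fun h1 => by
        have h2 := Fin.succ_injective _ (S.enough D h1)
        rw [h2] at h
        omega
      simp only [BP.corner, Option.elim]
      by_cases h3 : p = S.marked ⟨D, j.succ⟩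
      · rw [if_neg (fun h4 => e1 (h3.symm.trans h4))]
        simp [BP.zero_val]
      · rw [if_neg h3]
        simp [BP.zero_val]

/-- The sequence attached to the side `i` of the disk `D`: the arc `side D i` itself if `i ≠ 0`, and
`side D 1 ⟶ side D 2 ⟶ ... ⟶ side D (n D + 2)` for the boundary arc `side D 0`. -/
noncomputable def sideSq (D : S.Disk) (i : Fin (S.n D + 3)) : Sq (BP S.toGluing k) :=
  if h : i = 0 then S.bdrySq k D else Sq.one (S.kept k D i h)

/-- The topological Fukaya category of the arc system (graded such that the corners between two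
kept arcs have degree zero): the bounded homotopy category of the additive hull of the boundary
path category. -/
abbrev Fuk : Type 1 := KB (Mat_ (BP S.toGluing k))

/-! The instances of `KB`, under shorter names. -/

noncomputable instance instCat : Category.{0} (S.Fuk k) :=
  (inferInstance : Category (KB (Mat_ (BP S.toGluing k))))

noncomputable instance instPre : Preadditive (S.Fuk k) :=
  (inferInstance : Preadditive (KB (Mat_ (BP S.toGluing k))))

instance instZero : HasZeroObject (S.Fuk k) :=
  (inferInstance : HasZeroObject (KB (Mat_ (BP S.toGluing k))))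

noncomputable instance instShift : HasShift (S.Fuk k) ℤ :=
  (inferInstance : HasShift (KB (Mat_ (BP S.toGluing k))) ℤ)

instance instAdd (n : ℤ) : (shiftFunctor (S.Fuk k) n).Additive :=
  (inferInstance : (shiftFunctor (KB (Mat_ (BP S.toGluing k))) n).Additive)

noncomputable instance instPretri : Pretriangulated (S.Fuk k) :=
  (inferInstance : Pretriangulated (KB (Mat_ (BP S.toGluing k))))

instance instTri : IsTriangulated (S.Fuk k) :=
  (inferInstance : IsTriangulated (KB (Mat_ (BP S.toGluing k))))

/-- The side `i` of the disk `D`, as an object of the topological Fukaya category. -/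
noncomputable def arcObj (D : S.Disk) (i : Fin (S.n D + 3)) : S.Fuk k := (S.sideSq k D i).obj

/- PROOF.  A function on a finite type (`S.Marked` is a quotient of the finite type of corners) with
values in the finite field `k`. -/
theorem finite_hom [Finite k] (a b : BP S.toGluing k) : Finite (a ⟶ b) := by
  have h1 : Finite (S.toGluing.Marked) := by
    have hc : Finite (S.toGluing.Corner) := inferInstance
    exact Finite.of_surjective (S.toGluing.marked) (fun q => Quot.exists_rep q)
  have h2 : Finite (Option S.toGluing.Marked → k) := inferInstance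
  exact Finite.of_injective (fun f : a ⟶ b => f.1) fun f g h => Subtype.ext h

instance [Finite k] : Finitary (S.Fuk k) :=
  finitary_KB _ (finite_mat (S.finite_hom k))

end ArcSystem

end Pool.Agent.NG
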