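import Mathlib

/-!
# Algebras defined by structure constants
-/

namespace Pool.Agent.NG

universe u w

/-- Associative and unital structure constants: `x * y = ∑ z, (c x y z) z`, with unit `e`. -/
structure StrConst (I : Type u) (K : Type w) [Field K] where
  c : I → I → I →₀ K
  e : I
  e_c : ∀ x, c e x = Finsupp.single x 1
  c_e : ∀ x, c x e = Finsupp.single x 1
  assoc : ∀ x y z, ((c x y).sum fun m a => a • c m z) = (c y z).sum fun n a => a • c x n

namespace StrConst

variable {I : Type u} {K : Type w} [Field K]

/-- The algebra with basis `I` and the given structure constants: its elements are the finite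
linear combinations of elements of `I`. -/
def Alg (_ : StrConst I K) : Type (max u w) := I →₀ K

variable (s : StrConst I K)

noncomputable instance : AddCommGroup s.Alg := (inferInstance : AddCommGroup (I →₀ K))
noncomputable instance : Module K s.Alg := (inferInstance : Module K (I →₀ K))

/-- The basis vectors. -/
noncomputable def b (x : I) : s.Alg := (Finsupp.single x 1 : I →₀ K)

/-- The product. -/
noncomputable def mulFun (f g : I →₀ K) : I →₀ K :=
  f.sum fun x a => g.sum fun y b => (a * b) • s.c x y

noncomputable instance : Mul s.Alg := ⟨fun f g => s.mulFun f g⟩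
noncomputable instance : One s.Alg := ⟨s.b s.e⟩

/-- The product as a bilinear map. -/
private noncomputable def mulB : (I →₀ K) →ₗ[K] (I →₀ K) →ₗ[K] (I →₀ K) :=
  Finsupp.lsum K fun x => LinearMap.toSpanSingleton K _
    (Finsupp.lsum K fun y => LinearMap.toSpanSingleton K _ (s.c x y))

private theorem mulB_single (x : I) (a : K) (g : I →₀ K) :
    s.mulB (Finsupp.single x a) g = a • g.sum fun y b => b • s.c x y := by
  unfold mulB
  rw [Finsupp.lsum_single, LinearMap.toSpanSingleton_apply, LinearMap.smul_apply]
  rfl

private theorem mulB_single_single (x y : I) (a b : K) :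
    s.mulB (Finsupp.single x a) (Finsupp.single y b) = (a * b) • s.c x y := by
  rw [mulB_single, Finsupp.sum_single_index (h := fun y b => b • s.c x y) (zero_smul K _),
    smul_smul]

private theorem mulFun_eq (f g : I →₀ K) : s.mulFun f g = s.mulB f g := by
  unfold mulFun
  have h : ∀ f : I →₀ K, s.mulB f g = f.sum fun x a => s.mulB (Finsupp.single x a) g := by
    intro f
    have h1 : f = f.sum fun x a => Finsupp.single x a := (Finsupp.sum_single f).symm
    conv_lhs => rw [h1]
    rw [Finsupp.sum, map_sum, LinearMap.sum_apply]
    rfl
  rw [h f]
  refine Finsupp.sum_congr fun x _ => ?_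
  rw [mulB_single, Finsupp.smul_sum]
  refine Finsupp.sum_congr fun y _ => ?_
  rw [smul_smul]

private theorem mulB_right (f : I →₀ K) (z : I) (b : K) :
    s.mulB f (Finsupp.single z b) = b • f.sum fun x a => a • s.c x z := by
  induction f using Finsupp.induction_linear with
  | zero => rw [map_zero, LinearMap.zero_apply, Finsupp.sum_zero_index, smul_zero]
  | add f g hf hg =>
    rw [map_add, LinearMap.add_apply, hf, hg,
      Finsupp.sum_add_index' (h := fun x a => a • s.c x z) (fun _ => zero_smul K _)
        (fun _ _ _ => add_smul _ _ _), smul_add]
  | single x a =>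
    rw [mulB_single_single,
      Finsupp.sum_single_index (h := fun x a => a • s.c x z) (zero_smul K _), smul_smul, mul_comm]

private theorem mulB_one_left (g : I →₀ K) : s.mulB (Finsupp.single s.e 1) g = g := by
  induction g using Finsupp.induction_linear with
  | zero => rw [map_zero]
  | add f g hf hg => rw [map_add, hf, hg]
  | single y b =>
    rw [mulB_single_single, s.e_c, one_mul, Finsupp.smul_single, smul_eq_mul, mul_one]

private theorem mulB_one_right (g : I →₀ K) : s.mulB g (Finsupp.single s.e 1) = g := by
  induction g using Finsupp.induction_linear with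
  | zero => rw [map_zero, LinearMap.zero_apply]
  | add f g hf hg => rw [map_add, LinearMap.add_apply, hf, hg]
  | single y b =>
    rw [mulB_single_single, s.c_e, mul_one, Finsupp.smul_single, smul_eq_mul, mul_one]

private theorem mulB_assoc (f g h : I →₀ K) : s.mulB (s.mulB f g) h = s.mulB f (s.mulB g h) := by
  induction f using Finsupp.induction_linear with
  | zero => simp only [map_zero, LinearMap.zero_apply]
  | add f f' hf hf' => simp only [map_add, LinearMap.add_apply, hf, hf']
  | single x a =>
    induction g using Finsupp.induction_linear with
    | zero => simp only [map_zero, LinearMap.zero_apply]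
    | add g g' hg hg' => simp only [map_add, LinearMap.add_apply, hg, hg']
    | single y b =>
      induction h using Finsupp.induction_linear with
      | zero => simp only [map_zero]
      | add h h' hh hh' => simp only [map_add, hh, hh']
      | single z t =>
        rw [mulB_single_single, mulB_single_single, map_smul, LinearMap.smul_apply, map_smul,
          mulB_right, mulB_single, s.assoc, smul_smul, smul_smul]
        congr 1
        ring

private theorem mulFun_add_right (f g h : I →₀ K) :
    s.mulFun f (g + h) = s.mulFun f g + s.mulFun f h := by
  rw [mulFun_eq, mulFun_eq, mulFun_eq, map_add]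

private theorem mulFun_add_left (f g h : I →₀ K) :
    s.mulFun (f + g) h = s.mulFun f h + s.mulFun g h := by
  rw [mulFun_eq, mulFun_eq, mulFun_eq, map_add, LinearMap.add_apply]

private theorem mulFun_zero_left (f : I →₀ K) : s.mulFun 0 f = 0 := by
  rw [mulFun_eq, map_zero, LinearMap.zero_apply]

private theorem mulFun_zero_right (f : I →₀ K) : s.mulFun f 0 = 0 := by
  rw [mulFun_eq, map_zero]

private theorem mulFun_one_left (f : I →₀ K) : s.mulFun (Finsupp.single s.e 1) f = f := by
  rw [mulFun_eq, mulB_one_left]

private theorem mulFun_one_right (f : I →₀ K) : s.mulFun f (Finsupp.single s.e 1) = f := by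
  rw [mulFun_eq, mulB_one_right]

private theorem mulFun_assoc (f g h : I →₀ K) :
    s.mulFun (s.mulFun f g) h = s.mulFun f (s.mulFun g h) := by
  rw [mulFun_eq, mulFun_eq, mulFun_eq, mulFun_eq, mulB_assoc]

private theorem mulFun_smul_left (r : K) (f g : I →₀ K) :
    s.mulFun (r • f) g = r • s.mulFun f g := by
  rw [mulFun_eq, mulFun_eq, map_smul, LinearMap.smul_apply]

private theorem mulFun_smul_right (r : K) (f g : I →₀ K) :
    s.mulFun f (r • g) = r • s.mulFun f g := by
  rw [mulFun_eq, mulFun_eq, map_smul]

/- PROOF: expand; `Finsupp.sum_single_index`. -/
theorem b_mul_b (x y : I) : s.b x * s.b y = (s.c x y : I →₀ K) := by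
  change s.mulFun (Finsupp.single x 1) (Finsupp.single y 1) = s.c x y
  rw [mulFun_eq, mulB_single_single, one_mul, one_smul]

theorem one_def : (1 : s.Alg) = s.b s.e := rfl

/- PROOF.  `mulFun` is biadditive (`Finsupp.sum_add_index'`), zero on zero.  Unit and
associativity: by linearity it is enough to treat basis vectors (`Finsupp.induction_linear`),
where they are the fields `e_c`, `c_e`, `assoc`. -/
noncomputable instance : Ring s.Alg :=
  { (inferInstance : AddCommGroup s.Alg), (inferInstance : Mul s.Alg),
    (inferInstance : One s.Alg) with
    left_distrib := fun f g h => mulFun_add_right s f g h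
    right_distrib := fun f g h => mulFun_add_left s f g h
    zero_mul := fun f => mulFun_zero_left s f
    mul_zero := fun f => mulFun_zero_right s f
    one_mul := fun f => mulFun_one_left s f
    mul_one := fun f => mulFun_one_right s f
    mul_assoc := fun f g h => mulFun_assoc s f g h }

noncomputable instance : Algebra K s.Alg := Algebra.ofModule
  (fun r f g => mulFun_smul_left s r f g) (fun r f g => mulFun_smul_right s r f g)

/-- Two linear maps agreeing on the basis vectors are equal. -/
theorem ext_lin {M : Type*} [AddCommMonoid M] [Module K M] {f g : s.Alg →ₗ[K] M}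
    (h : ∀ x, f (s.b x) = g (s.b x)) : f = g :=
  Finsupp.lhom_ext' fun x => LinearMap.ext_ring (h x)

/- PROOF.  The linear map is `Finsupp.lift`/`Finsupp.linearCombination K v`; it is multiplicative by
bilinearity and `hmul` on the basis vectors. -/
/-- Construction of algebra homomorphisms. -/
theorem exists_hom {A : Type*} [Ring A] [Algebra K A] (v : I → A) (h1 : v s.e = 1)
    (hmul : ∀ x y, v x * v y = (s.c x y).sum fun z a => a • v z) :
    ∃ φ : s.Alg →ₐ[K] A, ∀ x, φ (s.b x) = v x := by
  have hs : ∀ x, Finsupp.linearCombination K v (Finsupp.single x (1 : K)) = v x := by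
    intro x
    rw [Finsupp.linearCombination_single, one_smul]
  have hm : ∀ f g : I →₀ K, Finsupp.linearCombination K v (s.mulB f g) =
      Finsupp.linearCombination K v f * Finsupp.linearCombination K v g := by
    intro f g
    induction f using Finsupp.induction_linear with
    | zero => simp only [map_zero, LinearMap.zero_apply, zero_mul]
    | add f f' hf hf' => simp only [map_add, LinearMap.add_apply, hf, hf', add_mul]
    | single x a =>
      induction g using Finsupp.induction_linear with
      | zero => simp only [map_zero, mul_zero]
      | add g g' hg hg' => simp only [map_add, hg, hg', mul_add]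
      | single y b =>
        rw [mulB_single_single, map_smul, Finsupp.linearCombination_single,
          Finsupp.linearCombination_single, smul_mul_smul_comm, hmul]
        rfl
  have hm' : ∀ f g : I →₀ K, Finsupp.linearCombination K v (s.mulFun f g) =
      Finsupp.linearCombination K v f * Finsupp.linearCombination K v g := by
    intro f g
    rw [mulFun_eq, hm]
  have h1' : Finsupp.linearCombination K v (Finsupp.single s.e (1 : K)) = 1 := by
    rw [hs, h1]
  exact ⟨AlgHom.ofLinearMap (show s.Alg →ₗ[K] A from Finsupp.linearCombination K v) h1' hm', hs⟩

/-- The coordinates of an element. -/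
def coord (f : s.Alg) (x : I) : K := (show I →₀ K from f) x

end StrConst

end Pool.Agent.NG
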