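import Mathlib
import Pool.Agent.NG.SCAlg
import Pool.Agent.NG.Assoc

/-!
# The derived Hall algebra

`DHa C K` is Toën's derived Hall algebra of the finitary triangulated category `C`, with
coefficients in the field `K` of characteristic zero, twisted by the Euler form: it has the
isomorphism classes of objects as a basis, and
`X * Y = q ^ ⟨Y, X⟩ ∑_Z toen X Y Z Z`.
-/

open CategoryTheory CategoryTheory.Limits CategoryTheory.Pretriangulated ZeroObject

namespace Pool.Agent.NG

universe v u w

variable {C : Type u} [Category.{v} C] [Preadditive C] [HasZeroObject C] [HasShift C ℤ]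
  [∀ n : ℤ, (shiftFunctor C n).Additive] [Pretriangulated C] [Finitary C]

private theorem out_iso (X : C) : Nonempty ((cls X).out ≅ X) := by
  rw [← cls_eq_iff, cls_out]

/- PROOF.  The support is contained in `{M | (coneSet x.out y.out M.out).Nonempty}`
(`toen_ne_zero_iff`, `finite_cone_cls`). -/
theorem toen_support_finite (K : Type w) [Field K] [CharZero K] (x y : Cls C) :
    (Function.support fun z : Cls C =>
      ((eul y.out x.out * toen x.out y.out z.out : ℚ) : K)).Finite := by
  refine (finite_cone_cls x.out y.out).subset ?_
  intro z hz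
  rw [Function.mem_support] at hz
  have h1 : toen x.out y.out z.out ≠ 0 := by
    intro h
    apply hz
    rw [h, mul_zero, Rat.cast_zero]
  exact (toen_ne_zero_iff _ _ _).1 h1

private theorem hall_unit_left (K : Type w) [Field K] [CharZero K] (e x : Cls C)
    (he : e = cls (0 : C)) :
    Finsupp.ofSupportFinite
      (fun z : Cls C => ((eul x.out e.out * toen e.out x.out z.out : ℚ) : K))
      (toen_support_finite K e x) = Finsupp.single x 1 := by
  classical
  refine Finsupp.ext fun z => ?_
  have h1 : Nonempty (e.out ≅ (0 : C)) := by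
    rw [← cls_eq_iff, cls_out, he]
  obtain ⟨e0⟩ := h1
  have h2 : eul x.out e.out * toen e.out x.out z.out = if z = x then 1 else 0 := by
    rw [eul_congr (Iso.refl x.out) e0, eul_zero_right,
      toen_congr e0 (Iso.refl x.out) (Iso.refl z.out), toen_zero_left, cls_out, one_mul]
  rw [Finsupp.ofSupportFinite_coe, Finsupp.single_apply, h2]
  by_cases h : z = x
  · rw [if_pos h, if_pos h.symm, Rat.cast_one]
  · rw [if_neg h, if_neg (fun h' => h h'.symm), Rat.cast_zero]

private theorem hall_unit_right (K : Type w) [Field K] [CharZero K] (e x : Cls C)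
    (he : e = cls (0 : C)) :
    Finsupp.ofSupportFinite
      (fun z : Cls C => ((eul e.out x.out * toen x.out e.out z.out : ℚ) : K))
      (toen_support_finite K x e) = Finsupp.single x 1 := by
  classical
  refine Finsupp.ext fun z => ?_
  have h1 : Nonempty (e.out ≅ (0 : C)) := by
    rw [← cls_eq_iff, cls_out, he]
  obtain ⟨e0⟩ := h1
  have h2 : eul e.out x.out * toen x.out e.out z.out = if z = x then 1 else 0 := by
    rw [eul_congr e0 (Iso.refl x.out), eul_zero_left,
      toen_congr (Iso.refl x.out) e0 (Iso.refl z.out), toen_zero_right, cls_out, one_mul]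
  rw [Finsupp.ofSupportFinite_coe, Finsupp.single_apply, h2]
  by_cases h : z = x
  · rw [if_pos h, if_pos h.symm, Rat.cast_one]
  · rw [if_neg h, if_neg (fun h' => h h'.symm), Rat.cast_zero]

private theorem hall_sum (K : Type w) [Field K] [CharZero K] (F : Cls C → Cls C → Cls C → ℚ)
    (hF : ∀ x y, (Function.support fun z : Cls C => ((F x y z : ℚ) : K)).Finite)
    (x y l : Cls C) (G : Cls C → Cls C →₀ K) (H : Cls C → ℚ)
    (hG : ∀ z, G z l = ((H z : ℚ) : K)) :
    ((Finsupp.ofSupportFinite (fun z => ((F x y z : ℚ) : K)) (hF x y)).sum
      fun m a => a • G m) l = ((∑ᶠ m, F x y m * H m : ℚ) : K) := by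
  classical
  have hsupp : Function.support (fun m => F x y m * H m) ⊆
      ((Finsupp.ofSupportFinite (fun z => ((F x y z : ℚ) : K)) (hF x y)).support : Set (Cls C)) := by
    intro m hm
    rw [Function.mem_support] at hm
    rw [Finset.mem_coe, Finsupp.mem_support_iff]
    change ((F x y m : ℚ) : K) ≠ 0
    rw [Rat.cast_ne_zero]
    exact left_ne_zero_of_mul hm
  rw [finsum_eq_sum_of_support_subset _ hsupp, Rat.cast_sum, Finsupp.sum, Finset.sum_apply']
  refine Finset.sum_congr rfl fun m _ => ?_
  rw [Finsupp.smul_apply, hG, smul_eq_mul, Rat.cast_mul]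
  rfl

variable (C) in
/-- The structure constants `eul y x * toen x y z = q ^ ⟨y, x⟩ toen x y z` of the twisted derived
Hall algebra, on the basis of isomorphism classes. -/
noncomputable def hallConst [IsTriangulated C] (K : Type w) [Field K] [CharZero K] :
    StrConst (Cls C) K where
  c x y := Finsupp.ofSupportFinite
    (fun z => ((eul y.out x.out * toen x.out y.out z.out : ℚ) : K)) (toen_support_finite K x y)
  e := cls 0
  e_c := fun x => hall_unit_left K (cls 0) x rfl
  c_e := fun x => hall_unit_right K (cls 0) x rfl
  assoc := by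
    intro x y z
    ext l
    rw [hall_sum K (fun x y z => eul y.out x.out * toen x.out y.out z.out)
      (fun x y => toen_support_finite K x y) x y l _
      (fun m => eul z.out m.out * toen m.out z.out l.out) (fun m => rfl),
      hall_sum K (fun x y z => eul y.out x.out * toen x.out y.out z.out)
      (fun x y => toen_support_finite K x y) y z l _
      (fun n => eul n.out x.out * toen x.out n.out l.out) (fun n => rfl)]
    exact congrArg _ (twisted_assoc x.out y.out z.out l.out)

variable (C) in
/-- The twisted derived Hall algebra. -/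
abbrev DHa [IsTriangulated C] (K : Type w) [Field K] [CharZero K] : Type (max u w) :=
  (hallConst C K).Alg

variable [IsTriangulated C]

/-- The basis element of an object. -/
noncomputable def DHa.of (K : Type w) [Field K] [CharZero K] (X : C) : DHa C K :=
  (hallConst C K).b (cls X)

variable (K : Type w) [Field K] [CharZero K]

namespace DHa

theorem of_congr {X Y : C} (e : X ≅ Y) : of K X = of K Y := by
  unfold of
  rw [(cls_eq_iff X Y).2 ⟨e⟩]

theorem of_zero : of K (0 : C) = 1 := rfl

/-- The coordinates of a product of two basis elements. -/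
theorem coord_mul (X Y : C) (M : Cls C) :
    (hallConst C K).coord (of K X * of K Y) M = ((eul Y X * toen X Y M.out : ℚ) : K) := by
  unfold of
  rw [(hallConst C K).b_mul_b]
  obtain ⟨eX⟩ := out_iso X
  obtain ⟨eY⟩ := out_iso Y
  rw [← eul_congr eY eX, ← toen_congr eX eY (Iso.refl M.out)]
  rfl

theorem ext_coord {f g : DHa C K}
    (h : ∀ M, (hallConst C K).coord f M = (hallConst C K).coord g M) : f = g :=
  Finsupp.ext h

theorem coord_smul (a : K) (f : DHa C K) (M : Cls C) :
    (hallConst C K).coord (a • f) M = a * (hallConst C K).coord f M := rfl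

open Classical in
theorem coord_of (X : C) (M : Cls C) :
    (hallConst C K).coord (of K X) M = if M = cls X then 1 else 0 := by
  have h : (hallConst C K).coord (of K X) M = Finsupp.single (cls X) (1 : K) M := rfl
  rw [h, Finsupp.single_apply]
  by_cases hM : M = cls X
  · rw [if_pos hM, if_pos hM.symm]
  · rw [if_neg hM, if_neg (fun h' => hM h'.symm)]

end DHa

end Pool.Agent.NG
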