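import Mathlib
import Pool.Agent.NG.Fuk
import Pool.Agent.NG.Hall

/-!
# Composition algebras and the naive algebra of an arc system
-/

open CategoryTheory CategoryTheory.Limits

namespace Pool.Agent.NG

/-- The disk with `n + 3` marked intervals, with the arc system of its `n + 3` boundary arcs, as a
gluing pattern of one polygon. -/
def polyGluing (n : ℕ) : Gluing where
  Arc := Fin (n + 3)
  Disk := Unit
  n _ := n
  side _ i := i
  side_surj a := ⟨(), a, rfl⟩
  side_inj _ := Function.injective_id
  two _ _ _ _ _ _ _ _ := Or.inl rfl
  bdry _ _ _ _ := rfl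

theorem polyGluing_noCircle (n : ℕ) : (polyGluing n).NoCircle := by
  intro c h
  obtain ⟨d, hd, -⟩ := Relation.TransGen.head'_iff.1 h
  exact hd.1 rfl

theorem polyGluing_enough (n : ℕ) : (polyGluing n).Enough := by
  intro D i j h
  exact congrArg (Quot.lift (fun c : Σ _ : Unit, Fin (n + 3) => c.2)
    (fun a b (hab : _ ≠ _ ∧ _) => absurd rfl hab.1)) h

/-- The disk with `n + 3` marked intervals, with the arc system of its `n + 3` boundary arcs. -/
def polygon (n : ℕ) : ArcSystem where
  toGluing := polyGluing n
  noCircle := polyGluing_noCircle n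
  enough := polyGluing_enough n

namespace ArcSystem

variable (S : ArcSystem) (k : Type) [Field k] [Finite k] (K : Type) [Field K] [CharZero K]

/-- The composition subalgebra `f(S, A)` of the twisted derived Hall algebra of the topological
Fukaya category: it is generated by the suspensions of the arcs. -/
noncomputable def Comp : Subalgebra K (DHa (S.Fuk k) K) :=
  Algebra.adjoin K {x | ∃ (D : S.Disk) (i : Fin (S.n D + 3)) (m : ℤ),
    x = DHa.of K ((S.arcObj k D i)⟦m⟧)}

/-- The elements of the composition algebra `f(S, A)`. -/
abbrev CompT : Type 1 := S.Comp k K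

noncomputable instance instCompSemiring : Semiring (S.CompT k K) :=
  (inferInstance : Semiring (S.Comp k K))

noncomputable instance instCompAlgebra : Algebra K (S.CompT k K) :=
  (inferInstance : Algebra K (S.Comp k K))

/-- The `m`-th suspension of the side `i` of the disk `D`, as an element of `f(S, A)`. -/
noncomputable def carc (D : S.Disk) (i : Fin (S.n D + 3)) (m : ℤ) : S.CompT k K :=
  ⟨DHa.of K ((S.arcObj k D i)⟦m⟧), Algebra.subset_adjoin ⟨D, i, m, rfl⟩⟩

/-- The composition algebra `f(D)` of the disk `D`: the composition algebra of a polygon. -/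
abbrev DComp (D : S.Disk) : Type 1 := (polygon (S.n D)).CompT k K

/-- The `m`-th suspension of the side `i` of the disk `D`, as an element of `f(D)`. -/
noncomputable def darc (D : S.Disk) (i : Fin (S.n D + 3)) (m : ℤ) : S.DComp k K D :=
  (polygon (S.n D)).carc k K () i m

/-- The free product of the composition algebras of the disks. -/
abbrev Free : Type 1 := LinearAlgebra.FreeProduct K fun D : S.Disk => S.DComp k K D

noncomputable instance instFreeSemiring : Semiring (S.Free k K) :=
  (inferInstance : Semiring (LinearAlgebra.FreeProduct K fun D : S.Disk => S.DComp k K D))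

noncomputable instance instFreeAlgebra : Algebra K (S.Free k K) :=
  (inferInstance : Algebra K (LinearAlgebra.FreeProduct K fun D : S.Disk => S.DComp k K D))

/-- The `m`-th suspension of the side `i` of the disk `D`, as an element of the free product. -/
noncomputable def farc (D : S.Disk) (i : Fin (S.n D + 3)) (m : ℤ) : S.Free k K :=
  LinearAlgebra.FreeProduct.ι K (fun D : S.Disk => S.DComp k K D) D (S.darc k K D i m)

/-- The two marked intervals on which the side `i` of the disk `D` ends. -/
def ends (D : S.Disk) (i : Fin (S.n D + 3)) : Set S.Marked :=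
  {S.marked ⟨D, i - 1⟩, S.marked ⟨D, i⟩}

/-- The relations (G1) and (G3). -/
inductive Rel : S.Free k K → S.Free k K → Prop
  /-- (G1): arcs of distinct disks which are glued are identified -/
  | g1 (D D' : S.Disk) (i : Fin (S.n D + 3)) (i' : Fin (S.n D' + 3)) (m : ℤ) (hD : D ≠ D')
      (h : S.side D i = S.side D' i') : Rel (S.farc k K D i m) (S.farc k K D' i' m)
  /-- (G3): arcs of distinct disks not ending on a common marked interval commute -/
  | g3 (D D' : S.Disk) (i : Fin (S.n D + 3)) (i' : Fin (S.n D' + 3)) (m m' : ℤ) (hD : D ≠ D')
      (h : Disjoint (S.ends D i) (S.ends D' i')) :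
      Rel (S.farc k K D i m * S.farc k K D' i' m') (S.farc k K D' i' m' * S.farc k K D i m)

/-- The naive algebra `n(S, A)`. -/
abbrev Naive : Type 1 := RingQuot (Rel S k K)

noncomputable instance instNaiveSemiring : Semiring (S.Naive k K) :=
  (inferInstance : Semiring (RingQuot (Rel S k K)))

noncomputable instance instNaiveAlgebra : Algebra K (S.Naive k K) :=
  (inferInstance : Algebra K (RingQuot (Rel S k K)))

/-- The `m`-th suspension of the side `i` of the disk `D`, as an element of `n(S, A)`. -/
noncomputable def narc (D : S.Disk) (i : Fin (S.n D + 3)) (m : ℤ) : S.Naive k K :=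
  RingQuot.mkAlgHom K (Rel S k K) (S.farc k K D i m)

end ArcSystem

end Pool.Agent.NG
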