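import Mathlib
import Pool.Agent.NG.Naive

/-!
# Boundary paths between two sides of a disk
-/

open CategoryTheory CategoryTheory.Limits

namespace Pool.Agent.NG

namespace ArcSystem

variable (S : ArcSystem)

/- Marked intervals of the polygon `polygon n`: there is only one disk, so `Cross` is empty, and the
marked intervals are the `n + 3` corners; `Step p a b` holds iff `p` is the corner `⟨(), a⟩` and
`b = a + 1`, and `Before p a b` iff `Step p a b` (two consecutive steps on the same `p` would
need `a + 1 = a`). -/
theorem polygon_marked_injective (n : ℕ) :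
    Function.Injective fun i : Fin (n + 3) => (polygon n).marked ⟨(), i⟩ :=
  (polygon n).enough ()

theorem polygon_before_iff (n : ℕ) (p : (polygon n).Marked) (a b : Fin (n + 3)) :
    (polygon n).Before p a b ↔ p = (polygon n).marked ⟨(), a⟩ ∧ b = a + 1 := by
  constructor
  · intro h
    induction h with
    | single h =>
      obtain ⟨c, hc1, hc2, hc3⟩ := h
      obtain ⟨_, l⟩ := c
      have h2 : l = a := hc2
      have h3 : l + 1 = _ := hc3
      subst h2
      exact ⟨hc1.symm, h3.symm⟩
    | tail h hbc ih =>
      exfalso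
      obtain ⟨c, hc1, hc2, hc3⟩ := hbc
      obtain ⟨_, l⟩ := c
      have h2 : l = _ := hc2
      rw [ih.2] at h2
      have h4 : (polygon n).marked ⟨(), a⟩ = (polygon n).marked ⟨(), l⟩ := ih.1.symm.trans hc1.symm
      have h5 : a = l := polygon_marked_injective n h4
      rw [h2] at h5
      have h6 : (1 : Fin (n + 3)) = 0 := by
        have := h5.symm
        rwa [add_eq_left] at this
      exact absurd h6 (by simp)
  · rintro ⟨rfl, rfl⟩
    exact Relation.TransGen.single ⟨⟨(), a⟩, rfl, rfl, rfl⟩

/- PROOF.  `←`: `Step` for the corner `⟨D, i⟩`.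
`→`: Let `p` be a marked interval with `Before p (side D i) (side D j)`.
General facts for an arc system (enough marked intervals, no circle):
(F1) If `c, c'` are corners of the same disk on the same marked interval then `c = c'` (`enough`).
(F2) If `c, c'` lie on the same marked interval `p` then `ReflTransGen Cross c c'` or
`ReflTransGen Cross c' c`.  (Cross is a partial injection: `Cross c c'` and `Cross c c''` imply
`c' = c''`, since `src c' = tgt c = src c''` with `c'.1, c''.1 ≠ c.1` and an arc is a side of at
most two disks (`two`), so `c'.1 = c''.1` and `side_inj`; similarly backwards.  So the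
equivalence relation generated by `Cross` is `ReflTransGen Cross c c' ∨ ReflTransGen Cross c' c`.)
(F3) `Step p a b` through the corner `c` and `Step p b d` through the corner `c'`
(`tgt c = b = src c'`, both on `p`) imply `Cross c c'`: `c.1 ≠ c'.1`, otherwise `c = c'` by (F1)
and `side D (i+1) = side D i`, against `side_inj`.  Hence `Before p a b` implies that there
are corners `c, c'` on `p` with `src c = a`, `tgt c' = b` and `ReflTransGen Cross c c'`.
Now let `c = ⟨E, l⟩`, `c' = ⟨E', l'⟩` be as in (F3) for `a = side D i`, `b = side D j`, so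
`side E l = side D i` and `side E' (l'+1) = side D j`.
The corner of `D` on `p`: since `side E l = side D i`, either `E = D`, `l = i` and
`c = ⟨D, i⟩`, or `E ≠ D` and `Cross ⟨D, i - 1⟩ c`, so `⟨D, i-1⟩` is on `p`.  Similarly either
`c' = ⟨D, j-1⟩`, or `Cross c' ⟨D, j⟩` and `⟨D, j⟩` is on `p`.
Case 1: `c = ⟨D, i⟩` and `c' = ⟨D, j-1⟩`: equal by (F1), so `j = i + 1`, and `p = [⟨D, i⟩]`. Done.
Case 2: `c = ⟨D, i⟩`, `Cross c' ⟨D, j⟩`: `i = j` by (F1), so
`TransGen Cross ⟨D,i⟩ ⟨D,i⟩`, against `noCircle`.
Case 3: `Cross ⟨D, i-1⟩ c`, `c' = ⟨D, j-1⟩`: `i = j` by (F1) and again a circle.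
Case 4: `Cross ⟨D, i-1⟩ c`, `Cross c' ⟨D, j⟩`: `i - 1 = j` by (F1), and
`TransGen Cross ⟨D,j⟩ ⟨D,j⟩`, against `noCircle`. -/
private theorem marked_inj {D : S.Disk} {i j : Fin (S.n D + 3)}
    (h : S.marked ⟨D, i⟩ = S.marked ⟨D, j⟩) : i = j := S.enough D h

private theorem add_one_ne {m : ℕ} (i : Fin (m + 3)) : i + 1 ≠ i := by
  intro h
  rw [add_eq_left] at h
  exact absurd h (by simp)

private theorem cross_of_step {c c' : S.Corner} (h : S.marked c = S.marked c')
    (h' : S.tgt c = S.src c') : S.Cross c c' := by
  refine ⟨?_, h'⟩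
  intro hD
  obtain ⟨D, i⟩ := c
  obtain ⟨D', i'⟩ := c'
  have hD' : D = D' := hD
  subst hD'
  have h1 : i = i' := marked_inj S h
  subst h1
  exact add_one_ne i (S.side_inj D h')

private theorem before_corners {p : S.Marked} {a b : S.Arc} (h : S.Before p a b) :
    ∃ c c' : S.Corner, S.marked c = p ∧ S.marked c' = p ∧ S.src c = a ∧ S.tgt c' = b ∧
      Relation.ReflTransGen S.Cross c c' := by
  induction h with
  | single h =>
    obtain ⟨c, hc1, hc2, hc3⟩ := h
    exact ⟨c, c, hc1, hc1, hc2, hc3, Relation.ReflTransGen.refl⟩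
  | tail h hbc ih =>
    obtain ⟨c, c', h1, h2, h3, h4, h5⟩ := ih
    obtain ⟨c'', hc1, hc2, hc3⟩ := hbc
    have h6 : S.Cross c' c'' := cross_of_step S (h2.trans hc1.symm) (h4.trans hc2.symm)
    exact ⟨c, c'', h1, hc1, h3, hc3, h5.tail h6⟩

private theorem marked_of_cross {c c' : S.Corner} (h : S.Cross c c') :
    S.marked c = S.marked c' := Quot.sound h

/-- The boundary paths between two sides of a disk are the corners of the disk. -/
theorem before_side_iff (D : S.Disk) (i j : Fin (S.n D + 3)) (p : S.Marked) :
    S.Before p (S.side D i) (S.side D j) ↔ p = S.marked ⟨D, i⟩ ∧ j = i + 1 := by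
  constructor
  · intro h
    obtain ⟨c, c', h1, h2, h3, h4, h5⟩ := before_corners S h
    have hc : c = ⟨D, i⟩ ∨ S.Cross ⟨D, i - 1⟩ c := by
      by_cases hD : D = c.1
      · left
        obtain ⟨E, l⟩ := c
        have hD' : D = E := hD
        subst hD'
        have : l = i := S.side_inj D h3
        rw [this]
      · right
        refine ⟨hD, ?_⟩
        change S.side D (i - 1 + 1) = S.src c
        rw [sub_add_cancel, h3]
    have hc' : c' = ⟨D, j - 1⟩ ∨ S.Cross c' ⟨D, j⟩ := by
      by_cases hD : D = c'.1
      · left
        obtain ⟨E, l⟩ := c'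
        have hD' : D = E := hD
        subst hD'
        have : l + 1 = j := S.side_inj D h4
        rw [← this, add_sub_cancel_right]
      · right
        exact ⟨fun h => hD h.symm, h4⟩
    rcases hc with hc | hc
    · subst hc
      rcases hc' with hc' | hc'
      · subst hc'
        have h6 : i = j - 1 := marked_inj S (h1.trans h2.symm)
        exact ⟨h1.symm, by rw [h6, sub_add_cancel]⟩
      · exfalso
        have h6 : i = j := marked_inj S (h1.trans (h2.symm.trans (marked_of_cross S hc')))
        subst h6
        exact S.noCircle _ (Relation.TransGen.tail' h5 hc')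
    · have h0 := (marked_of_cross S hc).trans h1
      rcases hc' with hc' | hc'
      · exfalso
        subst hc'
        have h6 : i - 1 = j - 1 := marked_inj S (h0.trans h2.symm)
        rw [← h6] at h5
        exact S.noCircle _ (Relation.TransGen.head' hc h5)
      · exfalso
        have h6 : i - 1 = j := marked_inj S (h0.trans (h2.symm.trans (marked_of_cross S hc')))
        rw [← h6] at hc'
        exact S.noCircle _ ((Relation.TransGen.head' hc h5).tail hc')
  · rintro ⟨rfl, rfl⟩
    exact Relation.TransGen.single ⟨⟨D, i⟩, rfl, rfl, rfl⟩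

end ArcSystem

end Pool.Agent.NG
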