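import Mathlib
import Pool.Agent.NG.KB

/-!
# Functors between bounded homotopy categories
-/

open CategoryTheory CategoryTheory.Limits CategoryTheory.Pretriangulated ZeroObject

namespace Pool.Agent.NG

universe v u v' u'

variable {𝒞 : Type u} [Category.{v} 𝒞] [Preadditive 𝒞]
  {𝒟 : Type u'} [Category.{v'} 𝒟] [Preadditive 𝒟] (F : 𝒞 ⥤ 𝒟) [F.Additive]

/-- The functor between bounded homotopy categories induced by an additive functor. -/
noncomputable def KBmap : KB 𝒞 ⥤ KB 𝒟 :=
  (bdd 𝒟).lift ((bdd 𝒞).ι ⋙ F.mapHomotopyCategory (ComplexShape.up ℤ)) (by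
    rintro ⟨X, hX⟩
    obtain ⟨K, rfl⟩ := HomotopyCategory.quotient_obj_surjective X
    obtain ⟨N, hN⟩ := hX
    exact ⟨N, fun i hi => F.map_isZero (hN i hi)⟩)

noncomputable instance : (KBmap F).CommShift ℤ :=
  inferInstanceAs (((bdd 𝒟).lift ((bdd 𝒞).ι ⋙
    F.mapHomotopyCategory (ComplexShape.up ℤ)) _).CommShift ℤ)

set_option backward.isDefEq.respectTransparency false in
instance [HasZeroObject 𝒞] [HasBinaryBiproducts 𝒞] [HasZeroObject 𝒟] [HasBinaryBiproducts 𝒟] :
    (KBmap F).IsTriangulated := by
  dsimp only [KBmap]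
  infer_instance

instance [F.Full] [F.Faithful] : (KBmap F).Full where
  map_surjective f :=
    ⟨ObjectProperty.homMk ((F.mapHomotopyCategory _).preimage f.hom), by
      ext
      exact (F.mapHomotopyCategory _).map_preimage f.hom⟩

instance [F.Full] [F.Faithful] : (KBmap F).Faithful where
  map_injective h := by
    ext
    exact (F.mapHomotopyCategory _).map_injective ((ObjectProperty.ι _).congr_map h)

end Pool.Agent.NG
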