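import Mathlib
import Pool.Agent.NG.Tw
import Pool.Agent.NG.KBFun

/-!
# Additive functors and the complexes of sequences
-/

open CategoryTheory CategoryTheory.Limits

namespace Pool.Agent.NG

universe v u u'

variable {𝒞 : Type u} [Category.{v} 𝒞] [Preadditive 𝒞]
  {𝒟 : Type u'} [Category.{v} 𝒟] [Preadditive 𝒟] (F : 𝒞 ⥤ 𝒟) [F.Additive]

instance mapMat_additive : F.mapMat_.Additive where
  map_add := by
    intro M N f g
    funext i j
    exact F.map_add

instance mapMat_full [F.Full] : F.mapMat_.Full where
  map_surjective := by
    intro M N f
    refine ⟨fun i j => F.preimage (f i j), ?_⟩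
    funext i j
    exact F.map_preimage _

instance mapMat_faithful [F.Faithful] : F.mapMat_.Faithful where
  map_injective := by
    intro M N f g h
    funext i j
    exact F.map_injective (congrFun (congrFun h i) j)

/-- The image of a sequence. -/
def Sq.map (s : Sq 𝒞) : Sq 𝒟 where
  r := s.r
  X j := F.obj (s.X j)
  d j j' := F.map (s.d j j')
  dd j j' j'' h h' := by rw [← F.map_comp, s.dd j j' j'' h h', F.map_zero]

/- PROOF.  The terms of the complexes `(F.mapMat_.mapHomologicalComplex _).obj s.cx` and
`(s.map F).cx` are equal by definition, and the differentials agree because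
`F.map (if h then d else 0) = if h then F.map d else 0`.  So there is an isomorphism of complexes
with identity components (`HomologicalComplex.Hom.isoOfComponents`), which gives an isomorphism in
the homotopy category and in its full subcategory. -/
theorem map_obj_iso (s : Sq 𝒞) : Nonempty ((KBmap F.mapMat_).obj s.obj ≅ (s.map F).obj) := by
  let e : (F.mapMat_.mapHomologicalComplex (ComplexShape.up ℤ)).obj s.cx ≅ (s.map F).cx :=
    HomologicalComplex.Hom.isoOfComponents (fun i => Iso.refl _) (by
      intro i j hij
      refine (Category.id_comp _).trans (Eq.trans ?_ (Category.comp_id _).symm)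
      funext a b
      change (if i + 1 = j then F.map (s.d a.1 b.1) else 0) =
        F.map (if i + 1 = j then s.d a.1 b.1 else 0)
      split_ifs
      · rfl
      · exact (F.map_zero _ _).symm)
  exact ⟨(bdd _).isoMk (((F.mapMat_.mapHomotopyCategoryFactors _).app s.cx) ≪≫
    (HomotopyCategory.quotient _ _).mapIso e)⟩

end Pool.Agent.NG
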