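import Mathlib
import Pool.Agent.NG.Bef
import Pool.Agent.NG.SqMap

/-!
# The functor from the boundary path category of a disk to that of the surface
-/

set_option linter.all false

open CategoryTheory CategoryTheory.Limits

namespace Pool.Agent.NG

namespace ArcSystem

variable (S : ArcSystem)

variable (k : Type) [Field k]

private theorem diskF_succ_ne {n : ℕ} (i : Fin (n + 3)) : i ≠ i + 1 := by
  intro h
  have h1 : ((1 : Fin (n + 3)) : ℕ) = 1 := rfl
  have h2 := congrArg Fin.val h
  rw [Fin.val_add, h1] at h2
  have h3 := i.2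
  rcases Nat.lt_or_ge (i.1 + 1) (n + 3) with h4 | h4
  · rw [Nat.mod_eq_of_lt h4] at h2
    omega
  · have h5 : i.1 + 1 = n + 3 := by omega
    rw [h5, Nat.mod_self] at h2
    omega

/-- the arc of an object, as an element of `Fin (n + 3)` -/
private def diskF_i {n : ℕ} (a : BP (polygon n).toGluing k) : Fin (n + 3) := a.arc

/-- the path coordinates between two arcs of the polygon -/
private theorem diskF_poly {n : ℕ} {a b : BP (polygon n).toGluing k} (f : a ⟶ b)
    (p : (polygon n).Marked) (h : f.1 (some p) ≠ 0) :
    p = (polygon n).marked ⟨(), a.arc⟩ ∧ diskF_i k b = diskF_i k a + 1 :=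
  (polygon_before_iff n p a.arc b.arc).1 (f.2.2 p h)

private theorem diskF_arc_ne {n : ℕ} {a b : BP (polygon n).toGluing k}
    (h : diskF_i k b = diskF_i k a + 1) : a.arc ≠ b.arc := by
  intro h1
  have h2 : diskF_i k a = diskF_i k b := h1
  exact diskF_succ_ne (diskF_i k a) (h2.trans h)

open Classical in
private theorem diskF_comp (D : S.Disk) {a b c : BP (polygon (S.n D)).toGluing k} (f : a ⟶ b)
    (g : b ⟶ c) (p : S.Marked) : (if p = S.marked ⟨D, a.arc⟩ then
        f.1 none * g.1 (some ((polygon (S.n D)).marked ⟨(), a.arc⟩)) +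
          f.1 (some ((polygon (S.n D)).marked ⟨(), a.arc⟩)) * g.1 none +
          f.1 (some ((polygon (S.n D)).marked ⟨(), a.arc⟩)) *
            g.1 (some ((polygon (S.n D)).marked ⟨(), a.arc⟩)) else 0) =
        f.1 none * (if p = S.marked ⟨D, b.arc⟩ then
          g.1 (some ((polygon (S.n D)).marked ⟨(), b.arc⟩)) else 0) +
        (if p = S.marked ⟨D, a.arc⟩ then
          f.1 (some ((polygon (S.n D)).marked ⟨(), a.arc⟩)) else 0) * g.1 none +
        (if p = S.marked ⟨D, a.arc⟩ then
          f.1 (some ((polygon (S.n D)).marked ⟨(), a.arc⟩)) else 0) *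
          (if p = S.marked ⟨D, b.arc⟩ then
            g.1 (some ((polygon (S.n D)).marked ⟨(), b.arc⟩)) else 0) := by
  by_cases h1 : f.1 none = 0
  · by_cases h2 : f.1 (some ((polygon (S.n D)).marked ⟨(), a.arc⟩)) = 0
    · rw [h1, h2]
      simp
    · have hne : a.arc ≠ b.arc := diskF_arc_ne k (diskF_poly k f _ h2).2
      have h4 : g.1 (some ((polygon (S.n D)).marked ⟨(), a.arc⟩)) = 0 := by
        by_contra h5
        exact hne (polygon_marked_injective (S.n D) (diskF_poly k g _ h5).1)
      rw [h1, h4]
      by_cases h6 : p = S.marked ⟨D, a.arc⟩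
      · have h7 : p ≠ S.marked ⟨D, b.arc⟩ := fun h8 =>
          hne (S.enough D (h6.symm.trans h8))
        simp only [if_pos h6, if_neg h7]
      · simp only [if_neg h6]
        ring
  · have h2 : a.arc = b.arc := f.2.1 h1
    have e3 : S.marked ⟨D, b.arc⟩ = S.marked ⟨D, a.arc⟩ :=
      congrArg (fun z : Fin (S.n D + 3) => S.marked ⟨D, z⟩) h2.symm
    have e4 : (polygon (S.n D)).marked ⟨(), b.arc⟩ = (polygon (S.n D)).marked ⟨(), a.arc⟩ :=
      congrArg (fun z : Fin (S.n D + 3) => (polygon (S.n D)).marked ⟨(), z⟩) h2.symm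
    rw [e3, e4]
    by_cases h6 : p = S.marked ⟨D, a.arc⟩
    · simp only [if_pos h6]
    · simp only [if_neg h6]
      ring

open Classical in
private theorem diskF_mem (D : S.Disk) {a b : BP (polygon (S.n D)).toGluing k} (f : a ⟶ b) :
    (fun o : Option S.Marked => o.elim (f.1 none) fun p =>
      if p = S.marked ⟨D, a.arc⟩ then f.1 (some ((polygon (S.n D)).marked ⟨(), a.arc⟩)) else 0) ∈
      BP.homSub S.toGluing k (S.side D a.arc) (S.side D b.arc) := by
  refine ⟨fun h => congrArg (S.side D) (f.2.1 h), fun p h => ?_⟩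
  change (if p = S.marked ⟨D, a.arc⟩ then
    f.1 (some ((polygon (S.n D)).marked ⟨(), a.arc⟩)) else 0) ≠ 0 at h
  by_cases hp : p = S.marked ⟨D, a.arc⟩
  · rw [if_pos hp] at h
    exact (S.before_side_iff D a.arc b.arc p).2 ⟨hp, (diskF_poly k f _ h).2⟩
  · rw [if_neg hp] at h
    exact absurd rfl h

open Classical in
/-- The functor from the boundary path category of the disk `D` to that of the surface. -/
noncomputable def diskF (D : S.Disk) : BP (polygon (S.n D)).toGluing k ⥤ BP S.toGluing k where
  obj a := S.kept k D a.arc (fun h => a.kept () h.symm)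
  map {a b} f := ⟨fun o => o.elim (f.1 none) fun p =>
      if p = S.marked ⟨D, a.arc⟩ then f.1 (some ((polygon (S.n D)).marked ⟨(), a.arc⟩)) else 0,
    by
      exact S.diskF_mem k D f⟩
  map_id a := by
    apply BP.hom_ext
    rintro (_ | p)
    · rfl
    · show (if p = S.marked ⟨D, a.arc⟩ then (0 : k) else 0) = 0
      exact ite_self _
  map_comp f g := by
    rename_i a b c
    apply BP.hom_ext
    rintro (_ | p)
    · rfl
    · exact S.diskF_comp k D f g p

private theorem diskF_map_none (D : S.Disk) {a b : BP (polygon (S.n D)).toGluing k} (f : a ⟶ b) :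
    ((S.diskF k D).map f).1 none = f.1 none := rfl

open Classical in
private theorem diskF_map_some (D : S.Disk) {a b : BP (polygon (S.n D)).toGluing k} (f : a ⟶ b)
    (p : S.Marked) : ((S.diskF k D).map f).1 (some p) = if p = S.marked ⟨D, a.arc⟩ then
      f.1 (some ((polygon (S.n D)).marked ⟨(), a.arc⟩)) else 0 := rfl

instance (D : S.Disk) : (S.diskF k D).Additive where
  map_add := by
    intro a b f g
    classical
    apply BP.hom_ext
    rintro (_ | p)
    · rfl
    · rw [BP.add_val, diskF_map_some, diskF_map_some, diskF_map_some, BP.add_val]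
      by_cases h : p = S.marked ⟨D, a.arc⟩
      · rw [if_pos h, if_pos h, if_pos h]
      · rw [if_neg h, if_neg h, if_neg h, add_zero]

/- PROOF.  By `before_side_iff` and `polygon_before_iff` the coordinates of a morphism
`side D i ⟶ side D j` vanish except `none` (if `i = j`) and
`some (marked ⟨D, i⟩)` (if `j = i + 1`), in both categories. -/
instance (D : S.Disk) : (S.diskF k D).Full where
  map_surjective := by
    intro a b g
    classical
    have hg1 : g.1 none ≠ 0 → a.arc = b.arc := fun h => S.side_inj D (g.2.1 h)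
    have hg2 : ∀ p, g.1 (some p) ≠ 0 → p = S.marked ⟨D, a.arc⟩ ∧
        diskF_i k b = diskF_i k a + 1 :=
      fun p h => (S.before_side_iff D a.arc b.arc p).1 (g.2.2 p h)
    refine ⟨⟨fun o => o.elim (g.1 none) fun q =>
      if q = (polygon (S.n D)).marked ⟨(), a.arc⟩ then g.1 (some (S.marked ⟨D, a.arc⟩)) else 0,
      hg1, fun q h => ?_⟩, ?_⟩
    · change (if q = (polygon (S.n D)).marked ⟨(), a.arc⟩ then
        g.1 (some (S.marked ⟨D, a.arc⟩)) else 0) ≠ 0 at h
      by_cases hq : q = (polygon (S.n D)).marked ⟨(), a.arc⟩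
      · rw [if_pos hq] at h
        exact (polygon_before_iff (S.n D) q a.arc b.arc).2 ⟨hq, (hg2 _ h).2⟩
      · rw [if_neg hq] at h
        exact absurd rfl h
    · apply BP.hom_ext
      rintro (_ | p)
      · rfl
      · rw [diskF_map_some]
        by_cases h : p = S.marked ⟨D, a.arc⟩
        · rw [if_pos h]
          show (if (polygon (S.n D)).marked ⟨(), a.arc⟩ = (polygon (S.n D)).marked ⟨(), a.arc⟩ then
            g.1 (some (S.marked ⟨D, a.arc⟩)) else 0) = g.1 (some p)
          rw [if_pos rfl, h]
        · rw [if_neg h]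
          by_contra h2
          exact h (hg2 p fun h3 => h2 h3.symm).1

instance (D : S.Disk) : (S.diskF k D).Faithful where
  map_injective := by
    intro a b f g h
    classical
    apply BP.hom_ext
    rintro (_ | q)
    · exact congrArg (fun z => z.1 none) h
    · by_cases hq : q = (polygon (S.n D)).marked ⟨(), a.arc⟩
      · have h1 := congrArg (fun z => z.1 (some (S.marked ⟨D, a.arc⟩))) h
        simp only [diskF_map_some, if_true] at h1
        rw [hq]
        exact h1
      · have hf : f.1 (some q) = 0 := by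
          by_contra h1
          exact hq (diskF_poly k f q h1).1
        have hg : g.1 (some q) = 0 := by
          by_contra h1
          exact hq (diskF_poly k g q h1).1
        rw [hf, hg]

theorem diskF_obj_kept (D : S.Disk) (i : Fin (S.n D + 3)) (h : i ≠ 0) :
    (S.diskF k D).obj ((polygon (S.n D)).kept k () i h) = S.kept k D i h := rfl

private theorem diskF_sq_ext {𝒞 : Type} [Category.{0} 𝒞] [Preadditive 𝒞] {r : ℕ} {X : Fin r → 𝒞}
    {d d' : ∀ j j' : Fin r, X j ⟶ X j'} (dd dd') (h : d = d') :
    (⟨r, X, d, dd⟩ : Sq 𝒞) = ⟨r, X, d', dd'⟩ := by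
  subst h; rfl

/- PROOF.  Cases `i = 0` and `i ≠ 0` of the definition of `sideSq`; the objects agree by definition
and the morphisms `d` are compared coordinatewise. -/
theorem sideSq_map (D : S.Disk) (i : Fin (S.n D + 3)) :
    ((polygon (S.n D)).sideSq k () i).map (S.diskF k D) = S.sideSq k D i := by
  classical
  by_cases hi : i = 0
  · have e1 : (polygon (S.n D)).sideSq k () i = (polygon (S.n D)).bdrySq k () := dif_pos hi
    have e2 : S.sideSq k D i = S.bdrySq k D := dif_pos hi
    rw [e1, e2]
    have key : ∀ j j' : Fin (S.n D + 2),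
        (S.diskF k D).map (((polygon (S.n D)).bdrySq k ()).d j j') = (S.bdrySq k D).d j j' := by
      intro j j'
      by_cases h : j.1 + 1 = j'.1
      · have h1 : ((polygon (S.n D)).bdrySq k ()).d j j' =
            BP.corner ((polygon (S.n D)).kept k () j.succ (Fin.succ_ne_zero j))
              ((polygon (S.n D)).kept k () j'.succ (Fin.succ_ne_zero j')) ⟨(), j.succ⟩ rfl
              (congrArg ((polygon (S.n D)).side ()) (succ_succ j j' h)) := dif_pos h
        have h2 : (S.bdrySq k D).d j j' =
            BP.corner (S.kept k D j.succ (Fin.succ_ne_zero j))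
              (S.kept k D j'.succ (Fin.succ_ne_zero j')) ⟨D, j.succ⟩ rfl
              (congrArg (S.side D) (succ_succ j j' h)) := dif_pos h
        refine Eq.trans (congrArg (S.diskF k D).map h1) (Eq.trans ?_ h2.symm)
        apply BP.hom_ext
        rintro (_ | p)
        · rfl
        · show (if p = S.marked ⟨D, j.succ⟩ then
            (if (polygon (S.n D)).marked ⟨(), j.succ⟩ = (polygon (S.n D)).marked ⟨(), j.succ⟩ then
              (1 : k) else 0) else 0) = if p = S.marked ⟨D, j.succ⟩ then (1 : k) else 0
          rw [if_pos rfl]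
      · have h1 : ((polygon (S.n D)).bdrySq k ()).d j j' = 0 := dif_neg h
        have h2 : (S.bdrySq k D).d j j' = 0 := dif_neg h
        refine Eq.trans (congrArg (S.diskF k D).map h1) (Eq.trans ?_ h2.symm)
        exact (S.diskF k D).map_zero _ _
    refine diskF_sq_ext _ _ ?_
    funext j j'
    exact key j j'
  · have e1 : (polygon (S.n D)).sideSq k () i = Sq.one ((polygon (S.n D)).kept k () i hi) :=
      dif_neg hi
    have e2 : S.sideSq k D i = Sq.one (S.kept k D i hi) := dif_neg hi
    rw [e1, e2]
    refine diskF_sq_ext _ _ ?_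
    funext j j'
    exact (S.diskF k D).map_zero _ _

end ArcSystem

end Pool.Agent.NG
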