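import Mathlib
import Pool.Agent.NG.Hall

/-!
# Functoriality of the derived Hall algebra for fully faithful triangulated functors
-/

open CategoryTheory CategoryTheory.Limits CategoryTheory.Pretriangulated ZeroObject

namespace Pool.Agent.NG

universe v u v' u' w

variable {C : Type u} [Category.{v} C] [Preadditive C] [HasZeroObject C] [HasShift C ℤ]
  [∀ n : ℤ, (shiftFunctor C n).Additive] [Pretriangulated C]
  {D : Type u'} [Category.{v'} D] [Preadditive D] [HasZeroObject D] [HasShift D ℤ]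
  [∀ n : ℤ, (shiftFunctor D n).Additive] [Pretriangulated D]
  (F : C ⥤ D) [F.CommShift ℤ] [F.IsTriangulated] [F.Full] [F.Faithful]

private noncomputable def homShiftEquiv (X Y : C) (n : ℤ) :
    (X ⟶ Y⟦n⟧) ≃ (F.obj X ⟶ (F.obj Y)⟦n⟧) :=
  (Functor.FullyFaithful.ofFullyFaithful F).homEquiv.trans
    ((F.commShiftIso n).app Y).homToEquiv

/- PROOF.  `(X ⟶ Y⟦n⟧) ≃ (F X ⟶ F (Y⟦n⟧)) ≃ (F X ⟶ (F Y)⟦n⟧)`. -/
theorem hn_map (X Y : C) (n : ℤ) : hn (F.obj X) (F.obj Y) n = hn X Y n := by
  unfold hn
  rw [Nat.card_congr (homShiftEquiv F X Y n)]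

theorem neg_map (X Y : C) : neg (F.obj X) (F.obj Y) = neg X Y := by
  unfold neg
  simp only [hn_map]

theorem eul_map (X Y : C) : eul (F.obj X) (F.obj Y) = eul X Y := by
  unfold eul
  simp only [hn_map]

/- PROOF.  If `f ∈ coneSet X Y Z` then `F f ∈ coneSet (F X) (F Y) (F Z)` (`F.map_distinguished`).
Conversely let `Y'` be a cone of `f` in `C`; then `F Y'` is a cone of `F f`, so `F Y' ≅ F Y`
(`cone_unique`), `Y' ≅ Y` as `F` is fully faithful (`F.preimageIso`), `coneSet_iso`. -/
private theorem map_mem_aux {X Y Z : C} {f : X ⟶ Z} (hf : f ∈ coneSet X Y Z) :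
    F.map f ∈ coneSet (F.obj X) (F.obj Y) (F.obj Z) := by
  obtain ⟨g, h, hT⟩ := hf
  exact ⟨F.map g, F.map h ≫ (F.commShiftIso (1 : ℤ)).hom.app X, F.map_distinguished _ hT⟩

theorem map_mem_coneSet_iff {X Y Z : C} (f : X ⟶ Z) :
    F.map f ∈ coneSet (F.obj X) (F.obj Y) (F.obj Z) ↔ f ∈ coneSet X Y Z := by
  refine ⟨fun hf => ?_, fun hf => map_mem_aux F hf⟩
  obtain ⟨Y', hY'⟩ := exists_cone f
  obtain ⟨e⟩ := cone_unique (map_mem_aux F hY') hf
  rw [← coneSet_iso (F.preimageIso e)]
  exact hY'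

private theorem card_coneSet_map (X Y Z : C) :
    Nat.card (coneSet (F.obj X) (F.obj Y) (F.obj Z)) = Nat.card (coneSet X Y Z) := by
  refine (Nat.card_congr ?_).symm
  refine Equiv.subtypeEquiv (Functor.FullyFaithful.ofFullyFaithful F).homEquiv fun f => ?_
  exact (map_mem_coneSet_iff F f).symm

private theorem card_aut_map (X : C) : Nat.card (Aut (F.obj X)) = Nat.card (Aut X) :=
  (Nat.card_congr (Functor.FullyFaithful.ofFullyFaithful F).isoEquiv).symm

theorem toen_map (X Y Z : C) : toen (F.obj X) (F.obj Y) (F.obj Z) = toen X Y Z := by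
  unfold toen
  rw [card_coneSet_map, card_aut_map, neg_map, neg_map]

/- PROOF.  There is a distinguished triangle `F X → Z' → F Y -[h]-> (F X)⟦1⟧`; `h` is
`F h' ≫ (commShiftIso).hom` for some `h' : Y ⟶ X⟦1⟧`; take the triangle `X → Z → Y -[h']-> X⟦1⟧` in
`C` (`distinguished_cocone_triangle₂`); its image is distinguished with third morphism `h`, so
`Z' ≅ F Z` (`isoTriangleOfIso₁₃`). -/
theorem exists_preimage_of_cone {X Y : C} {Z' : D}
    (h : (coneSet (F.obj X) (F.obj Y) Z').Nonempty) : ∃ Z : C, Nonempty (F.obj Z ≅ Z') := by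
  obtain ⟨f, g, k, hT⟩ := h
  obtain ⟨k', hk'⟩ := (homShiftEquiv F Y X 1).surjective k
  obtain ⟨Z, a, b, hZ⟩ := distinguished_cocone_triangle₂ k'
  refine ⟨Z, ⟨?_⟩⟩
  have e := isoTriangleOfIso₁₃ (F.mapTriangle.obj (Triangle.mk a b k')) (Triangle.mk f g k)
    (F.map_distinguished _ hZ) hT (Iso.refl _) (Iso.refl _) (by
      have h2 : F.map k' ≫ (F.commShiftIso (1 : ℤ)).hom.app X = k := hk'
      change (F.map k' ≫ (F.commShiftIso (1 : ℤ)).hom.app X) ≫ (shiftFunctor D (1 : ℤ)).map
        (𝟙 (F.obj X)) = 𝟙 (F.obj Y) ≫ k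
      rw [h2, CategoryTheory.Functor.map_id]
      exact (Category.comp_id k).trans (Category.id_comp k).symm)
  exact Triangle.π₂.mapIso e

variable [Finitary C] [IsTriangulated C] [Finitary D] [IsTriangulated D]

omit [Finitary C] [IsTriangulated C] [Finitary D] [IsTriangulated D] in
private theorem iso_map_out (Z : C) : Nonempty (F.obj (cls Z).out ≅ F.obj Z) := by
  have h : cls (cls Z).out = cls Z := cls_out (cls Z)
  obtain ⟨e⟩ := (cls_eq_iff _ _).1 h
  exact ⟨F.mapIso e⟩

omit [Finitary C] [IsTriangulated C] [Finitary D] [IsTriangulated D] in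
private theorem cls_map_eq_iff (x z : Cls C) :
    cls (F.obj x.out) = cls (F.obj z.out) ↔ x = z := by
  constructor
  · intro h
    obtain ⟨e⟩ := (cls_eq_iff _ _).1 h
    have h2 : cls x.out = cls z.out := (cls_eq_iff _ _).2 ⟨F.preimageIso e⟩
    rwa [cls_out, cls_out] at h2
  · rintro rfl
    rfl

/-- Coordinates as linear maps. -/
private noncomputable def coordLin {I : Type u} {K : Type w} [Field K] (s : StrConst I K)
    (M : I) : s.Alg →ₗ[K] K :=
  (Finsupp.lapply M : (I →₀ K) →ₗ[K] K)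

private theorem coordLin_apply {I : Type u} {K : Type w} [Field K] (s : StrConst I K)
    (M : I) (f : s.Alg) : coordLin s M f = s.coord f M := rfl

private theorem c_apply (K : Type w) [Field K] [CharZero K] (x y z : Cls C) :
    (hallConst C K).c x y z = ((eul y.out x.out * toen x.out y.out z.out : ℚ) : K) := rfl

/- PROOF.  `StrConst.exists_hom` with `v x = of (F x.out)`.  Multiplicativity: compare coordinates at
a class `M` of `D`: if `M = cls (F Z)` both sides are `eul Y X * toen X Y Z`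
(`eul_map`, `toen_map`; `cls (F Z)` determines `cls Z` as `F` is fully faithful); if `M` is not in
the image both sides are zero (`exists_preimage_of_cone`). -/
theorem exists_map (K : Type w) [Field K] [CharZero K] :
    ∃ φ : DHa C K →ₐ[K] DHa D K, ∀ X : C, φ (DHa.of K X) = DHa.of K (F.obj X) := by
  classical
  obtain ⟨φ, hφ⟩ := (hallConst C K).exists_hom (A := DHa D K)
    (fun x => DHa.of K (F.obj x.out)) (by
      obtain ⟨e⟩ := iso_map_out F (0 : C)
      have e2 : F.obj (0 : C) ≅ 0 := F.mapZeroObject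
      have h := DHa.of_congr K (e ≪≫ e2)
      rw [DHa.of_zero] at h
      exact h) (by
      intro x y
      refine DHa.ext_coord K fun M => ?_
      rw [DHa.coord_mul, ← coordLin_apply, map_finsuppSum]
      simp only [map_smul, coordLin_apply, DHa.coord_of, smul_eq_mul, mul_ite, mul_one, mul_zero,
        eul_map]
      by_cases hM : ∃ z : Cls C, M = cls (F.obj z.out)
      · obtain ⟨z, rfl⟩ := hM
        simp only [cls_map_eq_iff]
        obtain ⟨e⟩ := (cls_eq_iff _ _).1 (cls_out (cls (F.obj z.out)))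
        rw [toen_congr (Iso.refl _) (Iso.refl _) e, toen_map, ← c_apply K x y z]
        rw [Finsupp.sum, Finset.sum_ite_eq]
        split_ifs with hz
        · rfl
        · simpa using hz
      · have h0 : toen (F.obj x.out) (F.obj y.out) M.out = 0 := by
          by_contra hne
          obtain ⟨Z, ⟨e⟩⟩ := exists_preimage_of_cone F ((toen_ne_zero_iff _ _ _).1 hne)
          obtain ⟨e2⟩ := iso_map_out F Z
          refine hM ⟨cls Z, ?_⟩
          rw [← cls_out M]
          exact (cls_eq_iff _ _).2 ⟨e.symm ≪≫ e2.symm⟩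
        rw [h0, mul_zero, Rat.cast_zero]
        refine (Finset.sum_eq_zero fun z _ => ?_).symm
        exact if_neg fun h => hM ⟨z, h⟩)
  refine ⟨φ, fun X => ?_⟩
  have h := hφ (cls X)
  obtain ⟨e⟩ := iso_map_out F X
  rw [← DHa.of_congr K e]
  exact h

end Pool.Agent.NG
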