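import Mathlib
import Pool.Agent.NG.DiskF
import Pool.Agent.NG.HFun

/-!
# The composition algebra of a disk maps to the composition algebra of the surface
-/

open CategoryTheory CategoryTheory.Limits

namespace Pool.Agent.NG

namespace ArcSystem

variable (S : ArcSystem) (k : Type) [Field k] [Finite k] (K : Type) [Field K] [CharZero K]

/- PROOF.  `map_obj_iso` and `sideSq_map`. -/
theorem map_arcObj (D : S.Disk) (i : Fin (S.n D + 3)) :
    Nonempty ((KBmap (S.diskF k D).mapMat_).obj ((polygon (S.n D)).arcObj k () i) ≅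
      S.arcObj k D i) := by
  have h := map_obj_iso (S.diskF k D) ((polygon (S.n D)).sideSq k () i)
  rw [sideSq_map] at h
  exact h

/-- The composition algebra of a disk maps to the composition algebra of the surface. -/
theorem exists_disk_hom (D : S.Disk) :
    ∃ φ : S.DComp k K D →ₐ[K] S.Comp k K, ∀ i m, φ (S.darc k K D i m) = S.carc k K D i m := by
  obtain ⟨φ, hφ⟩ := exists_map (KBmap (S.diskF k D).mapMat_) K
  have h : ∀ (i : Fin (S.n D + 3)) (m : ℤ),
      φ (DHa.of K (((polygon (S.n D)).arcObj k () i)⟦m⟧)) =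
        DHa.of K ((S.arcObj k D i)⟦m⟧) := by
    intro i m
    obtain ⟨e⟩ := S.map_arcObj k D i
    rw [hφ]
    apply DHa.of_congr
    exact ((KBmap (S.diskF k D).mapMat_).commShiftIso m).app _ ≪≫
      (shiftFunctor (S.Fuk k) m).mapIso e
  have h1 : ((polygon (S.n D)).Comp k K).map φ ≤ S.Comp k K := by
    unfold Comp
    rw [AlgHom.map_adjoin]
    apply Algebra.adjoin_mono
    rintro _ ⟨_, ⟨D', i, m, rfl⟩, rfl⟩
    exact ⟨D, i, m, h i m⟩
  refine ⟨(φ.comp (Subalgebra.val _)).codRestrict (S.Comp k K)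
    (fun x => h1 ⟨x.1, x.2, rfl⟩), fun i m => Subtype.ext (h i m)⟩

end ArcSystem

end Pool.Agent.NG
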