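import Mathlib
import Pool.Agent.NG.Naive

/-!
# The torus with one boundary component and four marked intervals, cut into three quadrilaterals

Arcs: `b0, b1, b2, b3` (boundary arcs), `x0, x1, x2, x3` (internal arcs).
Disks (sides in clockwise order): `D0 = (b0, x2, x1, x0)`, `D1 = (b1, x2, x3, x0)`,
`D2 = (b2, x1, b3, x3)`.
Marked intervals (arcs ending on them, in order):
`P0: b0, x2, x3, b2`, `P1: b1, x2, x1, b3`, `P2: b2, x1, x0, b1`, `P3: b3, x3, x0, b0`.
Euler characteristic: `3 - 4 = -1` (three disks, four internal arcs).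
-/

open CategoryTheory CategoryTheory.Limits

namespace Pool.Agent.NG

/-- The arcs. -/
inductive A8 : Type
  | b0 | b1 | b2 | b3 | x0 | x1 | x2 | x3
  deriving DecidableEq

open A8

instance : Fintype A8 := ⟨{b0, b1, b2, b3, x0, x1, x2, x3}, by rintro ⟨⟩ <;> decide⟩

/-- The sides of the three quadrilaterals. -/
def exSide : Fin 3 → Fin 4 → A8 := ![![b0, x2, x1, x0], ![b1, x2, x3, x0], ![b2, x1, b3, x3]]

theorem exSide_surj : ∀ a : A8, ∃ (D : Fin 3) (i : Fin 4), exSide D i = a := by decide

theorem exSide_inj : ∀ (D : Fin 3) (i j : Fin 4), exSide D i = exSide D j → i = j := by decide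

theorem exSide_two : ∀ (D D' D'' : Fin 3) (i i' i'' : Fin 4), exSide D i = exSide D' i' →
    exSide D i = exSide D'' i'' → D = D' ∨ D = D'' ∨ D' = D'' := by decide +kernel

theorem exSide_bdry : ∀ (D D' : Fin 3) (i : Fin 4), exSide D' i = exSide D 0 → D' = D := by decide

/-- The gluing pattern. -/
def exGluing : Gluing where
  Arc := A8
  Disk := Fin 3
  n _ := 1
  side := exSide
  side_surj := exSide_surj
  side_inj D i j h := exSide_inj D i j h
  two := exSide_two
  bdry := exSide_bdry

/-- The marked interval (in `Fin 4`) of a corner. -/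
def exMi : Fin 3 → Fin 4 → Fin 4 := ![![0, 1, 2, 3], ![1, 0, 3, 2], ![2, 1, 3, 0]]

/-- The position of a corner on its marked interval. -/
def exPos : Fin 3 → Fin 4 → ℕ := ![![0, 1, 1, 2], ![0, 1, 1, 2], ![0, 2, 0, 2]]

theorem ex_cross : ∀ (D : Fin 3) (i : Fin 4) (D' : Fin 3) (i' : Fin 4), D ≠ D' →
    exSide D (i + 1) = exSide D' i' → exMi D i = exMi D' i' ∧ exPos D i + 1 = exPos D' i' := by
  decide +kernel

theorem exMi_cross (c c' : exGluing.Corner) (h : exGluing.Cross c c') :
    exMi c.1 c.2 = exMi c'.1 c'.2 := (ex_cross _ _ _ _ h.1 h.2).1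

theorem exPos_cross (c c' : exGluing.Corner) (h : exGluing.Cross c c') :
    exPos c.1 c.2 < exPos c'.1 c'.2 := by
  have := (ex_cross _ _ _ _ h.1 h.2).2
  omega

/-- The marked interval as an element of `Fin 4`. -/
def exM (p : exGluing.Marked) : Fin 4 := Quot.lift (fun c => exMi c.1 c.2) exMi_cross p

theorem exM_marked (D : Fin 3) (i : Fin 4) : exM (exGluing.marked ⟨D, i⟩) = exMi D i := rfl

/-- The arc system. -/
def ex : ArcSystem where
  toGluing := exGluing
  noCircle c h := by
    have key : ∀ d, Relation.TransGen exGluing.Cross c d → exPos c.1 c.2 < exPos d.1 d.2 := by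
      intro d hd
      induction hd with
      | single h1 => exact exPos_cross _ _ h1
      | tail _ h1 ih => exact ih.trans (exPos_cross _ _ h1)
    exact lt_irrefl _ (key c h)
  enough D i j h := by
    have h1 : exMi D i = exMi D j := congrArg exM h
    have key : ∀ (D : Fin 3) (i j : Fin 4), exMi D i = exMi D j → i = j := by decide
    exact key D i j h1

/-- The last corner of a marked interval. -/
def exRep : Fin 4 → Fin 3 × Fin 4 := ![(2, 3), (2, 1), (1, 3), (0, 3)]

theorem exRep_chain : ∀ (D : Fin 3) (i : Fin 4), (D, i) = exRep (exMi D i) ∨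
    (D ≠ (exRep (exMi D i)).1 ∧
      exSide D (i + 1) = exSide (exRep (exMi D i)).1 (exRep (exMi D i)).2) ∨
    ∃ (D' : Fin 3) (i' : Fin 4), D ≠ D' ∧ exSide D (i + 1) = exSide D' i' ∧
      D' ≠ (exRep (exMi D i)).1 ∧
      exSide D' (i' + 1) = exSide (exRep (exMi D i)).1 (exRep (exMi D i)).2 := by
  decide +kernel

/- PROOF.  For every `m : Fin 4` the three corners `c` with `exMi c = m` are connected by `Cross`
(`exPos` gives the order), so `exM` is injective: by `Quot.ind` and case analysis (`decide`) on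
two corners with the same value of `exMi`, their classes are equal by `Quot.sound` (once or
twice).  For instance: for all corners `c` there is a chain to the corner with `exPos = 2`. -/
theorem exM_injective : Function.Injective exM := by
  have hcr : ∀ (c c' : exGluing.Corner), exGluing.Cross c c' →
      exGluing.marked c = exGluing.marked c' := fun c c' h => Quot.sound h
  have hrep : ∀ (D : Fin 3) (i : Fin 4),
      exGluing.marked ⟨D, i⟩ = exGluing.marked ⟨(exRep (exMi D i)).1, (exRep (exMi D i)).2⟩ := by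
    intro D i
    rcases exRep_chain D i with h | h | ⟨D', i', h1, h2, h3, h4⟩
    · rw [← h]
    · exact hcr _ _ h
    · exact (hcr ⟨D, i⟩ ⟨D', i'⟩ ⟨h1, h2⟩).trans (hcr _ _ ⟨h3, h4⟩)
  intro p q h
  induction p using Quot.ind with
  | mk c =>
    induction q using Quot.ind with
    | mk c' =>
      have h' : exMi c.1 c.2 = exMi c'.1 c'.2 := h
      have e1 := hrep c.1 c.2
      have e2 := hrep c'.1 c'.2
      rw [h'] at e1
      exact e1.trans e2.symm

theorem ex_marked_eq_iff (D D' : Fin 3) (i i' : Fin 4) :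
    ex.marked ⟨D, i⟩ = ex.marked ⟨D', i'⟩ ↔ exMi D i = exMi D' i' :=
  ⟨fun h => congrArg exM h, fun h => exM_injective h⟩

/-- The arcs ending on the four marked intervals, in order. -/
def exList : Fin 4 → List A8 := ![[b0, x2, x3, b2], [b1, x2, x1, b3], [b2, x1, x0, b1],
  [b3, x3, x0, b0]]

/-- `a` comes strictly before `b` in the list of the marked interval `m`. -/
def exBef (m : Fin 4) (a b : A8) : Prop :=
  a ∈ exList m ∧ b ∈ exList m ∧ (exList m).idxOf a < (exList m).idxOf b

instance (m : Fin 4) (a b : A8) : Decidable (exBef m a b) := by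
  unfold exBef
  infer_instance

/-- The arcs of a marked interval, by position. -/
def exNth : Fin 4 → Fin 4 → A8 := ![![b0, x2, x3, b2], ![b1, x2, x1, b3], ![b2, x1, x0, b1],
  ![b3, x3, x0, b0]]

theorem exBef_corner : ∀ (D : Fin 3) (i : Fin 4),
    exBef (exMi D i) (exSide D i) (exSide D (i + 1)) := by
  decide +kernel

theorem exNth_step : ∀ (m : Fin 4) (j : Fin 3), ∃ (D : Fin 3) (i : Fin 4), exMi D i = m ∧
    exSide D i = exNth m j.castSucc ∧ exSide D (i + 1) = exNth m j.succ := by
  decide +kernel

theorem exBef_nth : ∀ (m : Fin 4) (a b : A8), exBef m a b →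
    ∃ j j' : Fin 4, j < j' ∧ exNth m j = a ∧ exNth m j' = b := by
  decide +kernel

/- PROOF.  `→`: induction on `TransGen`: a step `Step p a b` comes from a corner `⟨D, i⟩` with
`exMi D i = exM p`, `a = exSide D i`, `b = exSide D (i + 1)`, and `exBef` holds (decide over the
twelve corners); `exBef m` is transitive (decide, or `lt_trans`).
`←`: the three steps of each marked interval come from its three corners
(`p = ex.marked ⟨D, i⟩` by `exM_injective`), and `exBef m a b` implies that `a`, `b` are joined by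
one, two or three steps (case analysis on `m, a, b`). -/
theorem ex_before_iff (p : ex.Marked) (a b : A8) : ex.Before p a b ↔ exBef (exM p) a b := by
  constructor
  · intro h
    have hstep : ∀ x y, ex.Step p x y → exBef (exM p) x y := by
      rintro x y ⟨c, rfl, rfl, rfl⟩
      exact exBef_corner c.1 c.2
    induction h with
    | single h1 => exact hstep _ _ h1
    | tail _ h1 ih =>
      have h2 := hstep _ _ h1
      exact ⟨ih.1, h2.2.1, ih.2.2.trans h2.2.2⟩
  · intro h
    have hstep : ∀ j : Fin 3, ex.Step p (exNth (exM p) j.castSucc) (exNth (exM p) j.succ) := by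
      intro j
      obtain ⟨D, i, h1, h2, h3⟩ := exNth_step (exM p) j
      exact ⟨⟨D, i⟩, exM_injective h1, h2, h3⟩
    obtain ⟨j, j', hj, rfl, rfl⟩ := exBef_nth (exM p) a b h
    have key : ∀ n : ℕ, ∀ j j' : Fin 4, (j' : ℕ) = (j : ℕ) + n + 1 →
        ex.Before p (exNth (exM p) j) (exNth (exM p) j') := by
      intro n
      induction n with
      | zero =>
        intro j j' e
        have hj3 : (j : ℕ) < 3 := by omega
        have e1 : j = (⟨j, hj3⟩ : Fin 3).castSucc := by ext; rfl
        have e2 : j' = (⟨j, hj3⟩ : Fin 3).succ := by ext; simp; omega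
        rw [e1, e2]
        exact Relation.TransGen.single (hstep _)
      | succ n ih =>
        intro j j' e
        have hj3 : (j' : ℕ) - 1 < 3 := by omega
        have e1 : j' = (⟨(j' : ℕ) - 1, hj3⟩ : Fin 3).succ := by ext; simp; omega
        have := ih j (⟨(j' : ℕ) - 1, hj3⟩ : Fin 3).castSucc (by simp; omega)
        rw [e1]
        exact Relation.TransGen.tail this (hstep _)
    have hj2 : (j : ℕ) < (j' : ℕ) := hj
    exact key ((j' : ℕ) - j - 1) j j' (by omega)

/-- The pairs of sides of distinct disks which do not end on a common marked interval. -/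
def exFar (D D' : Fin 3) (i i' : Fin 4) : Prop :=
  D ≠ D' ∧ exMi D (i - 1) ≠ exMi D' (i' - 1) ∧ exMi D (i - 1) ≠ exMi D' i' ∧
    exMi D i ≠ exMi D' (i' - 1) ∧ exMi D i ≠ exMi D' i'

instance (D D' : Fin 3) (i i' : Fin 4) : Decidable (exFar D D' i i') := by
  unfold exFar
  infer_instance

theorem ex_far_iff (D D' : Fin 3) (i i' : Fin 4) :
    (D ≠ D' ∧ Disjoint (ex.ends D i) (ex.ends D' i')) ↔ exFar D D' i i' := by
  have h2 : Disjoint (ex.ends D i) (ex.ends D' i') ↔
      (exMi D (i - 1) ≠ exMi D' (i' - 1) ∧ exMi D (i - 1) ≠ exMi D' i') ∧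
      (exMi D i ≠ exMi D' (i' - 1) ∧ exMi D i ≠ exMi D' i') := by
    rw [Set.disjoint_left]
    constructor
    · intro h
      refine ⟨⟨fun e => h (Or.inl rfl) (Or.inl ?_), fun e => h (Or.inl rfl) (Or.inr ?_)⟩,
        ⟨fun e => h (Or.inr rfl) (Or.inl ?_), fun e => h (Or.inr rfl) (Or.inr ?_)⟩⟩
      · exact (ex_marked_eq_iff D D' (i - 1) (i' - 1)).2 e
      · exact (ex_marked_eq_iff D D' (i - 1) i').2 e
      · exact (ex_marked_eq_iff D D' i (i' - 1)).2 e
      · exact (ex_marked_eq_iff D D' i i').2 e
    · rintro ⟨⟨a1, a2⟩, ⟨a3, a4⟩⟩ x hx hy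
      rcases hx with rfl | rfl <;> rcases hy with e | e
      · exact a1 ((ex_marked_eq_iff D D' (i - 1) (i' - 1)).1 e)
      · exact a2 ((ex_marked_eq_iff D D' (i - 1) i').1 e)
      · exact a3 ((ex_marked_eq_iff D D' i (i' - 1)).1 e)
      · exact a4 ((ex_marked_eq_iff D D' i i').1 e)
  rw [h2]
  unfold exFar
  tauto

/-- The pairs of arcs which do not end on a common marked interval. -/
theorem exFar_list : ∀ (D D' : Fin 3) (i i' : Fin 4), exFar D D' i i' →
    (exSide D i, exSide D' i') ∈ [(b0, x1), (x1, b0), (b0, b1), (b1, b0), (b1, x3), (x3, b1),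
      (x1, x3), (x3, x1), (x0, x2), (x2, x0)] := by
  decide +kernel

end Pool.Agent.NG
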