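import Mathlib
import Pool.Agent.NG.Ex

/-!
# Morphisms of the boundary path category of the example
-/

open CategoryTheory CategoryTheory.Limits

namespace Pool.Agent.NG

open A8

/-- The boundary path category of the example. -/
abbrev EB (k : Type) : Type := BP ex.toGluing k

variable {k : Type} [Field k]

private theorem eb_none {a b : EB k} (h1 : a.arc ≠ b.arc) (f : a ⟶ b) : f.1 none = 0 := by
  by_contra h
  exact h1 (f.2.1 h)

private theorem eb_some {a b : EB k} (f : a ⟶ b) (p : ex.Marked)
    (h : ¬ exBef (exM p) a.arc b.arc) : f.1 (some p) = 0 := by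
  by_contra h2
  exact h ((ex_before_iff p _ _).1 (f.2.2 p h2))

private theorem exBef_irrefl : ∀ (m : Fin 4) (a : A8), ¬ exBef m a a := by decide +kernel

private theorem exBef_ne : ∀ (m : Fin 4) (a b : A8), exBef m a b → a ≠ b := by
  intro m a b h hab
  subst hab
  exact exBef_irrefl m a h

private theorem exBef_unique : ∀ (m m' : Fin 4) (a b : A8), exBef m a b → exBef m' a b → m' = m := by
  decide +kernel

/- PROOF.  If `f ≠ 0` then some coordinate is nonzero: `f.1 none ≠ 0` gives `a.arc = b.arc`,
`f.1 (some p) ≠ 0` gives `Before p a.arc b.arc`, i.e. `exBef (exM p) a.arc b.arc`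
(`ex_before_iff`). -/
theorem eb_hom_zero {a b : EB k} (h1 : a.arc ≠ b.arc) (h2 : ∀ m, ¬ exBef m a.arc b.arc)
    (f : a ⟶ b) : f = 0 := by
  apply BP.hom_ext
  rintro (_ | p)
  · exact eb_none h1 f
  · exact eb_some f p (h2 _)

/- PROOF.  If `a.arc = b.arc` then no `exBef m a.arc b.arc` holds (decide), so only the coordinate
`none` of a morphism can be nonzero. -/
theorem eb_end {a b : EB k} (h : a.arc = b.arc) (f : a ⟶ b) (p : ex.Marked) :
    f.1 (some p) = 0 := by
  apply eb_some f p
  rw [h]
  exact exBef_irrefl _ _

/- PROOF.  For two different arcs there is at most one `m` with `exBef m a b`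
(decide), so at most one marked interval `p` (`exM_injective`); `f.1 none = 0` as
`a.arc ≠ b.arc`. -/
/-- If `a` comes before `b` on the marked interval of the corner `c`, a morphism `f : a ⟶ b` has
only one nonzero coordinate, the one of this marked interval. -/
theorem eb_hom_coord {a b : EB k} {m : Fin 4} (h : exBef m a.arc b.arc) (f : a ⟶ b) :
    f.1 none = 0 ∧ ∀ p, exM p ≠ m → f.1 (some p) = 0 := by
  refine ⟨eb_none (exBef_ne m _ _ h) f, fun p hp => eb_some f p fun h' => hp ?_⟩
  exact exBef_unique m _ _ _ h h'

end Pool.Agent.NG
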