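import Mathlib
import Pool.Agent.NG.Hall

/-!
# Commutation in the derived Hall algebra
-/

open CategoryTheory CategoryTheory.Limits CategoryTheory.Pretriangulated ZeroObject

namespace Pool.Agent.NG

universe v u w

variable {C : Type u} [Category.{v} C] [Preadditive C] [HasZeroObject C] [HasShift C ℤ]
  [∀ n : ℤ, (shiftFunctor C n).Additive] [Pretriangulated C] [Finitary C] [IsTriangulated C]

/-- `RHom(X, Y) = 0`. -/
def Orth (X Y : C) : Prop := ∀ (n : ℤ) (f : X ⟶ Y⟦n⟧), f = 0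

/- PROOF.  A distinguished triangle `X → Z → Y → X⟦1⟧` whose third morphism is zero is isomorphic to
the biproduct triangle, so `Z ≅ X ⊞ Y`. -/
theorem iso_biprod_of_cone {X Y Z : C} (h : ∀ f : Y ⟶ X⟦(1 : ℤ)⟧, f = 0)
    (hZ : (coneSet X Y Z).Nonempty) : Nonempty (Z ≅ X ⊞ Y) := by
  obtain ⟨f, g, k, hT⟩ := hZ
  obtain ⟨e, -, -⟩ := exists_iso_binaryBiproduct_of_distTriang _ hT (h k)
  exact ⟨e⟩

/- PROOF.  `inl ∈ coneSet X Y (X ⊞ Y)` (`binaryBiproductTriangle_distinguished`),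
`toen_ne_zero_iff`. -/
theorem toen_biprod_ne_zero (X Y : C) : toen X Y (X ⊞ Y) ≠ 0 :=
  (toen_ne_zero_iff X Y (X ⊞ Y)).2
    ⟨biprod.inl, biprod.snd, 0, binaryBiproductTriangle_distinguished X Y⟩

private theorem hc_out (M : Cls C) : cls M.out = M := Quotient.out_eq M

private theorem hc_iso_of_cls {X Y : C} (h : cls X = cls Y) : Nonempty (X ≅ Y) :=
  Quotient.exact h

private theorem hc_cls_of_iso {X Y : C} (e : X ≅ Y) : cls X = cls Y :=
  Quotient.sound (a := X) (b := Y) (⟨e⟩ : IsIsomorphic X Y)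

private theorem hc_out_iso (X : C) : Nonempty ((cls X).out ≅ X) := hc_iso_of_cls (hc_out (cls X))

/- PROOF.  Look at the coordinate of `X ⊞ Y`: it is `eul Y X * toen X Y (X ⊞ Y) ≠ 0` (`eul_pos`). -/
theorem of_mul_of_ne_zero (K : Type w) [Field K] [CharZero K] (X Y : C) :
    DHa.of K X * DHa.of K Y ≠ 0 := by
  intro h0
  have h1 := DHa.coord_mul K X Y (cls (X ⊞ Y))
  have h2 : DHa.of K X * DHa.of K Y = (0 : K) • (DHa.of K X * DHa.of K Y) := by
    rw [zero_smul, h0]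
  rw [h2, DHa.coord_smul, zero_mul] at h1
  obtain ⟨e⟩ := hc_out_iso (X ⊞ Y)
  rw [toen_congr (Iso.refl X) (Iso.refl Y) e] at h1
  have h3 : (eul Y X * toen X Y (X ⊞ Y) : ℚ) ≠ 0 :=
    mul_ne_zero (eul_pos Y X).ne' (toen_biprod_ne_zero X Y)
  exact h3 (by exact_mod_cast h1.symm)

private theorem hc_mul (K : Type w) [Field K] [CharZero K] {X Y : C}
    (h : ∀ f : Y ⟶ X⟦(1 : ℤ)⟧, f = 0) :
    DHa.of K X * DHa.of K Y = ((eul Y X * toen X Y (X ⊞ Y) : ℚ) : K) • DHa.of K (X ⊞ Y) := by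
  refine DHa.ext_coord K fun M => ?_
  rw [DHa.coord_mul, DHa.coord_smul, DHa.coord_of]
  by_cases hM : M = cls (X ⊞ Y)
  · rw [if_pos hM, mul_one, hM]
    obtain ⟨e⟩ := hc_out_iso (X ⊞ Y)
    rw [toen_congr (Iso.refl X) (Iso.refl Y) e]
  · rw [if_neg hM, mul_zero]
    have h1 : toen X Y M.out = 0 := by
      by_contra h2
      obtain ⟨e⟩ := iso_biprod_of_cone h ((toen_ne_zero_iff X Y M.out).1 h2)
      exact hM ((hc_out M).symm.trans (hc_cls_of_iso e))
    rw [h1, mul_zero, Rat.cast_zero]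

/- PROOF.  By `iso_biprod_of_cone` both products are multiples of `of (X ⊞ Y)`
(`toen` vanishes at all other classes, and `Y ⊞ X ≅ X ⊞ Y`), with nonzero coefficients
(`toen_biprod_ne_zero`, `eul_pos`). -/
/-- If `Hom(Y, X[1]) = 0 = Hom(X, Y[1])` then `X` and `Y` commute up to a nonzero scalar. -/
theorem exists_skew_comm (K : Type w) [Field K] [CharZero K] {X Y : C}
    (h : ∀ f : Y ⟶ X⟦(1 : ℤ)⟧, f = 0) (h' : ∀ f : X ⟶ Y⟦(1 : ℤ)⟧, f = 0) :
    ∃ a : K, DHa.of K X * DHa.of K Y = a • (DHa.of K Y * DHa.of K X) := by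
  have h1 : ((eul X Y * toen Y X (Y ⊞ X) : ℚ) : K) ≠ 0 := by
    have h3 : (eul X Y * toen Y X (Y ⊞ X) : ℚ) ≠ 0 :=
      mul_ne_zero (eul_pos X Y).ne' (toen_biprod_ne_zero Y X)
    exact_mod_cast h3
  refine ⟨((eul Y X * toen X Y (X ⊞ Y) : ℚ) : K) * ((eul X Y * toen Y X (Y ⊞ X) : ℚ) : K)⁻¹, ?_⟩
  rw [hc_mul K h, hc_mul K h', DHa.of_congr K (biprod.braiding Y X), smul_smul, mul_assoc,
    inv_mul_cancel₀ h1, mul_one]

private theorem hc_orth_iff {X Y : C} : Orth X Y ↔ ∀ n : ℤ, hn X Y n = 1 := by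
  constructor
  · intro h n
    have : Unique (X ⟶ Y⟦n⟧) := ⟨⟨0⟩, fun f => h n f⟩
    unfold hn
    rw [Nat.card_unique, Nat.cast_one]
  · intro h n f
    have h1 : Nat.card (X ⟶ Y⟦n⟧) = 1 := by
      have := h n
      unfold hn at this
      exact_mod_cast this
    have h2 := (Nat.card_eq_one_iff_unique.1 h1).1
    exact Subsingleton.elim _ _

private theorem hc_neg_orth {X Y : C} (h : Orth X Y) : neg X Y = 1 := by
  unfold neg
  have h1 : ∀ i : ℕ, alt ((i : ℤ) + 1) (hn X Y (-((i : ℤ) + 1))) = 1 := by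
    intro i
    rw [hc_orth_iff.1 h, alt_one]
  simp only [h1]
  exact finprod_one

private theorem hc_aut {X Y : C} (h : Orth X Y) (f : X ⟶ X ⊞ Y) (hf : f ∈ coneSet X Y (X ⊞ Y)) :
    IsIso (f ≫ biprod.fst) := by
  have hsnd : f ≫ biprod.snd = 0 := by
    have h1 := h 0 ((f ≫ biprod.snd) ≫ (shiftFunctorZero C ℤ).inv.app Y)
    have h2 := congrArg (fun t => t ≫ (shiftFunctorZero C ℤ).hom.app Y) h1
    simpa using h2
  obtain ⟨g, k, hT⟩ := hf
  obtain ⟨D, v, w, hD⟩ := distinguished_cocone_triangle (f ≫ biprod.fst)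
  have hcomm : (f ≫ biprod.fst) ≫ (biprod.inl : X ⟶ X ⊞ Y) = f := by
    ext
    · simp
    · simp [hsnd]
  have hB : Triangle.mk (biprod.inl : X ⟶ X ⊞ Y) (biprod.snd : X ⊞ Y ⟶ Y) 0 ∈ distTriang C :=
    binaryBiproductTriangle_distinguished X Y
  have O := Triangulated.someOctahedron hcomm hD hB hT
  obtain ⟨e, -, -⟩ := exists_iso_binaryBiproduct_of_distTriang _ O.mem zero_comp
  have h3 : hn D Y 0 = hn D (D ⊞ Y) 0 := hn_congr (Iso.refl D) e 0
  rw [hn_biprod_right] at h3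
  have h4 : hn D D 0 = 1 := by
    have := hn_pos D Y 0
    have h5 : (hn D D 0 - 1) * hn D Y 0 = 0 := by linarith
    rcases mul_eq_zero.1 h5 with h6 | h6
    · linarith
    · exact absurd h6 this.ne'
  rw [hn_zero] at h4
  have h5 : Nat.card (D ⟶ D) = 1 := by exact_mod_cast h4
  have h6 := (Nat.card_eq_one_iff_unique.1 h5).1
  have h7 : IsZero D := (IsZero.iff_id_eq_zero D).2 (Subsingleton.elim _ _)
  exact (Triangle.isZero₃_iff_isIso₁ _ hD).1 h7

/- PROOF.  If `RHom(X,Y) = 0` then `coneSet X Y (X ⊞ Y)` is the set of all `(α, 0)` with `α` an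
automorphism of `X`: every `f : X ⟶ X ⊞ Y` is `(α, 0)`.  If `α` is an isomorphism then `f` is
isomorphic to `inl`, which has cone `Y`.  Conversely let `D` be a cone of `α`; then `D ⊞ Y` is a
cone of `(α, 0)` (octahedron), so if `f ∈ coneSet X Y (X ⊞ Y)` then
`D ⊞ Y ≅ Y`, so `|Hom(D, D)| |Hom(D, Y)| = |Hom(D, Y)|` (`hn_biprod_right`), so `|Hom(D, D)| = 1`,
`D = 0` and `α` is an isomorphism.  Hence `|coneSet X Y (X ⊞ Y)| = |Aut X|`, and
`neg X (X ⊞ Y) = neg X X * neg X Y`, `neg X Y = 1`. -/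
theorem toen_orth {X Y : C} (h : Orth X Y) : toen X Y (X ⊞ Y) = 1 := by
  have hsnd : ∀ f : X ⟶ X ⊞ Y, f ≫ biprod.snd = 0 := by
    intro f
    have h1 := h 0 ((f ≫ biprod.snd) ≫ (shiftFunctorZero C ℤ).inv.app Y)
    have h2 := congrArg (fun t => t ≫ (shiftFunctorZero C ℤ).hom.app Y) h1
    simpa using h2
  have hin : ∀ α : Aut X, α.hom ≫ (biprod.inl : X ⟶ X ⊞ Y) ∈ coneSet X Y (X ⊞ Y) := by
    intro α
    refine ⟨biprod.snd, 0, ?_⟩
    refine isomorphic_distinguished _ (binaryBiproductTriangle_distinguished X Y) _ ?_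
    exact Triangle.isoMk _ _ α (Iso.refl _) (Iso.refl _) (Category.comp_id _)
      ((Category.comp_id _).trans (Category.id_comp _).symm) (zero_comp.trans comp_zero.symm)
  have hcard : Nat.card (coneSet X Y (X ⊞ Y)) = Nat.card (Aut X) := by
    symm
    refine Nat.card_congr (Equiv.ofBijective
      (fun α : Aut X => (⟨α.hom ≫ biprod.inl, hin α⟩ : coneSet X Y (X ⊞ Y))) ⟨?_, ?_⟩)
    · intro α β hαβ
      have h1 := congrArg (fun t : coneSet X Y (X ⊞ Y) => t.1 ≫ biprod.fst) hαβ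
      simp at h1
      exact Iso.ext h1
    · rintro ⟨f, hf⟩
      have hi := hc_aut h f hf
      refine ⟨asIso (f ≫ biprod.fst), ?_⟩
      refine Subtype.ext ?_
      ext
      · simp
      · simp [hsnd f]
  have hA : (Nat.card (Aut X) : ℚ) ≠ 0 := by
    have h1 : Finite (Aut X) := Finite.of_injective (fun α : Aut X => α.hom)
      (fun α β hαβ => Iso.ext hαβ)
    have h2 : Nonempty (Aut X) := ⟨Iso.refl X⟩
    exact_mod_cast Nat.card_pos.ne'
  unfold toen
  rw [hcard, neg_biprod_right, hc_neg_orth h, mul_one, div_self hA, div_self (neg_pos X X).ne',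
    one_mul]

theorem eul_orth {X Y : C} (h : Orth X Y) : eul X Y = 1 := by
  unfold eul
  have h1 : ∀ i : ℤ, alt i (hn X Y i) = 1 := by
    intro i
    rw [hc_orth_iff.1 h, alt_one]
  simp only [h1]
  exact finprod_one

/- PROOF.  By `iso_biprod_of_cone`, `toen_orth`, `eul_orth` both products are equal to
`of (X ⊞ Y) = of (Y ⊞ X)`. -/
/-- If `RHom(X, Y) = 0 = RHom(Y, X)` then `X` and `Y` commute. -/
theorem orth_comm (K : Type w) [Field K] [CharZero K] {X Y : C} (h : Orth X Y) (h' : Orth Y X) :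
    DHa.of K X * DHa.of K Y = DHa.of K Y * DHa.of K X := by
  rw [hc_mul K (h' 1), hc_mul K (h 1), toen_orth h, toen_orth h', eul_orth h, eul_orth h',
    DHa.of_congr K (biprod.braiding Y X)]

theorem Orth.shift {X Y : C} (h : Orth X Y) (m n : ℤ) : Orth (X⟦m⟧) (Y⟦n⟧) := by
  rw [hc_orth_iff] at h ⊢
  intro k
  rw [hn_shift_left, hn_shift_right, h]

end Pool.Agent.NG
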