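import Mathlib
import Pool.Agent.NG.KB
import Pool.Agent.NG.HComm

/-!
# Vanishing of RHom in the bounded homotopy category
-/

open CategoryTheory CategoryTheory.Limits CochainComplex.HomComplex

namespace Pool.Agent.NG

universe v u

variable {𝒞 : Type u} [Category.{v} 𝒞] [Preadditive 𝒞] [HasZeroObject 𝒞] [HasBinaryBiproducts 𝒞]

/- PROOF.  A morphism `f : KB.mk X hX ⟶ (KB.mk Y hY)⟦n⟧` is, via the isomorphism
`(bdd 𝒞).ι.commShiftIso n` and the fullness of `(bdd 𝒞).ι`, a morphism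
`quotient.obj X ⟶ (quotient.obj Y)⟦n⟧ = quotient.obj (Y⟦n⟧)` of the homotopy category
(`HomotopyCategory.shift_quotient_obj`); by `CochainComplex.HomComplex.CohomologyClass.homAddEquiv`
(or `toHom_bijective`, `toHom_mk_eq_zero_iff`) it is the class of a cocycle of degree `n`, and it
is zero if the cocycle is a coboundary. -/
theorem orth_of_cocycles (X Y : CochainComplex 𝒞 ℤ)
    (hX : ∃ N : ℕ, ∀ i : ℤ, (N : ℤ) < |i| → IsZero (X.X i))
    (hY : ∃ N : ℕ, ∀ i : ℤ, (N : ℤ) < |i| → IsZero (Y.X i))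
    (h : ∀ (n : ℤ) (z : Cocycle X Y n), ∃ w : Cochain X Y (n - 1), δ (n - 1) n w = z.1) :
    Orth (KB.mk X hX) (KB.mk Y hY) := by
  intro n f
  apply (bdd 𝒞).ι.map_injective
  rw [Functor.map_zero]
  have key : ∀ g : (HomotopyCategory.quotient 𝒞 (ComplexShape.up ℤ)).obj X ⟶
      (HomotopyCategory.quotient 𝒞 (ComplexShape.up ℤ)).obj (Y⟦n⟧), g = 0 := by
    intro g
    obtain ⟨z, rfl⟩ := (CohomologyClass.toHom_bijective X Y n).2 g
    obtain ⟨z, rfl⟩ := z.mk_surjective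
    rw [CohomologyClass.toHom_mk_eq_zero_iff, mem_coboundaries_iff z (n - 1) (by lia)]
    exact h n z
  rw [← cancel_mono (((bdd 𝒞).ι.commShiftIso n).hom.app (KB.mk Y hY)), zero_comp]
  have key2 : ∀ g : (HomotopyCategory.quotient 𝒞 (ComplexShape.up ℤ)).obj X ⟶
      ((HomotopyCategory.quotient 𝒞 (ComplexShape.up ℤ)).obj Y)⟦n⟧, g = 0 := by
    rw [HomotopyCategory.shift_quotient_obj Y n]
    exact key
  exact key2 _

end Pool.Agent.NG
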