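import Mathlib
import Pool.Agent.NG.Tw
import Pool.Agent.NG.KBOrth

/-!
# Vanishing of RHom between the complexes of two sequences
-/

open CategoryTheory CategoryTheory.Limits CochainComplex.HomComplex

namespace Pool.Agent.NG

universe v u

variable {𝒞 : Type u} [Category.{v} 𝒞] [Preadditive 𝒞]

/-- The entry `(j, j')` of the differential of the cochain of degree `n` with entries `φ`
(only the entries with `j' = j + n` of `φ` matter). -/
noncomputable def Sq.del (s t : Sq 𝒞) (n : ℤ) (φ : ∀ (j : Fin s.r) (j' : Fin t.r), s.X j ⟶ t.X j')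
    (j : Fin s.r) (j' : Fin t.r) : s.X j ⟶ t.X j' :=
  (∑ j₁ : Fin t.r, if j₁.1 + 1 = j'.1 then φ j j₁ ≫ t.d j₁ j' else 0) +
    (n + 1).negOnePow • ∑ j₂ : Fin s.r, if j.1 + 1 = j₂.1 then s.d j j₂ ≫ φ j₂ j' else 0

private theorem sqorth_sum {r : ℕ} {M : Type*} [AddCommMonoid M] (P Q : Fin r → Prop)
    [DecidablePred Q] [Fintype {x // P x}] (hPQ : ∀ x, Q x ↔ P x) (f : Fin r → M) :
    ∑ c : {x // P x}, f c.1 = ∑ x, if Q x then f x else 0 := by
  rw [← Finset.sum_filter]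
  exact (Finset.sum_subtype _ (fun x => by simp [hPQ]) f).symm

/-- The entry `(j, j')` of a cochain. -/
private noncomputable def sqorth_ent (s t : Sq 𝒞) {n : ℤ} (z : Cochain s.cx t.cx n) (p q : ℤ) (h : p + n = q)
    (j : Fin s.r) (j' : Fin t.r) (hp : ((j : ℕ) : ℤ) = p) (hq : ((j' : ℕ) : ℤ) = q) :
    s.X j ⟶ t.X j' :=
  (z.v p q h : Mat_.Hom (s.term p) (t.term q)) ⟨j, hp⟩ ⟨j', hq⟩

private theorem sqorth_del (s t : Sq 𝒞) {n m : ℤ} (hnm : n + 1 = m) (z : Cochain s.cx t.cx n)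
    (φ : ∀ (j : Fin s.r) (j' : Fin t.r), s.X j ⟶ t.X j')
    (hφ : ∀ j j' p q hp hq h, sqorth_ent s t z p q h j j' hp hq = φ j j')
    (p q : ℤ) (h : p + m = q)
    (j : Fin s.r) (j' : Fin t.r) (hp : ((j : ℕ) : ℤ) = p) (hq : ((j' : ℕ) : ℤ) = q) :
    sqorth_ent s t (δ n m z) p q h j j' hp hq = s.del t n φ j j' := by
  unfold sqorth_ent
  rw [δ_v n m hnm z p q h (q - 1) (p + 1) rfl rfl]
  have e1 : ∀ (f g : s.term p ⟶ t.term q) (k : ℤˣ) (a : (s.term p).ι) (b : (t.term q).ι),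
      (f + k • g : s.term p ⟶ t.term q) a b = f a b + k • g a b := by
    intro f g k a b
    rcases Int.units_eq_one_or k with rfl | rfl
    · rw [one_smul, one_smul]
      rfl
    · rw [Units.neg_smul, one_smul, Units.neg_smul, one_smul]
      rfl
  have h1 : (z.v p (q - 1) (by omega) ≫ t.cx.d (q - 1) q : s.term p ⟶ t.term q) ⟨j, hp⟩ ⟨j', hq⟩ =
      ∑ j₁ : Fin t.r, if j₁.1 + 1 = j'.1 then φ j j₁ ≫ t.d j₁ j' else 0 := by
    rw [← sqorth_sum (fun x : Fin t.r => ((x : ℕ) : ℤ) = q - 1) (fun x => x.1 + 1 = j'.1)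
      (fun x => by omega) (fun x => φ j x ≫ t.d x j')]
    change (∑ c : {x : Fin t.r // ((x : ℕ) : ℤ) = q - 1},
      sqorth_ent s t z p (q - 1) (by omega) j c.1 hp c.2 ≫
        (if q - 1 + 1 = q then t.d c.1 j' else 0)) = _
    refine Finset.sum_congr rfl fun c _ => ?_
    rw [hφ, if_pos (by omega)]
  have h2 : (s.cx.d p (p + 1) ≫ z.v (p + 1) q (by omega) : s.term p ⟶ t.term q)
      ⟨j, hp⟩ ⟨j', hq⟩ =
      ∑ j₂ : Fin s.r, if j.1 + 1 = j₂.1 then s.d j j₂ ≫ φ j₂ j' else 0 := by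
    rw [← sqorth_sum (fun x : Fin s.r => ((x : ℕ) : ℤ) = p + 1) (fun x => j.1 + 1 = x.1)
      (fun x => by omega) (fun x => s.d j x ≫ φ x j')]
    change (∑ c : {x : Fin s.r // ((x : ℕ) : ℤ) = p + 1},
      (if p + 1 = p + 1 then s.d j c.1 else 0) ≫
        sqorth_ent s t z (p + 1) q (by omega) c.1 j' c.2 hq) = _
    refine Finset.sum_congr rfl fun c _ => ?_
    rw [hφ, if_pos rfl]
  refine (e1 _ _ _ _ _).trans ?_
  refine (congrArg₂ (· + ·) h1 (congrArg (fun x => m.negOnePow • x) h2)).trans ?_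
  unfold Sq.del
  rw [hnm]
  rfl

/- PROOF.  `orth_of_cocycles` for `s.cx`, `t.cx`.  A cochain `z` of degree `n` is a family of
matrices `z.v p q : s.term p ⟶ t.term q` (`p + n = q`); put
`φ j j' = z.v j j' _ ⟨j, rfl⟩ ⟨j', rfl⟩` if `(j' : ℤ) = j + n` and `φ j j' = 0` otherwise.
By `δ_v`, `(δ n (n+1) z).v p q = z.v p (q-1) ≫ d + (n+1).negOnePow • d ≫ z.v (p+1) q`, and the
entries of these matrices are given by `Sq.del` (the sums in the matrix products run over the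
subsingleton index types `{j₁ // j₁ = q - 1}`, `{j₂ // j₂ = p + 1}`; if there is no such index
the corresponding sum in `Sq.del` is zero as well).  So `z` is a cocycle iff
`Sq.del s t n φ j j' = 0` for all `j, j'` with `j' = j + n + 1`.  From `ψ` define the cochain `w`
of degree `n - 1` with entries `(w.v p q) a b = ψ a.1 b.1`; then `δ (n-1) n w = z` entrywise.
(Note `n = (n - 1) + 1`.) -/
/-- The Hom complex of two sequences is acyclic if this holds for the families of entries. -/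
theorem Sq.orth (s t : Sq 𝒞)
    (h : ∀ (n : ℤ) (φ : ∀ (j : Fin s.r) (j' : Fin t.r), s.X j ⟶ t.X j'),
      (∀ (j : Fin s.r) (j' : Fin t.r), (j'.1 : ℤ) = j.1 + n + 1 → s.del t n φ j j' = 0) →
      ∃ ψ : ∀ (j : Fin s.r) (j' : Fin t.r), s.X j ⟶ t.X j',
        ∀ (j : Fin s.r) (j' : Fin t.r), (j'.1 : ℤ) = j.1 + n → φ j j' = s.del t (n - 1) ψ j j') :
    Orth s.obj t.obj := by
  refine orth_of_cocycles s.cx t.cx s.cx_bdd t.cx_bdd fun n z => ?_
  classical
  let φ : ∀ (j : Fin s.r) (j' : Fin t.r), s.X j ⟶ t.X j' := fun j j' =>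
    if hj : ((j : ℕ) : ℤ) + n = ((j' : ℕ) : ℤ) then sqorth_ent s t z.1 _ _ hj j j' rfl rfl else 0
  have hφ : ∀ j j' p q hp hq h, sqorth_ent s t z.1 p q h j j' hp hq = φ j j' := by
    intro j j' p q hp hq h
    subst hp hq
    simp only [φ]
    rw [dif_pos h]
  obtain ⟨ψ, hψ⟩ := h n φ (by
    intro j j' hj
    rw [← sqorth_del s t (rfl : n + 1 = n + 1) z.1 φ hφ j j' (by omega) j j' rfl rfl]
    unfold sqorth_ent
    rw [z.δ_eq_zero]
    rfl)
  let w : Cochain s.cx t.cx (n - 1) := Cochain.mk fun p q _ =>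
    (show s.term p ⟶ t.term q from fun a b => ψ a.1 b.1)
  have hw : ∀ j j' p q hp hq h, sqorth_ent s t w p q h j j' hp hq = ψ j j' := by
    intro j j' p q hp hq h
    rfl
  refine ⟨w, ?_⟩
  refine Cochain.ext _ _ fun p q hpq => Mat_.hom_ext _ _ fun a b => ?_
  have h1 := sqorth_del s t (sub_add_cancel n 1) w ψ hw p q hpq a.1 b.1 a.2 b.2
  have h2 := hφ a.1 b.1 p q a.2 b.2 hpq
  have h3 := hψ a.1 b.1 (by have := a.2; have := b.2; omega)
  exact h1.trans (h3.symm.trans h2.symm)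

end Pool.Agent.NG
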