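import Mathlib
import Pool.Agent.NG.ExHom
import Pool.Agent.NG.SqOrth

/-!
# Vanishing of RHom in the example: `b0` and `b1`
-/

open CategoryTheory CategoryTheory.Limits

namespace Pool.Agent.NG

open A8

variable {k : Type} [Field k]

private theorem del_eq {𝒞 : Type} [Category.{0} 𝒞] [Preadditive 𝒞] (s t : Sq 𝒞) (n : ℤ)
    (φ : ∀ (j : Fin s.r) (j' : Fin t.r), s.X j ⟶ t.X j') (j : Fin s.r) (j' : Fin t.r)
    (a : Fin t.r) (ha : a.1 + 1 = j'.1) (b : Fin s.r) (hb : j.1 + 1 = b.1) :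
    s.del t n φ j j' = φ j a ≫ t.d a j' + (n + 1).negOnePow • (s.d j b ≫ φ b j') := by
  unfold Sq.del
  congr 1
  · rw [Finset.sum_eq_single a]
    · rw [if_pos ha]
    · intro c _ hc
      rw [if_neg]
      intro h
      exact hc (Fin.ext (by omega))
    · intro h
      exact absurd (Finset.mem_univ a) h
  · congr 1
    rw [Finset.sum_eq_single b]
    · rw [if_pos hb]
    · intro c _ hc
      rw [if_neg]
      intro h
      exact hc (Fin.ext (by omega))
    · intro h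
      exact absurd (Finset.mem_univ b) h

private theorem del_zero {𝒞 : Type} [Category.{0} 𝒞] [Preadditive 𝒞] (s t : Sq 𝒞) (n : ℤ)
    (j : Fin s.r) (j' : Fin t.r) : s.del t n (fun _ _ => 0) j j' = 0 := by
  unfold Sq.del
  simp

/-- scalar multiple of the identity between two copies of the same arc -/
private def sc {a b : EB k} (h : a.arc = b.arc) (y : k) : a ⟶ b :=
  ⟨fun o => o.elim y fun _ => 0, fun _ => h, fun _ h' => absurd rfl h'⟩

/-- a morphism with the only coordinate `1` at the marked interval `p` -/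
private def Co {a b : EB k} (g : a ⟶ b) (p : ex.Marked) : Prop :=
  g.1 none = 0 ∧ g.1 (some p) = 1 ∧ ∀ q, q ≠ p → g.1 (some q) = 0

private theorem cancel_right {a b c : EB k} (h : a.arc = b.arc) (f : a ⟶ b) (g : b ⟶ c)
    {p : ex.Marked} (hg : Co g p) (h0 : f ≫ g = 0) : f = 0 := by
  have h1 : (f ≫ g).1 (some p) = 0 := by rw [h0]; rfl
  rw [BP.comp_some, hg.1, hg.2.1, eb_end h f p] at h1
  simp only [mul_one, mul_zero, add_zero] at h1
  apply BP.hom_ext
  rintro (_ | q)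
  · exact h1
  · exact eb_end h f q

private theorem cancel_left {a b c : EB k} (h : b.arc = c.arc) (f : b ⟶ c) (g : a ⟶ b)
    {p : ex.Marked} (hg : Co g p) (h0 : g ≫ f = 0) : f = 0 := by
  have h1 : (g ≫ f).1 (some p) = 0 := by rw [h0]; rfl
  rw [BP.comp_some, hg.1, hg.2.1, eb_end h f p] at h1
  simp only [one_mul, mul_zero, add_zero, zero_add] at h1
  apply BP.hom_ext
  rintro (_ | q)
  · exact h1
  · exact eb_end h f q

private theorem fac_left {a b c : EB k} {m : Fin 4} (hm : exBef m a.arc c.arc) (h : a.arc = b.arc)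
    (f : a ⟶ c) (g : b ⟶ c) {p : ex.Marked} (hp : exM p = m) (hg : Co g p) :
    f = sc h (f.1 (some p)) ≫ g := by
  have hf := eb_hom_coord hm f
  apply BP.hom_ext
  rintro (_ | q)
  · rw [BP.comp_none, hg.1, mul_zero, hf.1]
  · rw [BP.comp_some, hg.1]
    by_cases hq : q = p
    · subst hq
      rw [hg.2.1]
      simp [sc]
    · rw [hg.2.2 q hq, hf.2 q (fun h1 => hq (exM_injective (h1.trans hp.symm)))]
      simp

private theorem fac_right {a b c : EB k} {m : Fin 4} (hm : exBef m a.arc c.arc) (h : b.arc = c.arc)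
    (f : a ⟶ c) (g : a ⟶ b) {p : ex.Marked} (hp : exM p = m) (hg : Co g p) :
    f = g ≫ sc h (f.1 (some p)) := by
  have hf := eb_hom_coord hm f
  apply BP.hom_ext
  rintro (_ | q)
  · rw [BP.comp_none, hg.1, zero_mul, hf.1]
  · rw [BP.comp_some, hg.1]
    by_cases hq : q = p
    · subst hq
      rw [hg.2.1]
      simp [sc]
    · rw [hg.2.2 q hq, hf.2 q (fun h1 => hq (exM_injective (h1.trans hp.symm)))]
      simp

private theorem sc_neg {a b : EB k} (h : a.arc = b.arc) (y : k) : sc h (-y) = -sc h y := by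
  apply BP.hom_ext
  rintro (_ | q)
  · rw [BP.neg_val]; rfl
  · rw [BP.neg_val]
    change (0 : k) = -0
    rw [neg_zero]

private theorem co_corner {a b : EB k} (c : ex.Corner) (ha : ex.src c = a.arc)
    (hb : ex.tgt c = b.arc) : Co (BP.corner (k := k) a b c ha hb) (ex.marked c) := by
  refine ⟨rfl, if_pos rfl, fun q hq => if_neg hq⟩

/- PROOF.  `Sq.orth` with `s = ex.bdrySq k 0` (terms `x2, x1, x0`; `s.d 0 1 = β : x2 ⟶ x1` along the
marked interval `1`, `s.d 1 2 = d : x1 ⟶ x0` along the marked interval `2`) and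
`t = ex.bdrySq k 1` (terms `x2, x3, x0`; `t.d 0 1 = a : x2 ⟶ x3` along the marked interval `0`,
`t.d 1 2 = f : x3 ⟶ x0` along the marked interval `3`).
Entries `φ j j'`: `φ 0 0 : x2 ⟶ x2` (coordinate `none`), `φ 0 1 : x2 ⟶ x3` (one coordinate,
interval `0`), `φ 0 2 : x2 ⟶ x0` zero, `φ 1 0 : x1 ⟶ x2` zero, `φ 1 1 : x1 ⟶ x3` zero,
`φ 1 2 : x1 ⟶ x0` (one coordinate, interval `2`), `φ 2 0 : x0 ⟶ x2` zero, `φ 2 1 : x0 ⟶ x3` zero,
`φ 2 2 : x0 ⟶ x0` (coordinate `none`); zero by `eb_hom_zero`.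
`n = 0`: the cocycle condition at `(0, 1)`: `φ 0 0 ≫ a ± β ≫ φ 1 1 = 0` gives `φ 0 0 = 0`; at
`(1, 2)`: `φ 1 1 ≫ f ± d ≫ φ 2 2 = 0` gives `φ 2 2 = 0`.  So all the entries of degree `0`
vanish, `ψ = 0`.
`n = 1`: `φ 0 1 = y a`, `φ 1 2 = z d` with `y, z ∈ k`; take `ψ 0 0 = y • id`,
`ψ 2 2 = ± z • id` (the sign `n.negOnePow = -1`), all other `ψ = 0`.
All other `n` (`-2, -1, 2`, and `|n| ≥ 3` where there are no entries): the entries are zero. -/
theorem orth_b0_b1 : Orth (ex.bdrySq k (0 : Fin 3)).obj (ex.bdrySq k (1 : Fin 3)).obj := by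
  apply Sq.orth
  intro n φ hφ
  have cs01 : Co ((ex.bdrySq k (0 : Fin 3)).d (0 : Fin 3) (1 : Fin 3))
      (ex.marked ⟨(0 : Fin 3), (1 : Fin 4)⟩) := co_corner _ rfl rfl
  have cs12 : Co ((ex.bdrySq k (0 : Fin 3)).d (1 : Fin 3) (2 : Fin 3))
      (ex.marked ⟨(0 : Fin 3), (2 : Fin 4)⟩) := co_corner _ rfl rfl
  have ct01 : Co ((ex.bdrySq k (1 : Fin 3)).d (0 : Fin 3) (1 : Fin 3))
      (ex.marked ⟨(1 : Fin 3), (1 : Fin 4)⟩) := co_corner _ rfl rfl
  have ct12 : Co ((ex.bdrySq k (1 : Fin 3)).d (1 : Fin 3) (2 : Fin 3))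
      (ex.marked ⟨(1 : Fin 3), (2 : Fin 4)⟩) := co_corner _ rfl rfl
  have z02 : φ (0 : Fin 3) (2 : Fin 3) = 0 :=
    eb_hom_zero (show x2 ≠ x0 by decide) (show ∀ m, ¬ exBef m x2 x0 by decide) _
  have z10 : φ (1 : Fin 3) (0 : Fin 3) = 0 :=
    eb_hom_zero (show x1 ≠ x2 by decide) (show ∀ m, ¬ exBef m x1 x2 by decide) _
  have z11 : φ (1 : Fin 3) (1 : Fin 3) = 0 :=
    eb_hom_zero (show x1 ≠ x3 by decide) (show ∀ m, ¬ exBef m x1 x3 by decide) _
  have z20 : φ (2 : Fin 3) (0 : Fin 3) = 0 :=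
    eb_hom_zero (show x0 ≠ x2 by decide) (show ∀ m, ¬ exBef m x0 x2 by decide) _
  have z21 : φ (2 : Fin 3) (1 : Fin 3) = 0 :=
    eb_hom_zero (show x0 ≠ x3 by decide) (show ∀ m, ¬ exBef m x0 x3 by decide) _
  by_cases hn1 : n = 1
  · subst hn1
    set y : k := (φ (0 : Fin 3) (1 : Fin 3)).1 (some (ex.marked ⟨(1 : Fin 3), (1 : Fin 4)⟩)) with hy
    set z : k := (φ (1 : Fin 3) (2 : Fin 3)).1 (some (ex.marked ⟨(0 : Fin 3), (2 : Fin 4)⟩)) with hz
    have h00 : ((ex.bdrySq k (0 : Fin 3)).X (0 : Fin 3)).arc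
        = ((ex.bdrySq k (1 : Fin 3)).X (0 : Fin 3)).arc := rfl
    have h22 : ((ex.bdrySq k (0 : Fin 3)).X (2 : Fin 3)).arc
        = ((ex.bdrySq k (1 : Fin 3)).X (2 : Fin 3)).arc := rfl
    have h11 : ((ex.bdrySq k (0 : Fin 3)).X (1 : Fin 3)).arc
        ≠ ((ex.bdrySq k (1 : Fin 3)).X (1 : Fin 3)).arc := show x1 ≠ x3 by decide
    let ψ : ∀ (j : Fin (ex.bdrySq k (0 : Fin 3)).r) (j' : Fin (ex.bdrySq k (1 : Fin 3)).r),
        (ex.bdrySq k (0 : Fin 3)).X j ⟶ (ex.bdrySq k (1 : Fin 3)).X j' := fun j j' =>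
      if h : ((ex.bdrySq k (0 : Fin 3)).X j).arc = ((ex.bdrySq k (1 : Fin 3)).X j').arc then
        sc h (if j.1 = 0 then y else -z) else 0
    have ψ00 : ψ (0 : Fin 3) (0 : Fin 3) = sc h00 y :=
      (dif_pos h00).trans (congrArg (sc h00) (if_pos rfl))
    have ψ11 : ψ (1 : Fin 3) (1 : Fin 3) = 0 := dif_neg h11
    have ψ22 : ψ (2 : Fin 3) (2 : Fin 3) = sc h22 (-z) :=
      (dif_pos h22).trans (congrArg (sc h22) (if_neg (show ¬ (2 : ℕ) = 0 by decide)))
    have d01 := del_eq (ex.bdrySq k (0 : Fin 3)) (ex.bdrySq k (1 : Fin 3)) (1 - 1) ψ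
      (0 : Fin 3) (1 : Fin 3) (0 : Fin 3) rfl (1 : Fin 3) rfl
    have d12 := del_eq (ex.bdrySq k (0 : Fin 3)) (ex.bdrySq k (1 : Fin 3)) (1 - 1) ψ
      (1 : Fin 3) (2 : Fin 3) (1 : Fin 3) rfl (2 : Fin 3) rfl
    refine ⟨ψ, fun j j' hjj => ?_⟩
    have e01 : φ (0 : Fin 3) (1 : Fin 3) = (ex.bdrySq k (0 : Fin 3)).del
        (ex.bdrySq k (1 : Fin 3)) (1 - 1) ψ (0 : Fin 3) (1 : Fin 3) := by
      rw [d01, ψ00, ψ11, comp_zero, smul_zero, add_zero]
      exact fac_left (m := 0) (show exBef 0 x2 x3 by decide) h00 _ _ rfl ct01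
    have e12 : φ (1 : Fin 3) (2 : Fin 3) = (ex.bdrySq k (0 : Fin 3)).del
        (ex.bdrySq k (1 : Fin 3)) (1 - 1) ψ (1 : Fin 3) (2 : Fin 3) := by
      rw [d12, ψ22, ψ11, zero_comp, zero_add, sc_neg, Preadditive.comp_neg]
      have hs : (1 - 1 + 1 : ℤ).negOnePow = -1 := by decide
      rw [hs, Units.neg_smul, one_smul, neg_neg]
      exact fac_right (m := 2) (show exBef 2 x1 x0 by decide) h22 _ _ rfl cs12
    obtain ⟨j, hj⟩ := j
    obtain ⟨j', hj'⟩ := j'
    have hj3 : j < 3 := hj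
    have hj3' : j' < 3 := hj'
    simp only at hjj
    interval_cases j <;> interval_cases j' <;> first | (exfalso; omega) | exact e01 | exact e12
  · refine ⟨fun _ _ => 0, fun j j' hjj => ?_⟩
    rw [del_zero]
    obtain ⟨j, hj⟩ := j
    obtain ⟨j', hj'⟩ := j'
    have hj3 : j < 3 := hj
    have hj3' : j' < 3 := hj'
    simp only at hjj
    by_cases hn0 : n = 0
    · subst hn0
      have c01 := hφ (0 : Fin 3) (1 : Fin 3) rfl
      rw [del_eq _ _ _ φ (0 : Fin 3) (1 : Fin 3) (0 : Fin 3) rfl (1 : Fin 3) rfl, z11, comp_zero,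
        smul_zero, add_zero] at c01
      have c12 := hφ (1 : Fin 3) (2 : Fin 3) rfl
      rw [del_eq _ _ _ φ (1 : Fin 3) (2 : Fin 3) (1 : Fin 3) rfl (2 : Fin 3) rfl, z11, zero_comp,
        zero_add] at c12
      have c12' : (ex.bdrySq k (0 : Fin 3)).d (1 : Fin 3) (2 : Fin 3) ≫ φ (2 : Fin 3) (2 : Fin 3)
          = 0 := by
        have hs : (0 + 1 : ℤ).negOnePow = -1 := by decide
        rw [hs, Units.neg_smul, one_smul] at c12
        exact neg_eq_zero.mp c12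
      have z00 : φ (0 : Fin 3) (0 : Fin 3) = 0 := cancel_right rfl _ _ ct01 c01
      have z22 : φ (2 : Fin 3) (2 : Fin 3) = 0 := cancel_left rfl _ _ cs12 c12'
      interval_cases j <;> interval_cases j' <;>
        first | (exfalso; omega) | exact z00 | exact z11 | exact z22
    · interval_cases j <;> interval_cases j' <;>
        first | (exfalso; omega) | exact z02 | exact z10 | exact z20 | exact z21

end Pool.Agent.NG
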