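import Mathlib
import Pool.Agent.NG.ExHom
import Pool.Agent.NG.SqOrth

/-!
# Vanishing of RHom in the example: `b0` and `x1`
-/

open CategoryTheory CategoryTheory.Limits

namespace Pool.Agent.NG

open A8

variable {k : Type} [Field k]

/-- The multiple `y • id` of the identity, as a morphism between objects with the same arc. -/
private def scl (a b : EB k) (h : a.arc = b.arc) (y : k) : a ⟶ b :=
  ⟨fun o => o.elim y fun _ => 0, fun _ => h, fun _ h' => absurd rfl h'⟩

private theorem del_zeroB0X1 {s t : Sq (EB k)} (n : ℤ) (j : Fin s.r) (j' : Fin t.r) :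
    s.del t n (fun _ _ => 0) j j' = 0 := by
  unfold Sq.del
  simp

private theorem eb_end_zero {a b : EB k} (h : a.arc = b.arc) (f : a ⟶ b) (h0 : f.1 none = 0) :
    f = 0 := by
  apply BP.hom_ext
  rintro (_ | p)
  · exact h0
  · exact eb_end h f p

/-- A sum over `Fin 3` of terms supported at `1`. -/
private theorem sum3 {M : Type*} [AddCommGroup M] (F : Fin 3 → M) :
    (∑ j₂ : Fin 3, if 0 + 1 = j₂.1 then F j₂ else 0) = F 1 := by
  rw [Fin.sum_univ_three]
  simp

/- PROOF.  `Sq.orth` with `s = ex.bdrySq k 0` (`r = 3`, the terms are the kept arcs `x2, x1, x0`;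
`s.d 0 1` is the boundary path `β : x2 ⟶ x1` along the marked interval `1`, `s.d 1 2` the boundary
path `d : x1 ⟶ x0` along the marked interval `2`) and `t = Sq.one X`, `X.arc = x1` (`r = 1`,
`t.d = 0`).  Only the degrees `n = -j`, `j = 0, 1, 2`, matter (for other `n` the conditions are
empty, take `ψ = 0`); the entries are
`φ 0 0 : x2 ⟶ x1` (one coordinate, along the marked interval `1`), `φ 1 0 : x1 ⟶ x1`
(coordinate `none`), `φ 2 0 : x0 ⟶ x1` (zero: `eb_hom_zero`).
`n = -2`: `φ 2 0 = 0`, take `ψ = 0`.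
`n = -1`: the cocycle condition at `(0, 0)` reads `± β ≫ φ 1 0 = 0`, whose coordinate at the
marked interval `1` is the coordinate `none` of `φ 1 0`; so `φ 1 0 = 0`, take `ψ = 0`.
`n = 0`: `φ 0 0 = y β` with `y ∈ k` its coordinate; take `ψ 1 0 = ± y • id` (the sign is
`n.negOnePow`), all other `ψ = 0`. -/
theorem orth_b0_x1 (X : EB k) (hX : X.arc = x1) :
    Orth (ex.bdrySq k (0 : Fin 3)).obj (Sq.one X).obj := by
  apply Sq.orth
  intro n φ hφ
  have a0 : ((ex.bdrySq k (0 : Fin 3)).X (0 : Fin 3)).arc = x2 := rfl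
  have a1 : ((ex.bdrySq k (0 : Fin 3)).X (1 : Fin 3)).arc = x1 := rfl
  have a2 : ((ex.bdrySq k (0 : Fin 3)).X (2 : Fin 3)).arc = x0 := rfl
  have b0 : ((Sq.one X).X (0 : Fin 1)).arc = x1 := hX
  have d01 : ∀ o, ((ex.bdrySq k (0 : Fin 3)).d (0 : Fin 3) (1 : Fin 3)).1 o =
      o.elim 0 fun p => by classical exact if p = ex.marked ⟨(0 : Fin 3), (1 : Fin 4)⟩ then 1 else 0 :=
    fun o => rfl
  -- the differential at `(0, 0)`
  have hdel : ∀ (m : ℤ) (ψ : ∀ (j : Fin (ex.bdrySq k (0 : Fin 3)).r) (j' : Fin (Sq.one X).r),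
      (ex.bdrySq k (0 : Fin 3)).X j ⟶ (Sq.one X).X j'),
      (ex.bdrySq k (0 : Fin 3)).del (Sq.one X) m ψ (0 : Fin 3) (0 : Fin 1) =
        (m + 1).negOnePow • ((ex.bdrySq k (0 : Fin 3)).d (0 : Fin 3) (1 : Fin 3) ≫
          ψ (1 : Fin 3) (0 : Fin 1)) := by
    intro m ψ
    unfold Sq.del
    have e1 : (∑ j₁ : Fin (Sq.one X).r, if j₁.1 + 1 = (0 : Fin 1).1 then
        ψ (0 : Fin 3) j₁ ≫ (Sq.one X).d j₁ (0 : Fin 1) else 0) = 0 := by
      refine Finset.sum_eq_zero fun j₁ _ => ?_
      rw [if_neg]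
      simp
    rw [e1, zero_add]
    congr 1
    exact sum3 (fun j₂ => (ex.bdrySq k (0 : Fin 3)).d (0 : Fin 3) j₂ ≫ ψ j₂ (0 : Fin 1))
  have hj' : ∀ j' : Fin (Sq.one X).r, j' = (0 : Fin 1) :=
    fun j' => Subsingleton.elim (α := Fin 1) _ _
  have hj : ∀ j : Fin (ex.bdrySq k (0 : Fin 3)).r, j = (0 : Fin 3) ∨ j = (1 : Fin 3) ∨
      j = (2 : Fin 3) := by
    have : ∀ j : Fin 3, j = 0 ∨ j = 1 ∨ j = 2 := by decide
    exact this
  -- the zero family works if all the entries of degree `n` vanish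
  have hzero : (∀ (j : Fin (ex.bdrySq k (0 : Fin 3)).r), (0 : ℤ) = j.1 + n →
      φ j (0 : Fin 1) = 0) → ∃ ψ : ∀ (j : Fin (ex.bdrySq k (0 : Fin 3)).r)
        (j' : Fin (Sq.one X).r), (ex.bdrySq k (0 : Fin 3)).X j ⟶ (Sq.one X).X j',
        ∀ (j : Fin (ex.bdrySq k (0 : Fin 3)).r) (j' : Fin (Sq.one X).r), (j'.1 : ℤ) = j.1 + n →
          φ j j' = (ex.bdrySq k (0 : Fin 3)).del (Sq.one X) (n - 1) ψ j j' := by
    intro h
    refine ⟨fun _ _ => 0, fun j j' h1 => ?_⟩
    rw [del_zeroB0X1]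
    have h2 := hj' j'
    subst h2
    exact h j (by simpa using h1)
  by_cases hn0 : n = 0
  · subst hn0
    have hb : exBef 1 ((ex.bdrySq k (0 : Fin 3)).X (0 : Fin 3)).arc
        ((Sq.one X).X (0 : Fin 1)).arc := by
      rw [a0, b0]
      decide
    obtain ⟨c0, c1⟩ := eb_hom_coord hb (φ (0 : Fin 3) (0 : Fin 1))
    let y : k := (φ (0 : Fin 3) (0 : Fin 1)).1 (some (ex.marked ⟨(0 : Fin 3), (1 : Fin 4)⟩))
    classical
    refine ⟨fun j j' => if h : ((ex.bdrySq k (0 : Fin 3)).X j).arc = ((Sq.one X).X j').arc then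
      scl _ _ h y else 0, fun j j' h1 => ?_⟩
    have h2 := hj' j'
    subst h2
    have h3 : j = (0 : Fin 3) := by
      rcases hj j with h | h | h
      · exact h
      · subst h
        simp at h1
      · subst h
        simp at h1
    subst h3
    rw [hdel]
    have e2 : ((0 : ℤ) - 1 + 1).negOnePow = 1 := by norm_num
    rw [e2, one_smul, dif_pos (a1.trans b0.symm)]
    apply BP.hom_ext
    rintro (_ | p)
    · rw [BP.comp_none, d01]
      simpa using c0
    · rw [BP.comp_some, d01, d01]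
      have e3 : (scl ((ex.bdrySq k (0 : Fin 3)).X (1 : Fin 3)) ((Sq.one X).X (0 : Fin 1))
        (a1.trans b0.symm) y).1 none = y := rfl
      have e4 : (scl ((ex.bdrySq k (0 : Fin 3)).X (1 : Fin 3)) ((Sq.one X).X (0 : Fin 1))
        (a1.trans b0.symm) y).1 (some p) = 0 := rfl
      rw [e3, e4]
      simp only [Option.elim, mul_zero, zero_add, add_zero]
      by_cases hp : p = ex.marked ⟨(0 : Fin 3), (1 : Fin 4)⟩
      · rw [if_pos hp, one_mul, hp]
      · rw [if_neg hp, zero_mul]
        refine c1 p fun h => hp (exM_injective ?_)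
        exact h
  by_cases hn1 : n = -1
  · subst hn1
    apply hzero
    intro j h1
    have h3 : j = (1 : Fin 3) := by
      rcases hj j with h | h | h
      · subst h
        simp at h1
      · exact h
      · subst h
        simp at h1
    subst h3
    have h4 := hφ (0 : Fin 3) (0 : Fin 1) (by simp)
    rw [hdel] at h4
    have e2 : ((-1 : ℤ) + 1).negOnePow = 1 := by norm_num
    rw [e2, one_smul] at h4
    apply eb_end_zero (a1.trans b0.symm)
    have h5 : (((ex.bdrySq k (0 : Fin 3)).d (0 : Fin 3) (1 : Fin 3)) ≫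
        φ (1 : Fin 3) (0 : Fin 1)).1 (some (ex.marked ⟨(0 : Fin 3), (1 : Fin 4)⟩)) = 0 := by
      rw [h4]
      rfl
    rw [BP.comp_some, d01, d01, eb_end (a1.trans b0.symm)] at h5
    simpa using h5
  by_cases hn2 : n = -2
  · subst hn2
    apply hzero
    intro j h1
    have h3 : j = (2 : Fin 3) := by
      rcases hj j with h | h | h
      · subst h
        simp at h1
      · subst h
        simp at h1
      · exact h
    subst h3
    apply eb_hom_zero
    · rw [a2, b0]
      exact (by decide : (x0 : A8) ≠ x1)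
    · intro m
      rw [a2, b0]
      revert m
      decide
  · apply hzero
    intro j h1
    exfalso
    rcases hj j with h | h | h
    · subst h
      simp at h1
      omega
    · subst h
      simp at h1
      omega
    · subst h
      simp at h1
      omega

end Pool.Agent.NG
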