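import Mathlib
import Pool.Agent.NG.ExHom
import Pool.Agent.NG.SqOrth

/-!
# Vanishing of RHom in the example: `b1` and `b0`
-/

open CategoryTheory CategoryTheory.Limits

namespace Pool.Agent.NG

open A8

variable {k : Type} [Field k]

/-- the scalar `y` as a morphism between two objects with the same arc -/
private def scalB1B0 (a b : EB k) (h : a.arc = b.arc) (y : k) : a ⟶ b :=
  ⟨fun o => o.elim y fun _ => 0, fun _ => h, fun _ h' => absurd rfl h'⟩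

private theorem scalB1B0_none (a b : EB k) (h : a.arc = b.arc) (y : k) :
    (scalB1B0 a b h y).1 none = y := rfl

private theorem scalB1B0_some (a b : EB k) (h : a.arc = b.arc) (y : k) (p) :
    (scalB1B0 a b h y).1 (some p) = 0 := rfl

private theorem delB1B0_01 (n : ℤ) (φ : ∀ (j : Fin (ex.bdrySq k (1 : Fin 3)).r)
    (j' : Fin (ex.bdrySq k (0 : Fin 3)).r), (ex.bdrySq k (1 : Fin 3)).X j ⟶
      (ex.bdrySq k (0 : Fin 3)).X j') :
    (ex.bdrySq k (1 : Fin 3)).del (ex.bdrySq k (0 : Fin 3)) n φ (0 : Fin 3) (1 : Fin 3) =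
      φ (0 : Fin 3) (0 : Fin 3) ≫ (ex.bdrySq k (0 : Fin 3)).d (0 : Fin 3) (1 : Fin 3) +
      (n + 1).negOnePow • ((ex.bdrySq k (1 : Fin 3)).d (0 : Fin 3) (1 : Fin 3) ≫
        φ (1 : Fin 3) (1 : Fin 3)) := by
  unfold Sq.del
  congr 1
  · refine (Fin.sum_univ_three (fun j₁ : Fin 3 => if j₁.1 + 1 = ((1 : Fin 3) : ℕ) then
      φ (0 : Fin 3) j₁ ≫ (ex.bdrySq k (0 : Fin 3)).d j₁ (1 : Fin 3) else 0)).trans ?_
    simp
  · congr 1
    refine (Fin.sum_univ_three (fun j₂ : Fin 3 => if ((0 : Fin 3) : ℕ) + 1 = j₂.1 then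
      (ex.bdrySq k (1 : Fin 3)).d (0 : Fin 3) j₂ ≫ φ j₂ (1 : Fin 3) else 0)).trans ?_
    simp

private theorem delB1B0_12 (n : ℤ) (φ : ∀ (j : Fin (ex.bdrySq k (1 : Fin 3)).r)
    (j' : Fin (ex.bdrySq k (0 : Fin 3)).r), (ex.bdrySq k (1 : Fin 3)).X j ⟶
      (ex.bdrySq k (0 : Fin 3)).X j') :
    (ex.bdrySq k (1 : Fin 3)).del (ex.bdrySq k (0 : Fin 3)) n φ (1 : Fin 3) (2 : Fin 3) =
      φ (1 : Fin 3) (1 : Fin 3) ≫ (ex.bdrySq k (0 : Fin 3)).d (1 : Fin 3) (2 : Fin 3) +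
      (n + 1).negOnePow • ((ex.bdrySq k (1 : Fin 3)).d (1 : Fin 3) (2 : Fin 3) ≫
        φ (2 : Fin 3) (2 : Fin 3)) := by
  unfold Sq.del
  congr 1
  · refine (Fin.sum_univ_three (fun j₁ : Fin 3 => if j₁.1 + 1 = ((2 : Fin 3) : ℕ) then
      φ (1 : Fin 3) j₁ ≫ (ex.bdrySq k (0 : Fin 3)).d j₁ (2 : Fin 3) else 0)).trans ?_
    simp
  · congr 1
    refine (Fin.sum_univ_three (fun j₂ : Fin 3 => if ((1 : Fin 3) : ℕ) + 1 = j₂.1 then
      (ex.bdrySq k (1 : Fin 3)).d (1 : Fin 3) j₂ ≫ φ j₂ (2 : Fin 3) else 0)).trans ?_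
    simp

private theorem negSmulB1B0 {a b : EB k} (f : a ⟶ b) (o) :
    ((-1 : ℤˣ) • f).1 o = -(f.1 o) := by
  rw [Units.neg_smul, one_smul, BP.neg_val]

private theorem betaB1B0 :
    ((ex.bdrySq k (0 : Fin 3)).d (0 : Fin 3) (1 : Fin 3)).1 none = 0 ∧
    ((ex.bdrySq k (0 : Fin 3)).d (0 : Fin 3) (1 : Fin 3)).1
      (some (ex.marked ⟨(0 : Fin 3), (1 : Fin 4)⟩)) = 1 ∧
    ∀ p, p ≠ ex.marked ⟨(0 : Fin 3), (1 : Fin 4)⟩ →
      ((ex.bdrySq k (0 : Fin 3)).d (0 : Fin 3) (1 : Fin 3)).1 (some p) = 0 := by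
  have h : (ex.bdrySq k (0 : Fin 3)).d (0 : Fin 3) (1 : Fin 3) =
      BP.corner _ _ ⟨(0 : Fin 3), (1 : Fin 4)⟩ rfl rfl := by
    delta ArcSystem.bdrySq
    dsimp only
    rw [dif_pos (show ((0 : Fin 3) : ℕ) + 1 = ((1 : Fin 3) : ℕ) from rfl)]
    rfl
  rw [h]
  exact ⟨rfl, if_pos rfl, fun p hp => if_neg hp⟩

private theorem efB1B0 :
    ((ex.bdrySq k (1 : Fin 3)).d (1 : Fin 3) (2 : Fin 3)).1 none = 0 ∧
    ((ex.bdrySq k (1 : Fin 3)).d (1 : Fin 3) (2 : Fin 3)).1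
      (some (ex.marked ⟨(1 : Fin 3), (2 : Fin 4)⟩)) = 1 ∧
    ∀ p, p ≠ ex.marked ⟨(1 : Fin 3), (2 : Fin 4)⟩ →
      ((ex.bdrySq k (1 : Fin 3)).d (1 : Fin 3) (2 : Fin 3)).1 (some p) = 0 := by
  have h : (ex.bdrySq k (1 : Fin 3)).d (1 : Fin 3) (2 : Fin 3) =
      BP.corner _ _ ⟨(1 : Fin 3), (2 : Fin 4)⟩ rfl rfl := by
    delta ArcSystem.bdrySq
    dsimp only
    rw [dif_pos (show ((1 : Fin 3) : ℕ) + 1 = ((2 : Fin 3) : ℕ) from rfl)]
    rfl
  rw [h]
  exact ⟨rfl, if_pos rfl, fun p hp => if_neg hp⟩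

private theorem zeroB1B0 (φ : ∀ (j : Fin (ex.bdrySq k (1 : Fin 3)).r)
    (j' : Fin (ex.bdrySq k (0 : Fin 3)).r), (ex.bdrySq k (1 : Fin 3)).X j ⟶
      (ex.bdrySq k (0 : Fin 3)).X j') :
    φ (0 : Fin 3) (2 : Fin 3) = 0 ∧ φ (1 : Fin 3) (0 : Fin 3) = 0 ∧
    φ (1 : Fin 3) (1 : Fin 3) = 0 ∧ φ (2 : Fin 3) (0 : Fin 3) = 0 ∧
    φ (2 : Fin 3) (1 : Fin 3) = 0 := by
  refine ⟨?_, ?_, ?_, ?_, ?_⟩
  · apply eb_hom_zero
    · change x2 ≠ x0; decide
    · change ∀ m, ¬ exBef m x2 x0; decide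
  · apply eb_hom_zero
    · change x3 ≠ x2; decide
    · change ∀ m, ¬ exBef m x3 x2; decide
  · apply eb_hom_zero
    · change x3 ≠ x1; decide
    · change ∀ m, ¬ exBef m x3 x1; decide
  · apply eb_hom_zero
    · change x0 ≠ x2; decide
    · change ∀ m, ¬ exBef m x0 x2; decide
  · apply eb_hom_zero
    · change x0 ≠ x1; decide
    · change ∀ m, ¬ exBef m x0 x1; decide

/- PROOF.  `Sq.orth` with `s = ex.bdrySq k 1` (terms `x2, x3, x0`; `s.d 0 1 = a : x2 ⟶ x3` along the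
marked interval `0`, `s.d 1 2 = f : x3 ⟶ x0` along the marked interval `3`) and
`t = ex.bdrySq k 0` (terms `x2, x1, x0`; `t.d 0 1 = β : x2 ⟶ x1` along the marked interval `1`,
`t.d 1 2 = d : x1 ⟶ x0` along the marked interval `2`).
Entries `φ j j'`: `φ 0 0 : x2 ⟶ x2` (coordinate `none`), `φ 0 1 : x2 ⟶ x1` (one coordinate,
interval `1`), `φ 0 2 : x2 ⟶ x0` zero, `φ 1 0 : x3 ⟶ x2` zero, `φ 1 1 : x3 ⟶ x1` zero,
`φ 1 2 : x3 ⟶ x0` (one coordinate, interval `3`), `φ 2 0 : x0 ⟶ x2` zero, `φ 2 1 : x0 ⟶ x1` zero,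
`φ 2 2 : x0 ⟶ x0` (coordinate `none`); zero by `eb_hom_zero`.
`n = 0`: the cocycle condition at `(0, 1)`: `φ 0 0 ≫ β ± a ≫ φ 1 1 = 0` gives `φ 0 0 = 0`; at
`(1, 2)`: `φ 1 1 ≫ d ± f ≫ φ 2 2 = 0` gives `φ 2 2 = 0`.  So all the entries of degree `0`
vanish, `ψ = 0`.
`n = 1`: `φ 0 1 = y β`, `φ 1 2 = z f` with `y, z ∈ k`; take `ψ 0 0 = y • id`,
`ψ 2 2 = ± z • id` (the sign `n.negOnePow = -1`), all other `ψ = 0`.
All other `n` (`-2, -1, 2`, and `|n| ≥ 3` where there are no entries): the entries are zero. -/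
theorem orth_b1_b0 : Orth (ex.bdrySq k (1 : Fin 3)).obj (ex.bdrySq k (0 : Fin 3)).obj := by
  classical
  apply Sq.orth
  intro n φ hφ
  obtain ⟨z02, z10, z11, z20, z21⟩ := zeroB1B0 φ
  obtain ⟨bn, b1, bp⟩ := betaB1B0 (k := k)
  obtain ⟨fn, f1, fp⟩ := efB1B0 (k := k)
  by_cases hn0 : n = 0
  · subst hn0
    have e01 := hφ (0 : Fin 3) (1 : Fin 3) rfl
    have e12 := hφ (1 : Fin 3) (2 : Fin 3) rfl
    rw [delB1B0_01, z11] at e01
    rw [delB1B0_12, z11] at e12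
    rw [comp_zero, smul_zero, add_zero] at e01
    rw [zero_comp, zero_add, smul_eq_zero_iff_eq] at e12
    have c01 : (φ (0 : Fin 3) (0 : Fin 3)).1 none = 0 := by
      have h := congrArg (fun g => g.1 (some (ex.marked ⟨(0 : Fin 3), (1 : Fin 4)⟩))) e01
      simp only [BP.comp_some, b1, bn, BP.zero_val] at h
      have h2 := eb_end (k := k) (a := (ex.bdrySq k (1 : Fin 3)).X (0 : Fin 3))
        (b := (ex.bdrySq k (0 : Fin 3)).X (0 : Fin 3)) rfl (φ (0 : Fin 3) (0 : Fin 3))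
        (ex.marked ⟨(0 : Fin 3), (1 : Fin 4)⟩)
      rw [h2] at h
      simpa using h
    have c12 : (φ (2 : Fin 3) (2 : Fin 3)).1 none = 0 := by
      have h := congrArg (fun g => g.1 (some (ex.marked ⟨(1 : Fin 3), (2 : Fin 4)⟩))) e12
      simp only [BP.comp_some, f1, fn, BP.zero_val] at h
      have h2 := eb_end (k := k) (a := (ex.bdrySq k (1 : Fin 3)).X (2 : Fin 3))
        (b := (ex.bdrySq k (0 : Fin 3)).X (2 : Fin 3)) rfl (φ (2 : Fin 3) (2 : Fin 3))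
        (ex.marked ⟨(1 : Fin 3), (2 : Fin 4)⟩)
      rw [h2] at h
      simpa using h
    have z00 : φ (0 : Fin 3) (0 : Fin 3) = 0 := by
      apply BP.hom_ext
      rintro (_ | p)
      · exact c01
      · exact eb_end (k := k) (a := (ex.bdrySq k (1 : Fin 3)).X (0 : Fin 3))
          (b := (ex.bdrySq k (0 : Fin 3)).X (0 : Fin 3)) rfl (φ (0 : Fin 3) (0 : Fin 3)) p
    have z22 : φ (2 : Fin 3) (2 : Fin 3) = 0 := by
      apply BP.hom_ext
      rintro (_ | p)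
      · exact c12
      · exact eb_end (k := k) (a := (ex.bdrySq k (1 : Fin 3)).X (2 : Fin 3))
          (b := (ex.bdrySq k (0 : Fin 3)).X (2 : Fin 3)) rfl (φ (2 : Fin 3) (2 : Fin 3)) p
    refine ⟨fun _ _ => 0, ?_⟩
    rintro ⟨j, hj⟩ ⟨j', hj'⟩ hjj
    have hd : (ex.bdrySq k (1 : Fin 3)).del (ex.bdrySq k (0 : Fin 3)) (0 - 1) (fun _ _ => 0)
        ⟨j, hj⟩ ⟨j', hj'⟩ = 0 := by
      simp [Sq.del]
    rw [hd]
    have hj3 : j < 3 := hj
    have hjj' : j' = j := by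
      simp only [add_zero] at hjj
      exact_mod_cast hjj
    subst hjj'
    interval_cases j'
    · exact z00
    · exact z11
    · exact z22
  · by_cases hn1 : n = 1
    · subst hn1
      have c01 := eb_hom_coord (k := k) (a := (ex.bdrySq k (1 : Fin 3)).X (0 : Fin 3))
        (b := (ex.bdrySq k (0 : Fin 3)).X (1 : Fin 3)) (m := 1)
        (show exBef 1 x2 x1 by decide) (φ (0 : Fin 3) (1 : Fin 3))
      have c12 := eb_hom_coord (k := k) (a := (ex.bdrySq k (1 : Fin 3)).X (1 : Fin 3))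
        (b := (ex.bdrySq k (0 : Fin 3)).X (2 : Fin 3)) (m := 3)
        (show exBef 3 x3 x0 by decide) (φ (1 : Fin 3) (2 : Fin 3))
      set y : k := (φ (0 : Fin 3) (1 : Fin 3)).1 (some (ex.marked ⟨(0 : Fin 3), (1 : Fin 4)⟩))
        with hy
      set z : k := (φ (1 : Fin 3) (2 : Fin 3)).1 (some (ex.marked ⟨(1 : Fin 3), (2 : Fin 4)⟩))
        with hz
      let ψ : ∀ (j : Fin (ex.bdrySq k (1 : Fin 3)).r) (j' : Fin (ex.bdrySq k (0 : Fin 3)).r),
          (ex.bdrySq k (1 : Fin 3)).X j ⟶ (ex.bdrySq k (0 : Fin 3)).X j' := fun j j' =>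
        if h : ((ex.bdrySq k (1 : Fin 3)).X j).arc = ((ex.bdrySq k (0 : Fin 3)).X j').arc then
          scalB1B0 _ _ h (if j.1 = 0 then y else -z) else 0
      have hψ00 : ψ (0 : Fin 3) (0 : Fin 3) = scalB1B0 _ _ rfl y :=
        (dif_pos rfl).trans (congrArg (scalB1B0 _ _ rfl) (if_pos rfl))
      have hψ22 : ψ (2 : Fin 3) (2 : Fin 3) = scalB1B0 _ _ rfl (-z) :=
        (dif_pos rfl).trans (congrArg (scalB1B0 _ _ rfl)
          (if_neg (show ¬ ((2 : Fin 3) : ℕ) = 0 by decide)))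
      have hψ11 : ψ (1 : Fin 3) (1 : Fin 3) = 0 :=
        dif_neg (show ¬ (x3 : A8) = x1 by decide)
      refine ⟨ψ, ?_⟩
      rintro ⟨j, hj⟩ ⟨j', hj'⟩ hjj
      have hj3 : j < 3 := hj
      have hj3' : j' < 3 := hj'
      have hjj2 : (j' : ℤ) = j + 1 := hjj
      have hs : (((1 : ℤ) - 1 + 1).negOnePow : ℤˣ) = -1 := by
        norm_num
      interval_cases j <;> interval_cases j' <;>
        first
        | (exfalso; omega)
        | skip
      · change φ (0 : Fin 3) (1 : Fin 3) = (ex.bdrySq k (1 : Fin 3)).del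
          (ex.bdrySq k (0 : Fin 3)) (1 - 1) ψ (0 : Fin 3) (1 : Fin 3)
        rw [delB1B0_01, hψ00, hψ11, comp_zero, smul_zero, add_zero]
        apply BP.hom_ext
        rintro (_ | p)
        · rw [BP.comp_none, bn, mul_zero]
          exact c01.1
        · rw [BP.comp_some, scalB1B0_none, scalB1B0_some, bn, zero_mul, zero_mul, add_zero,
            add_zero]
          by_cases hp : p = ex.marked ⟨(0 : Fin 3), (1 : Fin 4)⟩
          · subst hp
            rw [b1, mul_one]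
          · rw [bp p hp, mul_zero]
            refine c01.2 p fun hm => hp (exM_injective hm)
      · change φ (1 : Fin 3) (2 : Fin 3) = (ex.bdrySq k (1 : Fin 3)).del
          (ex.bdrySq k (0 : Fin 3)) (1 - 1) ψ (1 : Fin 3) (2 : Fin 3)
        rw [delB1B0_12, hψ22, hψ11, zero_comp, zero_add, hs]
        apply BP.hom_ext
        rintro (_ | p)
        · rw [negSmulB1B0, BP.comp_none, fn, zero_mul, neg_zero]
          exact c12.1
        · rw [negSmulB1B0, BP.comp_some, scalB1B0_none, scalB1B0_some, fn, zero_mul, mul_zero, zero_add,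
            add_zero]
          by_cases hp : p = ex.marked ⟨(1 : Fin 3), (2 : Fin 4)⟩
          · subst hp
            rw [f1, one_mul, neg_neg]
          · rw [fp p hp, zero_mul, neg_zero]
            refine c12.2 p fun hm => hp (exM_injective hm)
    · refine ⟨fun _ _ => 0, ?_⟩
      rintro ⟨j, hj⟩ ⟨j', hj'⟩ hjj
      have hd : (ex.bdrySq k (1 : Fin 3)).del (ex.bdrySq k (0 : Fin 3)) (n - 1) (fun _ _ => 0)
          ⟨j, hj⟩ ⟨j', hj'⟩ = 0 := by
        simp [Sq.del]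
      rw [hd]
      have hj3 : j < 3 := hj
      have hj3' : j' < 3 := hj'
      have hjj2 : (j' : ℤ) = j + n := hjj
      interval_cases j <;> interval_cases j' <;>
        first
        | exact z02 | exact z10 | exact z11 | exact z20 | exact z21
        | (exfalso; omega)

end Pool.Agent.NG
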