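import Mathlib
import Pool.Agent.NG.ExHom
import Pool.Agent.NG.SqOrth

/-!
# Vanishing of RHom in the example: `b1` and `x3`
-/

open CategoryTheory CategoryTheory.Limits

namespace Pool.Agent.NG

open A8

variable {k : Type} [Field k]

private theorem b1x3_a : (ex.bdrySq k (1 : Fin 3)).d (0 : Fin 3) (1 : Fin 3) =
    BP.corner ((ex.bdrySq k (1 : Fin 3)).X (0 : Fin 3)) ((ex.bdrySq k (1 : Fin 3)).X (1 : Fin 3))
      (⟨(1 : Fin 3), (1 : Fin 4)⟩ : ex.Corner) rfl rfl := by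
  have h : (0 : Fin 3).1 + 1 = (1 : Fin 3).1 := rfl
  unfold ArcSystem.bdrySq
  dsimp only
  rw [dif_pos h]
  rfl

private theorem b1x3_a_none :
    ((ex.bdrySq k (1 : Fin 3)).d (0 : Fin 3) (1 : Fin 3)).1 none = 0 := by
  rw [b1x3_a]
  rfl

private theorem b1x3_a_some (p : ex.Marked) :
    ((ex.bdrySq k (1 : Fin 3)).d (0 : Fin 3) (1 : Fin 3)).1 (some p) =
      open Classical in if p = ex.marked ⟨(1 : Fin 3), (1 : Fin 4)⟩ then 1 else 0 := by
  rw [b1x3_a]
  rfl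

/- PROOF.  `Sq.orth` with `s = ex.bdrySq k 1` (`r = 3`, the terms are the kept arcs `x2, x3, x0`;
`s.d 0 1` is the boundary path `a : x2 ⟶ x3` along the marked interval `0`, `s.d 1 2` the boundary
path `f : x3 ⟶ x0` along the marked interval `3`) and `t = Sq.one X`, `X.arc = x3` (`r = 1`,
`t.d = 0`).  Only the degrees `n = -j`, `j = 0, 1, 2`, matter; the entries are
`φ 0 0 : x2 ⟶ x3` (one coordinate, along the marked interval `0`), `φ 1 0 : x3 ⟶ x3`
(coordinate `none`), `φ 2 0 : x0 ⟶ x3` (zero: `eb_hom_zero`).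
`n = -2`: `φ 2 0 = 0`, take `ψ = 0`.
`n = -1`: the cocycle condition at `(0, 0)` reads `± a ≫ φ 1 0 = 0`, so `φ 1 0 = 0`, `ψ = 0`.
`n = 0`: `φ 0 0 = y a` with `y ∈ k`; take `ψ 1 0 = ± y • id` (the sign is `n.negOnePow`), all
other `ψ = 0`. -/
theorem orth_b1_x3 (X : EB k) (hX : X.arc = x3) :
    Orth (ex.bdrySq k (1 : Fin 3)).obj (Sq.one X).obj := by
  refine Sq.orth _ _ fun n φ hφ => ?_
  have hdel : ∀ (m : ℤ) (ψ : ∀ (j : Fin 3) (j' : Fin 1),
      (ex.bdrySq k (1 : Fin 3)).X j ⟶ (Sq.one X).X j') (j : Fin 3),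
      (ex.bdrySq k (1 : Fin 3)).del (Sq.one X) m ψ j (0 : Fin 1) =
        (m + 1).negOnePow • ∑ j₂ : Fin 3, if j.1 + 1 = j₂.1 then
          (ex.bdrySq k (1 : Fin 3)).d j j₂ ≫ ψ j₂ (0 : Fin 1) else 0 := by
    intro m ψ j
    have h0 : (∑ j₁ : Fin 1, if j₁.1 + 1 = (0 : Fin 1).1 then
        ψ j j₁ ≫ (Sq.one X).d j₁ (0 : Fin 1) else 0) = 0 := by
      refine Finset.sum_eq_zero fun j₁ _ => ?_
      rw [if_neg]
      exact Nat.succ_ne_zero _
    change (∑ j₁ : Fin 1, if j₁.1 + 1 = (0 : Fin 1).1 then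
        ψ j j₁ ≫ (Sq.one X).d j₁ (0 : Fin 1) else 0) + _ = _
    rw [h0, zero_add]
    rfl
  have hdel0 : ∀ (m : ℤ) (ψ : ∀ (j : Fin 3) (j' : Fin 1),
      (ex.bdrySq k (1 : Fin 3)).X j ⟶ (Sq.one X).X j'),
      (ex.bdrySq k (1 : Fin 3)).del (Sq.one X) m ψ (0 : Fin 3) (0 : Fin 1) =
        (m + 1).negOnePow • ((ex.bdrySq k (1 : Fin 3)).d (0 : Fin 3) (1 : Fin 3) ≫
          ψ (1 : Fin 3) (0 : Fin 1)) := by
    intro m ψ
    rw [hdel, Fin.sum_univ_three]
    have e0 : ¬ ((0 : Fin 3).1 + 1 = (0 : Fin 3).1) := by decide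
    have e1 : (0 : Fin 3).1 + 1 = (1 : Fin 3).1 := by decide
    have e2 : ¬ ((0 : Fin 3).1 + 1 = (2 : Fin 3).1) := by decide
    rw [if_neg e0, if_pos e1, if_neg e2, zero_add, add_zero]
  have hz : ∀ (m : ℤ) (j : Fin 3), (ex.bdrySq k (1 : Fin 3)).del (Sq.one X) m
      (fun _ _ => 0) j (0 : Fin 1) = 0 := by
    intro m j
    rw [hdel]
    have h1 : (∑ j₂ : Fin 3, if j.1 + 1 = j₂.1 then
          (ex.bdrySq k (1 : Fin 3)).d j j₂ ≫
            (0 : (ex.bdrySq k (1 : Fin 3)).X j₂ ⟶ (Sq.one X).X (0 : Fin 1)) else 0) = 0 := by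
      refine Finset.sum_eq_zero fun j₂ _ => ?_
      split_ifs
      · exact comp_zero
      · rfl
    rw [h1, smul_zero]
  have hj0 : ∀ j' : Fin 1, j' = 0 := fun j' => Subsingleton.elim _ _
  have hp0 : exM (ex.marked ⟨(1 : Fin 3), (1 : Fin 4)⟩) = 0 := rfl
  by_cases hn0 : n = 0
  · -- degree 0
    subst hn0
    let φ0 : (ex.bdrySq k (1 : Fin 3)).X (0 : Fin 3) ⟶ (Sq.one X).X (0 : Fin 1) :=
      φ (0 : Fin 3) (0 : Fin 1)
    let y : k := φ0.1 (some (ex.marked ⟨(1 : Fin 3), (1 : Fin 4)⟩))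
    let g : (ex.bdrySq k (1 : Fin 3)).X (1 : Fin 3) ⟶ (Sq.one X).X (0 : Fin 1) :=
      ⟨fun o => o.elim y fun _ => 0, fun _ => hX.symm, fun _ h => absurd rfl h⟩
    let ψ : ∀ (j : Fin 3) (j' : Fin 1), (ex.bdrySq k (1 : Fin 3)).X j ⟶ (Sq.one X).X j' :=
      fun j j' => if h : j = 1 then
        (eqToHom (congrArg _ h) ≫ g ≫ eqToHom (congrArg _ (hj0 j').symm)) else 0
    have hψ : ψ (1 : Fin 3) (0 : Fin 1) = g := by
      change dite ((1 : Fin 3) = 1) _ _ = g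
      rw [dif_pos rfl]
      simp
    refine ⟨ψ, fun j j' hjj => ?_⟩
    have hj : j = (0 : Fin 3) := by
      have h1 : j'.1 = 0 := congrArg Fin.val (hj0 j')
      have h2 : j.1 = 0 := by omega
      exact Fin.ext h2
    have hj' : j' = (0 : Fin 1) := hj0 j'
    subst hj
    subst hj'
    have h3 := hdel0 (0 - 1) ψ
    rw [hψ] at h3
    refine Eq.trans ?_ h3.symm
    have h4 : ((0 : ℤ) - 1 + 1).negOnePow = 1 := by
      rw [sub_add_cancel]
      exact Int.negOnePow_zero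
    rw [h4, one_smul]
    have hbef : exBef 0 ((ex.bdrySq k (1 : Fin 3)).X (0 : Fin 3)).arc
        ((Sq.one X).X (0 : Fin 1)).arc := by
      change exBef 0 x2 X.arc
      rw [hX]
      decide
    obtain ⟨h5, h6⟩ := eb_hom_coord hbef φ0
    apply BP.hom_ext
    rintro (_ | p)
    · rw [BP.comp_none, b1x3_a_none, zero_mul]
      exact h5
    · rw [BP.comp_some, b1x3_a_none, b1x3_a_some, zero_mul, zero_add]
      change φ0.1 (some p) = _ * y + _ * 0
      rw [mul_zero, add_zero]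
      by_cases hp : p = ex.marked ⟨(1 : Fin 3), (1 : Fin 4)⟩
      · rw [if_pos hp, one_mul, hp]
      · rw [if_neg hp, zero_mul]
        exact h6 p fun h => hp (exM_injective (h.trans hp0.symm))
  · refine ⟨fun _ _ => 0, fun j j' hjj => ?_⟩
    have hj' : j' = (0 : Fin 1) := hj0 j'
    subst hj'
    refine Eq.trans ?_ (hz (n - 1) j).symm
    have hj3 : j.1 < 3 := j.2
    have hjn : (j.1 : ℤ) = -n := by
      have : ((0 : Fin 1).1 : ℤ) = j.1 + n := hjj
      have h1 : ((0 : Fin 1).1 : ℤ) = 0 := rfl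
      omega
    by_cases hn1 : n = -1
    · have hj : j = (1 : Fin 3) := by
        have h2 : j.1 = 1 := by omega
        exact Fin.ext h2
      subst hj
      have h3 := hφ (0 : Fin 3) (0 : Fin 1) (by
        rw [hn1]
        rfl)
      have h4 := (hdel0 n φ).symm.trans h3
      have h5 : ((n : ℤ) + 1).negOnePow = 1 := by
        rw [hn1]
        exact Int.negOnePow_zero
      rw [h5, one_smul] at h4
      have harc : ((ex.bdrySq k (1 : Fin 3)).X (1 : Fin 3)).arc =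
          ((Sq.one X).X (0 : Fin 1)).arc := hX.symm
      have h6 : ∀ p, (φ (1 : Fin 3) (0 : Fin 1)).1 (some p) = 0 := fun p => eb_end harc _ p
      apply BP.hom_ext
      rintro (_ | p)
      · have h7 := congrArg (fun f : (ex.bdrySq k (1 : Fin 3)).X (0 : Fin 3) ⟶
          (Sq.one X).X (0 : Fin 1) => f.1 (some (ex.marked ⟨(1 : Fin 3), (1 : Fin 4)⟩))) h4
        change ((ex.bdrySq k (1 : Fin 3)).d (0 : Fin 3) (1 : Fin 3) ≫
          φ (1 : Fin 3) (0 : Fin 1)).1 (some (ex.marked ⟨(1 : Fin 3), (1 : Fin 4)⟩)) = 0 at h7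
        rw [BP.comp_some, b1x3_a_none, b1x3_a_some, if_pos rfl, zero_mul, zero_add, one_mul,
          one_mul, h6, add_zero] at h7
        exact h7
      · exact h6 p
    · have hj : j = (2 : Fin 3) := by
        have h2 : j.1 = 2 := by omega
        exact Fin.ext h2
      subst hj
      refine eb_hom_zero ?_ ?_ _
      · change x0 ≠ X.arc
        rw [hX]
        decide
      · change ∀ m, ¬ exBef m x0 X.arc
        rw [hX]
        decide

end Pool.Agent.NG
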