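import Mathlib
import Pool.Agent.NG.ExHom
import Pool.Agent.NG.SqOrth

/-!
# Vanishing of RHom in the example: `x1` and `b0`
-/

open CategoryTheory CategoryTheory.Limits

namespace Pool.Agent.NG

open A8

variable {k : Type} [Field k]

private theorem x1b0_aux {𝒞 : Type} [Category.{0} 𝒞] [Preadditive 𝒞] (X : 𝒞) (Y : Fin 3 → 𝒞)
    (d : ∀ j j' : Fin 3, Y j ⟶ Y j')
    (dd : ∀ j j' j'' : Fin 3, j.1 + 1 = j'.1 → j'.1 + 1 = j''.1 → d j j' ≫ d j' j'' = 0)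
    (h0 : ∀ f : X ⟶ Y 0, f = 0) (h1 : ∀ f : X ⟶ Y 1, f ≫ d 1 2 = 0 → f = 0)
    (h2 : ∀ f : X ⟶ Y 2, ∃ g : X ⟶ Y 1, f = g ≫ d 1 2) :
    Orth (Sq.one X).obj (Sq.obj ⟨3, Y, d, dd⟩) := by
  have hdel : ∀ (n : ℤ) (ψ : ∀ (j : Fin 1) (j' : Fin 3), X ⟶ Y j') (j' : Fin 3),
      Sq.del (Sq.one X) ⟨3, Y, d, dd⟩ n ψ (0 : Fin 1) j' =
        ∑ j₁ : Fin 3, if j₁.1 + 1 = j'.1 then ψ 0 j₁ ≫ d j₁ j' else 0 := by
    intro n ψ j'
    have e1 : (∑ j₂ : Fin 1, (if (0 : Fin 1).1 + 1 = j₂.1 then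
        (Sq.one X).d (0 : Fin 1) j₂ ≫ ψ j₂ j' else 0 : X ⟶ Y j')) = 0 := by
      refine Finset.sum_eq_zero fun j₂ _ => ?_
      rw [if_neg]
      have := j₂.2
      have h3 : (0 : Fin 1).1 = 0 := rfl
      omega
    have e2 : Sq.del (Sq.one X) ⟨3, Y, d, dd⟩ n ψ (0 : Fin 1) j' =
        (∑ j₁ : Fin 3, if j₁.1 + 1 = j'.1 then ψ 0 j₁ ≫ d j₁ j' else 0) +
        (n + 1).negOnePow • (∑ j₂ : Fin 1, (if (0 : Fin 1).1 + 1 = j₂.1 then
        (Sq.one X).d (0 : Fin 1) j₂ ≫ ψ j₂ j' else 0 : X ⟶ Y j')) := rfl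
    rw [e2, e1, smul_zero, add_zero]
  refine Sq.orth _ _ fun n φ hφ => ?_
  change ∀ (j : Fin 1) (j' : Fin 3), X ⟶ Y j' at φ
  change ∀ (j : Fin 1) (j' : Fin 3), (j'.1 : ℤ) = j.1 + n + 1 →
    Sq.del (Sq.one X) ⟨3, Y, d, dd⟩ n φ j j' = 0 at hφ
  change ∃ ψ : ∀ (j : Fin 1) (j' : Fin 3), X ⟶ Y j',
    ∀ (j : Fin 1) (j' : Fin 3), (j'.1 : ℤ) = j.1 + n →
      φ j j' = Sq.del (Sq.one X) ⟨3, Y, d, dd⟩ (n - 1) ψ j j'
  by_cases hn2 : n = 2
  · subst hn2
    obtain ⟨g, hg⟩ := h2 (φ 0 2)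
    refine ⟨fun _ j' => match j' with
      | 0 => 0
      | 1 => g
      | 2 => 0, fun j j' hj => ?_⟩
    obtain rfl : j = 0 := Subsingleton.elim _ _
    have hj2 : j' = 2 := by
      apply Fin.ext
      have h3 : ((0 : Fin 1).1 : ℤ) = 0 := rfl
      have h4 : (2 : Fin 3).1 = 2 := rfl
      omega
    subst hj2
    rw [hdel, Fin.sum_univ_three, if_neg (by decide), if_pos (by decide), if_neg (by decide), zero_add,
      add_zero]
    exact hg
  · refine ⟨fun _ _ => 0, fun j j' hj => ?_⟩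
    obtain rfl : j = 0 := Subsingleton.elim _ _
    have hz : (∑ j₁ : Fin 3, if j₁.1 + 1 = j'.1 then (0 : X ⟶ Y j₁) ≫ d j₁ j' else 0) = 0 := by
      refine Finset.sum_eq_zero fun j₁ _ => ?_
      rw [zero_comp, ite_self]
    rw [hdel, hz]
    have h3 : ((0 : Fin 1).1 : ℤ) = 0 := rfl
    match j', hj with
    | 0, _ => exact h0 _
    | 1, hj =>
      have hn1 : n = 1 := by
        have h4 : ((1 : Fin 3).1 : ℤ) = 1 := rfl
        omega
      subst hn1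
      apply h1
      have h5 := hφ 0 2 rfl
      rw [hdel, Fin.sum_univ_three, if_neg (by decide), if_pos (by decide), if_neg (by decide),
        zero_add, add_zero] at h5
      exact h5
    | 2, hj =>
      exfalso
      apply hn2
      have h4 : ((2 : Fin 3).1 : ℤ) = 2 := rfl
      omega

/- PROOF.  `Sq.orth` with `s = Sq.one X`, `X.arc = x1` (`r = 1`, `s.d = 0`) and
`t = ex.bdrySq k 0` (`r = 3`, the terms are the kept arcs `x2, x1, x0`; `t.d 0 1` is the boundary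
path `β : x2 ⟶ x1` along the marked interval `1`, `t.d 1 2` the boundary path `d : x1 ⟶ x0` along
the marked interval `2`).  Only the degrees `n = 0, 1, 2` matter; the entries are
`φ 0 0 : x1 ⟶ x2` (zero, `eb_hom_zero`), `φ 0 1 : x1 ⟶ x1` (coordinate `none`),
`φ 0 2 : x1 ⟶ x0` (one coordinate, along the marked interval `2`).
`n = 0`: `φ 0 0 = 0`, `ψ = 0`.
`n = 1`: the cocycle condition at `(0, 2)` reads `φ 0 1 ≫ d = 0`, so the coordinate `none` of
`φ 0 1` vanishes, `φ 0 1 = 0`, `ψ = 0`.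
`n = 2`: `φ 0 2 = y d` with `y ∈ k`; take `ψ 0 1 = y • id`, all other `ψ = 0`. -/
theorem orth_x1_b0 (X : EB k) (hX : X.arc = x1) :
    Orth (Sq.one X).obj (ex.bdrySq k (0 : Fin 3)).obj := by
  have hp0 : exM (ex.marked ⟨(0 : Fin 3), (2 : Fin 4)⟩) = 2 := rfl
  have hd0 : ((ex.bdrySq k (0 : Fin 3)).d (1 : Fin 3) (2 : Fin 3)).1 none = 0 := rfl
  have hd1 : ∀ p, ((ex.bdrySq k (0 : Fin 3)).d (1 : Fin 3) (2 : Fin 3)).1 (some p) =
      (open Classical in if p = ex.marked ⟨(0 : Fin 3), (2 : Fin 4)⟩ then (1 : k) else 0) :=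
    fun p => rfl
  refine x1b0_aux X _ _ _ ?_ ?_ ?_
  · intro f
    refine eb_hom_zero ?_ ?_ f
    · rw [hX]
      change x1 ≠ x2
      decide
    · rw [hX]
      change ∀ m, ¬ exBef m x1 x2
      decide
  · intro f hf
    have hs : ∀ p, f.1 (some p) = 0 := fun p => eb_end (hX.trans rfl) f p
    have h1 := congrArg (fun g : X ⟶ _ => g.1 (some (ex.marked ⟨(0 : Fin 3), (2 : Fin 4)⟩))) hf
    have h2 : (f ≫ (ex.bdrySq k (0 : Fin 3)).d (1 : Fin 3) (2 : Fin 3)).1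
        (some (ex.marked ⟨(0 : Fin 3), (2 : Fin 4)⟩)) = 0 := h1
    rw [BP.comp_some, hd0, hd1, if_pos rfl, hs] at h2
    apply BP.hom_ext
    rintro (_ | p)
    · rw [BP.zero_val]
      linear_combination h2
    · rw [BP.zero_val]
      exact hs p
  · intro f
    have hbef : exBef 2 X.arc x0 := by
      rw [hX]
      decide
    obtain ⟨h1, h2⟩ := eb_hom_coord (m := 2) (hbef) f
    refine ⟨⟨fun o => o.elim (f.1 (some (ex.marked ⟨(0 : Fin 3), (2 : Fin 4)⟩))) fun _ => 0,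
      fun _ => hX.trans rfl, fun p hp => absurd rfl hp⟩, ?_⟩
    apply BP.hom_ext
    rintro (_ | p)
    · rw [BP.comp_none]
      refine h1.trans ?_
      exact (mul_zero _).symm
    · rw [BP.comp_some]
      by_cases hp : p = ex.marked ⟨(0 : Fin 3), (2 : Fin 4)⟩
      · subst hp
        have h3 := hd1 (ex.marked ⟨(0 : Fin 3), (2 : Fin 4)⟩)
        rw [if_pos rfl] at h3
        refine Eq.trans ?_ (congrArg₂ (· + ·) (congrArg₂ (· + ·) (congrArg (_ * ·) h3.symm) rfl) rfl)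
        change _ = f.1 (some _) * 1 + 0 * _ + 0 * _
        ring
      · have h3 := hd1 p
        rw [if_neg hp] at h3
        refine Eq.trans ?_ (congrArg₂ (· + ·) (congrArg₂ (· + ·) (congrArg (_ * ·) h3.symm) rfl) rfl)
        change _ = f.1 (some _) * 0 + 0 * _ + 0 * _
        rw [h2 p fun h => hp (exM_injective (h.trans hp0.symm))]
        ring

end Pool.Agent.NG
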