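import Mathlib
import Pool.Agent.NG.DiskHom
import Pool.Agent.NG.HComm

/-!
# Homomorphisms from the naive algebra
-/

open CategoryTheory CategoryTheory.Limits

namespace Pool.Agent.NG

namespace ArcSystem

variable (S : ArcSystem) (k : Type) [Field k] [Finite k] (K : Type) [Field K] [CharZero K]

omit [CharZero K] in
private theorem gamma_surj {A B : Type*} [Semiring A] [Algebra K A] [Ring B] [Algebra K B]
    (C : Subalgebra K B) (s : Set B) (hC : C = Algebra.adjoin K s) (γ : A →ₐ[K] C)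
    (h : ∀ x ∈ s, ∃ a, (γ a : B) = x) : Function.Surjective γ := by
  have h1 : C ≤ γ.range.map C.val := by
    refine hC.le.trans ?_
    apply Algebra.adjoin_le
    intro x hx
    obtain ⟨a, ha⟩ := h x hx
    exact ⟨γ a, ⟨a, rfl⟩, ha⟩
  intro y
  obtain ⟨z, ⟨a, ha⟩, hz⟩ := h1 y.2
  refine ⟨a, ?_⟩
  apply Subtype.ext
  rw [← hz]
  exact congrArg Subtype.val ha

/- PROOF.  `RingQuot.liftAlgHom K` of `LinearAlgebra.FreeProduct.lift`. -/
/-- The universal property of the naive algebra. -/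
theorem exists_naive_hom {B : Type*} [Ring B] [Algebra K B]
    (ψ : ∀ D : S.Disk, S.DComp k K D →ₐ[K] B)
    (h1 : ∀ (D D' : S.Disk) (i : Fin (S.n D + 3)) (i' : Fin (S.n D' + 3)) (m : ℤ), D ≠ D' →
      S.side D i = S.side D' i' → ψ D (S.darc k K D i m) = ψ D' (S.darc k K D' i' m))
    (h3 : ∀ (D D' : S.Disk) (i : Fin (S.n D + 3)) (i' : Fin (S.n D' + 3)) (m m' : ℤ), D ≠ D' →
      Disjoint (S.ends D i) (S.ends D' i') →
      Commute (ψ D (S.darc k K D i m)) (ψ D' (S.darc k K D' i' m'))) :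
    ∃ ρ : S.Naive k K →ₐ[K] B, ∀ D i m, ρ (S.narc k K D i m) = ψ D (S.darc k K D i m) := by
  obtain ⟨F, hF⟩ : ∃ F : S.Free k K →ₐ[K] B, ∀ D i m,
      F (S.farc k K D i m) = ψ D (S.darc k K D i m) := by
    refine ⟨LinearAlgebra.FreeProduct.lift K (fun D : S.Disk => S.DComp k K D)
      (fun {D} => ψ D), fun D i m => ?_⟩
    have h := LinearAlgebra.FreeProduct.lift_comp_ι (R := K)
      (A := fun D : S.Disk => S.DComp k K D) (i := D) (maps := fun {D} => ψ D)
    exact congrArg (fun G : S.DComp k K D →ₐ[K] B => G (S.darc k K D i m)) h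
  have hrel : ∀ ⦃x y : S.Free k K⦄, Rel S k K x y → F x = F y := by
    intro x y hxy
    cases hxy with
    | g1 D D' i i' m hD h =>
      rw [hF, hF]
      exact h1 D D' i i' m hD h
    | g3 D D' i i' m m' hD h =>
      rw [map_mul, map_mul, hF, hF]
      exact h3 D D' i i' m m' hD h
  refine ⟨RingQuot.liftAlgHom K ⟨F, hrel⟩, fun D i m => ?_⟩
  unfold narc
  rw [RingQuot.liftAlgHom_mkAlgHom_apply, hF]

/- PROOF.  If `side D i = side D' i'` with `D ≠ D'` then `i ≠ 0`, `i' ≠ 0` (`bdry`), so both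
`sideSq` are `Sq.one` of the same object of `BP`. -/
theorem carc_eq_of_side_eq (D D' : S.Disk) (i : Fin (S.n D + 3)) (i' : Fin (S.n D' + 3)) (m : ℤ)
    (hD : D ≠ D') (h : S.side D i = S.side D' i') : S.carc k K D i m = S.carc k K D' i' m := by
  have hi : i ≠ 0 := by
    rintro rfl
    exact hD (S.bdry D D' i' h.symm).symm
  have hi' : i' ≠ 0 := by
    rintro rfl
    exact hD (S.bdry D' D i h)
  have hk : S.kept k D i hi = S.kept k D' i' hi' := by
    unfold kept
    congr 1
  have hs : S.sideSq k D i = S.sideSq k D' i' := by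
    unfold sideSq
    rw [dif_neg hi, dif_neg hi', hk]
  have ho : S.arcObj k D i = S.arcObj k D' i' := by
    unfold arcObj
    rw [hs]
  apply Subtype.ext
  exact congrArg (fun X : S.Fuk k => DHa.of K (X⟦m⟧)) ho

/- PROOF.  `exists_naive_hom` for the homomorphisms of `exists_disk_hom`; `h1` is
`carc_eq_of_side_eq`, `h3` is `orth_comm` with `Orth.shift` (`Disjoint` is symmetric, so `hG3` can be
used for `(D, D')` and for `(D', D)`).  Surjectivity: the range is a subalgebra containing the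
generators of `Comp` (`Algebra.adjoin_le`, e.g. in the form
`Algebra.adjoin_induction`/`AlgHom.range`). -/
/-- The comparison homomorphism. -/
theorem exists_gamma
    (hG3 : ∀ (D D' : S.Disk) (i : Fin (S.n D + 3)) (i' : Fin (S.n D' + 3)), D ≠ D' →
      Disjoint (S.ends D i) (S.ends D' i') → Orth (S.arcObj k D i) (S.arcObj k D' i')) :
    ∃ γ : S.Naive k K →ₐ[K] S.Comp k K,
      (∀ D i m, γ (S.narc k K D i m) = S.carc k K D i m) ∧ Function.Surjective γ := by
  choose φ hφ using S.exists_disk_hom k K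
  obtain ⟨γ, hγ⟩ := S.exists_naive_hom k K φ (fun D D' i i' m hD h => by
    rw [hφ, hφ]
    exact S.carc_eq_of_side_eq k K D D' i i' m hD h) (fun D D' i i' m m' hD h => by
    rw [hφ, hφ]
    apply Subtype.ext
    exact orth_comm K ((hG3 D D' i i' hD h).shift m m')
      ((hG3 D' D i' i hD.symm h.symm).shift m' m))
  have hγ' : ∀ D i m, γ (S.narc k K D i m) = S.carc k K D i m := by
    intro D i m
    rw [hγ, hφ]
  refine ⟨γ, hγ', ?_⟩
  refine gamma_surj K (S.Comp k K) {x | ∃ (D : S.Disk) (i : Fin (S.n D + 3)) (m : ℤ),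
    x = DHa.of K ((S.arcObj k D i)⟦m⟧)} rfl γ ?_
  rintro x ⟨D, i, m, rfl⟩
  exact ⟨S.narc k K D i m, congrArg Subtype.val (hγ' D i m)⟩

end ArcSystem

end Pool.Agent.NG
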