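import Mathlib
import Pool.Agent.NG.Tw
import Pool.Agent.NG.HComm

/-!
# Morphisms between one-term complexes
-/

open CategoryTheory CategoryTheory.Limits

namespace Pool.Agent.NG

universe v u

variable {𝒞 : Type u} [Category.{v} 𝒞] [Preadditive 𝒞]

private theorem st_isZero_term (s : Sq 𝒞) (i : ℤ) (h : ∀ j : Fin s.r, ((j : ℕ) : ℤ) ≠ i) :
    IsZero (s.term i) := by
  rw [IsZero.iff_id_eq_zero]
  apply Mat_.hom_ext
  intro j
  exact absurd j.2 (h j.1)

private theorem st_isZero_one (X : 𝒞) (i : ℤ) (h : i ≠ 0) : IsZero ((Sq.one X).term i) := by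
  apply st_isZero_term
  intro j hj
  have : (j : ℕ) < 1 := j.2
  omega

/- PROOF.  `(Sq.one X).cx` has only one nonzero term, in degree `0`.  A morphism
`(Sq.one X).obj ⟶ (Sq.one Y).obj⟦n⟧` of `KB` is represented by a chain map
`(Sq.one X).cx ⟶ (Sq.one Y).cx⟦n⟧`; its component of degree `i` goes from a zero object unless
`i = 0`, and into `(Sq.one Y).cx.X (0 + n)`, a zero object, if `i = 0`. -/
theorem one_hom_eq_zero (X Y : 𝒞) {n : ℤ} (hn : n ≠ 0)
    (f : (Sq.one X).obj ⟶ (Sq.one Y).obj⟦n⟧) : f = 0 := by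
  have h1 : ∀ g : (HomotopyCategory.quotient (Mat_ 𝒞) (ComplexShape.up ℤ)).obj (Sq.one X).cx ⟶
      ((HomotopyCategory.quotient (Mat_ 𝒞) (ComplexShape.up ℤ)).obj (Sq.one Y).cx)⟦n⟧, g = 0 := by
    intro g
    obtain ⟨g', hg'⟩ := (HomotopyCategory.quotient (Mat_ 𝒞) (ComplexShape.up ℤ)).map_surjective
      (g ≫ ((HomotopyCategory.quotient (Mat_ 𝒞) (ComplexShape.up ℤ)).commShiftIso n).inv.app
        (Sq.one Y).cx)
    have h2 : g' = 0 := by
      ext i : 1
      by_cases hi : i = 0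
      · subst hi
        have hz : IsZero ((((Sq.one Y).cx)⟦n⟧).X 0) := by
          change IsZero ((Sq.one Y).term (0 + n))
          exact st_isZero_one Y _ (by omega)
        exact hz.eq_of_tgt _ _
      · exact (st_isZero_one X i hi).eq_of_src _ _
    rw [h2, Functor.map_zero] at hg'
    have h3 := congrArg (fun t => t ≫
      ((HomotopyCategory.quotient (Mat_ 𝒞) (ComplexShape.up ℤ)).commShiftIso n).hom.app
        (Sq.one Y).cx) hg'
    simpa using h3.symm
  have h3 : (bdd (Mat_ 𝒞)).ι.map f ≫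
      ((bdd (Mat_ 𝒞)).ι.commShiftIso n).hom.app (Sq.one Y).obj = 0 := h1 _
  have h4 : (bdd (Mat_ 𝒞)).ι.map f = 0 := by
    have h5 := congrArg (fun t => t ≫
      ((bdd (Mat_ 𝒞)).ι.commShiftIso n).inv.app (Sq.one Y).obj) h3
    simpa using h5
  apply (bdd (Mat_ 𝒞)).ι.map_injective
  rw [h4, Functor.map_zero]

/-- The chain map given by a morphism. -/
private noncomputable def stMap {X Y : 𝒞} (u : X ⟶ Y) : (Sq.one X).cx ⟶ (Sq.one Y).cx where
  f i := fun _ _ => u
  comm' i i' _ := by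
    have h1 : (Sq.one X).cx.d i i' = 0 := by
      funext j j'
      change (if i + 1 = i' then (0 : X ⟶ X) else 0) = 0
      exact ite_self 0
    have h2 : (Sq.one Y).cx.d i i' = 0 := by
      funext j j'
      change (if i + 1 = i' then (0 : Y ⟶ Y) else 0) = 0
      exact ite_self 0
    rw [h1, h2, Limits.comp_zero, Limits.zero_comp]

private theorem stMap_of_homotopy {X Y : 𝒞} {u v : X ⟶ Y} (h : Homotopy (stMap u) (stMap v)) :
    u = v := by
  have h0 := h.comm 0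
  have hd : dNext 0 h.hom = 0 := by
    rw [dNext_eq h.hom (show (ComplexShape.up ℤ).Rel 0 1 from rfl)]
    have : h.hom 1 0 = 0 := (st_isZero_one X 1 (by decide)).eq_of_src _ _
    rw [this, Limits.comp_zero]
  have hp : prevD 0 h.hom = 0 := by
    rw [prevD_eq h.hom (show (ComplexShape.up ℤ).Rel (-1) 0 from rfl)]
    have : h.hom 0 (-1) = 0 := (st_isZero_one Y (-1) (by decide)).eq_of_tgt _ _
    rw [this, Limits.zero_comp]
  rw [hd, hp, zero_add, zero_add] at h0
  exact congrFun (congrFun h0 ⟨⟨0, Nat.one_pos⟩, rfl⟩) ⟨⟨0, Nat.one_pos⟩, rfl⟩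

private theorem stMap_surj {X Y : 𝒞} (g : (Sq.one X).cx ⟶ (Sq.one Y).cx) :
    ∃ u : X ⟶ Y, stMap u = g := by
  refine ⟨g.f 0 ⟨⟨0, Nat.one_pos⟩, rfl⟩ ⟨⟨0, Nat.one_pos⟩, rfl⟩, ?_⟩
  ext i : 1
  by_cases hi : i = 0
  · subst hi
    funext j j'
    have hj : j = ⟨⟨0, Nat.one_pos⟩, rfl⟩ := by
      apply Subtype.ext
      exact Subsingleton.elim (α := Fin 1) _ _
    have hj' : j' = ⟨⟨0, Nat.one_pos⟩, rfl⟩ := by
      apply Subtype.ext
      exact Subsingleton.elim (α := Fin 1) _ _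
    rw [hj, hj']
    rfl
  · exact (st_isZero_one X i hi).eq_of_src _ _

/- PROOF.  A chain map `(Sq.one X).cx ⟶ (Sq.one Y).cx` is given by its component of degree `0`, a
`1 × 1` matrix with entry in `X ⟶ Y`; all homotopies vanish (the terms of degree `±1` are
zero). -/
theorem card_one_hom (X Y : 𝒞) :
    Nat.card ((Sq.one X).obj ⟶ (Sq.one Y).obj) = Nat.card (X ⟶ Y) := by
  symm
  apply Nat.card_eq_of_bijective (fun u : X ⟶ Y =>
    (ObjectProperty.homMk ((HomotopyCategory.quotient (Mat_ 𝒞) (ComplexShape.up ℤ)).map (stMap u)) :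
      (Sq.one X).obj ⟶ (Sq.one Y).obj))
  constructor
  · intro u v huv
    have h1 : (HomotopyCategory.quotient (Mat_ 𝒞) (ComplexShape.up ℤ)).map (stMap u) =
        (HomotopyCategory.quotient (Mat_ 𝒞) (ComplexShape.up ℤ)).map (stMap v) :=
      congrArg (fun t => (bdd (Mat_ 𝒞)).ι.map t) huv
    exact stMap_of_homotopy (HomotopyCategory.homotopyOfEq _ _ h1)
  · intro f
    obtain ⟨g, hg⟩ := (HomotopyCategory.quotient (Mat_ 𝒞) (ComplexShape.up ℤ)).map_surjective
      (X := (Sq.one X).cx) (Y := (Sq.one Y).cx) f.hom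
    obtain ⟨u, rfl⟩ := stMap_surj g
    refine ⟨u, ?_⟩
    ext
    exact hg

/- PROOF.  `one_hom_eq_zero` for `n ≠ 0`; for `n = 0` compose with `Y⟦0⟧ ≅ Y` and use
`card_one_hom` (or argue directly: the single component is zero). -/
theorem one_orth (X Y : 𝒞) (h : ∀ f : X ⟶ Y, f = 0) : Orth (Sq.one X).obj (Sq.one Y).obj := by
  intro n f
  by_cases hn : n = 0
  · subst hn
    have h1 : Nat.card ((Sq.one X).obj ⟶ (Sq.one Y).obj) = 1 := by
      rw [card_one_hom, Nat.card_eq_one_iff_unique]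
      exact ⟨⟨fun a b => (h a).trans (h b).symm⟩, ⟨0⟩⟩
    have h2 := (Nat.card_eq_one_iff_unique.mp h1).1
    have h3 : f ≫ (shiftFunctorZero (KB (Mat_ 𝒞)) ℤ).hom.app (Sq.one Y).obj = 0 :=
      h2.elim _ _
    have h4 : (f ≫ (shiftFunctorZero (KB (Mat_ 𝒞)) ℤ).hom.app (Sq.one Y).obj) ≫
        (shiftFunctorZero (KB (Mat_ 𝒞)) ℤ).inv.app (Sq.one Y).obj = 0 := by
      rw [h3]
      exact Limits.zero_comp
    simpa using h4
  · exact one_hom_eq_zero X Y hn f

/- PROOF.  `eul_of_degree_zero`, `one_hom_eq_zero`, `card_one_hom`. -/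
theorem eul_one (h𝒞 : ∀ X Y : 𝒞, Finite (X ⟶ Y)) (X Y : 𝒞) :
    eul (Sq.one X).obj (Sq.one Y).obj = (Nat.card (X ⟶ Y) : ℚ) := by
  rw [eul, finprod_eq_single _ (0 : ℤ)]
  · rw [hn_zero, card_one_hom, alt, if_pos (by decide)]
  · intro n hn0
    have h1 : hn (Sq.one X).obj (Sq.one Y).obj n = 1 := by
      have h2 : Nat.card ((Sq.one X).obj ⟶ (Sq.one Y).obj⟦n⟧) = 1 := by
        rw [Nat.card_eq_one_iff_unique]
        exact ⟨⟨fun a b => (one_hom_eq_zero X Y hn0 a).trans (one_hom_eq_zero X Y hn0 b).symm⟩, ⟨0⟩⟩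
      rw [hn, h2]
      rfl
    rw [h1, alt_one]

end Pool.Agent.NG
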