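import Mathlib
import Pool.Agent.NG.Gamma
import Pool.Agent.NG.Stalk
import Pool.Agent.NG.ExOrthB0X1
import Pool.Agent.NG.ExOrthX1B0
import Pool.Agent.NG.ExOrthB1X3
import Pool.Agent.NG.ExOrthX3B1
import Pool.Agent.NG.ExOrthB0B1
import Pool.Agent.NG.ExOrthB1B0

/-!
# The comparison homomorphism of the example
-/

open CategoryTheory CategoryTheory.Limits

namespace Pool.Agent.NG

open A8

variable (k : Type) [Field k] [Finite k] (K : Type) [Field K] [CharZero K]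

/- PROOF.  `one_orth` with `eb_hom_zero` (decide). -/
theorem orth_kept (X Y : EB k) (h1 : X.arc ≠ Y.arc) (h2 : ∀ m, ¬ exBef m X.arc Y.arc) :
    Orth (Sq.one X).obj (Sq.one Y).obj :=
  one_orth X Y fun f => eb_hom_zero h1 h2 f

omit [Finite k] in
private theorem exg_zero (D : Fin 3) :
    ex.arcObj k (D : ex.Disk) (0 : Fin 4) = (ex.bdrySq k (D : ex.Disk)).obj := by
  unfold ArcSystem.arcObj ArcSystem.sideSq
  exact congrArg Sq.obj (dif_pos rfl)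

omit [Finite k] in
private theorem exg_ne (D : Fin 3) (i : Fin 4) (h : i ≠ 0) :
    ∃ X : EB k, X.arc = exSide D i ∧ ex.arcObj k (D : ex.Disk) i = (Sq.one X).obj := by
  refine ⟨ex.kept k (D : ex.Disk) i h, rfl, ?_⟩
  unfold ArcSystem.arcObj ArcSystem.sideSq
  exact congrArg Sq.obj (dif_neg h)

private theorem exg_kept (D D' : Fin 3) (i i' : Fin 4) (hi : i ≠ 0) (hi' : i' ≠ 0)
    (h1 : exSide D i ≠ exSide D' i') (h2 : ∀ m, ¬ exBef m (exSide D i) (exSide D' i')) :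
    Orth (ex.arcObj k (D : ex.Disk) i) (ex.arcObj k (D' : ex.Disk) i') := by
  obtain ⟨X, hX, eX⟩ := exg_ne k D i hi
  obtain ⟨Y, hY, eY⟩ := exg_ne k D' i' hi'
  rw [eX, eY]
  refine orth_kept k X Y ?_ ?_
  · rw [hX, hY]
    exact h1
  · rw [hX, hY]
    exact h2

private theorem exg_cases_ne : ∀ (D D' : Fin 3) (i i' : Fin 4), exFar D D' i i' → i ≠ 0 →
    i' ≠ 0 → exSide D i ≠ exSide D' i' ∧ ∀ m, ¬ exBef m (exSide D i) (exSide D' i') := by
  decide +kernel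

private theorem exg_cases_zero : ∀ (D D' : Fin 3) (i i' : Fin 4), exFar D D' i i' →
    (i = 0 ∨ i' = 0) → (D, i, D', i') ∈ [((0 : Fin 3), (0 : Fin 4), (1 : Fin 3), (0 : Fin 4)),
      (1, 0, 0, 0), (0, 0, 2, 1), (2, 1, 0, 0), (1, 0, 2, 3), (2, 3, 1, 0)] := by
  decide +kernel

private theorem exg_cases (D D' : Fin 3) (i i' : Fin 4) (h : exFar D D' i i') :
    (D = 0 ∧ i = 0 ∧ D' = 1 ∧ i' = 0) ∨ (D = 1 ∧ i = 0 ∧ D' = 0 ∧ i' = 0) ∨
    (D = 0 ∧ i = 0 ∧ D' = 2 ∧ i' = 1) ∨ (D = 2 ∧ i = 1 ∧ D' = 0 ∧ i' = 0) ∨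
    (D = 1 ∧ i = 0 ∧ D' = 2 ∧ i' = 3) ∨ (D = 2 ∧ i = 3 ∧ D' = 1 ∧ i' = 0) ∨
    (i ≠ 0 ∧ i' ≠ 0 ∧ exSide D i ≠ exSide D' i' ∧
      ∀ m, ¬ exBef m (exSide D i) (exSide D' i')) := by
  by_cases h1 : i = 0 ∨ i' = 0
  · have h2 := exg_cases_zero D D' i i' h h1
    simp only [List.mem_cons, Prod.mk.injEq, List.not_mem_nil, or_false] at h2
    tauto
  · push Not at h1
    exact Or.inr (Or.inr (Or.inr (Or.inr (Or.inr (Or.inr
      ⟨h1.1, h1.2, exg_cases_ne D D' i i' h h1.1 h1.2⟩)))))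

/- PROOF.  By `ex_far_iff` and `exFar_list` the pair of arcs is one of ten pairs; more precisely, by
deciding over all `D, D', i, i'`, `(D, i, D', i')` is one of the following (and their
swaps): `b0 = (0,0)` with `x1 = (2,1)`; `b0 = (0,0)` with `b1 = (1,0)`; `b1 = (1,0)` with
`x3 = (2,3)`; `x1 ∈ {(0,2), (2,1)}` with `x3 ∈ {(1,2), (2,3)}` in another disk;
`x0 = (0,3)` with `x2 = (1,1)`; `x2 = (0,1)` with `x0 = (1,3)`.
`ex.arcObj k D i` is by definition `(ex.bdrySq k D).obj` if `i = 0` and `(Sq.one _).obj` if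
`i ≠ 0` (`sideSq`, `dif_pos`, `dif_neg`).  Use the six theorems `orth_b0_x1`, ... and
`orth_kept`. -/
theorem ex_orth (D D' : Fin 3) (i i' : Fin 4) (h : exFar D D' i i') :
    Orth (ex.arcObj k (D : ex.Disk) i) (ex.arcObj k (D' : ex.Disk) i') := by
  rcases exg_cases D D' i i' h with ⟨rfl, rfl, rfl, rfl⟩ | ⟨rfl, rfl, rfl, rfl⟩ |
    ⟨rfl, rfl, rfl, rfl⟩ | ⟨rfl, rfl, rfl, rfl⟩ | ⟨rfl, rfl, rfl, rfl⟩ | ⟨rfl, rfl, rfl, rfl⟩ |
    ⟨h1, h2, h3, h4⟩
  · rw [exg_zero, exg_zero]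
    exact orth_b0_b1
  · rw [exg_zero, exg_zero]
    exact orth_b1_b0
  · obtain ⟨X, hX, eX⟩ := exg_ne k 2 1 (by decide)
    rw [exg_zero, eX]
    exact orth_b0_x1 X hX
  · obtain ⟨X, hX, eX⟩ := exg_ne k 2 1 (by decide)
    rw [exg_zero, eX]
    exact orth_x1_b0 X hX
  · obtain ⟨X, hX, eX⟩ := exg_ne k 2 3 (by decide)
    rw [exg_zero, eX]
    exact orth_b1_x3 X hX
  · obtain ⟨X, hX, eX⟩ := exg_ne k 2 3 (by decide)
    rw [exg_zero, eX]
    exact orth_x3_b1 X hX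
  · exact exg_kept k D D' i i' h1 h2 h3 h4

/- PROOF.  `exists_gamma`, `ex_far_iff`, `ex_orth`. -/
theorem ex_exists_gamma :
    ∃ γ : ex.Naive k K →ₐ[K] ex.Comp k K,
      (∀ D i m, γ (ex.narc k K D i m) = ex.carc k K D i m) ∧ Function.Surjective γ :=
  ex.exists_gamma k K fun D D' i i' hD h =>
    ex_orth k D D' i i' ((ex_far_iff D D' i i').1 ⟨hD, h⟩)

private theorem exg_symm : ∀ (D D' : Fin 3) (i i' : Fin 4), exFar D D' i i' →
    exFar D' D i' i := by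
  decide +kernel

/- PROOF.  `orth_comm`, `Orth.shift`, `ex_orth` (for `h` and for the swapped pair, which is far as
well), on the level of the subalgebra. -/
theorem ex_carc_comm (D D' : Fin 3) (i i' : Fin 4) (m m' : ℤ) (h : exFar D D' i i') :
    Commute (ex.carc k K (D : ex.Disk) i m) (ex.carc k K (D' : ex.Disk) i' m') :=
  Subtype.ext (orth_comm K ((ex_orth k D D' i i' h).shift m m')
    ((ex_orth k D' D i' i (exg_symm D D' i i' h)).shift m' m))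

private theorem exg_carc (D : Fin 3) (i : Fin 4) :
    (ex.carc k K (D : ex.Disk) i 0).1 = DHa.of K (ex.arcObj k (D : ex.Disk) i) :=
  DHa.of_congr K ((shiftFunctorZero (ex.Fuk k) ℤ).app _)

/- PROOF.  `x2 = side 0 1` and `b3 = side 2 2` are kept arcs, so the objects are
`(Sq.one _).obj`, and `Hom(X, Y⟦1⟧) = 0` by `one_hom_eq_zero`; apply `exists_skew_comm` (after
replacing `X⟦0⟧` by `X`: `DHa.of_congr`). -/
/-- The arcs `x2` and `b3` commute up to a scalar in the composition algebra. -/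
theorem ex_skew :
    ∃ a : K, ex.carc k K (0 : Fin 3) (1 : Fin 4) 0 * ex.carc k K (2 : Fin 3) (2 : Fin 4) 0 =
      a • (ex.carc k K (2 : Fin 3) (2 : Fin 4) 0 * ex.carc k K (0 : Fin 3) (1 : Fin 4) 0) := by
  obtain ⟨X, -, eX⟩ := exg_ne k 0 1 (by decide)
  obtain ⟨Y, -, eY⟩ := exg_ne k 2 2 (by decide)
  have hX := exg_carc k K 0 1
  have hY := exg_carc k K 2 2
  rw [eX] at hX
  rw [eY] at hY
  obtain ⟨a, ha⟩ := exists_skew_comm K (X := (Sq.one X).obj) (Y := (Sq.one Y).obj)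
    (fun f => one_hom_eq_zero Y X one_ne_zero f) (fun f => one_hom_eq_zero X Y one_ne_zero f)
  refine ⟨a, Subtype.ext ?_⟩
  rw [← hX, ← hY] at ha
  exact ha

/- PROOF.  `of_mul_of_ne_zero`. -/
theorem ex_mul_ne_zero :
    ex.carc k K (0 : Fin 3) (1 : Fin 4) 0 * ex.carc k K (2 : Fin 3) (2 : Fin 4) 0 ≠ 0 :=
  fun h => of_mul_of_ne_zero K _ _ (congrArg Subtype.val h)

end Pool.Agent.NG
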