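import Mathlib
import Pool.Agent.NG.Hall

/-!
# The automorphisms of the derived Hall algebra given by characters of the Grothendieck group
-/

open CategoryTheory CategoryTheory.Limits CategoryTheory.Pretriangulated ZeroObject

namespace Pool.Agent.NG

universe v u w

variable {C : Type u} [Category.{v} C] [Preadditive C] [HasZeroObject C] [HasShift C ℤ]
  [∀ n : ℤ, (shiftFunctor C n).Additive] [Pretriangulated C] [Finitary C] [IsTriangulated C]

/- PROOF.  `StrConst.exists_hom` for `v x = (χ x.out : K) • b x`; multiplicativity: the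
coordinate of `b x * b y` at `z` is nonzero only if there is a distinguished triangle
`x.out → z.out → y.out → x.out⟦1⟧`, and then `χ z.out = χ x.out * χ y.out`.  `χ 0 = 1` because the
triangle `0 → 0 → 0` is distinguished and `χ 0 ≠ 0`. -/
/-- A function `χ` on objects, multiplicative on distinguished triangles, gives an endomorphism of
the derived Hall algebra. -/
theorem exists_char (K : Type w) [Field K] [CharZero K] (χ : C → ℚ)
    (hpos : ∀ X, 0 < χ X)
    (hχ : ∀ {A B D : C} (u : A ⟶ B) (v : B ⟶ D) (w : D ⟶ A⟦(1 : ℤ)⟧),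
      Triangle.mk u v w ∈ distTriang C → χ B = χ A * χ D) :
    ∃ τ : DHa C K →ₐ[K] DHa C K, ∀ X : C, τ (DHa.of K X) = (χ X : K) • DHa.of K X := by
  classical
  have h0 : χ (0 : C) = 1 := by
    have h := hχ _ _ _ (contractible_distinguished (0 : C))
    have hp := hpos (0 : C)
    have h' : χ (0 : C) * 1 = χ (0 : C) * χ (0 : C) := by rw [mul_one]; exact h
    exact (mul_left_cancel₀ hp.ne' h').symm
  have hiso : ∀ {X Y : C}, (X ≅ Y) → χ X = χ Y := by
    intro X Y e
    have h : Triangle.mk e.hom (0 : Y ⟶ 0) (0 : (0 : C) ⟶ X⟦(1 : ℤ)⟧) ∈ distTriang C := by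
      refine isomorphic_distinguished _ (contractible_distinguished X) _ ?_
      refine Triangle.isoMk _ _ (Iso.refl X) e.symm (Iso.refl _) ?_ ?_ ?_
      · change e.hom ≫ e.inv = 𝟙 X ≫ 𝟙 X
        rw [e.hom_inv_id, Category.comp_id]
      · change (0 : Y ⟶ 0) ≫ 𝟙 (0 : C) = e.inv ≫ (0 : X ⟶ 0)
        rw [zero_comp, comp_zero]
      · change (0 : (0 : C) ⟶ X⟦(1 : ℤ)⟧) ≫ (𝟙 X)⟦(1 : ℤ)⟧' = 𝟙 (0 : C) ≫ 0
        rw [zero_comp, comp_zero]
    have := hχ _ _ _ h
    rw [h0, mul_one] at this
    exact this.symm
  have hout : ∀ X : C, χ (cls X).out = χ X := by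
    intro X
    obtain ⟨e⟩ := Quotient.exact (Quotient.out_eq (cls X))
    exact hiso e
  obtain ⟨τ, hτ⟩ := (hallConst C K).exists_hom (A := DHa C K)
    (fun x => (χ x.out : K) • (hallConst C K).b x) (by
      have h1 : χ (hallConst C K).e.out = 1 := by
        change χ (cls (0 : C)).out = 1
        rw [hout, h0]
      change (χ (hallConst C K).e.out : K) • (hallConst C K).b (hallConst C K).e = 1
      rw [h1, Rat.cast_one, one_smul, StrConst.one_def]) (by
      intro x y
      change ((χ x.out : K) • (hallConst C K).b x) * ((χ y.out : K) • (hallConst C K).b y) = _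
      rw [smul_mul_smul_comm, StrConst.b_mul_b]
      have key : ∀ z ∈ ((hallConst C K).c x y).support, χ z.out = χ x.out * χ y.out := by
        intro z hz
        rw [Finsupp.mem_support_iff] at hz
        have hz' : ((eul y.out x.out * toen x.out y.out z.out : ℚ) : K) ≠ 0 := hz
        have ht : toen x.out y.out z.out ≠ 0 := by
          intro h
          rw [h, mul_zero, Rat.cast_zero] at hz'
          exact hz' rfl
        rw [toen_ne_zero_iff] at ht
        obtain ⟨f, g, h, hT⟩ := ht
        exact hχ _ _ _ hT
      have h1 : (((hallConst C K).c x y).sum fun z a => a • (χ z.out : K) • (hallConst C K).b z)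
          = ∑ z ∈ ((hallConst C K).c x y).support,
            ((χ x.out : K) * (χ y.out : K)) • ((hallConst C K).c x y z •
              (hallConst C K).b z) := by
        unfold Finsupp.sum
        apply Finset.sum_congr rfl
        intro z hz
        simp only []
        rw [key z hz, Rat.cast_mul, smul_comm]
      rw [h1, ← Finset.smul_sum]
      congr 1
      have h2 : ((hallConst C K).c x y : Cls C →₀ K) =
          ∑ z ∈ ((hallConst C K).c x y).support,
            ((hallConst C K).c x y z) • (Finsupp.single z 1 : Cls C →₀ K) := by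
        conv_lhs => rw [← Finsupp.sum_single ((hallConst C K).c x y)]
        unfold Finsupp.sum
        apply Finset.sum_congr rfl
        intro z _
        rw [Finsupp.smul_single, smul_eq_mul, mul_one]
      exact h2)
  refine ⟨τ, fun X => ?_⟩
  change τ ((hallConst C K).b (cls X)) = (χ X : K) • (hallConst C K).b (cls X)
  rw [hτ, hout]

end Pool.Agent.NG
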