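import Mathlib
import Pool.Agent.NG.DiskF
import Pool.Agent.NG.Stalk

/-!
# The Euler form between the kept sides of a polygon
-/

open CategoryTheory CategoryTheory.Limits

namespace Pool.Agent.NG

namespace ArcSystem

variable (k : Type) [Field k] [Finite k]

omit [Finite k] in
private theorem pe_before (n : ℕ) {i j : Fin (n + 3)} {f : Option (polygon n).Marked → k}
    (hf : f ∈ BP.homSub (polygon n).toGluing k i j) (p : (polygon n).Marked)
    (hp : f (some p) ≠ 0) : p = (polygon n).marked ⟨(), i⟩ ∧ j = i + 1 :=
  (polygon_before_iff n p i j).1 (hf.2 p hp)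

private theorem pe_ne (n : ℕ) (i : Fin (n + 3)) : i ≠ i + 1 := by
  intro h
  have h1 : (0 : Fin (n + 3)) = 1 := add_left_cancel (a := i) (by simp at h)
  have h2 := congrArg Fin.val h1
  simp at h2

omit [Finite k] in
private theorem pe_card_eq (n : ℕ) (i : Fin (n + 3)) :
    Nat.card (BP.homSub (polygon n).toGluing k i i) = Nat.card k := by
  refine Nat.card_congr (Equiv.ofBijective (fun f => f.1 none) ⟨fun f g h => ?_, fun x => ?_⟩)
  · apply Subtype.ext
    funext o
    rcases o with _ | p
    · exact h
    · have h1 : ∀ f : BP.homSub (polygon n).toGluing k i i, f.1 (some p) = 0 := fun f => by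
        by_contra h2
        exact pe_ne n i (pe_before k n f.2 p h2).2
      rw [h1 f, h1 g]
  · exact ⟨⟨fun o => o.elim x fun _ => 0, fun _ => rfl, fun _ h => absurd rfl h⟩, rfl⟩

omit [Finite k] in
private theorem pe_card_succ (n : ℕ) (i : Fin (n + 3)) :
    Nat.card (BP.homSub (polygon n).toGluing k i (i + 1)) = Nat.card k := by
  classical
  refine Nat.card_congr (Equiv.ofBijective
    (fun f => f.1 (some ((polygon n).marked ⟨(), i⟩))) ⟨fun f g h => ?_, fun x => ?_⟩)
  · apply Subtype.ext
    funext o
    rcases o with _ | p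
    · have h1 : ∀ f : BP.homSub (polygon n).toGluing k i (i + 1), f.1 none = 0 := fun f => by
        by_contra h2
        exact pe_ne n i (f.2.1 h2)
      rw [h1 f, h1 g]
    · by_cases hp : p = (polygon n).marked ⟨(), i⟩
      · rw [hp]
        exact h
      · have h1 : ∀ f : BP.homSub (polygon n).toGluing k i (i + 1), f.1 (some p) = 0 :=
          fun f => by
            by_contra h2
            exact hp (pe_before k n f.2 p h2).1
        rw [h1 f, h1 g]
  · refine ⟨⟨fun o => o.elim 0 fun p => if p = (polygon n).marked ⟨(), i⟩ then x else 0,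
      fun h => absurd rfl h, fun p h => ?_⟩, ?_⟩
    · have h1 : p = (polygon n).marked ⟨(), i⟩ := by
        by_contra h2
        exact h (if_neg h2)
      exact (polygon_before_iff n p i (i + 1)).2 ⟨h1, rfl⟩
    · exact if_pos rfl

omit [Finite k] in
private theorem pe_card_one (n : ℕ) (i j : Fin (n + 3)) (h1 : i ≠ j) (h2 : j ≠ i + 1) :
    Nat.card (BP.homSub (polygon n).toGluing k i j) = 1 := by
  rw [Nat.card_eq_one_iff_unique]
  refine ⟨⟨fun f g => ?_⟩, ⟨0⟩⟩
  have h3 : ∀ f : BP.homSub (polygon n).toGluing k i j, ∀ o, f.1 o = 0 := fun f o => by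
    rcases o with _ | p
    · by_contra h4
      exact h1 (f.2.1 h4)
    · by_contra h4
      exact h2 (pe_before k n f.2 p h4).2
  apply Subtype.ext
  funext o
  rw [h3 f, h3 g]

/- PROOF.  A morphism `i ⟶ j` is a function on `Option Marked`; by `polygon_before_iff` the
coordinate `some p` can be nonzero only if `j = i + 1` and `p` is the marked interval of the corner
`⟨(), i⟩`; the coordinate `none` only if `i = j` (and then `j ≠ i + 1`, as `1 ≠ 0` in
`Fin (n + 3)`).  So the space of morphisms is in bijection with `k` (one free coordinate) or has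
only the element `0`. -/
theorem poly_card (n : ℕ) (i j : Fin (n + 3)) (hi : i ≠ 0) (hj : j ≠ 0) :
    Nat.card ((polygon n).kept k () i hi ⟶ (polygon n).kept k () j hj) =
      if i = j ∨ j = i + 1 then Nat.card k else 1 := by
  change Nat.card (BP.homSub (polygon n).toGluing k i j) = _
  split_ifs with h
  · rcases h with rfl | rfl
    · exact pe_card_eq k n i
    · exact pe_card_succ k n i
  · rw [not_or] at h
    exact pe_card_one k n i j h.1 h.2

/- PROOF.  `sideSq` of a side `i ≠ 0` is `Sq.one (kept i)`; use `eul_one` and `poly_card`. -/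
theorem poly_eul (n : ℕ) (i j : Fin (n + 3)) (hi : i ≠ 0) (hj : j ≠ 0) :
    eul ((polygon n).arcObj k () i) ((polygon n).arcObj k () j) =
      if i = j ∨ j = i + 1 then (Nat.card k : ℚ) else 1 := by
  have e : ∀ (l : Fin (n + 3)) (hl : l ≠ 0),
      (polygon n).arcObj k () l = (Sq.one ((polygon n).kept k () l hl)).obj := fun l hl => by
    exact congrArg Sq.obj (dif_neg (c := l = 0) (t := fun _ => (polygon n).bdrySq k ())
      (e := fun h => Sq.one ((polygon n).kept k () l h)) hl)
  rw [e i hi, e j hj, eul_one ((polygon n).finite_hom k), poly_card]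
  split_ifs <;> simp

end ArcSystem

end Pool.Agent.NG
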