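import Mathlib
import Pool.Agent.NG.PolyEul
import Pool.Agent.NG.HChar
import Pool.Agent.NG.EulAddL

/-!
# Two endomorphisms of the composition algebra of the quadrilateral
-/

open CategoryTheory CategoryTheory.Limits

namespace Pool.Agent.NG

namespace ArcSystem

variable (k : Type) [Field k] [Finite k] (K : Type) [Field K] [CharZero K]

/- PROOF.  `exists_char` gives an endomorphism `τ` of the derived Hall algebra; it maps each generator
of the subalgebra `Comp` to a multiple of itself, so it maps `Comp` to itself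
(`AlgHom.map_adjoin`); restrict. -/
theorem exists_dchar (S : ArcSystem) (χ : S.Fuk k → ℚ) (hpos : ∀ X, 0 < χ X)
    (hχ : ∀ {A B D : S.Fuk k} (u : A ⟶ B) (v : B ⟶ D) (w : D ⟶ A⟦(1 : ℤ)⟧),
      Pretriangulated.Triangle.mk u v w ∈ Pretriangulated.distinguishedTriangles →
        χ B = χ A * χ D) :
    ∃ τ : S.Comp k K →ₐ[K] S.Comp k K, ∀ D i m,
      τ (S.carc k K D i m) = ((χ ((S.arcObj k D i)⟦m⟧) : ℚ) : K) • S.carc k K D i m := by
  obtain ⟨τ₀, hτ₀⟩ := exists_char (C := S.Fuk k) K χ hpos hχ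
  have hmem : ∀ x : S.Comp k K, τ₀ (x : DHa (S.Fuk k) K) ∈ S.Comp k K := by
    rintro ⟨x, hx⟩
    change τ₀ x ∈ S.Comp k K
    refine Algebra.adjoin_induction (p := fun x _ => τ₀ x ∈ S.Comp k K) ?_ ?_ ?_ ?_ hx
    · rintro x ⟨D, i, m, rfl⟩
      rw [hτ₀]
      exact (S.Comp k K).smul_mem (Algebra.subset_adjoin ⟨D, i, m, rfl⟩) _
    · intro r
      rw [AlgHom.commutes]
      exact (S.Comp k K).algebraMap_mem r
    · intro x y _ _ hx hy
      rw [map_add]
      exact (S.Comp k K).add_mem hx hy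
    · intro x y _ _ hx hy
      rw [map_mul]
      exact (S.Comp k K).mul_mem hx hy
  refine ⟨(τ₀.comp (S.Comp k K).val).codRestrict (S.Comp k K) hmem, ?_⟩
  intro D i m
  apply Subtype.ext
  exact hτ₀ _

theorem Tau_alt_mul_div (m : ℤ) (x y : ℚ) : alt m (x / y) = alt m x / alt m y := by
  unfold alt
  split_ifs
  · rfl
  · rw [inv_div, div_eq_mul_inv, div_eq_mul_inv, inv_inv, mul_comm]

/- PROOF.  `exists_dchar` for `χ X = eul X (arcObj () 1)` (`eul_pos`, `eul_add_left`),
`c i m = χ (arcObj () i ⟦m⟧) = alt m (eul (arcObj () i) (arcObj () 1))` (`eul_shift_left`); by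
`poly_eul` (`1 ≠ 2 + 1`, `1 ≠ 3 + 1 = 0` in `Fin 4`):
`eul (arcObj 1) (arcObj 1) = |k|`, `eul (arcObj 2) (arcObj 1) = 1 = eul (arcObj 3) (arcObj 1)`. -/
/-- An endomorphism scaling every arc, fixing the sides `2` and `3`, not fixing the side `1`. -/
theorem exists_tau01 :
    ∃ (τ : (polygon 1).Comp k K →ₐ[K] (polygon 1).Comp k K) (c : Fin 4 → ℤ → K),
      (∀ (i : Fin 4) (m : ℤ),
        τ ((polygon 1).carc k K () i m) = c i m • (polygon 1).carc k K () i m) ∧
      (∀ m, c 2 m = 1) ∧ (∀ m, c 3 m = 1) ∧ c 1 0 = (Nat.card k : K) := by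
  obtain ⟨τ, hτ⟩ := exists_dchar k K (polygon 1)
    (fun X => eul X ((polygon 1).arcObj k () (1 : Fin 4))) (fun X => eul_pos _ _)
    (fun u v w h => eul_add_left u v w h _)
  have h1 : eul ((polygon 1).arcObj k () (1 : Fin 4)) ((polygon 1).arcObj k () (1 : Fin 4)) =
      (Nat.card k : ℚ) := by
    have h := poly_eul k 1 (1 : Fin 4) (1 : Fin 4) (by decide) (by decide)
    rw [h]
    exact if_pos (by decide)
  have h2 : eul ((polygon 1).arcObj k () (2 : Fin 4)) ((polygon 1).arcObj k () (1 : Fin 4)) =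
      1 := by
    have h := poly_eul k 1 (2 : Fin 4) (1 : Fin 4) (by decide) (by decide)
    rw [h]
    exact if_neg (by decide)
  have h3 : eul ((polygon 1).arcObj k () (3 : Fin 4)) ((polygon 1).arcObj k () (1 : Fin 4)) =
      1 := by
    have h := poly_eul k 1 (3 : Fin 4) (1 : Fin 4) (by decide) (by decide)
    rw [h]
    exact if_neg (by decide)
  refine ⟨τ, fun i m => ((alt m (eul ((polygon 1).arcObj k () i)
    ((polygon 1).arcObj k () (1 : Fin 4))) : ℚ) : K), ?_, ?_, ?_, ?_⟩
  · intro i m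
    rw [hτ () i m]
    simp only [eul_shift_left]
  · intro m
    simp only [h2, alt_one, Rat.cast_one]
  · intro m
    simp only [h3, alt_one, Rat.cast_one]
  · simp only [h1]
    simp [alt]

/- PROOF.  `exists_dchar` for `χ X = eul X (arcObj () 2) / eul X (arcObj () 1)`; by `poly_eul`:
`χ (arcObj 1) = |k| / |k| = 1` (`2 = 1 + 1`), `χ (arcObj 2) = |k| / 1`,
`χ (arcObj 3) = 1 / 1`; suspensions by `eul_shift_left` and `alt_one` etc. -/
/-- An endomorphism scaling every arc, fixing the sides `1` and `3`, not fixing the side `2`. -/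
theorem exists_tau2 :
    ∃ (τ : (polygon 1).Comp k K →ₐ[K] (polygon 1).Comp k K) (c : Fin 4 → ℤ → K),
      (∀ (i : Fin 4) (m : ℤ),
        τ ((polygon 1).carc k K () i m) = c i m • (polygon 1).carc k K () i m) ∧
      (∀ m, c 1 m = 1) ∧ (∀ m, c 3 m = 1) ∧ c 2 0 = (Nat.card k : K) := by
  obtain ⟨τ, hτ⟩ := exists_dchar k K (polygon 1)
    (fun X => eul X ((polygon 1).arcObj k () (2 : Fin 4)) /
      eul X ((polygon 1).arcObj k () (1 : Fin 4)))
    (fun X => div_pos (eul_pos _ _) (eul_pos _ _))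
    (fun u v w h => by
      rw [eul_add_left u v w h, eul_add_left u v w h, mul_div_mul_comm])
  have h11 : eul ((polygon 1).arcObj k () (1 : Fin 4)) ((polygon 1).arcObj k () (1 : Fin 4)) =
      (Nat.card k : ℚ) := by
    have h := poly_eul k 1 (1 : Fin 4) (1 : Fin 4) (by decide) (by decide)
    rw [h]
    exact if_pos (by decide)
  have h12 : eul ((polygon 1).arcObj k () (1 : Fin 4)) ((polygon 1).arcObj k () (2 : Fin 4)) =
      (Nat.card k : ℚ) := by
    have h := poly_eul k 1 (1 : Fin 4) (2 : Fin 4) (by decide) (by decide)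
    rw [h]
    exact if_pos (by decide)
  have h21 : eul ((polygon 1).arcObj k () (2 : Fin 4)) ((polygon 1).arcObj k () (1 : Fin 4)) =
      1 := by
    have h := poly_eul k 1 (2 : Fin 4) (1 : Fin 4) (by decide) (by decide)
    rw [h]
    exact if_neg (by decide)
  have h22 : eul ((polygon 1).arcObj k () (2 : Fin 4)) ((polygon 1).arcObj k () (2 : Fin 4)) =
      (Nat.card k : ℚ) := by
    have h := poly_eul k 1 (2 : Fin 4) (2 : Fin 4) (by decide) (by decide)
    rw [h]
    exact if_pos (by decide)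
  have h31 : eul ((polygon 1).arcObj k () (3 : Fin 4)) ((polygon 1).arcObj k () (1 : Fin 4)) =
      1 := by
    have h := poly_eul k 1 (3 : Fin 4) (1 : Fin 4) (by decide) (by decide)
    rw [h]
    exact if_neg (by decide)
  have h32 : eul ((polygon 1).arcObj k () (3 : Fin 4)) ((polygon 1).arcObj k () (2 : Fin 4)) =
      1 := by
    have h := poly_eul k 1 (3 : Fin 4) (2 : Fin 4) (by decide) (by decide)
    rw [h]
    exact if_neg (by decide)
  have hk : (Nat.card k : ℚ) ≠ 0 := by
    exact_mod_cast Nat.card_pos.ne'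
  refine ⟨τ, fun i m => ((alt m (eul ((polygon 1).arcObj k () i)
    ((polygon 1).arcObj k () (2 : Fin 4)) / eul ((polygon 1).arcObj k () i)
    ((polygon 1).arcObj k () (1 : Fin 4))) : ℚ) : K), ?_, ?_, ?_, ?_⟩
  · intro i m
    rw [hτ () i m]
    simp only [eul_shift_left, Tau_alt_mul_div]
  · intro m
    simp only [h11, h12, div_self hk, alt_one, Rat.cast_one]
  · intro m
    simp only [h31, h32, div_one, alt_one, Rat.cast_one]
  · simp only [h21, h22, div_one]
    simp [alt]

end ArcSystem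

end Pool.Agent.NG
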