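import Mathlib
import Pool.Agent.NG.ExGamma
import Pool.Agent.NG.Tau

/-!
# The matrix representation of the naive algebra of the example
-/

open CategoryTheory CategoryTheory.Limits Matrix

namespace Pool.Agent.NG

variable (k : Type) [Field k] [Finite k] (K : Type) [Field K] [CharZero K]

/-- The matrix `[[x, 0], [x - y, y]] = g diag(x, y) g⁻¹`, `g = [[1, 0], [1, 1]]`. -/
def gm {A : Type*} [Ring A] (x y : A) : Matrix (Fin 2) (Fin 2) A := !![x, 0; x - y, y]

/- PROOF.  `(x, y) ↦ !![x, 0; 0, y]` and `(x, y) ↦ !![x, 0; x - y, y]` are algebra homomorphisms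
`A × A → Matrix (Fin 2) (Fin 2) A`; compose with `a ↦ (φ a, φ (τ a))`. -/
theorem exists_diag {A B : Type*} [Ring A] [Algebra K A] [Ring B] [Algebra K B]
    (φ ψ : B →ₐ[K] A) :
    ∃ r : B →ₐ[K] Matrix (Fin 2) (Fin 2) A, ∀ a, r a = !![φ a, 0; 0, ψ a] := by
  refine ⟨{ toFun := fun a => !![φ a, 0; 0, ψ a], map_one' := ?_, map_mul' := ?_,
            map_zero' := ?_, map_add' := ?_, commutes' := ?_ }, fun a => rfl⟩
  · rw [map_one, map_one, Matrix.one_fin_two]
  · intro x y
    rw [map_mul, map_mul, Matrix.mul_fin_two]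
    simp
  · ext i j
    fin_cases i <;> fin_cases j <;> simp
  · intro x y
    ext i j
    fin_cases i <;> fin_cases j <;> simp
  · intro r
    ext i j
    fin_cases i <;> fin_cases j <;> simp [Matrix.algebraMap_matrix_apply]

theorem exists_gm {A B : Type*} [Ring A] [Algebra K A] [Ring B] [Algebra K B]
    (φ ψ : B →ₐ[K] A) :
    ∃ r : B →ₐ[K] Matrix (Fin 2) (Fin 2) A, ∀ a, r a = gm (φ a) (ψ a) := by
  refine ⟨{ toFun := fun a => gm (φ a) (ψ a), map_one' := ?_, map_mul' := ?_,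
            map_zero' := ?_, map_add' := ?_, commutes' := ?_ }, fun a => rfl⟩
  · rw [map_one, map_one, Matrix.one_fin_two, gm, sub_self]
  · intro x y
    rw [map_mul, map_mul, gm, gm, gm, Matrix.mul_fin_two]
    ext i j
    fin_cases i <;> fin_cases j <;> simp
    rw [sub_mul, mul_sub]
    abel
  · ext i j
    fin_cases i <;> fin_cases j <;> simp [gm]
  · intro x y
    ext i j
    fin_cases i <;> fin_cases j <;> simp [gm]
    abel
  · intro r
    ext i j
    fin_cases i <;> fin_cases j <;> simp [gm, Matrix.algebraMap_matrix_apply]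

theorem ExRho_commute {A : Type*} [Ring A] {a b c d : A} (h1 : Commute a c) (h2 : Commute b d) :
    Commute (!![a, 0; 0, b] : Matrix (Fin 2) (Fin 2) A) !![c, 0; 0, d] := by
  change _ * _ = _ * _
  rw [Matrix.mul_fin_two, Matrix.mul_fin_two]
  simp [h1.eq, h2.eq]

/-- the sides whose image is a scalar matrix -/
def ExRho_good (D : Fin 3) (i : Fin 4) : Prop := if D = 2 then i = 1 ∨ i = 3 else i = 2 ∨ i = 3

instance (D : Fin 3) (i : Fin 4) : Decidable (ExRho_good D i) := by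
  unfold ExRho_good
  infer_instance

theorem ExRho_g1 : ∀ (D D' : Fin 3) (i i' : Fin 4), D ≠ D' → exSide D i = exSide D' i' →
    (D ≠ 2 ∧ D' ≠ 2 ∧ i = i') ∨ (ExRho_good D i ∧ ExRho_good D' i') := by
  decide +kernel

theorem ExRho_g3 : ∀ (D D' : Fin 3) (i i' : Fin 4), exFar D D' i i' →
    (D = 2 → D' ≠ 2 ∧ ExRho_good D i) ∧ (D' = 2 → D ≠ 2 ∧ ExRho_good D' i') := by
  decide +kernel

/-- the images of the arcs -/
noncomputable def ExRho_val {A : Type*} [Ring A] [Algebra K A] (c c' : Fin 4 → ℤ → K)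
    (D : Fin 3) (i : Fin 4) (m : ℤ) (E : A) : Matrix (Fin 2) (Fin 2) A :=
  if D = 2 then gm E (c' i m • E) else !![E, 0; 0, c i m • E]

theorem ExRho_val_good {A : Type*} [Ring A] [Algebra K A] {c c' : Fin 4 → ℤ → K}
    (h2 : ∀ m, c 2 m = 1) (h3 : ∀ m, c 3 m = 1) (h1' : ∀ m, c' 1 m = 1) (h3' : ∀ m, c' 3 m = 1)
    {D : Fin 3} {i : Fin 4} (hg : ExRho_good D i) (m : ℤ) (E : A) :
    ExRho_val K c c' D i m E = !![E, 0; 0, E] := by
  unfold ExRho_good at hg
  unfold ExRho_val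
  split_ifs at hg ⊢ with h
  · rcases hg with rfl | rfl
    · rw [h1', one_smul, gm, sub_self]
    · rw [h3', one_smul, gm, sub_self]
  · rcases hg with rfl | rfl
    · rw [h2, one_smul]
    · rw [h3, one_smul]

/- PROOF.  Let `φ D : DComp D → Comp` be the homomorphisms of `ex.exists_disk_hom`, `τ, c` from
`exists_tau01`, `τ', c'` from `exists_tau2` (`ex.n D = 1` for all `D`, so
`ex.DComp k K D = (polygon 1).Comp k K` and `darc D i m = (polygon 1).carc () i m`, by
definition).  Define `ψ 0`, `ψ 1` by `exists_diag` with `(φ D, φ D ∘ τ)` and `ψ 2` by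
`exists_gm` with `(φ 2, φ 2 ∘ τ')`, and apply `ex.exists_naive_hom`.  Write
`E = ex.carc k K D i m`, `E' = ex.carc k K D' i' m'`.
(h1), `D ≠ D'`, `side D i = side D' i'`: then `E = E'` (`carc_eq_of_side_eq`, same `m`), and the
possibilities are (up to symmetry) `(0,1)-(1,1)` and `(0,3)-(1,3)` (both values are
`diag(E, c i m E)`), `(0,2)-(2,1)` (`c 2 m = 1`, `c' 1 m = 1`: both values are `diag(E, E)`),
`(1,2)-(2,3)` (`c 2 m = 1`, `c' 3 m = 1`).
(h3), `exFar D D' i i'` (`ex_far_iff`): `E` and `E'` commute (`ex_carc_comm`).  If `D, D' ≠ 2` both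
matrices are diagonal with entries multiples of `E`, `E'`.  If `D' = 2` then `i' ∈ {1, 3}`
(decide), `c' i' m' = 1`, so the value at `D'` is `diag(E', E')` and the value at `D` is
`diag(E, c i m E)`; symmetric if `D = 2`. -/
theorem ex_exists_rho :
    ∃ ρ : ex.Naive k K →ₐ[K] Matrix (Fin 2) (Fin 2) (ex.Comp k K),
      ρ (ex.narc k K (0 : Fin 3) (1 : Fin 4) 0) =
        !![ex.carc k K (0 : Fin 3) (1 : Fin 4) 0, 0;
          0, (Nat.card k : K) • ex.carc k K (0 : Fin 3) (1 : Fin 4) 0] ∧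
      ρ (ex.narc k K (2 : Fin 3) (2 : Fin 4) 0) =
        !![ex.carc k K (2 : Fin 3) (2 : Fin 4) 0, 0;
          (1 - (Nat.card k : K)) • ex.carc k K (2 : Fin 3) (2 : Fin 4) 0,
          (Nat.card k : K) • ex.carc k K (2 : Fin 3) (2 : Fin 4) 0] := by
  obtain ⟨τ, c, hτ, h2, h3, h10⟩ := ArcSystem.exists_tau01 k K
  obtain ⟨τ', c', hτ', h1', h3', h20⟩ := ArcSystem.exists_tau2 k K
  have hφ : ∀ D : Fin 3, ∃ φ : (polygon 1).Comp k K →ₐ[K] ex.Comp k K,
      ∀ (i : Fin 4) (m : ℤ), φ ((polygon 1).carc k K () i m) =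
        ex.carc k K (D : ex.Disk) (i : Fin 4) m := fun D => ex.exists_disk_hom k K D
  choose φ hφ using hφ
  have hψ : ∀ D : Fin 3, ∃ ψ : (polygon 1).Comp k K →ₐ[K] Matrix (Fin 2) (Fin 2) (ex.Comp k K),
      ∀ (i : Fin 4) (m : ℤ), ψ ((polygon 1).carc k K () i m) =
        ExRho_val K c c' D i m (ex.carc k K (D : ex.Disk) (i : Fin 4) m) := by
    intro D
    by_cases h : D = 2
    · obtain ⟨r, hr⟩ := exists_gm K (φ D) ((φ D).comp τ')
      refine ⟨r, fun i m => ?_⟩
      rw [hr, ExRho_val, if_pos h, AlgHom.comp_apply, hτ', map_smul, hφ]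
    · obtain ⟨r, hr⟩ := exists_diag K (φ D) ((φ D).comp τ)
      refine ⟨r, fun i m => ?_⟩
      rw [hr, ExRho_val, if_neg h, AlgHom.comp_apply, hτ, map_smul, hφ]
  choose ψ hψ using hψ
  obtain ⟨ρ, hρ⟩ := ex.exists_naive_hom k K (B := Matrix (Fin 2) (Fin 2) (ex.Comp k K))
    (fun D => ψ D) (by
      intro D D' i i' m hD hs
      change ψ D ((polygon 1).carc k K () i m) = ψ D' ((polygon 1).carc k K () i' m)
      rw [hψ, hψ]
      have hE := ex.carc_eq_of_side_eq k K D D' i i' m hD hs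
      rcases ExRho_g1 D D' i i' hD hs with ⟨hD2, hD2', hii⟩ | ⟨hg, hg'⟩
      · unfold ExRho_val
        rw [if_neg hD2, if_neg hD2', hE]
        subst hii
        rfl
      · rw [ExRho_val_good K h2 h3 h1' h3' hg, ExRho_val_good K h2 h3 h1' h3' hg', hE]) (by
      intro D D' i i' m m' hD hs
      change Commute (ψ D ((polygon 1).carc k K () i m)) (ψ D' ((polygon 1).carc k K () i' m'))
      rw [hψ, hψ]
      have hfar : exFar D D' i i' := (ex_far_iff D D' i i').1 ⟨hD, hs⟩
      have hc := ex_carc_comm k K D D' i i' m m' hfar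
      obtain ⟨ha, hb⟩ := ExRho_g3 D D' i i' hfar
      by_cases hD2 : @Eq (Fin 3) D 2
      · obtain ⟨h4, h5⟩ := ha hD2
        rw [ExRho_val_good K h2 h3 h1' h3' h5, ExRho_val, if_neg h4]
        exact ExRho_commute hc (hc.smul_right _)
      · by_cases hD2' : @Eq (Fin 3) D' 2
        · obtain ⟨h4, h5⟩ := hb hD2'
          rw [ExRho_val_good K h2 h3 h1' h3' h5, ExRho_val, if_neg h4]
          exact ExRho_commute hc (hc.smul_left _)
        · rw [ExRho_val, if_neg hD2, ExRho_val, if_neg hD2']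
          exact ExRho_commute hc ((hc.smul_left _).smul_right _))
  refine ⟨ρ, ?_, ?_⟩
  · refine (hρ (0 : Fin 3) (1 : Fin 4) 0).trans ?_
    refine (hψ 0 1 0).trans ?_
    rw [ExRho_val, if_neg (by decide), h10]
  · refine (hρ (2 : Fin 3) (2 : Fin 4) 0).trans ?_
    refine (hψ 2 2 0).trans ?_
    rw [ExRho_val, if_pos rfl, h20, gm, sub_smul, one_smul]

end Pool.Agent.NG
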