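import Mathlib
import Pool.Agent.NG.ExRho

/-!
# The naive gluing conjecture is false
-/

namespace Pool.Agent.NG

/-- If `x y = a y x ≠ 0` and `q ≠ 1`, the two matrices do not satisfy the same relation. -/
theorem matrix_noncomm {K A : Type*} [Field K] [Ring A] [Algebra K A] (x y : A) (q a : K)
    (hq : q ≠ 1) (h : x * y = a • (y * x)) (h0 : x * y ≠ 0) :
    (!![x, 0; 0, q • x] : Matrix (Fin 2) (Fin 2) A) * !![y, 0; (1 - q) • y, q • y] ≠
      a • ((!![y, 0; (1 - q) • y, q • y] : Matrix (Fin 2) (Fin 2) A) * !![x, 0; 0, q • x]) := by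
  intro h1
  have h2 := congrFun (congrFun h1 1) 0
  have h3 : (q • x) * ((1 - q) • y) = a • (((1 - q) • y) * x) := by
    simpa [Matrix.mul_apply, Fin.sum_univ_two] using h2
  rw [smul_mul_smul_comm, smul_mul_assoc, smul_comm a, ← h, mul_comm q, mul_smul] at h3
  have h4 : (1 - q) • ((q - 1) • (x * y)) = 0 := by
    rw [sub_smul q 1, one_smul, smul_sub, h3, sub_self]
  have h5 : (q - 1) • (x * y) = 0 := by
    rcases smul_eq_zero.1 h4 with h | h
    · exact absurd (sub_eq_zero.1 h).symm hq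
    · exact h
  rcases smul_eq_zero.1 h5 with h | h
  · exact hq (sub_eq_zero.1 h)
  · exact h0 h

theorem main : ∃ S : ArcSystem, ∀ (k : Type) [Field k] [Finite k] (K : Type) [Field K]
    [CharZero K], ∃ γ : S.Naive k K →ₐ[K] S.CompT k K,
      (∀ D i m, γ (S.narc k K D i m) = S.carc k K D i m) ∧ Function.Surjective γ ∧
        ¬ Function.Injective γ := by
  refine ⟨ex, fun k _ _ K _ _ => ?_⟩
  obtain ⟨γ, h1, h2⟩ := ex_exists_gamma k K
  refine ⟨γ, h1, h2, fun hinj => ?_⟩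
  obtain ⟨ρ, hx, hy⟩ := ex_exists_rho k K
  obtain ⟨a, ha⟩ := ex_skew k K
  have h0 := ex_mul_ne_zero k K
  have hq : (Nat.card k : K) ≠ 1 := by
    have : 1 < Nat.card k := Finite.one_lt_card
    exact_mod_cast this.ne'
  have key : ex.narc k K (0 : Fin 3) (1 : Fin 4) 0 * ex.narc k K (2 : Fin 3) (2 : Fin 4) 0 =
      a • (ex.narc k K (2 : Fin 3) (2 : Fin 4) 0 * ex.narc k K (0 : Fin 3) (1 : Fin 4) 0) := by
    apply hinj
    rw [map_mul, map_smul, map_mul]
    have e1 := h1 (0 : Fin 3) (1 : Fin 4) 0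
    have e2 := h1 (2 : Fin 3) (2 : Fin 4) 0
    rw [e1, e2]
    exact ha
  have key2 := congrArg ρ key
  rw [map_mul, map_smul, map_mul, hx, hy] at key2
  exact matrix_noncomm _ _ _ a hq ha h0 key2

end Pool.Agent.NG
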